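import Mathlib

/-! MW-Bilin: the bilinear estimate for the quadratic character of `ab - n`. -/

namespace MW

private theorem bilin_char (p : ℕ) [Fact p.Prime] (hp2 : p ≠ 2) (c d : ZMod p) (hd : d ≠ 0) :
    ∑ s : ZMod p, quadraticChar (ZMod p) (c * s + d) * quadraticChar (ZMod p) s =
      -quadraticChar (ZMod p) c := by
  have hF : ringChar (ZMod p) ≠ 2 := by
    rw [ZMod.ringChar_zmod_n]
    exact hp2
  obtain ⟨F, hFd⟩ : ∃ F : ZMod p → ℤ, F = fun r =>
    if r = 0 then 0 else quadraticChar (ZMod p) (c + d * r) := ⟨_, rfl⟩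
  have h1 : ∀ s : ZMod p, quadraticChar (ZMod p) (c * s + d) * quadraticChar (ZMod p) s =
      F s⁻¹ := by
    intro s
    rw [hFd]
    by_cases hs : s = 0
    · subst hs
      simp
    · have hs' : s⁻¹ ≠ 0 := inv_ne_zero hs
      simp only [if_neg hs']
      have h2 : quadraticChar (ZMod p) s = quadraticChar (ZMod p) s⁻¹ := by
        have h3 : quadraticChar (ZMod p) s * quadraticChar (ZMod p) s⁻¹ = 1 := by
          rw [← map_mul, mul_inv_cancel₀ hs, map_one]
        rcases quadraticChar_dichotomy hs with h4 | h4 <;> rw [h4] at h3 <;> linarith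
      rw [h2, ← map_mul, add_mul, mul_assoc, mul_inv_cancel₀ hs, mul_one]
  have h2 : ∑ s : ZMod p, F s⁻¹ = ∑ s : ZMod p, F s :=
    Equiv.sum_comp (Equiv.inv (ZMod p)) F
  have h3 : ∑ s : ZMod p, F s + quadraticChar (ZMod p) c =
      ∑ s : ZMod p, quadraticChar (ZMod p) (c + d * s) := by
    rw [← Finset.add_sum_erase Finset.univ F (Finset.mem_univ 0),
      ← Finset.add_sum_erase Finset.univ (fun s => quadraticChar (ZMod p) (c + d * s))
        (Finset.mem_univ 0)]
    have h4 : ∑ s ∈ Finset.univ.erase (0 : ZMod p), F s =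
        ∑ s ∈ Finset.univ.erase (0 : ZMod p), quadraticChar (ZMod p) (c + d * s) := by
      refine Finset.sum_congr rfl fun s hs => ?_
      rw [hFd]
      simp only [if_neg (Finset.ne_of_mem_erase hs)]
    rw [h4, hFd]
    simp only [if_true, mul_zero, add_zero]
    ring
  have h4 : ∑ s : ZMod p, quadraticChar (ZMod p) (c + d * s) = 0 := by
    have h5 : ∑ s : ZMod p, quadraticChar (ZMod p) (c + d * s) =
        ∑ t : ZMod p, quadraticChar (ZMod p) t :=
      ((Equiv.mulLeft₀ d hd).trans (Equiv.addLeft c)).sum_comp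
        (fun t => quadraticChar (ZMod p) t)
    rw [h5]
    exact quadraticChar_sum_zero hF
  rw [Finset.sum_congr rfl fun s _ => h1 s, h2]
  linarith

private theorem bilin_pair (p : ℕ) [Fact p.Prime] (hp2 : p ≠ 2) (n b b' : ZMod p) (hn : n ≠ 0)
    (hb' : b' ≠ 0) (hbb : b ≠ b') :
    ∑ a : ZMod p, quadraticChar (ZMod p) (a * b - n) * quadraticChar (ZMod p) (a * b' - n) =
      -quadraticChar (ZMod p) (b / b') := by
  have hd : n * (b / b' - 1) ≠ 0 := by
    refine mul_ne_zero hn ?_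
    rw [sub_ne_zero]
    intro h
    rw [div_eq_one_iff_eq hb'] at h
    exact hbb h
  rw [← bilin_char p hp2 (b / b') (n * (b / b' - 1)) hd]
  rw [← ((Equiv.mulLeft₀ b' hb').trans (Equiv.subRight n)).sum_comp
    (fun s => quadraticChar (ZMod p) (b / b' * s + n * (b / b' - 1)) * quadraticChar (ZMod p) s)]
  refine Finset.sum_congr rfl fun a _ => ?_
  have e1 : ((Equiv.mulLeft₀ b' hb').trans (Equiv.subRight n)) a = b' * a - n := rfl
  rw [e1]
  congr 2
  · field_simp
    ring
  · ring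

theorem bilin (p : ℕ) [Fact p.Prime] (hp2 : p ≠ 2) (n : ZMod p) (hn : n ≠ 0)
    (A B : Finset (ZMod p)) (hA : ∀ a ∈ A, a ≠ 0) (hB : ∀ b ∈ B, b ≠ 0)
    (h : ∀ a ∈ A, ∀ b ∈ B, ¬ IsSquare (a * b - n)) : A.card * B.card ≤ 2 * p := by
  classical
  rcases B.eq_empty_or_nonempty with hB0 | hB0
  · rw [hB0]
    simp
  have hBpos : 0 < B.card := hB0.card_pos
  have hBp : B.card ≤ p := by
    have := Finset.card_le_univ B
    rwa [ZMod.card] at this
  have h1 : ∀ a ∈ A, ∑ b ∈ B, quadraticChar (ZMod p) (a * b - n) = -(B.card : ℤ) := by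
    intro a ha
    rw [Finset.sum_congr rfl fun b hb => quadraticChar_neg_one_iff_not_isSquare.2 (h a ha b hb)]
    simp
  have h2 : (A.card : ℤ) * (B.card : ℤ) ^ 2 ≤
      ∑ a : ZMod p, (∑ b ∈ B, quadraticChar (ZMod p) (a * b - n)) ^ 2 := by
    calc (A.card : ℤ) * (B.card : ℤ) ^ 2 =
        ∑ a ∈ A, (∑ b ∈ B, quadraticChar (ZMod p) (a * b - n)) ^ 2 := by
          rw [Finset.sum_congr rfl fun a ha => by rw [h1 a ha, neg_sq], Finset.sum_const,
            nsmul_eq_mul]
      _ ≤ _ := Finset.sum_le_sum_of_subset_of_nonneg (Finset.subset_univ A)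
          fun a _ _ => sq_nonneg _
  have h3 : ∑ a : ZMod p, (∑ b ∈ B, quadraticChar (ZMod p) (a * b - n)) ^ 2 =
      ∑ b ∈ B, ∑ b' ∈ B, ∑ a : ZMod p,
        quadraticChar (ZMod p) (a * b - n) * quadraticChar (ZMod p) (a * b' - n) := by
    rw [Finset.sum_congr rfl fun a _ => by rw [sq, Finset.sum_mul_sum], Finset.sum_comm]
    refine Finset.sum_congr rfl fun b _ => ?_
    rw [Finset.sum_comm]
  have h4 : ∀ b ∈ B, ∀ b' ∈ B, ∑ a : ZMod p,
      quadraticChar (ZMod p) (a * b - n) * quadraticChar (ZMod p) (a * b' - n) ≤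
        (if b = b' then (p : ℤ) else 0) + 1 := by
    intro b _ b' hb'
    by_cases hbb : b = b'
    · subst hbb
      rw [if_pos rfl]
      calc ∑ a : ZMod p, quadraticChar (ZMod p) (a * b - n) * quadraticChar (ZMod p) (a * b - n)
          ≤ ∑ _a : ZMod p, (1 : ℤ) := by
            refine Finset.sum_le_sum fun a _ => ?_
            by_cases h0 : a * b - n = 0
            · rw [h0]; simp
            · rcases quadraticChar_dichotomy h0 with h5 | h5 <;> rw [h5] <;> norm_num
        _ = p := by simp [ZMod.card]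
        _ ≤ p + 1 := by linarith
    · rw [if_neg hbb, bilin_pair p hp2 n b b' hn (hB b' hb') hbb, zero_add]
      by_cases h0 : b / b' = 0
      · rw [h0]; simp
      · rcases quadraticChar_dichotomy h0 with h5 | h5 <;> rw [h5] <;> norm_num
  have h5 : ∑ b ∈ B, ∑ b' ∈ B, ((if b = b' then (p : ℤ) else 0) + 1) =
      B.card * p + (B.card : ℤ) ^ 2 := by
    simp only [Finset.sum_add_distrib, Finset.sum_ite_eq, Finset.sum_const, nsmul_eq_mul, mul_one]
    rw [Finset.sum_congr rfl fun b hb => if_pos hb, Finset.sum_const, nsmul_eq_mul]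
    ring
  have h6 : (A.card : ℤ) * (B.card : ℤ) ^ 2 ≤ B.card * p + (B.card : ℤ) ^ 2 := by
    rw [← h5]
    refine h2.trans ?_
    rw [h3]
    exact Finset.sum_le_sum fun b hb => Finset.sum_le_sum fun b' hb' => h4 b hb b' hb'
  have h7 : (B.card : ℤ) * ((A.card : ℤ) * B.card) ≤ B.card * (p + B.card) := by nlinarith
  have h8 : (A.card : ℤ) * B.card ≤ p + B.card :=
    le_of_mul_le_mul_left h7 (by exact_mod_cast hBpos)
  have h9 : (B.card : ℤ) ≤ p := by exact_mod_cast hBp
  have h10 : (A.card : ℤ) * B.card ≤ 2 * p := by linarith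
  exact_mod_cast h10

end MW
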