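import Pool.Agent.Lib.MP_a542cf_al.Defs

/-! MW-ConjTriple: irreducible pairs with the same traces are conjugate. -/

namespace MW

open Matrix

private lemma ct_basis {F : Type*} [Field F] (A B : Matrix (Fin 2) (Fin 2) F)
    (hA : A.det = 1) (hB : B.det = 1)
    (hκ : A.trace ^ 2 + B.trace ^ 2 + (A * B).trace ^ 2 -
      A.trace * B.trace * (A * B).trace ≠ 4) :
    ∃ b : Module.Basis (Fin 4) F (Matrix (Fin 2) (Fin 2) F),
      b 0 = 1 ∧ b 1 = A ∧ b 2 = B ∧ b 3 = A * B := by
  obtain ⟨D, hD⟩ : ∃ D : Matrix (Fin 4) (Fin 4) F,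
    D = !![1, A 0 0, B 0 0, A 0 0 * B 0 0 + A 0 1 * B 1 0;
           0, A 0 1, B 0 1, A 0 0 * B 0 1 + A 0 1 * B 1 1;
           0, A 1 0, B 1 0, A 1 0 * B 0 0 + A 1 1 * B 1 0;
           1, A 1 1, B 1 1, A 1 0 * B 0 1 + A 1 1 * B 1 1] := ⟨_, rfl⟩
  have hdet : D.det ≠ 0 := by
    intro h
    apply hκ
    rw [det_fin_two] at hA hB
    rw [trace_fin_two, trace_fin_two, trace_fin_two]
    simp only [Matrix.mul_apply, Fin.sum_univ_two]
    rw [hD, det_succ_row_zero] at h
    simp [Fin.sum_univ_succ, det_fin_three, Fin.succAbove] at h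
    linear_combination -h + (4 * (B 0 0 * B 1 1 - B 0 1 * B 1 0) - (B 0 0 + B 1 1) ^ 2) * hA +
      (4 - (A 0 0 + A 1 1) ^ 2) * hB
  have hli : LinearIndependent F ![(1 : Matrix (Fin 2) (Fin 2) F), A, B, A * B] := by
    rw [Fintype.linearIndependent_iff]
    intro g hg
    have h1 : D *ᵥ g = 0 := by
      simp only [Fin.sum_univ_four] at hg
      have e := fun i j => congrFun (congrFun hg i) j
      have e00 := e 0 0
      have e01 := e 0 1
      have e10 := e 1 0
      have e11 := e 1 1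
      simp [Matrix.mul_apply, Fin.sum_univ_two] at e00 e01 e10 e11
      rw [hD]
      ext i
      fin_cases i <;> simp [Matrix.mulVec, dotProduct, Fin.sum_univ_four]
      · linear_combination e00
      · linear_combination e01
      · linear_combination e10
      · linear_combination e11
    have h2 := Matrix.eq_zero_of_mulVec_eq_zero hdet h1
    intro i
    rw [h2]
    rfl
  have hcard : Fintype.card (Fin 4) = Module.finrank F (Matrix (Fin 2) (Fin 2) F) := by
    rw [Module.finrank_matrix]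
    simp
  refine ⟨basisOfLinearIndependentOfCardEqFinrank hli hcard, ?_, ?_, ?_, ?_⟩ <;> simp

private lemma ct_ch {F : Type*} [Field F] (A : Matrix (Fin 2) (Fin 2) F) (hA : A.det = 1) :
    A * A = A.trace • A - 1 := by
  rw [det_fin_two] at hA
  ext i j
  fin_cases i <;> fin_cases j <;>
    simp [Matrix.mul_apply, Fin.sum_univ_two, trace_fin_two]
  · linear_combination -hA
  · ring
  · ring
  · linear_combination -hA

private lemma ct_ba {F : Type*} [Field F] (A B : Matrix (Fin 2) (Fin 2) F) :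
    B * A = A.trace • B + B.trace • A + ((A * B).trace - A.trace * B.trace) •
      (1 : Matrix (Fin 2) (Fin 2) F) - A * B := by
  ext i j
  fin_cases i <;> fin_cases j <;>
    simp [Matrix.mul_apply, Fin.sum_univ_two, trace_fin_two] <;> ring

private lemma ct_bab {F : Type*} [Field F] (A B : Matrix (Fin 2) (Fin 2) F) (hB : B.det = 1) :
    B * (A * B) = A - A.trace • (1 : Matrix (Fin 2) (Fin 2) F) + (A * B).trace • B := by
  rw [det_fin_two] at hB
  ext i j
  fin_cases i <;> fin_cases j <;>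
    simp [Matrix.mul_apply, Fin.sum_univ_two, trace_fin_two]
  · linear_combination (- A 1 1) * hB
  · linear_combination (A 0 1) * hB
  · linear_combination (A 1 0) * hB
  · linear_combination (- A 0 0) * hB

private lemma ct_main {F : Type*} [Field F] (A B A' B' : Matrix (Fin 2) (Fin 2) F)
    (hA : A.det = 1) (hB : B.det = 1) (hA' : A'.det = 1) (hB' : B'.det = 1)
    (hκ : A.trace ^ 2 + B.trace ^ 2 + (A * B).trace ^ 2 -
      A.trace * B.trace * (A * B).trace ≠ 4)
    (h1 : A.trace = A'.trace) (h2 : B.trace = B'.trace)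
    (h3 : (A * B).trace = (A' * B').trace) :
    ∃ X : Matrix (Fin 2) (Fin 2) F, X.det ≠ 0 ∧ X * A = A' * X ∧ X * B = B' * X := by
  obtain ⟨b, b0, b1, b2, b3⟩ := ct_basis A B hA hB hκ
  obtain ⟨b', b0', b1', b2', b3'⟩ := ct_basis A' B' hA' hB' (by rwa [← h1, ← h2, ← h3])
  let T : Matrix (Fin 2) (Fin 2) F ≃ₗ[F] Matrix (Fin 2) (Fin 2) F := b.equiv b' (Equiv.refl _)
  have t0 : T 1 = 1 := by
    rw [← b0]
    change b.equiv b' (Equiv.refl _) (b 0) = _
    rw [Module.Basis.equiv_apply, Equiv.refl_apply, b0', b0]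
  have t1 : T A = A' := by
    rw [← b1]
    change b.equiv b' (Equiv.refl _) (b 1) = _
    rw [Module.Basis.equiv_apply, Equiv.refl_apply, b1']
  have t2 : T B = B' := by
    rw [← b2]
    change b.equiv b' (Equiv.refl _) (b 2) = _
    rw [Module.Basis.equiv_apply, Equiv.refl_apply, b2']
  have t3 : T (A * B) = A' * B' := by
    rw [← b3]
    change b.equiv b' (Equiv.refl _) (b 3) = _
    rw [Module.Basis.equiv_apply, Equiv.refl_apply, b3']
  have hTA : ∀ m, T (A * m) = A' * T m := by
    have e : T.toLinearMap ∘ₗ (LinearMap.mulLeft F A) =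
        (LinearMap.mulLeft F A') ∘ₗ T.toLinearMap := by
      apply b.ext
      intro i
      change T (A * b i) = A' * T (b i)
      fin_cases i
      · change T (A * b 0) = A' * T (b 0)
        rw [b0, mul_one, t0, mul_one, t1]
      · change T (A * b 1) = A' * T (b 1)
        rw [b1, ct_ch A hA, map_sub, map_smul, t1, t0, ct_ch A' hA', h1]
      · change T (A * b 2) = A' * T (b 2)
        rw [b2, t3, t2]
      · change T (A * b 3) = A' * T (b 3)
        rw [b3, ← mul_assoc, ct_ch A hA, sub_mul, smul_mul_assoc, one_mul, map_sub, map_smul, t3,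
          t2, ← mul_assoc A' A' B', ct_ch A' hA', sub_mul, smul_mul_assoc, one_mul, h1]
    intro m
    exact LinearMap.congr_fun e m
  have hTB : ∀ m, T (B * m) = B' * T m := by
    have e : T.toLinearMap ∘ₗ (LinearMap.mulLeft F B) =
        (LinearMap.mulLeft F B') ∘ₗ T.toLinearMap := by
      apply b.ext
      intro i
      change T (B * b i) = B' * T (b i)
      fin_cases i
      · change T (B * b 0) = B' * T (b 0)
        rw [b0, mul_one, t0, mul_one, t2]
      · change T (B * b 1) = B' * T (b 1)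
        rw [b1, ct_ba A B, map_sub, map_add, map_add, map_smul, map_smul, map_smul, t1, t2, t3, t0,
          ct_ba A' B', h1, h2, h3]
      · change T (B * b 2) = B' * T (b 2)
        rw [b2, ct_ch B hB, map_sub, map_smul, t2, t0, ct_ch B' hB', h2]
      · change T (B * b 3) = B' * T (b 3)
        rw [b3, ct_bab A B hB, map_add, map_sub, map_smul, map_smul, t1, t0, t2, t3,
          ct_bab A' B' hB', h1, h3]
    intro m
    exact LinearMap.congr_fun e m
  -- the two candidates
  let Y : Fin 2 → Matrix (Fin 2) (Fin 2) F := fun s =>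
    Matrix.of fun i j => T (Matrix.single j 0 1) i s
  have hcol : ∀ (C C' : Matrix (Fin 2) (Fin 2) F), (∀ m, T (C * m) = C' * T m) →
      ∀ s, Y s * C = C' * Y s := by
    intro C C' hC s
    ext i j
    have e1 : C * Matrix.single j 0 1 = ∑ l, C l j • Matrix.single l (0 : Fin 2) (1 : F) := by
      ext a c
      rw [Matrix.sum_apply]
      fin_cases j <;> fin_cases a <;> fin_cases c <;>
        simp [Matrix.mul_apply, Fin.sum_univ_two, Matrix.single]
    have e2 := hC (Matrix.single j 0 1)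
    rw [e1, map_sum] at e2
    have e3 := congrFun (congrFun e2 i) s
    rw [Matrix.sum_apply] at e3
    simp only [map_smul, Matrix.smul_apply, smul_eq_mul] at e3
    rw [Matrix.mul_apply] at e3 ⊢
    rw [Matrix.mul_apply]
    change ∑ l, T (Matrix.single l 0 1) i s * C l j = ∑ l, C' i l * T (Matrix.single j 0 1) l s
    rw [← e3]
    exact Finset.sum_congr rfl fun l _ => mul_comm _ _
  have hne : ∃ s, Y s ≠ 0 := by
    by_contra hcon
    push Not at hcon
    have e1 : T (Matrix.single 0 0 1) = 0 := by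
      ext i s
      exact congrFun (congrFun (hcon s) i) 0
    have e2 : (Matrix.single 0 0 1 : Matrix (Fin 2) (Fin 2) F) = 0 := by
      rw [← T.map_eq_zero_iff]
      exact e1
    have e3 := congrFun (congrFun e2 0) 0
    simp at e3
  obtain ⟨s, hs⟩ := hne
  have hXA := hcol A A' hTA s
  have hXB := hcol B B' hTB s
  refine ⟨Y s, ?_, hXA, hXB⟩
  intro hdet
  obtain ⟨v, hv0, hv⟩ := Matrix.exists_mulVec_eq_zero_iff.2 hdet
  have hall : ∀ m : Matrix (Fin 2) (Fin 2) F, ∃ m', Y s * m = m' * Y s := by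
    intro m
    have e1 := b.sum_repr m
    rw [Fin.sum_univ_four, b0, b1, b2, b3] at e1
    refine ⟨b.repr m 0 • 1 + b.repr m 1 • A' + b.repr m 2 • B' + b.repr m 3 • (A' * B'), ?_⟩
    conv_lhs => rw [← e1]
    rw [mul_add, mul_add, mul_add, add_mul, add_mul, add_mul, mul_smul_comm, mul_smul_comm,
      mul_smul_comm, mul_smul_comm, smul_mul_assoc, smul_mul_assoc, smul_mul_assoc,
      smul_mul_assoc, mul_one, one_mul, hXA, hXB, ← mul_assoc (Y s) A B, hXA, mul_assoc A' (Y s) B,
      hXB, mul_assoc A' B' (Y s)]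
  obtain ⟨i, hi⟩ := Function.ne_iff.1 hv0
  have hi' : v i ≠ 0 := hi
  apply hs
  ext a c
  obtain ⟨m', hm'⟩ := hall (Matrix.single c i (v i)⁻¹)
  have e2 : Y s *ᵥ ((Matrix.single c i (v i)⁻¹ : Matrix (Fin 2) (Fin 2) F) *ᵥ v) = 0 := by
    rw [Matrix.mulVec_mulVec, hm', ← Matrix.mulVec_mulVec, hv, Matrix.mulVec_zero]
  have e3 : (Matrix.single c i (v i)⁻¹ : Matrix (Fin 2) (Fin 2) F) *ᵥ v = Pi.single c 1 := by
    ext l
    rw [Matrix.mulVec, dotProduct]
    by_cases hl : l = c
    · subst hl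
      rw [Finset.sum_eq_single i]
      · simp [hi']
      · intro t _ ht
        simp [Matrix.single, ht.symm]
      · simp
    · rw [Pi.single_eq_of_ne hl]
      apply Finset.sum_eq_zero
      intro t _
      simp [Matrix.single, Ne.symm hl]
  rw [e3, Matrix.mulVec_single_one] at e2
  exact congrFun e2 a

theorem conjTriple {F : Type*} [Field F] (h2 : (2 : F) ≠ 0) (κ : F) (hκ : κ ≠ 4)
    (P Q : SL2 F × SL2 F) (hP : OnX κ (triple P)) (hPQ : triple P = triple Q) :
    ∃ X : Matrix (Fin 2) (Fin 2) F, X.det ≠ 0 ∧ ConjBy X P Q := by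
  obtain ⟨A, B⟩ := P
  obtain ⟨A', B'⟩ := Q
  have e1 : A.1.trace = A'.1.trace := congrArg (fun t => t.1) hPQ
  have e2 : B.1.trace = B'.1.trace := congrArg (fun t => t.2.1) hPQ
  have e3 : (A.1 * B.1).trace = (A'.1 * B'.1).trace := congrArg (fun t => t.2.2) hPQ
  have e4 : A.1.trace ^ 2 + B.1.trace ^ 2 + (A.1 * B.1).trace ^ 2 -
      A.1.trace * B.1.trace * (A.1 * B.1).trace = κ := hP
  obtain ⟨X, hX, hXA, hXB⟩ := ct_main A.1 B.1 A'.1 B'.1 A.2 B.2 A'.2 B'.2
    (by rw [e4]; exact hκ) e1 e2 e3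
  exact ⟨X, hX, hXA, hXB⟩

end MW
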