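import Pool.Agent.Lib.MP_a542cf_al.Defs

/-! MW-Ord: orders of the eigenvalue of a trace `x` in `F_p`. -/

namespace MW

section
variable (p : ℕ) [Fact p.Prime] (K : Type) [Field K] [Fintype K] [Algebra (ZMod p) K]

private theorem ord_frob (x : ZMod p) : (algebraMap (ZMod p) K x) ^ p = algebraMap (ZMod p) K x := by
  rw [← map_pow, ZMod.pow_card]

theorem ord_type {x : ZMod p} {w : K} (hw : w ≠ 0) (h : w + w⁻¹ = algebraMap (ZMod p) K x) :
    w ^ (p - 1) = 1 ∨ w ^ (p + 1) = 1 := by
  have hp : p.Prime := Fact.out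
  have hchar : CharP K p := charP_of_injective_algebraMap (algebraMap (ZMod p) K).injective p
  have h1 : (w + w⁻¹) ^ p = w + w⁻¹ := by rw [h, ord_frob]
  rw [add_pow_char, inv_pow] at h1
  have hwp : w ^ p ≠ 0 := pow_ne_zero _ hw
  have h2 : (w ^ p - w) * (w ^ p * w - 1) = 0 := by
    field_simp at h1
    linear_combination h1
  rcases mul_eq_zero.mp h2 with h3 | h3
  · left
    have h4 : w ^ (p - 1) * w = 1 * w := by
      rw [← pow_succ, Nat.sub_add_cancel hp.one_le, one_mul]
      exact sub_eq_zero.mp h3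
    exact mul_right_cancel₀ hw h4
  · right
    rw [pow_succ]
    exact sub_eq_zero.mp h3

theorem hasOrd_exists (hp2 : p ≠ 2) (hK : Fintype.card K = p ^ 2) (x : ZMod p) :
    ∃ t, HasOrd K x t := by
  have hp : p.Prime := Fact.out
  have hchar : CharP K p := charP_of_injective_algebraMap (algebraMap (ZMod p) K).injective p
  have hring : ringChar K = p := ringChar.eq K p ▸ rfl
  have hodd : p % 2 = 1 := hp.eq_two_or_odd.resolve_left hp2
  have h2 : (2 : K) ≠ 0 := by
    intro h
    have h3 : ((2 : ℕ) : K) = 0 := by exact_mod_cast h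
    rw [CharP.cast_eq_zero_iff K p 2] at h3
    exact hp2 ((Nat.prime_dvd_prime_iff_eq hp Nat.prime_two).mp h3)
  set X : K := algebraMap (ZMod p) K x with hX
  obtain ⟨s, hs⟩ : ∃ s : K, s * s = X ^ 2 - 4 := by
    by_cases hD : X ^ 2 - 4 = 0
    · exact ⟨0, by rw [hD, mul_zero]⟩
    · have h3 : IsSquare (X ^ 2 - 4) := by
        rw [FiniteField.isSquare_iff (by rw [hring]; exact hp2) hD, hK]
        have h4 : p ^ 2 / 2 = (p - 1) * ((p + 1) / 2) := by
          obtain ⟨m, hm⟩ : ∃ m, p = 2 * m + 1 := ⟨p / 2, by omega⟩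
          rw [hm]
          have e1 : (2 * m + 1) ^ 2 / 2 = 2 * m * (m + 1) := by
            have : (2 * m + 1) ^ 2 = 2 * (2 * m * (m + 1)) + 1 := by ring
            omega
          have e2 : (2 * m + 1 + 1) / 2 = m + 1 := by omega
          rw [e1, e2, Nat.add_sub_cancel]
        rw [h4, pow_mul]
        have h5 : X ^ 2 - 4 = algebraMap (ZMod p) K (x ^ 2 - 4) := by
          rw [map_sub, map_pow, hX]
          congr 1
          exact (map_ofNat (algebraMap (ZMod p) K) 4).symm
        have h6 : x ^ 2 - 4 ≠ 0 := by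
          intro h
          rw [h5, h, map_zero] at hD
          exact hD rfl
        rw [h5, ← map_pow, ZMod.pow_card_sub_one_eq_one h6, map_one, one_pow]
      obtain ⟨s, hs⟩ := h3
      exact ⟨s, hs.symm⟩
  have hprod : (X + s) / 2 * ((X - s) / 2) = 1 := by
    field_simp
    linear_combination -hs
  have hw0 : (X + s) / 2 ≠ 0 := left_ne_zero_of_mul_eq_one hprod
  refine ⟨orderOf ((X + s) / 2), (X + s) / 2, hw0, ?_, rfl⟩
  rw [inv_eq_of_mul_eq_one_right hprod]
  field_simp
  ring

theorem hasOrd_dvd {x : ZMod p} {t : ℕ} (h : HasOrd K x t) : t ∣ p - 1 ∨ t ∣ p + 1 := by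
  obtain ⟨w, hw, hx, rfl⟩ := h
  rcases ord_type p K hw hx with h1 | h1
  · exact Or.inl (orderOf_dvd_of_pow_eq_one h1)
  · exact Or.inr (orderOf_dvd_of_pow_eq_one h1)

theorem hasOrd_unique {x : ZMod p} {t t' : ℕ} (h : HasOrd K x t) (h' : HasOrd K x t') :
    t = t' := by
  obtain ⟨w, hw, hx, rfl⟩ := h
  obtain ⟨w', hw', hx', rfl⟩ := h'
  have h1 : w + w⁻¹ = w' + w'⁻¹ := by rw [hx, hx']
  have h2 : (w - w') * (w * w' - 1) = 0 := by
    field_simp at h1
    linear_combination h1
  rcases mul_eq_zero.mp h2 with h3 | h3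
  · rw [sub_eq_zero.mp h3]
  · have h4 : w' = w⁻¹ := (inv_eq_of_mul_eq_one_right (sub_eq_zero.mp h3)).symm
    rw [h4, orderOf_eq_orderOf_iff]
    intro n
    rw [inv_pow, inv_eq_one]

theorem hasOrd_pos {x : ZMod p} {t : ℕ} (h : HasOrd K x t) : 0 < t := by
  have hp : p.Prime := Fact.out
  have := hp.two_le
  rcases hasOrd_dvd p K h with h1 | h1
  · exact Nat.pos_of_dvd_of_pos h1 (by omega)
  · exact Nat.pos_of_dvd_of_pos h1 (by omega)

theorem hasOrd_ncard (t : ℕ) : {x : ZMod p | HasOrd K x t}.ncard ≤ t := by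
  classical
  rcases Nat.eq_zero_or_pos t with rfl | ht
  · have h1 : {x : ZMod p | HasOrd K x 0} = ∅ := by
      ext x
      simp only [Set.mem_setOf_eq, Set.mem_empty_iff_false, iff_false]
      intro h
      exact lt_irrefl _ (hasOrd_pos p K h)
    rw [h1, Set.ncard_empty]
  · have h1 : {x : ZMod p | HasOrd K x t}.ncard ≤
        (((Polynomial.nthRoots t (1 : K)).toFinset : Finset K) : Set K).ncard := by
      refine Set.ncard_le_ncard_of_injOn
        (fun x => if h : HasOrd K x t then h.choose else 0) ?_ ?_ (Finset.finite_toSet _)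
      · intro x hx
        have hx' : HasOrd K x t := hx
        simp only [dif_pos hx']
        have h2 := hx'.choose_spec
        rw [Finset.mem_coe, Multiset.mem_toFinset, Polynomial.mem_nthRoots ht]
        have h3 := pow_orderOf_eq_one hx'.choose
        rw [h2.2.2] at h3
        exact h3
      · intro x hx x' hx' heq
        have hx1 : HasOrd K x t := hx
        have hx2 : HasOrd K x' t := hx'
        simp only [dif_pos hx1, dif_pos hx2] at heq
        have h2 := hx1.choose_spec
        have h3 := hx2.choose_spec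
        apply (algebraMap (ZMod p) K).injective
        rw [← h2.2.1, ← h3.2.1, heq]
    refine h1.trans ?_
    rw [Set.ncard_coe_finset]
    exact (Multiset.toFinset_card_le _).trans (Polynomial.card_nthRoots t 1)

theorem lam_ne {κ x : ZMod p} (hκ : κ ≠ 4) (hx : Reg κ x) :
    (κ - x ^ 2) / (4 - x ^ 2) ≠ 0 ∧ (κ - x ^ 2) / (4 - x ^ 2) ≠ 1 := by
  have h4 : (4 - x ^ 2 : ZMod p) ≠ 0 := fun h => hx.1 (sub_eq_zero.mp h).symm
  have hk : (κ - x ^ 2 : ZMod p) ≠ 0 := fun h => hx.2 (sub_eq_zero.mp h).symm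
  refine ⟨div_ne_zero hk h4, ?_⟩
  intro h
  rw [div_eq_one_iff_eq h4] at h
  exact hκ (sub_left_injective h)

end

end MW
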