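import Pool.Agent.Lib.MP_a542cf_al.Prim
import Pool.Agent.Lib.MP_a542cf_al.Ord

/-! MW-ExPrim: existence of regular traces of order `p - 1`. -/

namespace MW

open Polynomial

/-- a family of pairs whose second coordinate is a root of a quartic and whose first coordinate is
a root of a quadratic depending on the second -/
private theorem exPrim_card {K : Type} [Field K] (h2 : (2 : K) ≠ 0) (k : K) (Q : Set (K × K))
    (hQ : ∀ q ∈ Q, (q.2 ^ 2 + 1) ^ 2 - k * q.2 ^ 2 = 0 ∧
      q.1 ^ 2 - (q.2 + q.2⁻¹) * q.1 + 2 = 0) : Q.ncard ≤ 8 := by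
  classical
  set R : K[X] := (X ^ 2 + 1) ^ 2 - C k * X ^ 2 with hR
  have hR0 : R ≠ 0 := by
    intro h
    have h1 : R.eval 0 = 1 := by simp [hR]
    rw [h] at h1
    simp at h1
  have hRd : R.natDegree ≤ 4 := by
    rw [hR]
    compute_degree
  set T : K → K[X] := fun w => X ^ 2 - C (w + w⁻¹) * X + C 2 with hT
  have hT0 : ∀ w, T w ≠ 0 := by
    intro w h
    have h1 : (T w).eval 0 = 2 := by simp [hT]
    rw [h] at h1
    simp at h1
    exact h2 h1.symm
  have hTd : ∀ w, (T w).natDegree ≤ 2 := by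
    intro w
    simp only [hT]
    compute_degree
  set S : Finset (K × K) := R.roots.toFinset.biUnion
    (fun w => (T w).roots.toFinset.image (fun h => (h, w))) with hS
  have hsub : Q ⊆ (S : Set (K × K)) := by
    intro q hq
    obtain ⟨h3, h4⟩ := hQ q hq
    rw [Finset.mem_coe, hS, Finset.mem_biUnion]
    refine ⟨q.2, ?_, ?_⟩
    · rw [Multiset.mem_toFinset, mem_roots hR0, IsRoot.def]
      simp only [hR, eval_sub, eval_pow, eval_add, eval_X, eval_one, eval_mul, eval_C]
      exact h3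
    · rw [Finset.mem_image]
      refine ⟨q.1, ?_, rfl⟩
      rw [Multiset.mem_toFinset, mem_roots (hT0 _), IsRoot.def]
      simp only [hT, eval_sub, eval_pow, eval_add, eval_X, eval_mul, eval_C]
      exact h4
  have hScard : S.card ≤ 8 := by
    refine (Finset.card_biUnion_le).trans ?_
    refine (Finset.sum_le_card_nsmul _ _ 2 ?_).trans ?_
    · intro w _
      refine Finset.card_image_le.trans ?_
      exact (Multiset.toFinset_card_le _).trans ((card_roots' _).trans (hTd w))
    · have h5 : R.roots.toFinset.card ≤ 4 :=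
        (Multiset.toFinset_card_le _).trans ((card_roots' _).trans hRd)
      rw [smul_eq_mul]
      omega
  calc Q.ncard ≤ (S : Set (K × K)).ncard := Set.ncard_le_ncard hsub (Finset.finite_toSet _)
    _ = S.card := Set.ncard_coe_finset S
    _ ≤ 8 := hScard

theorem exPrim : ∃ p₀ : ℕ, ∀ (p : ℕ) [Fact p.Prime], p₀ ≤ p → ∀ (K : Type) [Field K]
    [Fintype K] [Algebra (ZMod p) K], Fintype.card K = p ^ 2 → ∀ κ : ZMod p,
    ∃ x : ZMod p, Reg κ x ∧ HasOrd K x (p - 1) := by
  obtain ⟨p₁, hp₁⟩ := prim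
  refine ⟨max p₁ 100, ?_⟩
  intro p hpF hp K _ _ _ hK κ
  have hpp : p.Prime := Fact.out
  have hp1 : p₁ ≤ p := (le_max_left _ _).trans hp
  have hp100 : 100 ≤ p := (le_max_right _ _).trans hp
  have hchar : CharP K p := charP_of_injective_algebraMap (algebraMap (ZMod p) K).injective p
  have hnat : ∀ n : ℕ, 0 < n → n < 100 → ((n : ℕ) : ZMod p) ≠ 0 := by
    intro n hn0 hn h
    rw [ZMod.natCast_eq_zero_iff] at h
    have := Nat.le_of_dvd hn0 h
    omega
  have h2Z : (2 : ZMod p) ≠ 0 := by exact_mod_cast hnat 2 (by norm_num) (by norm_num)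
  have h1Z : (2 : ZMod p) ≠ 1 := by
    intro h
    have h3 : ((1 : ℕ) : ZMod p) = 0 := by
      push_cast
      linear_combination h
    exact hnat 1 (by norm_num) (by norm_num) h3
  have h2K : (2 : K) ≠ 0 := by
    intro h
    apply h2Z
    apply (algebraMap (ZMod p) K).injective
    rw [map_zero, map_ofNat]
    exact h
  have hmap2 : algebraMap (ZMod p) K 2 = 2 := map_ofNat _ 2
  have hpR : (100 : ℝ) ≤ p := by exact_mod_cast hp100
  have hprim := hp₁ p hp1 K hK 2 h2Z h1Z 1 (p - 1) 1 (Or.inl ⟨by omega, by simp⟩)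
    (by
      push_cast
      exact Real.one_le_rpow (by linarith) (by norm_num))
  set Q : Set (K × K) := {q : K × K | Adm (algebraMap (ZMod p) K 2) (p - 1) 1 (p - 1) 1 q ∧
    orderOf q.2 = p - 1} with hQdef
  by_contra hcon
  push Not at hcon
  have hle : Q.ncard ≤ 8 := by
    refine exPrim_card h2K (algebraMap (ZMod p) K κ) Q ?_
    rintro ⟨h, w⟩ ⟨⟨hh0, hw0, heq, hh, hw⟩, hord⟩
    simp only at hh0 hw0 heq hh hw hord ⊢
    rw [hmap2] at heq
    -- x
    have hwp : w ^ p = w := by
      have : w ^ p = w ^ (p - 1) * w := by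
        rw [← pow_succ]
        congr 1
        omega
      rw [this, hw, one_mul]
    have hxp : (w + w⁻¹) ^ p = w + w⁻¹ := by
      rw [add_pow_char, inv_pow, hwp]
    obtain ⟨n, hn⟩ := (mem_bot_iff_intCast p K).1 ((Subfield.mem_bot_iff_pow_eq_self K p).2 hxp)
    set x : ZMod p := (n : ZMod p) with hx
    have hxK : algebraMap (ZMod p) K x = w + w⁻¹ := by
      rw [hx, map_intCast, hn]
    have hOrd : HasOrd K x (p - 1) := ⟨w, hw0, hxK.symm, hord⟩
    have hx4 : x ^ 2 ≠ 4 := by
      intro h4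
      have h5 : (w + w⁻¹) ^ 2 = 4 := by
        rw [← hxK, ← map_pow, h4]
        exact map_ofNat _ 4
      have h6 : (w ^ 2 - 1) ^ 2 = 0 := by
        field_simp at h5
        linear_combination h5
      have h7 : w ^ 2 = 1 := sub_eq_zero.1 (pow_eq_zero_iff (by norm_num) |>.1 h6)
      have h8 : orderOf w ∣ 2 := orderOf_dvd_of_pow_eq_one h7
      have h9 := Nat.le_of_dvd (by norm_num) h8
      rw [hord] at h9
      omega
    have hxκ : x ^ 2 = κ := by
      by_contra hne
      exact hcon x ⟨hx4, hne⟩ hOrd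
    have h5 : (w + w⁻¹) ^ 2 = algebraMap (ZMod p) K κ := by
      rw [← hxK, ← map_pow, hxκ]
    refine ⟨?_, ?_⟩
    · rw [← h5]
      field_simp
      ring
    · have h6 : h + 2 / h = w + w⁻¹ := by rw [heq, one_div]
      rw [← h6]
      field_simp
      ring
  have h8 : ((8 : ℕ) : ℝ) < (p : ℝ) ^ (9 / 10 : ℝ) := by
    have h9 : (10 : ℝ) ≤ (p : ℝ) ^ (1 / 2 : ℝ) := by
      rw [← Real.sqrt_eq_rpow]
      apply Real.le_sqrt_of_sq_le
      linarith
    have h10 : (p : ℝ) ^ (1 / 2 : ℝ) ≤ (p : ℝ) ^ (9 / 10 : ℝ) :=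
      Real.rpow_le_rpow_of_exponent_le (by linarith) (by norm_num)
    push_cast
    linarith
  have h9 : (Q.ncard : ℝ) ≤ ((8 : ℕ) : ℝ) := by exact_mod_cast hle
  exact absurd (hprim.trans h9) (not_le.mpr h8)

end MW
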