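import Pool.Agent.Lib.MP_a542cf_al.Defs
import Pool.Agent.Lib.MP_dd84fd_nt.DivBound

/-! MW-DvBound: divisor bounds. -/

namespace MW

theorem dvBound (k : ℕ) : ∃ p₀ : ℕ, ∀ p : ℕ, p₀ ≤ p → (Dv p) ^ k ≤ p := by
  obtain ⟨C, hC, h⟩ := Pool.Agent.Lib.MP_dd84fd_nt.DivBound.div_bound (2 * k)
  refine ⟨2 ^ (2 * k) * (2 * C) + 2, fun p hp => ?_⟩
  have h1 := h (p - 1) (by omega)
  have h2 := h (p + 1) (by omega)
  obtain ⟨M, hM⟩ : ∃ M : ℕ, M = max (Nat.divisors (p - 1)).card (Nat.divisors (p + 1)).card :=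
    ⟨_, rfl⟩
  have hDM : Dv p ≤ 2 * M := by
    unfold Dv
    have e1 : (Nat.divisors (p - 1)).card ≤ M := by rw [hM]; exact le_max_left _ _
    have e2 : (Nat.divisors (p + 1)).card ≤ M := by rw [hM]; exact le_max_right _ _
    omega
  have hMC : M ^ (2 * k) ≤ C * (p + 1) := by
    rcases le_total (Nat.divisors (p - 1)).card (Nat.divisors (p + 1)).card with h3 | h3
    · rw [hM, max_eq_right h3]
      exact h2
    · rw [hM, max_eq_left h3]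
      refine h1.trans ?_
      exact Nat.mul_le_mul_left C (by omega)
  have h4 : (Dv p ^ k) ^ 2 ≤ p ^ 2 := by
    calc (Dv p ^ k) ^ 2 = Dv p ^ (2 * k) := by rw [← pow_mul, mul_comm]
      _ ≤ (2 * M) ^ (2 * k) := Nat.pow_le_pow_left hDM _
      _ = 2 ^ (2 * k) * M ^ (2 * k) := by rw [mul_pow]
      _ ≤ 2 ^ (2 * k) * (C * (p + 1)) := Nat.mul_le_mul_left _ hMC
      _ ≤ 2 ^ (2 * k) * (C * (2 * p)) := by gcongr; omega
      _ = (2 ^ (2 * k) * (2 * C)) * p := by ring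
      _ ≤ p * p := Nat.mul_le_mul_right _ (by omega)
      _ = p ^ 2 := (sq p).symm
  exact (Nat.pow_le_pow_iff_left (by norm_num)).1 h4

theorem dv_le (p : ℕ) (hp : 2 ≤ p) : Dv p ≤ 2 * (Nat.divisors (p ^ 2 - 1)).card := by
  have h1 : p ^ 2 - 1 = (p + 1) * (p - 1) := by
    have := Nat.sq_sub_sq p 1
    simpa using this
  have h0 : p ^ 2 - 1 ≠ 0 := by
    rw [h1]
    exact Nat.mul_ne_zero (by omega) (by omega)
  have h2 : (Nat.divisors (p - 1)).card ≤ (Nat.divisors (p ^ 2 - 1)).card :=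
    Finset.card_le_card (Nat.divisors_subset_of_dvd h0 (by rw [h1]; exact Dvd.intro_left _ rfl))
  have h3 : (Nat.divisors (p + 1)).card ≤ (Nat.divisors (p ^ 2 - 1)).card :=
    Finset.card_le_card (Nat.divisors_subset_of_dvd h0 (by rw [h1]; exact Dvd.intro _ rfl))
  unfold Dv
  omega

theorem divisors_rpow (ε : ℝ) (hε : 0 < ε) : ∃ p₀ : ℕ, ∀ p : ℕ, p₀ ≤ p →
    ((Nat.divisors (p ^ 2 - 1)).card : ℝ) ≤ (p : ℝ) ^ ε := by
  obtain ⟨k, hk⟩ := exists_nat_gt (3 / ε)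
  have hk0 : (0 : ℝ) < k := lt_trans (by positivity) hk
  have hk1 : 3 ≤ ε * k := by
    rw [div_lt_iff₀ hε] at hk
    linarith
  have hkn : k ≠ 0 := by
    rintro rfl
    simp at hk0
  obtain ⟨C, hC, h⟩ := Pool.Agent.Lib.MP_dd84fd_nt.DivBound.div_bound k
  refine ⟨C + 2, fun p hp => ?_⟩
  have hp1 : (1 : ℝ) ≤ p := by
    have : 1 ≤ p := by omega
    exact_mod_cast this
  have h0 : p ^ 2 - 1 ≠ 0 := by
    have : 2 ^ 2 ≤ p ^ 2 := Nat.pow_le_pow_left (by omega) 2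
    omega
  have h1 := h (p ^ 2 - 1) h0
  have h2 : (Nat.divisors (p ^ 2 - 1)).card ^ k ≤ p ^ 3 := by
    refine h1.trans ?_
    calc C * (p ^ 2 - 1) ≤ p * p ^ 2 := Nat.mul_le_mul (by omega) (Nat.sub_le _ _)
      _ = p ^ 3 := by ring
  have h3 : ((Nat.divisors (p ^ 2 - 1)).card : ℝ) ^ k ≤ ((p : ℝ) ^ ε) ^ k := by
    calc ((Nat.divisors (p ^ 2 - 1)).card : ℝ) ^ k ≤ (p : ℝ) ^ 3 := by exact_mod_cast h2
      _ = (p : ℝ) ^ (3 : ℝ) := by norm_cast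
      _ ≤ (p : ℝ) ^ (ε * k) := Real.rpow_le_rpow_of_exponent_le hp1 hk1
      _ = ((p : ℝ) ^ ε) ^ k := by rw [Real.rpow_mul (by positivity), Real.rpow_natCast]
  exact (pow_le_pow_iff_left₀ (by positivity) (by positivity) hkn).1 h3

end MW
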