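import Pool.Agent.Lib.MP_a542cf_al.PrimComb

/-! MW-Prim: every coset of small index contains many points with primitive second
coordinate. -/

namespace MW

private theorem prim_tel (n : ℕ) (hn : 1 ≤ n) :
    ∏ r ∈ Finset.Icc 2 n, (1 - 1 / (r : ℝ)) = 1 / n := by
  induction n, hn using Nat.le_induction with
  | base => simp
  | succ n hn ih =>
    rw [Finset.prod_Icc_succ_top (by omega), ih]
    have h1 : (n : ℝ) ≠ 0 := by positivity
    have h2 : ((n + 1 : ℕ) : ℝ) ≠ 0 := by positivity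
    push_cast at h2 ⊢
    field_simp
    ring

private theorem prim_prod_lower (P1 : Finset ℕ) (n : ℕ) (hn : 1 ≤ n)
    (hP : ∀ r ∈ P1, 2 ≤ r ∧ r ≤ n) : 1 / (n : ℝ) ≤ ∏ r ∈ P1, (1 - 1 / (r : ℝ)) := by
  rw [← prim_tel n hn]
  have hsub : P1 ⊆ Finset.Icc 2 n := by
    intro r hr
    exact Finset.mem_Icc.mpr (hP r hr)
  have hfac : ∀ r ∈ Finset.Icc 2 n, 0 ≤ (1 - 1 / (r : ℝ)) ∧ (1 - 1 / (r : ℝ)) ≤ 1 := by
    intro r hr
    have h2 : 2 ≤ r := (Finset.mem_Icc.mp hr).1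
    have h2' : (2 : ℝ) ≤ r := by exact_mod_cast h2
    have h3 : 1 / (r : ℝ) ≤ 1 := by
      rw [div_le_one (by linarith)]
      linarith
    have h4 : 0 ≤ 1 / (r : ℝ) := by positivity
    constructor <;> linarith
  rw [← Finset.prod_sdiff hsub]
  have h1 : ∏ r ∈ Finset.Icc 2 n \ P1, (1 - 1 / (r : ℝ)) ≤ 1 := by
    apply Finset.prod_le_one
    · intro r hr
      exact (hfac r (Finset.mem_sdiff.mp hr).1).1
    · intro r hr
      exact (hfac r (Finset.mem_sdiff.mp hr).1).2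
  have h2 : 0 ≤ ∏ r ∈ P1, (1 - 1 / (r : ℝ)) :=
    Finset.prod_nonneg (fun r hr => (hfac r (hsub hr)).1)
  calc _ ≤ 1 * ∏ r ∈ P1, (1 - 1 / (r : ℝ)) := mul_le_mul_of_nonneg_right h1 h2
    _ = _ := one_mul _

private theorem prim_sub_prod_le (n : ℕ) (hn : n ≠ 0) (S : Finset ℕ) (hS : S ⊆ n.primeFactors) :
    ∏ r ∈ S, r ≤ n := by
  calc ∏ r ∈ S, r ≤ ∏ r ∈ n.primeFactors, r := by
        apply Finset.prod_le_prod_of_subset_of_one_le' hS
        intro r hr _
        exact (Nat.prime_of_mem_primeFactors hr).one_lt.le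
    _ ≤ n := Nat.le_of_dvd (Nat.pos_of_ne_zero hn) (Nat.prod_primeFactors_dvd n)

private theorem prim_card_log (n m : ℕ) (hn : n ≠ 0) (hm : 1 ≤ m) (S : Finset ℕ)
    (hS : S ⊆ n.primeFactors) (hSm : ∀ r ∈ S, m ≤ r) :
    (S.card : ℝ) * Real.log m ≤ Real.log n := by
  have h1 : m ^ S.card ≤ n := by
    calc m ^ S.card = ∏ _r ∈ S, m := by simp
      _ ≤ ∏ r ∈ S, r := Finset.prod_le_prod' hSm
      _ ≤ n := prim_sub_prod_le n hn S hS
  have h2 : ((m : ℝ)) ^ S.card ≤ n := by exact_mod_cast h1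
  have hm' : (0 : ℝ) < m := by exact_mod_cast hm
  have h3 := Real.log_le_log (by positivity) h2
  rwa [Real.log_pow] at h3

private theorem prim_num (Y ell X e Q Lr s1 s2 n2 n3 : ℝ) (hY : 1000 ≤ Y) (hX : X = Y ^ 1000)
    (hell : ell ≤ Y) (he1 : 1 ≤ e) (he : e ≤ Y ^ 10) (hQ0 : 0 ≤ Q)
    (hQ : Q ≤ Y ^ 14)
    (hL0 : Y ^ 20 / 2 ≤ Lr) (hL : Lr ≤ Y ^ 20) (hs1 : 1 / ell ≤ s1) (hell1 : 1 ≤ ell)
    (hs2 : s2 ≤ 1 / 2) (hn2 : n2 ≤ 2 * ell)
    (hn3 : n3 ≤ 2 * ell) (R : ℝ) (hR : R = Y ^ 500) :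
    Y ^ 900 ≤ X / e * s1 * (1 - s2) - (1 + n2) * Q * (82 * (e * (Q * Lr)) ^ 2 * R) -
      2 * X * n3 / Lr := by
  have hY0 : (0 : ℝ) < Y := by linarith
  have hYp : ∀ k : ℕ, (0 : ℝ) < Y ^ k := fun k => pow_pos hY0 k
  -- main term
  have hmain : Y ^ 988 ≤ X / e * s1 * (1 - s2) := by
    have h1 : Y ^ 990 ≤ X / e := by
      rw [le_div_iff₀ (by linarith), hX]
      calc Y ^ 990 * e ≤ Y ^ 990 * Y ^ 10 := mul_le_mul_of_nonneg_left he (hYp 990).le
        _ = Y ^ 1000 := by ring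
    have h2 : 1 / Y ≤ s1 := le_trans (one_div_le_one_div_of_le (by linarith) hell) hs1
    have h3 : (1 : ℝ) / 2 ≤ 1 - s2 := by linarith
    have h4 : Y ^ 989 ≤ X / e * s1 := by
      calc Y ^ 989 = Y ^ 990 * (1 / Y) := by
            field_simp
        _ ≤ X / e * s1 := mul_le_mul h1 h2 (by positivity) (le_trans (hYp 990).le h1)
    have h5 : 0 ≤ X / e * s1 := le_trans (hYp 989).le h4
    calc Y ^ 988 ≤ Y ^ 989 * (1 / 2) := by
          have : Y ^ 989 = Y ^ 988 * Y := by ring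
          rw [this]
          have := hYp 988
          nlinarith only [hY, this]
      _ ≤ X / e * s1 * (1 - s2) := mul_le_mul h4 h3 (by norm_num) h5
  -- second term
  have hsec : (1 + n2) * Q * (82 * (e * (Q * Lr)) ^ 2 * R) ≤ Y ^ 605 := by
    have hLr0 : 0 ≤ Lr := le_trans (by positivity) hL0
    have h1 : (1 + n2) * Q ≤ Y ^ 2 * Y ^ 14 := by
      apply mul_le_mul _ hQ hQ0 (by positivity)
      nlinarith only [hY, hell, hn2]
    have h2 : e * (Q * Lr) ≤ Y ^ 10 * (Y ^ 14 * Y ^ 20) := by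
      apply mul_le_mul he _ (by positivity) (by positivity)
      exact mul_le_mul hQ hL hLr0 (by positivity)
    have h3 : (e * (Q * Lr)) ^ 2 ≤ (Y ^ 44) ^ 2 := by
      apply pow_le_pow_left₀ (by positivity)
      calc _ ≤ Y ^ 10 * (Y ^ 14 * Y ^ 20) := h2
        _ = Y ^ 44 := by ring
    have h4 : 82 * (e * (Q * Lr)) ^ 2 * R ≤ Y * (Y ^ 44) ^ 2 * Y ^ 500 := by
      rw [hR]
      apply mul_le_mul_of_nonneg_right _ (hYp 500).le
      apply mul_le_mul (by linarith) h3 (by positivity) hY0.le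
    calc (1 + n2) * Q * (82 * (e * (Q * Lr)) ^ 2 * R)
        ≤ (Y ^ 2 * Y ^ 14) * (Y * (Y ^ 44) ^ 2 * Y ^ 500) := by
          apply mul_le_mul h1 h4 _ (by positivity)
          rw [hR]
          positivity
      _ = Y ^ 605 := by ring
  -- third term
  have hthird : 2 * X * n3 / Lr ≤ Y ^ 982 := by
    have hLrpos : 0 < Lr := lt_of_lt_of_le (by positivity) hL0
    rw [div_le_iff₀ hLrpos, hX]
    have h1 : 2 * Y ^ 1000 * n3 ≤ 2 * Y ^ 1000 * (2 * Y) := by
      apply mul_le_mul_of_nonneg_left _ (by positivity)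
      linarith
    have h2 : Y ^ 982 * (Y ^ 20 / 2) ≤ Y ^ 982 * Lr :=
      mul_le_mul_of_nonneg_left hL0 (hYp 982).le
    have h3 : 2 * Y ^ 1000 * (2 * Y) ≤ Y ^ 982 * (Y ^ 20 / 2) := by
      have e1 : Y ^ 982 * (Y ^ 20 / 2) = Y ^ 1001 * (Y / 2) := by ring
      have e2 : 2 * Y ^ 1000 * (2 * Y) = Y ^ 1001 * 4 := by ring
      rw [e1, e2]
      exact mul_le_mul_of_nonneg_left (by linarith) (hYp 1001).le
    linarith
  have hpow : ∀ k l : ℕ, k ≤ l → Y ^ k ≤ Y ^ l := fun k l h =>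
    pow_le_pow_right₀ (by linarith) h
  have e1 := hpow 605 987 (by norm_num)
  have e2 := hpow 982 987 (by norm_num)
  have e3 := hpow 900 987 (by norm_num)
  have e4 : 3 * Y ^ 987 ≤ Y ^ 988 := by
    have : Y ^ 988 = Y * Y ^ 987 := by ring
    rw [this]
    exact mul_le_mul_of_nonneg_right (by linarith) (hYp 987).le
  linarith

private theorem prim_ev : ∃ p₀ : ℕ, ∀ p : ℕ, p₀ ≤ p →
    1000 ≤ (p : ℝ) ^ (1 / 1000 : ℝ) ∧ Real.log p ≤ (p : ℝ) ^ (1 / 1000 : ℝ) ∧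
    200 * Real.exp 400 ≤ Real.log p := by
  have t0 : Filter.Tendsto (fun n : ℕ => (n : ℝ)) Filter.atTop Filter.atTop :=
    tendsto_natCast_atTop_atTop
  have h1 : ∀ᶠ n : ℕ in Filter.atTop, 1000 ≤ (n : ℝ) ^ (1 / 1000 : ℝ) :=
    ((tendsto_rpow_atTop (by norm_num : (0 : ℝ) < 1 / 1000)).comp t0).eventually_ge_atTop 1000
  have h2 : ∀ᶠ n : ℕ in Filter.atTop, Real.log n ≤ (n : ℝ) ^ (1 / 1000 : ℝ) := by
    have := (isLittleO_log_rpow_atTop (by norm_num : (0 : ℝ) < 1 / 1000)).bound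
      (by norm_num : (0 : ℝ) < 1)
    have h3 := t0.eventually this
    filter_upwards [h3, Filter.eventually_ge_atTop 1] with n hn hn1
    have hn1' : (1 : ℝ) ≤ n := by exact_mod_cast hn1
    rw [Real.norm_of_nonneg (Real.log_nonneg hn1'),
      Real.norm_of_nonneg (Real.rpow_nonneg (by linarith) _), one_mul] at hn
    exact hn
  have h3 : ∀ᶠ n : ℕ in Filter.atTop, 200 * Real.exp 400 ≤ Real.log n :=
    (Real.tendsto_log_atTop.comp t0).eventually_ge_atTop _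
  obtain ⟨p₀, hp₀⟩ := Filter.eventually_atTop.mp (h1.and (h2.and h3))
  exact ⟨p₀, fun p hp => hp₀ p hp⟩

theorem prim : ∃ p₀ : ℕ, ∀ (p : ℕ) [Fact p.Prime], p₀ ≤ p → ∀ (K : Type) [Field K] [Fintype K]
    [Algebra (ZMod p) K], Fintype.card K = p ^ 2 → ∀ (l : ZMod p), l ≠ 0 → l ≠ 1 →
    ∀ (e t : ℕ) (c : K), TypeC p (algebraMap (ZMod p) K l) c t e →
    (e : ℝ) ≤ (p : ℝ) ^ (1 / 100 : ℝ) →
    (p : ℝ) ^ (9 / 10 : ℝ) ≤
      ({q : K × K | Adm (algebraMap (ZMod p) K l) t c (p - 1) 1 q ∧ orderOf q.2 = p - 1}.ncard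
        : ℝ) := by
  classical
  obtain ⟨p₀, hp₀⟩ := prim_ev
  refine ⟨max p₀ 3, ?_⟩
  intro p hpF hp K _ _ _ hK l hl0 hl1 e t c hc he
  have hpp : p.Prime := hpF.out
  have hp3 : 3 ≤ p := le_trans (le_max_right _ _) hp
  have hp2 : p ≠ 2 := by omega
  obtain ⟨hY, hlY, hlog⟩ := hp₀ p (le_trans (le_max_left _ _) hp)
  set X : ℝ := (p : ℝ) with hXdef
  have hX3 : (3 : ℝ) ≤ X := by rw [hXdef]; exact_mod_cast hp3
  have hX0 : (0 : ℝ) < X := by linarith only [hX3]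
  set Y : ℝ := X ^ (1 / 1000 : ℝ) with hYdef
  have hY0 : 0 < Y := by linarith
  have hYpow : ∀ k : ℕ, Y ^ k = X ^ ((k : ℝ) / 1000) := by
    intro k
    rw [hYdef, ← Real.rpow_natCast, ← Real.rpow_mul hX0.le]
    congr 1
    ring
  have hX : X = Y ^ 1000 := by
    rw [hYpow]
    norm_num
  set ell : ℝ := Real.log X with hell
  have hexp : (401 : ℝ) ≤ Real.exp 400 := by
    have := Real.add_one_le_exp (400 : ℝ)
    linarith
  have hell200 : (200 : ℝ) ≤ ell := by nlinarith only [hexp, hlog]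
  set L1 : ℕ := ⌊ell / 100⌋₊ with hL1
  have hL1le : (L1 : ℝ) ≤ ell / 100 := Nat.floor_le (by positivity)
  have hL1ge : ell / 200 ≤ (L1 : ℝ) := by
    have := Nat.lt_floor_add_one (ell / 100)
    rw [← hL1] at this
    linarith
  have hL1exp : Real.exp 400 ≤ (L1 : ℝ) := by linarith
  have hL1one : 1 ≤ L1 := by
    have : (1 : ℝ) ≤ L1 := by linarith
    exact_mod_cast this
  have hlogL1 : 400 ≤ Real.log L1 := by
    rw [Real.le_log_iff_exp_le (by linarith)]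
    exact hL1exp
  set L : ℕ := ⌊X ^ (1 / 50 : ℝ)⌋₊ with hL
  have hX50 : X ^ (1 / 50 : ℝ) = Y ^ 20 := by
    rw [hYpow]
    norm_num
  have hLle : (L : ℝ) ≤ Y ^ 20 := by
    rw [← hX50]
    exact Nat.floor_le (Real.rpow_nonneg hX0.le _)
  have hY20 : (2 : ℝ) ≤ Y ^ 20 := by
    calc (2 : ℝ) ≤ Y ^ 1 := by linarith
      _ ≤ Y ^ 20 := pow_le_pow_right₀ (by linarith) (by norm_num)
  have hLge : Y ^ 20 / 2 ≤ (L : ℝ) := by
    have := Nat.lt_floor_add_one (X ^ (1 / 50 : ℝ))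
    rw [← hL, hX50] at this
    linarith only [hY20, this]
  have hLone : 1 ≤ L := by
    have : (1 : ℝ) ≤ L := by linarith only [hLge, hY20]
    exact_mod_cast this
  have hpm : p - 1 ≠ 0 := by omega
  set PF := (p - 1).primeFactors with hPF
  set P1 := PF.filter (fun r => r ≤ L1) with hP1
  set P2 := PF.filter (fun r => L1 < r ∧ r ≤ L) with hP2
  set P3 := PF.filter (fun r => L1 < r ∧ L < r) with hP3
  have hsub1 : P1 ⊆ PF := Finset.filter_subset _ _
  have hsub2 : P2 ⊆ PF := Finset.filter_subset _ _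
  have hsub3 : P3 ⊆ PF := Finset.filter_subset _ _
  have hunion : P1 ∪ P2 ∪ P3 = PF := by
    ext r
    simp only [hP1, hP2, hP3, Finset.mem_union, Finset.mem_filter]
    constructor
    · rintro ((⟨h, _⟩ | ⟨h, _⟩) | ⟨h, _⟩) <;> exact h
    · intro h
      by_cases h1 : r ≤ L1
      · exact Or.inl (Or.inl ⟨h, h1⟩)
      · by_cases h2 : r ≤ L
        · exact Or.inl (Or.inr ⟨h, by omega, h2⟩)
        · exact Or.inr ⟨h, by omega, by omega⟩
  have hdisj : Disjoint P1 P2 := by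
    rw [Finset.disjoint_left]
    intro r h1 h2
    have := (Finset.mem_filter.mp h1).2
    have := (Finset.mem_filter.mp h2).2
    omega
  -- product of the small primes
  have hQnat : ∏ r ∈ P1, r ≤ 4 ^ L1 := by
    calc ∏ r ∈ P1, r ≤ primorial L1 := by
          unfold primorial
          apply Finset.prod_le_prod_of_subset_of_one_le'
          · intro r hr
            have h := Finset.mem_filter.mp hr
            rw [Finset.mem_filter, Finset.mem_range]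
            exact ⟨by omega, Nat.prime_of_mem_primeFactors h.1⟩
          · intro r hr _
            exact (Finset.mem_filter.mp hr).2.one_lt.le
      _ ≤ 4 ^ L1 := primorial_le_four_pow L1
  have hlogp : Real.log ((p - 1 : ℕ) : ℝ) ≤ ell := by
    apply Real.log_le_log
    · have : 0 < p - 1 := by omega
      exact_mod_cast this
    · rw [hXdef]
      exact_mod_cast Nat.sub_le p 1
  have hQ : ((∏ r ∈ P1, r : ℕ) : ℝ) ≤ Y ^ 14 := by
    have h1 : ((∏ r ∈ P1, r : ℕ) : ℝ) ≤ (4 : ℝ) ^ L1 := by exact_mod_cast hQnat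
    have hlog4 : Real.log 4 ≤ 1.4 := by
      have : (4 : ℝ) = 2 ^ 2 := by norm_num
      rw [this, Real.log_pow]
      have := Real.log_two_lt_d9
      push_cast
      linarith only [this]
    have h2 : (4 : ℝ) ^ L1 ≤ Y ^ 14 := by
      rw [hYpow 14, ← Real.log_le_log_iff (by positivity) (by positivity), Real.log_pow,
        Real.log_rpow hX0]
      have hl4 : 0 ≤ Real.log 4 := Real.log_nonneg (by norm_num)
      calc (L1 : ℝ) * Real.log 4 ≤ ell / 100 * 1.4 :=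
            mul_le_mul hL1le hlog4 hl4 (by positivity)
        _ = ((14 : ℕ) : ℝ) / 1000 * ell := by push_cast; ring
        _ = _ := rfl
    linarith
  have hXe : X ^ (1 / 100 : ℝ) = Y ^ 10 := by
    rw [hYpow]
    norm_num
  have heY : (e : ℝ) ≤ Y ^ 10 := by
    rw [← hXe]
    exact he
  have he1 : 1 ≤ e := by
    rcases Nat.eq_zero_or_pos e with h | h
    · exfalso
      rcases hc with ⟨h1, _⟩ | ⟨h1, _⟩
      · rw [h, mul_zero] at h1
        omega
      · rw [h, mul_zero] at h1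
        omega
    · exact h
  have he1' : (1 : ℝ) ≤ e := by exact_mod_cast he1
  have hprodpos : (0 : ℝ) ≤ ((∏ r ∈ P1, r : ℕ) : ℝ) := Nat.cast_nonneg _
  have hE : 10 ^ 4 * (e * ((∏ r ∈ P1, r) * L)) ^ 4 ≤ p := by
    have h1 : (10 : ℝ) ^ 4 * ((e : ℝ) * (((∏ r ∈ P1, r : ℕ) : ℝ) * L)) ^ 4 ≤ X := by
      have h2 : (e : ℝ) * (((∏ r ∈ P1, r : ℕ) : ℝ) * L) ≤ Y ^ 44 := by
        calc (e : ℝ) * (((∏ r ∈ P1, r : ℕ) : ℝ) * L) ≤ Y ^ 10 * (Y ^ 14 * Y ^ 20) := by
              apply mul_le_mul heY _ (by positivity) (by positivity)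
              exact mul_le_mul hQ hLle (by positivity) (by positivity)
          _ = Y ^ 44 := by ring
      have h3 : ((e : ℝ) * (((∏ r ∈ P1, r : ℕ) : ℝ) * L)) ^ 4 ≤ (Y ^ 44) ^ 4 :=
        pow_le_pow_left₀ (by (clear * - hLone he1; positivity)) h2 4
      have h4 : (10 : ℝ) ^ 4 ≤ Y ^ 2 := by nlinarith only [hY, hexp, hlY, hlog]
      calc (10 : ℝ) ^ 4 * ((e : ℝ) * (((∏ r ∈ P1, r : ℕ) : ℝ) * L)) ^ 4
          ≤ Y ^ 2 * (Y ^ 44) ^ 4 := mul_le_mul h4 h3 (by (clear * -; positivity)) (by positivity)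
        _ = Y ^ 178 := by ring
        _ ≤ Y ^ 1000 := pow_le_pow_right₀ (by linarith only [hexp, hlY, hlog]) (by norm_num)
        _ = X := hX.symm
    rw [hXdef] at h1
    exact_mod_cast h1
  have hmainineq := primComb p hp2 K hK l hl0 hl1 e t c hc P1 P2 P3 hunion hdisj L hLone
    (fun r hr => (Finset.mem_filter.mp hr).2.2)
    (fun r hr => (Finset.mem_filter.mp hr).2.2.le) hE
  refine le_trans ?_ hmainineq
  have hX910 : X ^ (9 / 10 : ℝ) = Y ^ 900 := by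
    rw [hYpow]
    norm_num
  rw [hX910]
  have hcastprod : (∏ r ∈ P1, (r : ℝ)) = ((∏ r ∈ P1, r : ℕ) : ℝ) := by
    push_cast
    rfl
  rw [hcastprod]
  have hcard2log := prim_card_log (p - 1) L1 hpm hL1one P2 hsub2
    (fun r hr => (Finset.mem_filter.mp hr).2.1.le)
  have hc2 : (P2.card : ℝ) ≤ ell / 400 := by
    have h1 : (P2.card : ℝ) * 400 ≤ (P2.card : ℝ) * Real.log L1 :=
      mul_le_mul_of_nonneg_left hlogL1 (Nat.cast_nonneg _)
    linarith only [h1, hcard2log, hlogp]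
  have hcard3log := prim_card_log (p - 1) 2 hpm (by norm_num) P3 hsub3
    (fun r hr => (Nat.prime_of_mem_primeFactors (hsub3 hr)).two_le)
  have hc3 : (P3.card : ℝ) ≤ 2 * ell := by
    have hl2 : (1 : ℝ) / 2 ≤ Real.log ((2 : ℕ) : ℝ) := by
      have := Real.log_two_gt_d9
      push_cast
      linarith only [this]
    have h1 : (P3.card : ℝ) * (1 / 2) ≤ (P3.card : ℝ) * Real.log ((2 : ℕ) : ℝ) :=
      mul_le_mul_of_nonneg_left hl2 (Nat.cast_nonneg _)
    have h2 := le_trans h1 (le_trans hcard3log hlogp)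
    linarith only [h2]
  have hs2 : ∑ r ∈ P2, 1 / (r : ℝ) ≤ 1 / 2 := by
    have h1 : ∑ r ∈ P2, 1 / (r : ℝ) ≤ ∑ _r ∈ P2, 1 / (L1 : ℝ) := by
      apply Finset.sum_le_sum
      intro r hr
      apply one_div_le_one_div_of_le (by linarith only [hL1ge, hexp, hlog])
      exact_mod_cast (Finset.mem_filter.mp hr).2.1.le
    rw [Finset.sum_const, nsmul_eq_mul] at h1
    have h2 : (P2.card : ℝ) * (1 / (L1 : ℝ)) ≤ 1 / 2 := by
      rw [mul_one_div, div_le_iff₀ (by linarith only [hL1ge, hexp, hlog])]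
      linarith only [hL1ge, hc2]
    linarith only [h1, h2]
  have hs1 : 1 / ell ≤ ∏ r ∈ P1, (1 - 1 / (r : ℝ)) := by
    refine le_trans ?_ (prim_prod_lower P1 L1 hL1one ?_)
    · apply one_div_le_one_div_of_le (by linarith only [hL1ge, hexp, hlog])
      linarith only [hL1le, hexp, hlog]
    · intro r hr
      exact ⟨(Nat.prime_of_mem_primeFactors (hsub1 hr)).two_le, (Finset.mem_filter.mp hr).2⟩
  have hsqrt : Real.sqrt X = Y ^ 500 := by
    rw [hX]
    rw [show Y ^ 1000 = (Y ^ 500) ^ 2 by ring]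
    exact Real.sqrt_sq (by positivity)
  have hfin := prim_num Y ell X e ((∏ r ∈ P1, r : ℕ) : ℝ) L (∏ r ∈ P1, (1 - 1 / (r : ℝ)))
    (∑ r ∈ P2, 1 / (r : ℝ)) P2.card P3.card hY hX hlY he1' heY hprodpos hQ
    hLge hLle hs1 (by linarith only [hexp, hlog]) hs2 (by linarith only [hc2, hexp, hlog]) hc3 (Real.sqrt X) hsqrt
  exact hfin

end MW
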