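import Pool.Agent.Lib.MP_a542cf_al.FibRot
import Pool.Agent.Lib.MP_a542cf_al.Prim
import Pool.Agent.Lib.MP_a542cf_al.DvBound

/-! Auxiliary lemma for MW-ToGiant and MW-GiantDisj: a point with a coordinate of very large order
gives many coordinates of order `p - 1`. -/

namespace MW

theorem giantaux_four {K : Type*} [Field K] (a b : K) : ∃ F : Finset K, F.card ≤ 4 ∧
    ∀ h : K, h ≠ 0 → (h + a / h) ^ 2 = b → h ∈ F := by
  classical
  obtain ⟨P, hP⟩ : ∃ P : Polynomial K, P = Polynomial.X ^ 4 +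
    (Polynomial.C (2 * a - b) * Polynomial.X ^ 2 + Polynomial.C (a ^ 2)) := ⟨_, rfl⟩
  have hdeg : (Polynomial.C (2 * a - b) * Polynomial.X ^ 2 + Polynomial.C (a ^ 2)).degree <
      ((4 : ℕ) : WithBot ℕ) := by
    refine lt_of_le_of_lt (Polynomial.degree_add_le _ _) (max_lt ?_ ?_)
    · exact lt_of_le_of_lt (Polynomial.degree_C_mul_X_pow_le 2 _) (by norm_num)
    · exact lt_of_le_of_lt Polynomial.degree_C_le (by norm_num)
  have hmonic : P.Monic := by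
    rw [hP]
    exact Polynomial.monic_X_pow_add hdeg
  have hnat : P.natDegree = 4 := by
    rw [hP, Polynomial.natDegree_add_eq_left_of_degree_lt]
    · exact Polynomial.natDegree_X_pow 4
    · rw [Polynomial.degree_X_pow]
      exact hdeg
  refine ⟨P.roots.toFinset, ?_, fun h hh hb => ?_⟩
  · refine (Multiset.toFinset_card_le _).trans ?_
    rw [← hnat]
    exact Polynomial.card_roots' P
  · rw [Multiset.mem_toFinset, Polynomial.mem_roots hmonic.ne_zero, Polynomial.IsRoot.def, hP]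
    simp only [Polynomial.eval_add, Polynomial.eval_mul, Polynomial.eval_pow, Polynomial.eval_X,
      Polynomial.eval_C]
    rw [← hb]
    field_simp
    ring

theorem giantaux_rich : ∃ p₀ : ℕ, ∀ (p : ℕ) [Fact p.Prime], p₀ ≤ p → ∀ (K : Type) [Field K]
    [Fintype K] [Algebra (ZMod p) K], Fintype.card K = p ^ 2 → ∀ κ : ZMod p, κ ≠ 4 →
    ∀ O : Set (ZMod p × ZMod p × ZMod p), Inv O → (∀ v ∈ O, OnX κ v) →
    ∀ x y z, (x, y, z) ∈ O → Reg κ x → ∀ t, HasOrd K x t → p < 128 * Dv p * t →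
    ∃ A : Finset (ZMod p), (p : ℝ) ^ (9 / 10 : ℝ) ≤ 16 * A.card + 32 ∧
      ∀ a ∈ A, ∃ x' y' z', (x', y', z') ∈ O ∧ Reg κ x' ∧ HasOrd K x' (p - 1) ∧
        a = x' ^ 2 - 4 := by
  obtain ⟨p₁, h₁⟩ := prim
  obtain ⟨p₂, h₂⟩ := dvBound 200
  obtain ⟨p₃, h₃⟩ : ∃ N : ℕ, ∀ p : ℕ, N ≤ p → 256 ^ 200 ≤ p := ⟨_, fun _ h => h⟩
  refine ⟨max (max p₁ p₂) (max p₃ 3), ?_⟩
  intro p _ hp K _ _ _ hK κ hκ O hO hX x y z hv hx t ht hpt
  simp only [max_le_iff] at hp
  obtain ⟨⟨hp1, hp2⟩, hp3, hp4⟩ := hp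
  classical
  obtain ⟨w, hw, hwx, hwt⟩ := ht
  obtain ⟨u, hu, ⟨e, he⟩, hfib⟩ := fibrot p (by omega) K κ hκ O hO hX x y z hv hx w hw hwx
  rw [hwt] at he hfib
  obtain ⟨hl0, hl1⟩ := lam_ne p hκ hx
  -- the bound for the index
  have hte : t * e ≤ p + 1 := by
    rcases he with ⟨h, -⟩ | ⟨h, -⟩ <;> omega
  have heD : e ≤ 256 * Dv p := by
    by_contra hcon
    rw [not_le] at hcon
    have h5 : t * (256 * Dv p) ≤ t * e := Nat.mul_le_mul_left t hcon.le
    have h6 : t * (256 * Dv p) = 2 * (128 * Dv p * t) := by ring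
    omega
  have he100 : e ^ 100 ≤ p := by
    have h5 : (e ^ 100) ^ 2 ≤ p ^ 2 := by
      calc (e ^ 100) ^ 2 = e ^ 200 := by rw [← pow_mul]
        _ ≤ (256 * Dv p) ^ 200 := Nat.pow_le_pow_left heD _
        _ = 256 ^ 200 * Dv p ^ 200 := by rw [mul_pow]
        _ ≤ p * p := Nat.mul_le_mul (h₃ p hp3) (h₂ p hp2)
        _ = p ^ 2 := (sq p).symm
    exact (Nat.pow_le_pow_iff_left (by norm_num)).1 h5
  have heR : (e : ℝ) ≤ (p : ℝ) ^ (1 / 100 : ℝ) := by
    have h5 : (e : ℝ) = ((e : ℝ) ^ (100 : ℕ)) ^ (1 / 100 : ℝ) := by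
      rw [← Real.rpow_natCast, ← Real.rpow_mul (by positivity)]
      norm_num
    rw [h5]
    refine Real.rpow_le_rpow (by positivity) ?_ (by norm_num)
    exact_mod_cast he100
  have hcount := h₁ p hp1 K hK _ hl0 hl1 e t (u ^ t) he heR
  obtain ⟨l, hl⟩ : ∃ l : K, l = algebraMap (ZMod p) K ((κ - x ^ 2) / (4 - x ^ 2)) := ⟨_, rfl⟩
  rw [← hl] at hcount hfib
  obtain ⟨Q, hQ⟩ : ∃ Q : Finset (K × K), Q = Finset.univ.filter
    (fun q => Adm l t (u ^ t) (p - 1) 1 q ∧ orderOf q.2 = p - 1) := ⟨_, rfl⟩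
  have hset : {q : K × K | Adm l t (u ^ t) (p - 1) 1 q ∧ orderOf q.2 = p - 1} =
      (Q : Set (K × K)) := by
    ext q
    rw [hQ]
    simp
  rw [hset, Set.ncard_coe_finset] at hcount
  have hQ2 : ∀ q ∈ Q, q.1 ≠ 0 ∧ q.2 ≠ 0 ∧ q.1 + l / q.1 = q.2 + 1 / q.2 ∧ orderOf q.2 = p - 1 ∧
      ∃ y' z', (x, y', z') ∈ O ∧ algebraMap (ZMod p) K y' = q.1 + l / q.1 := by
    intro q hq
    rw [hQ, Finset.mem_filter] at hq
    obtain ⟨-, ⟨a1, a2, a3, a4, a5⟩, a6⟩ := hq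
    exact ⟨a1, a2, a3, a6, hfib q.1 a4⟩
  choose! Y Z hYZ using fun q (hq : q ∈ Q) => (hQ2 q hq).2.2.2.2
  have hinj : Function.Injective (algebraMap (ZMod p) K) := (algebraMap (ZMod p) K).injective
  obtain ⟨Q', hQ'⟩ : ∃ Q' : Finset (K × K), Q' = Q.filter (fun q => Reg κ (Y q)) := ⟨_, rfl⟩
  have hfibre : ∀ (b : ZMod p), (Q.filter (fun q => (Y q) ^ 2 = b)).card ≤ 16 := by
    intro b
    obtain ⟨F1, hF1, hF1'⟩ := giantaux_four l (algebraMap (ZMod p) K b)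
    obtain ⟨F2, hF2, hF2'⟩ := giantaux_four (1 : K) (algebraMap (ZMod p) K b)
    have hsub : Q.filter (fun q => (Y q) ^ 2 = b) ⊆ F1 ×ˢ F2 := by
      intro q hq
      rw [Finset.mem_filter] at hq
      obtain ⟨hqQ, hqb⟩ := hq
      obtain ⟨a1, a2, a3, a4, -⟩ := hQ2 q hqQ
      have a5 := (hYZ q hqQ).2
      have a6 : (q.1 + l / q.1) ^ 2 = algebraMap (ZMod p) K b := by
        rw [← a5, ← map_pow, hqb]
      rw [Finset.mem_product]
      exact ⟨hF1' _ a1 a6, hF2' _ a2 (by rw [← a3]; exact a6)⟩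
    calc (Q.filter (fun q => (Y q) ^ 2 = b)).card ≤ (F1 ×ˢ F2).card := Finset.card_le_card hsub
      _ = F1.card * F2.card := Finset.card_product _ _
      _ ≤ 4 * 4 := Nat.mul_le_mul hF1 hF2
      _ = 16 := by norm_num
  refine ⟨Q'.image (fun q => (Y q) ^ 2 - 4), ?_, ?_⟩
  · have h5 : Q'.card ≤ 16 * (Q'.image (fun q => (Y q) ^ 2 - 4)).card := by
      refine Finset.card_le_mul_card_image Q' 16 fun a _ => ?_
      refine le_trans (Finset.card_le_card ?_) (hfibre (a + 4))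
      intro q hq
      rw [hQ', Finset.mem_filter, Finset.mem_filter] at hq
      rw [Finset.mem_filter]
      exact ⟨hq.1.1, by rw [← hq.2]; ring⟩
    have h6 : Q.card ≤ Q'.card + 32 := by
      have h7 : Q ⊆ Q' ∪ (Q.filter (fun q => (Y q) ^ 2 = 4) ∪
          Q.filter (fun q => (Y q) ^ 2 = κ)) := by
        intro q hq
        rw [Finset.mem_union, Finset.mem_union, Finset.mem_filter, Finset.mem_filter, hQ',
          Finset.mem_filter]
        by_cases h8 : (Y q) ^ 2 = 4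
        · exact Or.inr (Or.inl ⟨hq, h8⟩)
        · by_cases h9 : (Y q) ^ 2 = κ
          · exact Or.inr (Or.inr ⟨hq, h9⟩)
          · exact Or.inl ⟨hq, h8, h9⟩
      have h8 := (Finset.card_le_card h7).trans ((Finset.card_union_le _ _).trans
        (Nat.add_le_add_left (Finset.card_union_le _ _) _))
      have h9 := hfibre 4
      have h10 := hfibre κ
      omega
    refine hcount.trans ?_
    have h7 : Q.card ≤ 16 * (Q'.image (fun q => (Y q) ^ 2 - 4)).card + 32 := by omega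
    exact_mod_cast h7
  · intro a ha
    rw [Finset.mem_image] at ha
    obtain ⟨q, hq, rfl⟩ := ha
    rw [hQ', Finset.mem_filter] at hq
    obtain ⟨hqQ, hreg⟩ := hq
    obtain ⟨a1, a2, a3, a4, -⟩ := hQ2 q hqQ
    obtain ⟨a5, a6⟩ := hYZ q hqQ
    refine ⟨Y q, x, Z q, hO.swap12 _ _ _ a5, hreg, ⟨q.2, a2, ?_, a4⟩, rfl⟩
    rw [a6, a3, one_div]

end MW
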