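import Pool.Agent.Lib.MP_a542cf_al.FibRot
import Pool.Agent.Lib.MP_a542cf_al.Prim
import Pool.Agent.Lib.MP_a542cf_al.Bilin
import Pool.Agent.Lib.MP_a542cf_al.GiantAux

/-! MW-GiantDisj: two giant invariant sets meet; existence of primitive traces. -/

namespace MW

theorem giantDisj : ∃ p₀ : ℕ, ∀ (p : ℕ) [Fact p.Prime], p₀ ≤ p → ∀ (K : Type) [Field K]
    [Fintype K] [Algebra (ZMod p) K], Fintype.card K = p ^ 2 → ∀ κ : ZMod p, κ ≠ 4 →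
    ∀ O₁ O₂ : Set (ZMod p × ZMod p × ZMod p), Inv O₁ → (∀ v ∈ O₁, OnX κ v) → Inv O₂ →
    (∀ v ∈ O₂, OnX κ v) → IsGiant K p κ O₁ → IsGiant K p κ O₂ → (O₁ ∩ O₂).Nonempty := by
  obtain ⟨p₁, h₁⟩ := giantaux_rich
  refine ⟨max p₁ 1048576, ?_⟩
  intro p _ hp K _ _ _ hK κ hκ O₁ O₂ hO₁ hX₁ hO₂ hX₂ hg₁ hg₂
  simp only [max_le_iff] at hp
  obtain ⟨hp1, hp2⟩ := hp
  by_contra hempty
  have hDv : 1 ≤ Dv p := by
    unfold Dv
    have : 0 < (Nat.divisors (p + 1)).card := Finset.card_pos.2 ⟨1, by simp⟩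
    omega
  have hbig : p < 128 * Dv p * (p - 1) := by
    have h1 : 128 * 1 * (p - 1) ≤ 128 * Dv p * (p - 1) := by gcongr
    omega
  obtain ⟨x₁, y₁, z₁, hv₁, hx₁, ht₁⟩ := hg₁
  obtain ⟨x₂, y₂, z₂, hv₂, hx₂, ht₂⟩ := hg₂
  obtain ⟨A₁, hA₁, hA₁'⟩ := h₁ p hp1 K hK κ hκ O₁ hO₁ hX₁ x₁ y₁ z₁ hv₁ hx₁ (p - 1) ht₁ hbig
  obtain ⟨A₂, hA₂, hA₂'⟩ := h₁ p hp1 K hK κ hκ O₂ hO₂ hX₂ x₂ y₂ z₂ hv₂ hx₂ (p - 1) ht₂ hbig
  have hp2' : p ≠ 2 := by omega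
  have h2 : (2 : ZMod p) ≠ 0 := by
    intro h
    have h3 : ((2 : ℕ) : ZMod p) = 0 := by exact_mod_cast h
    rw [ZMod.natCast_eq_zero_iff] at h3
    have := Nat.le_of_dvd (by norm_num) h3
    omega
  have h4 : (4 : ZMod p) ≠ 0 := by
    have : (4 : ZMod p) = 2 * 2 := by norm_num
    rw [this]
    exact mul_ne_zero h2 h2
  have hn : (4 : ZMod p) * (4 - κ) ≠ 0 := mul_ne_zero h4 (sub_ne_zero.2 hκ.symm)
  have hne₁ : ∀ a ∈ A₁, a ≠ 0 := by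
    intro a ha
    obtain ⟨x', y', z', -, h5, -, rfl⟩ := hA₁' a ha
    exact sub_ne_zero.2 h5.1
  have hne₂ : ∀ a ∈ A₂, a ≠ 0 := by
    intro a ha
    obtain ⟨x', y', z', -, h5, -, rfl⟩ := hA₂' a ha
    exact sub_ne_zero.2 h5.1
  have hbil := bilin p hp2' (4 * (4 - κ)) hn A₁ A₂ hne₁ hne₂ (by
    intro a ha b hb hsq
    obtain ⟨s, hs⟩ := hsq
    obtain ⟨u₁, u₂, u₃, hu, hru, hou, rfl⟩ := hA₁' a ha
    obtain ⟨v₁, v₂, v₃, hv, hrv, hov, rfl⟩ := hA₂' b hb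
    have hon : OnX κ (u₁, v₁, (u₁ * v₁ + s) / 2) := by
      show u₁ ^ 2 + v₁ ^ 2 + ((u₁ * v₁ + s) / 2) ^ 2 - u₁ * v₁ * ((u₁ * v₁ + s) / 2) = κ
      have h5 : ((u₁ * v₁ + s) / 2) ^ 2 - u₁ * v₁ * ((u₁ * v₁ + s) / 2) =
          (s * s - (u₁ * v₁) ^ 2) / 4 := by
        have h6 : (4 : ZMod p) = 2 * 2 := by norm_num
        rw [h6]
        field_simp
        ring
      have h7 : (s * s - (u₁ * v₁) ^ 2) / 4 = κ - u₁ ^ 2 - v₁ ^ 2 := by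
        rw [← hs, div_eq_iff h4]
        ring
      linear_combination h5 + h7
    have hon' : OnX κ (v₁, u₁, (u₁ * v₁ + s) / 2) := by
      have h5 : u₁ ^ 2 + v₁ ^ 2 + ((u₁ * v₁ + s) / 2) ^ 2 - u₁ * v₁ * ((u₁ * v₁ + s) / 2) = κ :=
        hon
      show v₁ ^ 2 + u₁ ^ 2 + ((u₁ * v₁ + s) / 2) ^ 2 - v₁ * u₁ * ((u₁ * v₁ + s) / 2) = κ
      linear_combination h5
    have h8 := fullfib p hp2' K κ hκ O₁ hO₁ hX₁ u₁ u₂ u₃ hu hru hou _ _ hon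
    have h9 := fullfib p hp2' K κ hκ O₂ hO₂ hX₂ v₁ v₂ v₃ hv hrv hov _ _ hon'
    exact hempty ⟨_, h8, hO₂.swap12 _ _ _ h9⟩)
  have hpR : (1048576 : ℝ) ≤ p := by exact_mod_cast hp2
  have hp0 : (0 : ℝ) < p := by linarith
  obtain ⟨P, hP⟩ : ∃ P : ℝ, P = (p : ℝ) ^ (9 / 10 : ℝ) := ⟨_, rfl⟩
  rw [← hP] at hA₁ hA₂
  have hP64 : (64 : ℝ) ≤ P := by
    have h3 : (1048576 : ℝ) ^ (9 / 10 : ℝ) = 262144 := by
      have : (1048576 : ℝ) = (2 : ℝ) ^ (20 : ℝ) := by norm_num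
      rw [this, ← Real.rpow_mul (by norm_num)]
      norm_num
    have h5 : (1048576 : ℝ) ^ (9 / 10 : ℝ) ≤ P := by
      rw [hP]
      exact Real.rpow_le_rpow (by norm_num) hpR (by norm_num)
    linarith
  have hPP : P * P = p * (p : ℝ) ^ (8 / 10 : ℝ) := by
    rw [hP, ← Real.rpow_add hp0]
    nth_rewrite 2 [← Real.rpow_one (p : ℝ)]
    rw [← Real.rpow_add hp0]
    norm_num
  have h08 : (65536 : ℝ) ≤ (p : ℝ) ^ (8 / 10 : ℝ) := by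
    have h3 : (1048576 : ℝ) ^ (8 / 10 : ℝ) = 65536 := by
      have : (1048576 : ℝ) = (2 : ℝ) ^ (20 : ℝ) := by norm_num
      rw [this, ← Real.rpow_mul (by norm_num)]
      norm_num
    rw [← h3]
    exact Real.rpow_le_rpow (by norm_num) hpR (by norm_num)
  have ha₁ : P / 32 ≤ A₁.card := by linarith
  have ha₂ : P / 32 ≤ A₂.card := by linarith
  have hprod : P / 32 * (P / 32) ≤ (A₁.card : ℝ) * A₂.card := by
    have : 0 ≤ P / 32 := by linarith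
    gcongr
  have hbil' : (A₁.card : ℝ) * A₂.card ≤ 2 * p := by exact_mod_cast hbil
  have h10 : P * P ≤ 2048 * p := by nlinarith
  rw [hPP] at h10
  nlinarith

end MW
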