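import Pool.Agent.Lib.MP_a542cf_al.Ord

/-! MW-OpenCard: invariant sets all of whose coordinates have small order are small. -/

namespace MW

private lemma oc_sq {F : Type*} [Field F] [DecidableEq F] [Fintype F] (c : F) :
    (Finset.univ.filter (fun x : F => x ^ 2 = c)).card ≤ 2 := by
  by_cases h : ∃ x0 : F, x0 ^ 2 = c
  · obtain ⟨x0, h0⟩ := h
    refine (Finset.card_le_card (t := {x0, -x0}) ?_).trans Finset.card_le_two
    intro x hx
    rw [Finset.mem_filter] at hx
    rw [Finset.mem_insert, Finset.mem_singleton]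
    have h1 : (x - x0) * (x + x0) = 0 := by linear_combination hx.2 - h0
    rcases mul_eq_zero.1 h1 with h2 | h2
    · exact Or.inl (sub_eq_zero.1 h2)
    · exact Or.inr (eq_neg_of_add_eq_zero_left h2)
  · have h1 : Finset.univ.filter (fun x : F => x ^ 2 = c) = ∅ := by
      rw [Finset.filter_eq_empty_iff]
      intro x _ hx
      exact h ⟨x, hx⟩
    rw [h1]
    simp

private lemma oc_quad {F : Type*} [Field F] [DecidableEq F] [Fintype F] (κ x y : F) :
    (Finset.univ.filter (fun z : F => x ^ 2 + y ^ 2 + z ^ 2 - x * y * z = κ)).card ≤ 2 := by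
  by_cases h : ∃ z0 : F, x ^ 2 + y ^ 2 + z0 ^ 2 - x * y * z0 = κ
  · obtain ⟨z0, h0⟩ := h
    refine (Finset.card_le_card (t := {z0, x * y - z0}) ?_).trans Finset.card_le_two
    intro z hz
    rw [Finset.mem_filter] at hz
    rw [Finset.mem_insert, Finset.mem_singleton]
    have h1 : (z - z0) * (z - (x * y - z0)) = 0 := by linear_combination hz.2 - h0
    rcases mul_eq_zero.1 h1 with h2 | h2
    · exact Or.inl (sub_eq_zero.1 h2)
    · exact Or.inr (sub_eq_zero.1 h2)
  · have h1 : Finset.univ.filter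
        (fun z : F => x ^ 2 + y ^ 2 + z ^ 2 - x * y * z = κ) = ∅ := by
      rw [Finset.filter_eq_empty_iff]
      intro x _ hx
      exact h ⟨x, hx⟩
    rw [h1]
    simp

theorem openCard (p : ℕ) [Fact p.Prime] (hp2 : p ≠ 2) (K : Type) [Field K] [Fintype K]
    [Algebra (ZMod p) K] (hK : Fintype.card K = p ^ 2) (κ : ZMod p)
    (O : Set (ZMod p × ZMod p × ZMod p)) (hO : Inv O) (hX : ∀ v ∈ O, OnX κ v) (T : ℕ)
    (h : ∀ x y z, (x, y, z) ∈ O → Reg κ x → ∀ s, HasOrd K x s → s < T) :
    O.ncard ≤ 2 * (4 + Dv p * T) ^ 2 := by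
  classical
  have hp : p.Prime := Fact.out
  let S : Finset ℕ := ((Nat.divisors (p - 1)) ∪ (Nat.divisors (p + 1))).filter (fun s => s < T)
  have hS : S.card ≤ Dv p := by
    refine (Finset.card_filter_le _ _).trans ?_
    exact Finset.card_union_le _ _
  let W : Finset (ZMod p) := (Finset.univ.filter (fun x : ZMod p => x ^ 2 = 4) ∪
    Finset.univ.filter (fun x : ZMod p => x ^ 2 = κ)) ∪
      S.biUnion (fun s => Finset.univ.filter (fun x : ZMod p => HasOrd K x s))
  have hW : W.card ≤ 4 + Dv p * T := by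
    refine (Finset.card_union_le _ _).trans ?_
    refine add_le_add ?_ ?_
    · refine (Finset.card_union_le _ _).trans ?_
      have h1 := oc_sq (4 : ZMod p)
      have h2 := oc_sq κ
      omega
    · refine (Finset.card_biUnion_le_card_mul S _ T ?_).trans (Nat.mul_le_mul_right T hS)
      intro s hs
      have h1 : s < T := (Finset.mem_filter.1 hs).2
      have h2 := hasOrd_ncard p K s
      rw [← Finset.coe_filter_univ, Set.ncard_coe_finset] at h2
      exact h2.trans h1.le
  have hmem : ∀ x y z, (x, y, z) ∈ O → x ∈ W := by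
    intro x y z hxyz
    by_cases hreg : Reg κ x
    · obtain ⟨t, ht⟩ := hasOrd_exists p K hp2 hK x
      have h1 := h x y z hxyz hreg t ht
      apply Finset.mem_union_right
      rw [Finset.mem_biUnion]
      refine ⟨t, ?_, Finset.mem_filter.2 ⟨Finset.mem_univ _, ht⟩⟩
      rw [Finset.mem_filter, Finset.mem_union, Nat.mem_divisors, Nat.mem_divisors]
      refine ⟨?_, h1⟩
      have h2 := hp.two_le
      rcases hasOrd_dvd p K ht with h3 | h3
      · exact Or.inl ⟨h3, by omega⟩
      · exact Or.inr ⟨h3, by omega⟩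
    · apply Finset.mem_union_left
      unfold Reg at hreg
      rw [not_and_or, not_not, not_not] at hreg
      rcases hreg with h1 | h1
      · exact Finset.mem_union_left _ (Finset.mem_filter.2 ⟨Finset.mem_univ _, h1⟩)
      · exact Finset.mem_union_right _ (Finset.mem_filter.2 ⟨Finset.mem_univ _, h1⟩)
  let U : Finset (ZMod p × ZMod p × ZMod p) := (W ×ˢ W).biUnion (fun q =>
    (Finset.univ.filter (fun z : ZMod p =>
      q.1 ^ 2 + q.2 ^ 2 + z ^ 2 - q.1 * q.2 * z = κ)).image (fun z => (q.1, q.2, z)))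
  have hOU : O ⊆ (U : Set (ZMod p × ZMod p × ZMod p)) := by
    rintro ⟨x, y, z⟩ hv
    rw [Finset.mem_coe, Finset.mem_biUnion]
    refine ⟨(x, y), Finset.mem_product.2 ⟨hmem x y z hv, hmem y x z (hO.swap12 x y z hv)⟩, ?_⟩
    rw [Finset.mem_image]
    exact ⟨z, Finset.mem_filter.2 ⟨Finset.mem_univ _, hX _ hv⟩, rfl⟩
  have h1 : O.ncard ≤ U.card := by
    rw [← Set.ncard_coe_finset]
    exact Set.ncard_le_ncard hOU (Finset.finite_toSet _)
  have h2 : U.card ≤ (W ×ˢ W).card * 2 := by
    apply Finset.card_biUnion_le_card_mul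
    intro q _
    exact Finset.card_image_le.trans (oc_quad κ q.1 q.2)
  rw [Finset.card_product] at h2
  have h3 : W.card * W.card ≤ (4 + Dv p * T) * (4 + Dv p * T) := Nat.mul_le_mul hW hW
  nlinarith

end MW
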