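import Pool.Agent.Lib.MP_a542cf_al.FibRot
import Pool.Agent.Lib.MP_a542cf_al.Prim
import Pool.Agent.Lib.MP_a542cf_al.DvBound
import Pool.Agent.Lib.MP_a542cf_al.GiantAux

/-! MW-ToGiant: an invariant set with a coordinate of very large order is giant. -/

namespace MW

theorem toGiant : ∃ p₀ : ℕ, ∀ (p : ℕ) [Fact p.Prime], p₀ ≤ p → ∀ (K : Type) [Field K]
    [Fintype K] [Algebra (ZMod p) K], Fintype.card K = p ^ 2 → ∀ κ : ZMod p, κ ≠ 4 →
    ∀ O : Set (ZMod p × ZMod p × ZMod p), Inv O → (∀ v ∈ O, OnX κ v) →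
    ∀ x y z, (x, y, z) ∈ O → Reg κ x → ∀ t, HasOrd K x t → p < 128 * Dv p * t →
    IsGiant K p κ O := by
  obtain ⟨p₁, h₁⟩ := giantaux_rich
  refine ⟨max p₁ 1024, ?_⟩
  intro p _ hp K _ _ _ hK κ hκ O hO hX x y z hv hx t ht hpt
  simp only [max_le_iff] at hp
  obtain ⟨A, hA, hA2⟩ := h₁ p hp.1 K hK κ hκ O hO hX x y z hv hx t ht hpt
  have hp1 : (1024 : ℝ) ≤ p := by exact_mod_cast hp.2
  have h2 : (512 : ℝ) ≤ (p : ℝ) ^ (9 / 10 : ℝ) := by
    have h3 : (1024 : ℝ) ^ (9 / 10 : ℝ) = 512 := by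
      have : (1024 : ℝ) = (2 : ℝ) ^ (10 : ℝ) := by norm_num
      rw [this, ← Real.rpow_mul (by norm_num)]
      norm_num
    rw [← h3]
    exact Real.rpow_le_rpow (by norm_num) hp1 (by norm_num)
  have h3 : (0 : ℝ) < A.card := by linarith
  have h4 : 0 < A.card := by exact_mod_cast h3
  obtain ⟨a, ha⟩ := Finset.card_pos.1 h4
  obtain ⟨x', y', z', h5, h6, h7, -⟩ := hA2 a ha
  exact ⟨x', y', z', h5, h6, h7⟩

end MW
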