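import Pool.Agent.Lib.MP_a542cf_al.Middle
import Pool.Agent.Lib.MP_a542cf_al.OpenCard
import Pool.Agent.Lib.MP_a542cf_al.ToGiant
import Pool.Agent.Lib.MP_a542cf_al.GiantDisj
import Pool.Agent.Lib.MP_a542cf_al.ExPrim

/-! MW-Core: the giant orbit of triples. -/

namespace MW

section
variable {F : Type*} [Field F]

private theorem core_onX_inv (κ : F) : Inv {v : F × F × F | OnX κ v} := by
  refine ⟨fun x y z h => ?_, fun x y z h => ?_, fun x y z h => ?_⟩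
  · have h' : x ^ 2 + y ^ 2 + z ^ 2 - x * y * z = κ := h
    show y ^ 2 + x ^ 2 + z ^ 2 - y * x * z = κ
    linear_combination h'
  · have h' : x ^ 2 + y ^ 2 + z ^ 2 - x * y * z = κ := h
    show x ^ 2 + z ^ 2 + y ^ 2 - x * z * y = κ
    linear_combination h'
  · have h' : x ^ 2 + y ^ 2 + z ^ 2 - x * y * z = κ := h
    show x ^ 2 + y ^ 2 + (x * y - z) ^ 2 - x * y * (x * y - z) = κ
    linear_combination h'

private theorem core_compl {O : Set (F × F × F)} (h : Inv O) : Inv Oᶜ := by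
  refine ⟨fun x y z h1 h2 => h1 (h.swap12 _ _ _ h2), fun x y z h1 h2 => h1 (h.swap23 _ _ _ h2),
    fun x y z h1 h2 => h1 ?_⟩
  have h3 := h.vieta _ _ _ h2
  rwa [sub_sub_cancel] at h3

private theorem core_inter {O O' : Set (F × F × F)} (h : Inv O) (h' : Inv O') : Inv (O ∩ O') :=
  ⟨fun x y z h1 => ⟨h.swap12 _ _ _ h1.1, h'.swap12 _ _ _ h1.2⟩,
    fun x y z h1 => ⟨h.swap23 _ _ _ h1.1, h'.swap23 _ _ _ h1.2⟩,
    fun x y z h1 => ⟨h.vieta _ _ _ h1.1, h'.vieta _ _ _ h1.2⟩⟩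

private def core_orb (v : F × F × F) : Set (F × F × F) := {u | ∀ O, Inv O → v ∈ O → u ∈ O}

private theorem core_orb_inv (v : F × F × F) : Inv (core_orb v) :=
  ⟨fun x y z h O hO hv => hO.swap12 _ _ _ (h O hO hv),
    fun x y z h O hO hv => hO.swap23 _ _ _ (h O hO hv),
    fun x y z h O hO hv => hO.vieta _ _ _ (h O hO hv)⟩

private theorem core_orb_min (v : F × F × F) (O : Set (F × F × F)) (hO : Inv O)
    (h : (O ∩ core_orb v).Nonempty) : core_orb v ⊆ O := by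
  by_cases hv : v ∈ O
  · exact fun u hu => hu O hO hv
  · obtain ⟨u, hu, hu'⟩ := h
    exact absurd hu (hu' Oᶜ (core_compl hO) hv)

end

private theorem core_point (p : ℕ) [Fact p.Prime] (hp2 : p ≠ 2) (κ x : ZMod p) (hx : Reg κ x) :
    ∃ y z, OnX κ (x, y, z) := by
  have h2 : (2 : ZMod p) ≠ 0 := by
    intro h
    have h3 : ((2 : ℕ) : ZMod p) = 0 := by exact_mod_cast h
    rw [ZMod.natCast_eq_zero_iff] at h3
    have h4 := Nat.le_of_dvd (by norm_num) h3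
    have h5 := (Fact.out : p.Prime).two_le
    omega
  have h4 : (4 : ZMod p) ≠ 0 := by
    have : (4 : ZMod p) = 2 * 2 := by norm_num
    rw [this]
    exact mul_ne_zero h2 h2
  have hc : (1 - x ^ 2 / 4 : ZMod p) ≠ 0 := by
    intro h
    apply hx.1
    rw [sub_eq_zero, eq_div_iff h4] at h
    linear_combination -h
  have hcard : Fintype.card (ZMod p) % 2 = 1 := by
    rw [ZMod.card]
    exact (Fact.out : p.Prime).eq_two_or_odd.resolve_left hp2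
  obtain ⟨a, b, hab⟩ := FiniteField.exists_root_sum_quadratic (R := ZMod p)
    (f := Polynomial.X ^ 2) (g := Polynomial.C (1 - x ^ 2 / 4) * Polynomial.X ^ 2 +
      Polynomial.C 0 * Polynomial.X + Polynomial.C (x ^ 2 - κ))
    (Polynomial.degree_X_pow 2) (Polynomial.degree_quadratic hc) hcard
  refine ⟨a + x * b / 2, b, ?_⟩
  simp only [Polynomial.eval_add, Polynomial.eval_mul, Polynomial.eval_pow, Polynomial.eval_X,
    Polynomial.eval_C] at hab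
  show x ^ 2 + (a + x * b / 2) ^ 2 + b ^ 2 - x * (a + x * b / 2) * b = κ
  have h6 : (a + x * b / 2) ^ 2 + b ^ 2 - x * (a + x * b / 2) * b =
      a ^ 2 + (1 - x ^ 2 / 4) * b ^ 2 := by
    have h7 : (4 : ZMod p) = 2 * 2 := by norm_num
    rw [h7]
    field_simp
    ring
  linear_combination h6 + hab

theorem core : ∃ p₀ : ℕ, ∀ (p : ℕ) [Fact p.Prime], p₀ ≤ p → ∀ (K : Type) [Field K]
    [Fintype K] [Algebra (ZMod p) K], Fintype.card K = p ^ 2 → ∀ κ : ZMod p, κ ≠ 4 →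
    ∃ G : Set (ZMod p × ZMod p × ZMod p), Inv G ∧ (∀ v ∈ G, OnX κ v) ∧ G.Nonempty ∧
      (∀ O, Inv O → (O ∩ G).Nonempty → G ⊆ O) ∧
      (∀ O, Inv O → (∀ v ∈ O, OnX κ v) → Disjoint O G → O.ncard ≤ 2 ^ 70 * (Dv p) ^ 12) ∧
      (∀ x y z, OnX κ (x, y, z) → Reg κ x → ∀ t, HasOrd K x t → 2 ^ 31 * (Dv p) ^ 5 ≤ t →
        (x, y, z) ∈ G) := by
  obtain ⟨p₁, h₁⟩ := toGiant
  obtain ⟨p₂, h₂⟩ := giantDisj
  obtain ⟨p₃, h₃⟩ := exPrim
  obtain ⟨p₄, h₄⟩ := dvBound 5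
  refine ⟨max (max p₁ p₂) (max (max p₃ p₄) (2 ^ 120)), ?_⟩
  intro p _ hp K _ _ _ hK κ hκ
  simp only [max_le_iff] at hp
  obtain ⟨⟨hp1, hp2⟩, ⟨hp3, hp4⟩, hp5⟩ := hp
  have hp2' : p ≠ 2 := by
    have : 2 < 2 ^ 120 := by norm_num
    omega
  have hDv : 1 ≤ Dv p := by
    unfold Dv
    have : 0 < (Nat.divisors (p + 1)).card := Finset.card_pos.2 ⟨1, by simp⟩
    omega
  have hDp : 2 ^ 24 * (Dv p) ^ 4 ≤ p := by
    have h5 : (2 ^ 24 * (Dv p) ^ 4) ^ 5 ≤ p ^ 5 := by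
      calc (2 ^ 24 * (Dv p) ^ 4) ^ 5 = 2 ^ 120 * (Dv p ^ 5) ^ 4 := by ring
        _ ≤ p * p ^ 4 := Nat.mul_le_mul hp5 (Nat.pow_le_pow_left (h₄ p hp4) 4)
        _ = p ^ 5 := by ring
    exact (Nat.pow_le_pow_iff_left (by norm_num)).1 h5
  -- (i)
  have hgiant : ∀ O : Set (ZMod p × ZMod p × ZMod p), Inv O → (∀ v ∈ O, OnX κ v) →
      ∀ x y z, (x, y, z) ∈ O → Reg κ x → ∀ t, HasOrd K x t → 2 ^ 31 * (Dv p) ^ 5 ≤ t →
      IsGiant K p κ O := by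
    intro O hO hX x y z hv hx t ht htT
    obtain ⟨P, hP⟩ : ∃ P : ℕ → Prop, P = fun s => ∃ x y z, (x, y, z) ∈ O ∧ Reg κ x ∧
      HasOrd K x s := ⟨_, rfl⟩
    classical
    have hPt : P t := by rw [hP]; exact ⟨x, y, z, hv, hx, ht⟩
    have hbd : ∀ s, P s → s ≤ p + 1 := by
      intro s hs
      rw [hP] at hs
      obtain ⟨x', y', z', -, -, h5⟩ := hs
      have hpp := (Fact.out : p.Prime).two_le
      rcases hasOrd_dvd p K h5 with h6 | h6
      · exact (Nat.le_of_dvd (by omega) h6).trans (by omega)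
      · exact Nat.le_of_dvd (by omega) h6
    have hmax1 : P (Nat.findGreatest P (p + 1)) := Nat.findGreatest_spec (hbd t hPt) hPt
    have hmax2 : ∀ s, P s → s ≤ Nat.findGreatest P (p + 1) := fun s hs =>
      Nat.le_findGreatest (hbd s hs) hs
    obtain ⟨T, hT⟩ : ∃ T : ℕ, T = Nat.findGreatest P (p + 1) := ⟨_, rfl⟩
    rw [← hT] at hmax1 hmax2
    rw [hP] at hmax1
    obtain ⟨x', y', z', h5, h6, h7⟩ := hmax1
    rcases middle p hp2' K hK κ hκ O hO hX hDp x' y' z' h5 h6 T h7 (by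
      intro a b c habc ha s hs
      exact hmax2 s (by rw [hP]; exact ⟨a, b, c, habc, ha, hs⟩)) with h8 | h8
    · exact absurd (htT.trans (hmax2 t hPt)) (not_le.2 h8)
    · exact h₁ p hp1 K hK κ hκ O hO hX x' y' z' h5 h6 T h7 h8
  obtain ⟨x₀, hx₀, hord₀⟩ := h₃ p hp3 K hK κ
  obtain ⟨y₀, z₀, hon₀⟩ := core_point p hp2' κ x₀ hx₀
  have hbase : (x₀, y₀, z₀) ∈ core_orb (x₀, y₀, z₀) := fun O _ h => h
  have hGX : ∀ v ∈ core_orb (x₀, y₀, z₀), OnX κ v := fun v hv =>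
    hv {v | OnX κ v} (core_onX_inv κ) hon₀
  have hGinv := core_orb_inv (x₀, y₀, z₀)
  have hGg : IsGiant K p κ (core_orb (x₀, y₀, z₀)) := ⟨x₀, y₀, z₀, hbase, hx₀, hord₀⟩
  refine ⟨core_orb (x₀, y₀, z₀), hGinv, hGX, ⟨_, hbase⟩, core_orb_min _, ?_, ?_⟩
  · intro O hO hX hdis
    have hnot : ¬ IsGiant K p κ O := by
      intro hg
      obtain ⟨v, hv1, hv2⟩ := h₂ p hp2 K hK κ hκ O _ hO hX hGinv hGX hg hGg
      exact Set.disjoint_left.1 hdis hv1 hv2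
    have hlow : ∀ x y z, (x, y, z) ∈ O → Reg κ x → ∀ s, HasOrd K x s →
        s < 2 ^ 31 * (Dv p) ^ 5 := by
      intro x y z hv hx s hs
      by_contra hcon
      exact hnot (hgiant O hO hX x y z hv hx s hs (not_lt.1 hcon))
    refine (openCard p hp2' K hK κ O hO hX _ hlow).trans ?_
    have h5 : 4 + Dv p * (2 ^ 31 * Dv p ^ 5) ≤ 2 ^ 32 * Dv p ^ 6 := by
      have h6 : 1 ≤ Dv p ^ 6 := Nat.one_le_pow _ _ hDv
      have h7 : Dv p * (2 ^ 31 * Dv p ^ 5) = 2 ^ 31 * Dv p ^ 6 := by ring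
      rw [h7]
      omega
    calc 2 * (4 + Dv p * (2 ^ 31 * Dv p ^ 5)) ^ 2 ≤ 2 * (2 ^ 32 * Dv p ^ 6) ^ 2 := by gcongr
      _ = 2 ^ 65 * Dv p ^ 12 := by ring
      _ ≤ 2 ^ 70 * Dv p ^ 12 := by gcongr <;> norm_num
  · intro x y z hon hx t ht htT
    by_contra hcon
    have hO' : Inv ({v | OnX κ v} ∩ (core_orb (x₀, y₀, z₀))ᶜ) :=
      core_inter (core_onX_inv κ) (core_compl hGinv)
    have hg := hgiant _ hO' (fun v hv => hv.1) x y z ⟨hon, hcon⟩ hx t ht htT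
    obtain ⟨v, hv1, hv2⟩ := h₂ p hp2 K hK κ hκ _ _ hO' (fun v hv => hv.1) hGinv hGX hg hGg
    exact hv1.2 hv2

end MW
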