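import Pool.Agent.Lib.MP_a542cf_al.Ord

/-! MW-CountTotal: total number of points of the two tori on `h + l/h = η + 1/η`. -/

namespace MW

section CountTotal

open Finset

private theorem ct_nth_le {K : Type} [Field K] [Fintype K] [DecidableEq K] (e : ℕ) (he : 0 < e)
    (g : K) : (univ.filter fun x : K => x ^ e = g).card ≤ e := by
  have h1 : (univ.filter fun x : K => x ^ e = g) ⊆ (Polynomial.nthRoots e g).toFinset := by
    intro x hx
    rw [Multiset.mem_toFinset, Polynomial.mem_nthRoots he]
    exact (mem_filter.mp hx).2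
  exact (card_le_card h1).trans ((Multiset.toFinset_card_le _).trans (Polynomial.card_nthRoots e g))

private theorem ct_units {p : ℕ} [Fact p.Prime] {K : Type} [Field K] [Fintype K] [DecidableEq K]
    [Algebra (ZMod p) K] :
    (univ.filter fun z : K => z ^ (p - 1) = 1) =
      (univ.filter fun x : ZMod p => x ≠ 0).image (algebraMap (ZMod p) K) := by
  have hp := (Fact.out : p.Prime).two_le
  symm
  apply eq_of_subset_of_card_le
  · intro z hz
    obtain ⟨x, hx, rfl⟩ := mem_image.mp hz
    rw [mem_filter]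
    refine ⟨mem_univ _, ?_⟩
    rw [← map_pow, ZMod.pow_card_sub_one_eq_one (mem_filter.mp hx).2, map_one]
  · rw [card_image_of_injective _ (algebraMap (ZMod p) K).injective]
    have h1 : (univ.filter fun x : ZMod p => x ≠ 0).card = p - 1 := by
      rw [filter_ne' univ (0 : ZMod p), card_erase_of_mem (mem_univ _), card_univ, ZMod.card]
    rw [h1]
    exact ct_nth_le (p - 1) (by omega) 1

private theorem ct_card_units {p : ℕ} [Fact p.Prime] {K : Type} [Field K] [Fintype K]
    [DecidableEq K] [Algebra (ZMod p) K] :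
    (univ.filter fun z : K => z ^ (p - 1) = 1).card = p - 1 := by
  rw [ct_units, card_image_of_injective _ (algebraMap (ZMod p) K).injective,
    filter_ne' univ (0 : ZMod p), card_erase_of_mem (mem_univ _), card_univ, ZMod.card]

private theorem ct_range {p : ℕ} [Fact p.Prime] {K : Type} [Field K] [Fintype K]
    [Algebra (ZMod p) K] (z : K) (hz : z ^ p = z) : ∃ x : ZMod p, algebraMap (ZMod p) K x = z := by
  have : DecidableEq K := Classical.decEq K
  by_cases h0 : z = 0
  · exact ⟨0, by rw [map_zero, h0]⟩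
  · have hp := (Fact.out : p.Prime).two_le
    have h1 : z ^ (p - 1) = 1 := by
      have h2 : z ^ (p - 1) * z = 1 * z := by
        rw [← pow_succ, one_mul]
        have : p - 1 + 1 = p := by omega
        rw [this, hz]
      exact mul_right_cancel₀ h0 h2
    have h3 : z ∈ univ.filter fun z : K => z ^ (p - 1) = 1 := mem_filter.mpr ⟨mem_univ _, h1⟩
    rw [ct_units (p := p)] at h3
    obtain ⟨x, _, hx⟩ := mem_image.mp h3
    exact ⟨x, hx⟩

/-- the norm fibres have `p + 1` elements -/
private theorem ct_card_norm {p : ℕ} [Fact p.Prime] {K : Type} [Field K] [Fintype K]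
    [DecidableEq K] [Algebra (ZMod p) K] (hK : Fintype.card K = p ^ 2) (l : ZMod p) (hl : l ≠ 0) :
    (univ.filter fun z : K => z ^ (p + 1) = algebraMap (ZMod p) K l).card = p + 1 := by
  have hp := (Fact.out : p.Prime).two_le
  have hle : ∀ x : ZMod p,
      (univ.filter fun z : K => z ^ (p + 1) = algebraMap (ZMod p) K x).card ≤ p + 1 :=
    fun x => ct_nth_le (p + 1) (by omega) _
  have hsum : ∑ x ∈ univ.filter (fun x : ZMod p => x ≠ 0),
      (univ.filter fun z : K => z ^ (p + 1) = algebraMap (ZMod p) K x).card = p ^ 2 - 1 := by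
    rw [← card_biUnion]
    · have h1 : (univ.filter (fun x : ZMod p => x ≠ 0)).biUnion
          (fun x => univ.filter fun z : K => z ^ (p + 1) = algebraMap (ZMod p) K x) =
          univ.erase (0 : K) := by
        ext z
        rw [mem_biUnion, mem_erase]
        constructor
        · rintro ⟨x, hx, hz⟩
          refine ⟨fun h => ?_, mem_univ _⟩
          have h2 := (mem_filter.mp hz).2
          rw [h, zero_pow (by omega)] at h2
          exact (mem_filter.mp hx).2 (((map_eq_zero _).mp h2.symm))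
        · rintro ⟨h0, _⟩
          have h2 : (z ^ (p + 1)) ^ (p - 1) = 1 := by
            rw [← pow_mul]
            have h3 : (p + 1) * (p - 1) = Fintype.card K - 1 := by
              rw [hK]
              zify [show 1 ≤ p by omega, show 1 ≤ p ^ 2 by nlinarith]
              ring
            rw [h3]
            exact FiniteField.pow_card_sub_one_eq_one z h0
          have h3 : z ^ (p + 1) ∈ univ.filter fun z : K => z ^ (p - 1) = 1 :=
            mem_filter.mpr ⟨mem_univ _, h2⟩
          rw [ct_units (p := p)] at h3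
          obtain ⟨x, hx, hx2⟩ := mem_image.mp h3
          exact ⟨x, hx, mem_filter.mpr ⟨mem_univ _, hx2.symm⟩⟩
      rw [h1, card_erase_of_mem (mem_univ _), card_univ, hK]
    · intro x _ y _ hxy
      rw [Function.onFun, disjoint_left]
      intro z hz hz'
      apply hxy
      apply (algebraMap (ZMod p) K).injective
      rw [← (mem_filter.mp hz).2, ← (mem_filter.mp hz').2]
  by_contra hne
  have hlt : (univ.filter fun z : K => z ^ (p + 1) = algebraMap (ZMod p) K l).card < p + 1 :=
    lt_of_le_of_ne (hle l) hne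
  have h1 : ∑ x ∈ univ.filter (fun x : ZMod p => x ≠ 0),
      (univ.filter fun z : K => z ^ (p + 1) = algebraMap (ZMod p) K x).card <
      ∑ _x ∈ univ.filter (fun x : ZMod p => x ≠ 0), (p + 1) :=
    sum_lt_sum (fun x _ => hle x) ⟨l, mem_filter.mpr ⟨mem_univ _, hl⟩, hlt⟩
  rw [hsum, sum_const, filter_ne' univ (0 : ZMod p), card_erase_of_mem (mem_univ _), card_univ,
    ZMod.card, smul_eq_mul] at h1
  have h3 : (p - 1) * (p + 1) = p ^ 2 - 1 := by
    zify [show 1 ≤ p by omega, show 1 ≤ p ^ 2 by nlinarith]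
    ring
  omega

/-- every value in the prime field has two preimages in the two tori together -/
private theorem ct_two {p : ℕ} [Fact p.Prime] (hp2 : p ≠ 2) {K : Type} [Field K] [Fintype K]
    [DecidableEq K] [Algebra (ZMod p) K] (hK : Fintype.card K = p ^ 2) (y : K) (hy : y ^ p = y) :
    (univ.filter fun n : K => n ≠ 0 ∧ y = n + 1 / n ∧ n ^ (p - 1) = 1).card +
      (univ.filter fun n : K => n ≠ 0 ∧ y = n + 1 / n ∧ n ^ (p + 1) = 1).card = 2 := by
  have hp : p.Prime := Fact.out
  obtain ⟨x, hx⟩ := ct_range (p := p) y hy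
  obtain ⟨t, w, hw0, hw, _⟩ := hasOrd_exists p K hp2 hK x
  rw [hx] at hw
  have hsol : ∀ n : K, n ≠ 0 ∧ y = n + 1 / n ↔ n = w ∨ n = w⁻¹ := by
    intro n
    constructor
    · rintro ⟨hn, h⟩
      have h1 : (n - w) * (n - w⁻¹) = 0 := by
        have h2 : n + n⁻¹ = w + w⁻¹ := by rw [hw, h, one_div]
        have h3 : (n - w) * (n - w⁻¹) = n * (n + n⁻¹ - (w + w⁻¹)) + (w * w⁻¹ - n * n⁻¹) := by ring
        rw [h3, h2, sub_self, mul_zero, mul_inv_cancel₀ hw0, mul_inv_cancel₀ hn, sub_self, add_zero]
      rcases mul_eq_zero.mp h1 with h2 | h2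
      · exact Or.inl (sub_eq_zero.mp h2)
      · exact Or.inr (sub_eq_zero.mp h2)
    · rintro (rfl | rfl)
      · exact ⟨hw0, by rw [one_div, hw]⟩
      · exact ⟨inv_ne_zero hw0, by rw [one_div, inv_inv, add_comm, hw]⟩
  have hset : ∀ s : ℕ, (univ.filter fun n : K => n ≠ 0 ∧ y = n + 1 / n ∧ n ^ s = 1) =
      if w ^ s = 1 then {w, w⁻¹} else ∅ := by
    intro s
    ext n
    rw [mem_filter]
    constructor
    · rintro ⟨_, h0, h1, h2⟩
      rcases (hsol n).mp ⟨h0, h1⟩ with h | h
      · rw [h] at h2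
        rw [if_pos h2, h]
        exact mem_insert_self _ _
      · have h3 : w ^ s = 1 := by
          rw [h, inv_pow, inv_eq_one] at h2
          exact h2
        rw [if_pos h3, h]
        exact mem_insert_of_mem (mem_singleton_self _)
    · intro hn
      by_cases h3 : w ^ s = 1
      · rw [if_pos h3] at hn
        have h4 : n = w ∨ n = w⁻¹ := by simpa using hn
        obtain ⟨h0, h1⟩ := (hsol n).mpr h4
        refine ⟨mem_univ _, h0, h1, ?_⟩
        rcases h4 with h | h
        · rw [h, h3]
        · rw [h, inv_pow, h3, inv_one]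
      · rw [if_neg h3] at hn
        exact absurd hn (notMem_empty _)
  rw [hset, hset]
  have hpodd : p % 2 = 1 := by
    rcases hp.eq_two_or_odd with h | h
    · exact absurd h hp2
    · exact h
  have h2le := hp.two_le
  by_cases hsq : w ^ 2 = 1
  · have hwi : w⁻¹ = w := by
      exact inv_eq_of_mul_eq_one_left (by rw [← sq]; exact hsq)
    have h1 : w ^ (p - 1) = 1 := by
      obtain ⟨k, hk⟩ : 2 ∣ p - 1 := by omega
      rw [hk, pow_mul, hsq, one_pow]
    have h2 : w ^ (p + 1) = 1 := by
      obtain ⟨k, hk⟩ : 2 ∣ p + 1 := by omega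
      rw [hk, pow_mul, hsq, one_pow]
    rw [if_pos h1, if_pos h2, hwi]
    simp
  · have hne : w ≠ w⁻¹ := by
      intro h
      apply hsq
      rw [sq]
      exact mul_eq_one_iff_eq_inv₀ hw0 |>.mpr h
    have hcard : ({w, w⁻¹} : Finset K).card = 2 := card_pair hne
    have hnb : ¬ (w ^ (p - 1) = 1 ∧ w ^ (p + 1) = 1) := by
      rintro ⟨h1, h2⟩
      apply hsq
      have h3 : p + 1 = (p - 1) + 2 := by omega
      rw [h3, pow_add, h1, one_mul] at h2
      exact h2
    rcases ord_type p K hw0 (hw.trans hx.symm) with h1 | h1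
    · rw [if_pos h1, if_neg fun h2 => hnb ⟨h1, h2⟩, hcard]
      rfl
    · rw [if_neg fun h2 => hnb ⟨h2, h1⟩, if_pos h1, hcard]
      rfl

private theorem ct_sum {p : ℕ} [Fact p.Prime] (hp2 : p ≠ 2) {K : Type} [Field K] [Fintype K]
    [DecidableEq K] [Algebra (ZMod p) K] (hK : Fintype.card K = p ^ 2) (l g : K) (t : ℕ)
    (ht : 0 < t) (hg : g ≠ 0) (hy : ∀ h : K, h ≠ 0 → h ^ t = g → (h + l / h) ^ p = h + l / h) :
    {q : K × K | Adm l t g (p - 1) 1 q}.ncard + {q : K × K | Adm l t g (p + 1) 1 q}.ncard =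
      2 * (univ.filter fun z : K => z ^ t = g).card := by
  classical
  have hN : ∀ s : ℕ, {q : K × K | Adm l t g s 1 q}.ncard =
      ∑ h ∈ univ.filter (fun z : K => z ^ t = g),
        (univ.filter fun n : K => n ≠ 0 ∧ h + l / h = n + 1 / n ∧ n ^ s = 1).card := by
    intro s
    have h1 : {q : K × K | Adm l t g s 1 q} =
        (((univ.filter (fun z : K => z ^ t = g)).sigma fun h =>
          univ.filter fun n : K => n ≠ 0 ∧ h + l / h = n + 1 / n ∧ n ^ s = 1).map
          (Equiv.sigmaEquivProd K K).toEmbedding : Finset (K × K)) := by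
      ext ⟨h, n⟩
      simp only [Set.mem_ofPred_eq, coe_map, Set.mem_image, mem_coe, mem_sigma, mem_filter,
        mem_univ, true_and, Adm]
      constructor
      · rintro ⟨a, b, c, d, e⟩
        exact ⟨⟨h, n⟩, ⟨d, b, c, e⟩, rfl⟩
      · rintro ⟨⟨h', n'⟩, ⟨d, b, c, e⟩, heq⟩
        have h2 : (h', n') = (h, n) := heq
        rw [Prod.mk.injEq] at h2
        obtain ⟨rfl, rfl⟩ := h2
        refine ⟨fun h0 => ?_, b, c, d, e⟩
        have h3 : h' = 0 := h0
        rw [h3, zero_pow ht.ne'] at d
        exact hg d.symm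
    rw [h1, Set.ncard_coe_finset, card_map, card_sigma]
  rw [hN, hN, ← sum_add_distrib]
  have h2 : ∀ h ∈ univ.filter (fun z : K => z ^ t = g),
      (univ.filter fun n : K => n ≠ 0 ∧ h + l / h = n + 1 / n ∧ n ^ (p - 1) = 1).card +
      (univ.filter fun n : K => n ≠ 0 ∧ h + l / h = n + 1 / n ∧ n ^ (p + 1) = 1).card = 2 := by
    intro h hh
    have h3 := (mem_filter.mp hh).2
    refine ct_two hp2 hK _ (hy h (fun h0 => ?_) h3)
    rw [h0, zero_pow ht.ne'] at h3
    exact hg h3.symm
  rw [sum_congr rfl h2, sum_const, smul_eq_mul, mul_comm]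

theorem countTotal (p : ℕ) [Fact p.Prime] (hp2 : p ≠ 2) (K : Type) [Field K] [Fintype K]
    [Algebra (ZMod p) K] (hK : Fintype.card K = p ^ 2) (l : ZMod p) (hl : l ≠ 0) :
    {q : K × K | Adm (algebraMap (ZMod p) K l) (p - 1) 1 (p - 1) 1 q}.ncard +
      {q : K × K | Adm (algebraMap (ZMod p) K l) (p - 1) 1 (p + 1) 1 q}.ncard = 2 * (p - 1) ∧
    {q : K × K | Adm (algebraMap (ZMod p) K l) (p + 1) (algebraMap (ZMod p) K l)
        (p - 1) 1 q}.ncard +
      {q : K × K | Adm (algebraMap (ZMod p) K l) (p + 1) (algebraMap (ZMod p) K l)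
        (p + 1) 1 q}.ncard = 2 * (p + 1) := by
  have : DecidableEq K := Classical.decEq K
  have hp : p.Prime := Fact.out
  have h2le := hp.two_le
  have : CharP K p := charP_of_injective_algebraMap (algebraMap (ZMod p) K).injective p
  have hl0 : algebraMap (ZMod p) K l ≠ 0 := by
    rw [Ne, map_eq_zero]
    exact hl
  have hlp : (algebraMap (ZMod p) K l) ^ p = algebraMap (ZMod p) K l := by
    rw [← map_pow, ZMod.pow_card]
  constructor
  · rw [ct_sum hp2 hK (algebraMap (ZMod p) K l) 1 (p - 1) (by omega) one_ne_zero,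
      ct_card_units]
    intro h h0 h1
    have h2 : h ^ p = h := by
      have h3 : p = (p - 1) + 1 := by omega
      conv_lhs => rw [h3]
      rw [pow_succ, h1, one_mul]
    rw [add_pow_char, div_pow, hlp, h2]
  · rw [ct_sum hp2 hK (algebraMap (ZMod p) K l) _ (p + 1) (by omega) hl0,
      ct_card_norm hK l hl]
    intro h h0 h1
    have h2 : algebraMap (ZMod p) K l / h = h ^ p := by
      rw [div_eq_iff h0, ← pow_succ, h1]
    have h3 : (h ^ p) ^ p = h := by
      rw [← pow_mul, ← sq, ← hK]
      exact FiniteField.pow_card h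
    rw [h2, add_pow_char, h3, add_comm]

end CountTotal

end MW
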