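import Mathlib

/-!
# Nielsen orbits of generating pairs of SL_2(F_p): definitions (problem MP_a542cf_al)
-/

namespace MW

open Matrix

/-- points `(x, y, z)` of the surface `X_κ : x^2 + y^2 + z^2 - xyz = κ` -/
def OnX {F : Type*} [Field F] (κ : F) (v : F × F × F) : Prop :=
  v.1 ^ 2 + v.2.1 ^ 2 + v.2.2 ^ 2 - v.1 * v.2.1 * v.2.2 = κ

/-- a set of triples which is stable under permutations of the coordinates and the Vieta
involution -/
structure Inv {F : Type*} [Field F] (O : Set (F × F × F)) : Prop where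
  swap12 : ∀ x y z, (x, y, z) ∈ O → (y, x, z) ∈ O
  swap23 : ∀ x y z, (x, y, z) ∈ O → (x, z, y) ∈ O
  vieta : ∀ x y z, (x, y, z) ∈ O → (x, y, x * y - z) ∈ O

/-- regular coordinates at `κ` -/
def Reg {F : Type*} [Field F] (κ x : F) : Prop := x ^ 2 ≠ 4 ∧ x ^ 2 ≠ κ

/-- `x = w + 1/w` with `w` in `K` of multiplicative order `t` -/
def HasOrd {F : Type*} (K : Type*) [Field F] [Field K] [Algebra F K] (x : F) (t : ℕ) : Prop :=
  ∃ w : K, w ≠ 0 ∧ w + w⁻¹ = algebraMap F K x ∧ orderOf w = t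

/-- the points `(h, η)` of the curve `h + l/h = η + 1/η` with `h^t = c`, `η^s = c'` -/
def Adm {K : Type*} [Field K] (l : K) (t : ℕ) (c : K) (s : ℕ) (c' : K) (q : K × K) : Prop :=
  q.1 ≠ 0 ∧ q.2 ≠ 0 ∧ q.1 + l / q.1 = q.2 + 1 / q.2 ∧ q.1 ^ t = c ∧ q.2 ^ s = c'

/-- `h^t = c` is a coset of the group of `t`-th roots of unity in the split torus (`F_p^*`) or in
the torsor `h^(p+1) = l`; the index is `e` -/
def TypeC {K : Type*} [Field K] (p : ℕ) (l c : K) (t e : ℕ) : Prop :=
  (t * e = p - 1 ∧ c ^ e = 1) ∨ (t * e = p + 1 ∧ c ^ e = l)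

/-- number of divisors of `p-1` plus number of divisors of `p+1` -/
def Dv (p : ℕ) : ℕ := (Nat.divisors (p - 1)).card + (Nat.divisors (p + 1)).card

/-- a set of triples containing a point with regular first coordinate of order `p-1` -/
def IsGiant {F : Type*} (K : Type*) [Field F] [Field K] [Algebra F K] (p : ℕ) (κ : F)
    (O : Set (F × F × F)) : Prop :=
  ∃ x y z, (x, y, z) ∈ O ∧ Reg κ x ∧ HasOrd K x (p - 1)

/-- `SL_2` -/
abbrev SL2 (F : Type*) [Field F] := Matrix.SpecialLinearGroup (Fin 2) F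

/-- trace of an element of `SL_2` -/
def tr {F : Type*} [Field F] (A : SL2 F) : F := Matrix.trace (A : Matrix (Fin 2) (Fin 2) F)

/-- the trace triple of a pair -/
def triple {F : Type*} [Field F] (P : SL2 F × SL2 F) : F × F × F :=
  (tr P.1, tr P.2, tr (P.1 * P.2))

/-- the level of a pair: the trace of the commutator `A B A⁻¹ B⁻¹` -/
def lev {F : Type*} [Field F] (P : SL2 F × SL2 F) : F := tr (P.1 * P.2 * P.1⁻¹ * P.2⁻¹)

/-- generating pairs -/
def IsGen {F : Type*} [Field F] (P : SL2 F × SL2 F) : Prop :=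
  Subgroup.closure ({P.1, P.2} : Set (SL2 F)) = ⊤

/-- elementary Nielsen moves -/
inductive Move {F : Type*} [Field F] : SL2 F × SL2 F → SL2 F × SL2 F → Prop
  | swap (A B : SL2 F) : Move (A, B) (B, A)
  | inv (A B : SL2 F) : Move (A, B) (A⁻¹, B)
  | mul (A B : SL2 F) : Move (A, B) (A * B, B)

/-- Nielsen equivalence: same orbit under the group generated by the Nielsen moves -/
def NEquiv {F : Type*} [Field F] (P Q : SL2 F × SL2 F) : Prop := Relation.EqvGen Move P Q

/-- the set of Nielsen orbits of generating pairs at level `k` -/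
def orbitsAt (p : ℕ) [Fact p.Prime] (k : ZMod p) :
    Set (Set (SL2 (ZMod p) × SL2 (ZMod p))) :=
  {S | ∃ P, IsGen P ∧ lev P = k ∧ S = {Q | NEquiv P Q}}

/-- number of Nielsen orbits of generating pairs at level `k` -/
noncomputable def numOrbits (p : ℕ) [Fact p.Prime] (k : ZMod p) : ℕ := (orbitsAt p k).ncard

open Classical in
/-- the number of orbits predicted by McCullough and Wanderley at level `k ≠ 2` -/
noncomputable def expected (p : ℕ) [Fact p.Prime] (k : ZMod p) : ℕ :=
  if k = -2 ∧ p % 4 = 1 then 2 else 1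

/-- conjugation of a pair by an invertible matrix -/
def ConjBy {F : Type*} [Field F] (X : Matrix (Fin 2) (Fin 2) F) (P Q : SL2 F × SL2 F) : Prop :=
  X * (P.1 : Matrix (Fin 2) (Fin 2) F) = (Q.1 : Matrix (Fin 2) (Fin 2) F) * X ∧
  X * (P.2 : Matrix (Fin 2) (Fin 2) F) = (Q.2 : Matrix (Fin 2) (Fin 2) F) * X

end MW
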