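import Pool.Agent.Lib.MP_a542cf_al.Defs

/-! MW-Delta: the square of the Garside element acts by conjugation with `1 - C⁻¹`. -/

namespace MW

open Matrix

/-- the two moves fixing the commutator -/
def mvL {F : Type*} [Field F] (P : SL2 F × SL2 F) : SL2 F × SL2 F := (P.1, P.2 * P.1)

def mvR {F : Type*} [Field F] (P : SL2 F × SL2 F) : SL2 F × SL2 F := (P.1 * P.2⁻¹, P.2)

theorem comm_mvL {F : Type*} [Field F] (P : SL2 F × SL2 F) :
    (mvL P).1 * (mvL P).2 * (mvL P).1⁻¹ * (mvL P).2⁻¹ = P.1 * P.2 * P.1⁻¹ * P.2⁻¹ := by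
  unfold mvL
  group

theorem comm_mvR {F : Type*} [Field F] (P : SL2 F × SL2 F) :
    (mvR P).1 * (mvR P).2 * (mvR P).1⁻¹ * (mvR P).2⁻¹ = P.1 * P.2 * P.1⁻¹ * P.2⁻¹ := by
  unfold mvR
  group

private lemma tr_mul_comm' {F : Type*} [Field F] (A B : SL2 F) : tr (A * B) = tr (B * A) := by
  unfold tr
  rw [Matrix.SpecialLinearGroup.coe_mul, Matrix.SpecialLinearGroup.coe_mul,
    Matrix.trace_mul_comm]

private lemma add_inv' {F : Type*} [Field F] (A : SL2 F) :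
    (A : Matrix (Fin 2) (Fin 2) F) + ((A⁻¹ : SL2 F) : Matrix (Fin 2) (Fin 2) F) =
      tr A • (1 : Matrix (Fin 2) (Fin 2) F) := by
  rw [Matrix.SpecialLinearGroup.coe_inv, adjugate_fin_two]
  unfold tr
  ext i j
  fin_cases i <;> fin_cases j <;> simp [trace_fin_two, add_comm]

private lemma tr_mul_inv' {F : Type*} [Field F] (A B : SL2 F) :
    tr (A * B) + tr (A⁻¹ * B) = tr A * tr B := by
  have h2 : ((A : Matrix (Fin 2) (Fin 2) F) + ((A⁻¹ : SL2 F) : Matrix (Fin 2) (Fin 2) F)) *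
      (B : Matrix (Fin 2) (Fin 2) F) = tr A • (B : Matrix (Fin 2) (Fin 2) F) := by
    rw [add_inv', smul_mul_assoc, one_mul]
  have h3 := congrArg Matrix.trace h2
  rw [add_mul, trace_add, trace_smul, smul_eq_mul] at h3
  exact h3

theorem triple_mvL {F : Type*} [Field F] (P : SL2 F × SL2 F) :
    triple (mvL P) = ((triple P).1, (triple P).2.2,
      (triple P).1 * (triple P).2.2 - (triple P).2.1) := by
  obtain ⟨A, B⟩ := P
  have h1 := tr_mul_inv' A (B * A)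
  have h2 : tr (A⁻¹ * (B * A)) = tr B := by
    rw [tr_mul_comm', mul_assoc, mul_inv_cancel, mul_one]
  have h3 : tr (B * A) = tr (A * B) := tr_mul_comm' B A
  rw [h2, h3] at h1
  unfold triple mvL
  change (tr A, tr (B * A), tr (A * (B * A))) = (tr A, tr (A * B), tr A * tr (A * B) - tr B)
  rw [h3, ← h1, add_sub_cancel_right]

theorem triple_mvR {F : Type*} [Field F] (P : SL2 F × SL2 F) :
    triple (mvR P) = ((triple P).1 * (triple P).2.1 - (triple P).2.2, (triple P).2.1,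
      (triple P).1) := by
  obtain ⟨A, B⟩ := P
  have h1 := tr_mul_inv' B A
  have h3 : tr (B * A) = tr (A * B) := tr_mul_comm' B A
  have h4 : tr (A * B⁻¹) = tr (B⁻¹ * A) := tr_mul_comm' _ _
  rw [h3] at h1
  unfold triple mvR
  change (tr (A * B⁻¹), tr B, tr (A * B⁻¹ * B)) = (tr A * tr B - tr (A * B), tr B, tr A)
  have h5 : tr (A * B⁻¹) = tr A * tr B - tr (A * B) := by
    rw [h4]
    linear_combination h1
  rw [h5, mul_assoc, inv_mul_cancel, mul_one]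

theorem delta {F : Type*} [Field F] (A B : SL2 F) :
    ConjBy (1 - (((A * B * A⁻¹ * B⁻¹)⁻¹ : SL2 F) : Matrix (Fin 2) (Fin 2) F)) (A, B)
      (mvL (mvR (mvL (mvL (mvR (mvL (A, B))))))) := by
  have hfin : mvL (mvR (mvL (mvL (mvR (mvL (A, B)))))) =
      (B * A⁻¹ * B⁻¹, B * A * B⁻¹ * A⁻¹ * B⁻¹) := by
    unfold mvL mvR
    refine Prod.ext ?_ ?_ <;> group
  rw [hfin]
  constructor
  · change (1 - (((A * B * A⁻¹ * B⁻¹)⁻¹ : SL2 F) : Matrix (Fin 2) (Fin 2) F)) *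
        (A : Matrix (Fin 2) (Fin 2) F) =
      ((B * A⁻¹ * B⁻¹ : SL2 F) : Matrix (Fin 2) (Fin 2) F) *
        (1 - (((A * B * A⁻¹ * B⁻¹)⁻¹ : SL2 F) : Matrix (Fin 2) (Fin 2) F))
    rw [sub_mul, mul_sub, one_mul, mul_one, ← Matrix.SpecialLinearGroup.coe_mul,
      ← Matrix.SpecialLinearGroup.coe_mul]
    have h1 : (A * B * A⁻¹ * B⁻¹)⁻¹ * A = B * A * B⁻¹ := by group
    have h2 : B * A⁻¹ * B⁻¹ * (A * B * A⁻¹ * B⁻¹)⁻¹ = A⁻¹ := by group
    have h3 : (B * A⁻¹ * B⁻¹ : SL2 F) = (B * A * B⁻¹)⁻¹ := by group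
    have h4 : tr (B * A * B⁻¹) = tr A := by
      rw [tr_mul_comm', ← mul_assoc, inv_mul_cancel, one_mul]
    rw [h1, h2, sub_eq_sub_iff_add_eq_add, add_inv', h3, add_comm, add_inv', h4]
  · change (1 - (((A * B * A⁻¹ * B⁻¹)⁻¹ : SL2 F) : Matrix (Fin 2) (Fin 2) F)) *
        (B : Matrix (Fin 2) (Fin 2) F) =
      ((B * A * B⁻¹ * A⁻¹ * B⁻¹ : SL2 F) : Matrix (Fin 2) (Fin 2) F) *
        (1 - (((A * B * A⁻¹ * B⁻¹)⁻¹ : SL2 F) : Matrix (Fin 2) (Fin 2) F))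
    rw [sub_mul, mul_sub, one_mul, mul_one, ← Matrix.SpecialLinearGroup.coe_mul,
      ← Matrix.SpecialLinearGroup.coe_mul]
    have h1 : (A * B * A⁻¹ * B⁻¹)⁻¹ * B = (B * A * B⁻¹ * A⁻¹) * B := by group
    have h3 : B * A * B⁻¹ * A⁻¹ * B⁻¹ * (A * B * A⁻¹ * B⁻¹)⁻¹ =
        (B * A * B⁻¹) * (B⁻¹ * A⁻¹) := by group
    have h4 : (B * A * B⁻¹) * (B * A⁻¹) = B := by group
    rw [h1, h3, sub_eq_sub_iff_add_eq_add]
    have e1 : (B : Matrix (Fin 2) (Fin 2) F) +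
        (((B * A * B⁻¹) * (B⁻¹ * A⁻¹) : SL2 F) : Matrix (Fin 2) (Fin 2) F) =
        tr B • (((B * A * B⁻¹) * A⁻¹ : SL2 F) : Matrix (Fin 2) (Fin 2) F) := by
      have e2 : (B : Matrix (Fin 2) (Fin 2) F) =
        (((B * A * B⁻¹) * (B * A⁻¹) : SL2 F) : Matrix (Fin 2) (Fin 2) F) := by rw [h4]
      have e3 : ((B * A * B⁻¹ : SL2 F) : Matrix (Fin 2) (Fin 2) F) *
          (((B : Matrix (Fin 2) (Fin 2) F) + ((B⁻¹ : SL2 F) : Matrix (Fin 2) (Fin 2) F)) *
            ((A⁻¹ : SL2 F) : Matrix (Fin 2) (Fin 2) F)) =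
          tr B • (((B * A * B⁻¹) * A⁻¹ : SL2 F) : Matrix (Fin 2) (Fin 2) F) := by
        rw [add_inv', smul_mul_assoc, one_mul, mul_smul_comm,
          ← Matrix.SpecialLinearGroup.coe_mul]
      rw [← e3, add_mul, mul_add, ← Matrix.SpecialLinearGroup.coe_mul,
        ← Matrix.SpecialLinearGroup.coe_mul, ← Matrix.SpecialLinearGroup.coe_mul,
        ← Matrix.SpecialLinearGroup.coe_mul, h4]
    have e4 : ((B * A * B⁻¹ * A⁻¹ * B⁻¹ : SL2 F) : Matrix (Fin 2) (Fin 2) F) +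
        (((B * A * B⁻¹ * A⁻¹) * B : SL2 F) : Matrix (Fin 2) (Fin 2) F) =
        tr B • (((B * A * B⁻¹) * A⁻¹ : SL2 F) : Matrix (Fin 2) (Fin 2) F) := by
      rw [Matrix.SpecialLinearGroup.coe_mul (B * A * B⁻¹ * A⁻¹) B⁻¹,
        Matrix.SpecialLinearGroup.coe_mul (B * A * B⁻¹ * A⁻¹) B, ← mul_add, add_comm _
          (B : Matrix (Fin 2) (Fin 2) F), add_inv', mul_smul_comm, mul_one]
    rw [e1, e4]

/-- if `(1 - C⁻¹)^m` is scalar then `(-C)^m = 1` -/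
theorem negC_pow {F : Type*} [Field F] (h2 : (2 : F) ≠ 0) (C : SL2 F) (hC : tr C ≠ 2) (m : ℕ)
    (c : F) (h : (1 - ((C⁻¹ : SL2 F) : Matrix (Fin 2) (Fin 2) F)) ^ m = scalar (Fin 2) c) :
    (-C) ^ m = 1 := by
  obtain ⟨X, hX⟩ : ∃ X : Matrix (Fin 2) (Fin 2) F,
    X = 1 - ((C⁻¹ : SL2 F) : Matrix (Fin 2) (Fin 2) F) := ⟨_, rfl⟩
  rw [← hX] at h
  have hadj : adjugate X = (-(C : Matrix (Fin 2) (Fin 2) F)) * X := by
    have h3 : (-(C : Matrix (Fin 2) (Fin 2) F)) * X = 1 - (C : Matrix (Fin 2) (Fin 2) F) := by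
      rw [hX, mul_sub, mul_one, neg_mul, ← Matrix.SpecialLinearGroup.coe_mul, mul_inv_cancel,
        Matrix.SpecialLinearGroup.coe_one]
      abel
    rw [h3, hX, Matrix.SpecialLinearGroup.coe_inv, adjugate_fin_two, adjugate_fin_two]
    ext i j
    fin_cases i <;> fin_cases j <;> simp
  have hcomm : Commute (-(C : Matrix (Fin 2) (Fin 2) F)) X := by
    rw [hX]
    apply Commute.neg_left
    apply Commute.sub_right (Commute.one_right _)
    change (C : Matrix (Fin 2) (Fin 2) F) * ((C⁻¹ : SL2 F) : Matrix (Fin 2) (Fin 2) F) =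
      ((C⁻¹ : SL2 F) : Matrix (Fin 2) (Fin 2) F) * (C : Matrix (Fin 2) (Fin 2) F)
    rw [← Matrix.SpecialLinearGroup.coe_mul, ← Matrix.SpecialLinearGroup.coe_mul,
      mul_inv_cancel, inv_mul_cancel]
  have h4 : (-(C : Matrix (Fin 2) (Fin 2) F)) ^ m * X ^ m = adjugate (X ^ m) := by
    rw [← hcomm.mul_pow, ← hadj, adjugate_pow]
  have h5 : adjugate (scalar (Fin 2) c) = scalar (Fin 2) c := by
    rw [adjugate_fin_two]
    ext i j
    fin_cases i <;> fin_cases j <;> simp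
  rw [h, h5] at h4
  have hdet : X.det = 2 - tr C := by
    rw [hX, Matrix.SpecialLinearGroup.coe_inv, adjugate_fin_two, det_fin_two]
    have h6 := C.2
    rw [det_fin_two] at h6
    unfold tr
    rw [trace_fin_two]
    simp
    linear_combination h6
  have hc : c ≠ 0 := by
    rintro rfl
    have h7 := congrArg Matrix.det h
    rw [det_pow, hdet, map_zero] at h7
    have h8 : (2 - tr C) ^ m = 0 := by
      rw [h7]
      exact det_zero
    have h10 : 2 - tr C = 0 := by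
      by_contra hne
      exact pow_ne_zero m hne h8
    exact hC (sub_eq_zero.1 h10).symm
  have h11 : (-(C : Matrix (Fin 2) (Fin 2) F)) ^ m = 1 := by
    have h12 : (-(C : Matrix (Fin 2) (Fin 2) F)) ^ m * scalar (Fin 2) c * scalar (Fin 2) c⁻¹ =
        scalar (Fin 2) c * scalar (Fin 2) c⁻¹ := by rw [h4]
    rw [mul_assoc, ← map_mul, mul_inv_cancel₀ hc, map_one, mul_one] at h12
    exact h12
  apply Subtype.ext
  change ((((-C) ^ m : SL2 F)) : Matrix (Fin 2) (Fin 2) F) = ((1 : SL2 F) : Matrix _ _ F)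
  rw [Matrix.SpecialLinearGroup.coe_pow, Matrix.SpecialLinearGroup.coe_neg,
    Matrix.SpecialLinearGroup.coe_one]
  exact h11

end MW
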