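import Pool.Agent.Lib.MP_a542cf_al.Defs

/-! MW-Moves: Nielsen moves and trace triples. -/

namespace MW

section
variable {F : Type*} [Field F]

private theorem moves_det (A : SL2 F) : A 0 0 * A 1 1 - A 0 1 * A 1 0 = 1 := by
  have h := A.det_coe
  rwa [Matrix.det_fin_two] at h

private theorem moves_tr (A : SL2 F) : tr A = A 0 0 + A 1 1 := by
  unfold tr
  rw [Matrix.trace_fin_two]

private theorem moves_mul (A B : SL2 F) (i j : Fin 2) :
    (A * B) i j = A i 0 * B 0 j + A i 1 * B 1 j := by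
  rw [Matrix.SpecialLinearGroup.coe_mul, Matrix.mul_apply, Fin.sum_univ_two]

private theorem moves_inv00 (A : SL2 F) : (A⁻¹) 0 0 = A 1 1 := by
  rw [Matrix.SpecialLinearGroup.coe_inv, Matrix.adjugate_fin_two]; simp

private theorem moves_inv01 (A : SL2 F) : (A⁻¹) 0 1 = - A 0 1 := by
  rw [Matrix.SpecialLinearGroup.coe_inv, Matrix.adjugate_fin_two]; simp

private theorem moves_inv10 (A : SL2 F) : (A⁻¹) 1 0 = - A 1 0 := by
  rw [Matrix.SpecialLinearGroup.coe_inv, Matrix.adjugate_fin_two]; simp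

private theorem moves_inv11 (A : SL2 F) : (A⁻¹) 1 1 = A 0 0 := by
  rw [Matrix.SpecialLinearGroup.coe_inv, Matrix.adjugate_fin_two]; simp

private theorem moves_tr_mul_comm (A B : SL2 F) : tr (A * B) = tr (B * A) := by
  unfold tr
  rw [Matrix.SpecialLinearGroup.coe_mul, Matrix.SpecialLinearGroup.coe_mul, Matrix.trace_mul_comm]

private theorem moves_tr_inv (A : SL2 F) : tr A⁻¹ = tr A := by
  rw [moves_tr, moves_tr, moves_inv00, moves_inv11, add_comm]

private theorem moves_tr_inv_mul (A B : SL2 F) : tr (A⁻¹ * B) = tr A * tr B - tr (A * B) := by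
  rw [moves_tr, moves_tr, moves_tr, moves_tr]
  simp only [moves_mul, moves_inv00, moves_inv01, moves_inv10, moves_inv11]
  ring

private theorem moves_tr_conj (A X : SL2 F) : tr (X * A * X⁻¹) = tr A := by
  rw [moves_tr_mul_comm, ← mul_assoc, inv_mul_cancel, one_mul]

theorem triple_swap (A B : SL2 F) : triple (B, A) = (tr B, tr A, tr (A * B)) := by
  unfold triple
  simp only [moves_tr_mul_comm B A]

theorem triple_inv (A B : SL2 F) :
    triple (A⁻¹, B) = (tr A, tr B, tr A * tr B - tr (A * B)) := by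
  unfold triple
  simp only [moves_tr_inv, moves_tr_inv_mul]

theorem triple_mul (A B : SL2 F) :
    triple (A * B, B) = (tr (A * B), tr B, tr (A * B) * tr B - tr A) := by
  unfold triple
  have h1 : tr A = tr (A * B) * tr B - tr (A * B * B) := by
    have h := moves_tr_inv_mul B (A * B)
    have h2 : tr (B⁻¹ * (A * B)) = tr A := by
      rw [moves_tr_mul_comm, mul_assoc, mul_inv_cancel, mul_one]
    rw [h2] at h
    rw [h, moves_tr_mul_comm B (A * B)]
    ring
  simp only [h1]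
  congr 2
  ring

private theorem moves_lev_move {P Q : SL2 F × SL2 F} (h : Move P Q) : lev P = lev Q := by
  cases h with
  | swap A B =>
    show tr (A * B * A⁻¹ * B⁻¹) = tr (B * A * B⁻¹ * A⁻¹)
    have h1 : B * A * B⁻¹ * A⁻¹ = (A * B * A⁻¹ * B⁻¹)⁻¹ := by group
    rw [h1, moves_tr_inv]
  | inv A B =>
    show tr (A * B * A⁻¹ * B⁻¹) = tr (A⁻¹ * B * (A⁻¹)⁻¹ * B⁻¹)
    have h1 : A⁻¹ * B * (A⁻¹)⁻¹ * B⁻¹ = A⁻¹ * (A * B * A⁻¹ * B⁻¹)⁻¹ * (A⁻¹)⁻¹ := by group
    rw [h1, moves_tr_conj, moves_tr_inv]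
  | mul A B =>
    show tr (A * B * A⁻¹ * B⁻¹) = tr (A * B * B * (A * B)⁻¹ * B⁻¹)
    have h1 : A * B * B * (A * B)⁻¹ * B⁻¹ = A * B * A⁻¹ * B⁻¹ := by group
    rw [h1]

theorem lev_nequiv {P Q : SL2 F × SL2 F} (h : NEquiv P Q) : lev P = lev Q := by
  induction h with
  | rel P Q h => exact moves_lev_move h
  | refl P => rfl
  | symm P Q _ ih => exact ih.symm
  | trans P Q R _ _ ih1 ih2 => exact ih1.trans ih2

private theorem moves_closure_le (P Q : SL2 F × SL2 F)
    (h1 : P.1 ∈ Subgroup.closure ({Q.1, Q.2} : Set (SL2 F)))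
    (h2 : P.2 ∈ Subgroup.closure ({Q.1, Q.2} : Set (SL2 F))) (hP : IsGen P) : IsGen Q := by
  unfold IsGen at *
  rw [eq_top_iff, ← hP, Subgroup.closure_le]
  rintro x (rfl | rfl)
  · exact h1
  · exact h2

private theorem moves_gen_move {P Q : SL2 F × SL2 F} (h : Move P Q) : IsGen P ↔ IsGen Q := by
  have hm1 : ∀ A B : SL2 F, A ∈ Subgroup.closure ({A, B} : Set (SL2 F)) := fun A B =>
    Subgroup.subset_closure (Or.inl rfl)
  have hm2 : ∀ A B : SL2 F, B ∈ Subgroup.closure ({A, B} : Set (SL2 F)) := fun A B =>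
    Subgroup.subset_closure (Or.inr rfl)
  cases h with
  | swap A B =>
    exact ⟨moves_closure_le _ _ (hm2 _ _) (hm1 _ _), moves_closure_le _ _ (hm2 _ _) (hm1 _ _)⟩
  | inv A B =>
    constructor
    · refine moves_closure_le _ _ ?_ (hm2 _ _)
      have h := inv_mem (hm1 A⁻¹ B)
      rwa [inv_inv] at h
    · exact moves_closure_le _ _ (inv_mem (hm1 _ _)) (hm2 _ _)
  | mul A B =>
    constructor
    · refine moves_closure_le _ _ ?_ (hm2 _ _)
      have h := mul_mem (hm1 (A * B) B) (inv_mem (hm2 (A * B) B))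
      rwa [mul_assoc, mul_inv_cancel, mul_one] at h
    · exact moves_closure_le _ _ (mul_mem (hm1 _ _) (hm2 _ _)) (hm2 _ _)

theorem isGen_nequiv {P Q : SL2 F × SL2 F} (h : NEquiv P Q) : IsGen P ↔ IsGen Q := by
  induction h with
  | rel P Q h => exact moves_gen_move h
  | refl P => rfl
  | symm P Q _ ih => exact ih.symm
  | trans P Q R _ _ ih1 ih2 => exact ih1.trans ih2

private theorem moves_trans {P Q R : SL2 F × SL2 F} (h1 : NEquiv P Q) (h2 : NEquiv Q R) :
    NEquiv P R := Relation.EqvGen.trans _ _ _ h1 h2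

private theorem moves_symm {P Q : SL2 F × SL2 F} (h1 : NEquiv P Q) : NEquiv Q P :=
  Relation.EqvGen.symm _ _ h1

private theorem moves_swap (A B : SL2 F) : NEquiv (A, B) (B, A) :=
  Relation.EqvGen.rel _ _ (Move.swap A B)

private theorem moves_invl (A B : SL2 F) : NEquiv (A, B) (A⁻¹, B) :=
  Relation.EqvGen.rel _ _ (Move.inv A B)

private theorem moves_mull (A B : SL2 F) : NEquiv (A, B) (A * B, B) :=
  Relation.EqvGen.rel _ _ (Move.mul A B)

theorem inv_orbit (P : SL2 F × SL2 F) : Inv {v | ∃ Q, NEquiv P Q ∧ triple Q = v} := by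
  refine ⟨?_, ?_, ?_⟩
  · rintro x y z ⟨⟨A, B⟩, h, hv⟩
    refine ⟨(B, A), moves_trans h (moves_swap A B), ?_⟩
    rw [triple_swap]
    simp only [triple, Prod.mk.injEq] at hv
    obtain ⟨rfl, rfl, rfl⟩ := hv
    rfl
  · rintro x y z ⟨⟨A, B⟩, h, hv⟩
    simp only [triple, Prod.mk.injEq] at hv
    obtain ⟨rfl, rfl, rfl⟩ := hv
    refine ⟨(A⁻¹, B * A), ?_, ?_⟩
    · refine moves_trans h (moves_trans (moves_swap A B) (moves_trans (moves_mull B A)
        (moves_trans (moves_swap (B * A) A) (moves_invl A (B * A)))))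
    · unfold triple
      simp only [moves_tr_inv]
      have h1 : tr (A⁻¹ * (B * A)) = tr B := by
        rw [moves_tr_mul_comm, mul_assoc, mul_inv_cancel, mul_one]
      rw [h1, moves_tr_mul_comm B A]
  · rintro x y z ⟨⟨A, B⟩, h, hv⟩
    simp only [triple, Prod.mk.injEq] at hv
    obtain ⟨rfl, rfl, rfl⟩ := hv
    exact ⟨(A⁻¹, B), moves_trans h (moves_invl A B), triple_inv A B⟩

private theorem moves_mem_move {P Q : SL2 F × SL2 F} (h : Move P Q) (O : Set (F × F × F))
    (hO : Inv O) : triple P ∈ O ↔ triple Q ∈ O := by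
  cases h with
  | swap A B =>
    rw [triple_swap]
    exact ⟨hO.swap12 _ _ _, hO.swap12 _ _ _⟩
  | inv A B =>
    rw [triple_inv]
    constructor
    · exact hO.vieta _ _ _
    · intro h
      have h1 := hO.vieta _ _ _ h
      have h2 : tr A * tr B - (tr A * tr B - tr (A * B)) = tr (A * B) := by ring
      rw [h2] at h1
      exact h1
  | mul A B =>
    rw [triple_mul]
    have e : triple (A, B) = (tr A, tr B, tr (A * B)) := rfl
    rw [e]
    constructor
    · intro h
      -- (a, b, c) -> (b, a, c) -> (b, c, a) -> (c, b, a) -> (c, b, c b - a)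
      exact hO.vieta _ _ _ (hO.swap12 _ _ _ (hO.swap23 _ _ _ (hO.swap12 _ _ _ h)))
    · intro h
      have h1 := hO.vieta _ _ _ h
      have h2 : tr (A * B) * tr B - (tr (A * B) * tr B - tr A) = tr A := by ring
      rw [h2] at h1
      -- (c, b, a) -> (b, c, a) -> (b, a, c) -> (a, b, c)
      exact hO.swap12 _ _ _ (hO.swap23 _ _ _ (hO.swap12 _ _ _ h1))

theorem nequiv_mem {P Q : SL2 F × SL2 F} (h : NEquiv P Q) (O : Set (F × F × F)) (hO : Inv O) :
    triple P ∈ O ↔ triple Q ∈ O := by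
  induction h with
  | rel P Q h => exact moves_mem_move h O hO
  | refl P => rfl
  | symm P Q _ ih => exact ih.symm
  | trans P Q R _ _ ih1 ih2 => exact ih1.trans ih2

/-- group homomorphisms preserve Nielsen equivalence -/
private theorem moves_hom (φ : SL2 F →* SL2 F) {P Q : SL2 F × SL2 F} (h : NEquiv P Q) :
    NEquiv (φ P.1, φ P.2) (φ Q.1, φ Q.2) := by
  induction h with
  | rel P Q h =>
    cases h with
    | swap A B => exact moves_swap _ _
    | inv A B =>
      show NEquiv (φ A, φ B) (φ A⁻¹, φ B)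
      rw [map_inv]
      exact moves_invl _ _
    | mul A B =>
      show NEquiv (φ A, φ B) (φ (A * B), φ B)
      rw [map_mul]
      exact moves_mull _ _
  | refl P => exact Relation.EqvGen.refl _
  | symm P Q _ ih => exact moves_symm ih
  | trans P Q R _ _ ih1 ih2 => exact moves_trans ih1 ih2

/-- conjugation by an invertible matrix as a homomorphism of `SL_2` -/
private noncomputable def movesCj (X : Matrix (Fin 2) (Fin 2) F) (hX : X.det ≠ 0) :
    SL2 F →* SL2 F where
  toFun A := ⟨X * (A : Matrix (Fin 2) (Fin 2) F) * X⁻¹, by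
    rw [Matrix.det_mul, Matrix.det_mul, A.det_coe, mul_one, ← Matrix.det_mul,
      Matrix.mul_nonsing_inv _ (isUnit_iff_ne_zero.2 hX), Matrix.det_one]⟩
  map_one' := by
    apply Subtype.ext
    show X * (1 : Matrix (Fin 2) (Fin 2) F) * X⁻¹ = 1
    rw [mul_one, Matrix.mul_nonsing_inv _ (isUnit_iff_ne_zero.2 hX)]
  map_mul' A B := by
    apply Subtype.ext
    show X * ((A * B : SL2 F) : Matrix (Fin 2) (Fin 2) F) * X⁻¹ =
      X * (A : Matrix (Fin 2) (Fin 2) F) * X⁻¹ * (X * (B : Matrix (Fin 2) (Fin 2) F) * X⁻¹)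
    rw [Matrix.SpecialLinearGroup.coe_mul]
    have h : X⁻¹ * X = 1 := Matrix.nonsing_inv_mul _ (isUnit_iff_ne_zero.2 hX)
    calc X * ((A : Matrix (Fin 2) (Fin 2) F) * (B : Matrix (Fin 2) (Fin 2) F)) * X⁻¹
        = X * (A : Matrix (Fin 2) (Fin 2) F) * 1 * (B : Matrix (Fin 2) (Fin 2) F) * X⁻¹ := by
          noncomm_ring
      _ = _ := by rw [← h]; noncomm_ring

private theorem movesCj_coe (X : Matrix (Fin 2) (Fin 2) F) (hX : X.det ≠ 0) (A : SL2 F) :
    ((movesCj X hX A : SL2 F) : Matrix (Fin 2) (Fin 2) F) =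
      X * (A : Matrix (Fin 2) (Fin 2) F) * X⁻¹ := rfl

private theorem movesCj_spec (X : Matrix (Fin 2) (Fin 2) F) (hX : X.det ≠ 0) (A : SL2 F) :
    X * (A : Matrix (Fin 2) (Fin 2) F) =
      ((movesCj X hX A : SL2 F) : Matrix (Fin 2) (Fin 2) F) * X := by
  rw [movesCj_coe, mul_assoc, Matrix.nonsing_inv_mul _ (isUnit_iff_ne_zero.2 hX), mul_one]

private theorem movesCj_eq (X : Matrix (Fin 2) (Fin 2) F) (hX : X.det ≠ 0) (A B : SL2 F)
    (h : X * (A : Matrix (Fin 2) (Fin 2) F) = (B : Matrix (Fin 2) (Fin 2) F) * X) :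
    movesCj X hX A = B := by
  apply Subtype.ext
  show X * (A : Matrix (Fin 2) (Fin 2) F) * X⁻¹ = (B : Matrix (Fin 2) (Fin 2) F)
  rw [h, mul_assoc, Matrix.mul_nonsing_inv _ (isUnit_iff_ne_zero.2 hX), mul_one]

theorem nequiv_conj {P P' Q : SL2 F × SL2 F} (X : Matrix (Fin 2) (Fin 2) F) (hX : X.det ≠ 0)
    (h : ConjBy X P P') (hQ : NEquiv P Q) : ∃ Q', ConjBy X Q Q' ∧ NEquiv P' Q' := by
  refine ⟨(movesCj X hX Q.1, movesCj X hX Q.2), ⟨movesCj_spec X hX _, movesCj_spec X hX _⟩, ?_⟩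
  have h1 := moves_hom (movesCj X hX) hQ
  rw [movesCj_eq X hX _ _ h.1, movesCj_eq X hX _ _ h.2] at h1
  exact h1

theorem nequiv_inv_inv (A B : SL2 F) : NEquiv (A, B) (A⁻¹, B⁻¹) :=
  moves_trans (moves_invl A B) (moves_trans (moves_swap _ _) (moves_trans (moves_invl _ _)
    (moves_swap _ _)))

end

end MW
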