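import Pool.Agent.Lib.MP_a542cf_al.Defs

/-! MW-PairExists: pairs with prescribed traces and prescribed commutator. -/

namespace MW

open Matrix

private lemma pe_tr_comm {F : Type*} [Field F] (A B : SL2 F) : tr (A * B) = tr (B * A) := by
  unfold tr
  rw [Matrix.SpecialLinearGroup.coe_mul, Matrix.SpecialLinearGroup.coe_mul,
    Matrix.trace_mul_comm]

private lemma pe_add_inv {F : Type*} [Field F] (A : SL2 F) :
    (A : Matrix (Fin 2) (Fin 2) F) + ((A⁻¹ : SL2 F) : Matrix (Fin 2) (Fin 2) F) =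
      tr A • (1 : Matrix (Fin 2) (Fin 2) F) := by
  rw [Matrix.SpecialLinearGroup.coe_inv, adjugate_fin_two]
  unfold tr
  ext i j
  fin_cases i <;> fin_cases j <;> simp [trace_fin_two, add_comm]

private lemma pe_tr_mul_inv {F : Type*} [Field F] (A B : SL2 F) :
    tr (A * B) + tr (A⁻¹ * B) = tr A * tr B := by
  have h2 : ((A : Matrix (Fin 2) (Fin 2) F) + ((A⁻¹ : SL2 F) : Matrix (Fin 2) (Fin 2) F)) *
      (B : Matrix (Fin 2) (Fin 2) F) = tr A • (B : Matrix (Fin 2) (Fin 2) F) := by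
    rw [pe_add_inv, smul_mul_assoc, one_mul]
  have h3 := congrArg Matrix.trace h2
  rw [add_mul, trace_add, trace_smul, smul_eq_mul] at h3
  exact h3

private lemma pe_tr_one {F : Type*} [Field F] : tr (1 : SL2 F) = 2 := by
  unfold tr
  rw [Matrix.SpecialLinearGroup.coe_one, trace_one]
  simp

private lemma pe_tr_inv {F : Type*} [Field F] (A : SL2 F) : tr A⁻¹ = tr A := by
  have h := pe_tr_mul_inv A 1
  rw [mul_one, mul_one, pe_tr_one] at h
  linear_combination h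

private lemma pe_tr_conj {F : Type*} [Field F] (A B : SL2 F) : tr (B * A * B⁻¹) = tr A := by
  rw [pe_tr_comm, ← mul_assoc, inv_mul_cancel, one_mul]

/-- Fricke's identity -/
theorem lev_eq {F : Type*} [Field F] (P : SL2 F × SL2 F) :
    lev P = (triple P).1 ^ 2 + (triple P).2.1 ^ 2 + (triple P).2.2 ^ 2 -
      (triple P).1 * (triple P).2.1 * (triple P).2.2 - 2 := by
  obtain ⟨A, B⟩ := P
  change tr (A * B * A⁻¹ * B⁻¹) = tr A ^ 2 + tr B ^ 2 + tr (A * B) ^ 2 -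
    tr A * tr B * tr (A * B) - 2
  have e1 := pe_tr_mul_inv A (B * A⁻¹ * B⁻¹)
  have e2 : tr (B * A⁻¹ * B⁻¹) = tr A := by rw [pe_tr_conj, pe_tr_inv]
  have e3 := pe_tr_mul_inv (A⁻¹ * B) (A⁻¹ * B⁻¹)
  have e4 : tr ((A⁻¹ * B)⁻¹ * (A⁻¹ * B⁻¹)) = tr (B⁻¹ * B⁻¹) := by
    congr 1
    group
  have e5 := pe_tr_mul_inv B⁻¹ B⁻¹
  rw [inv_inv, mul_inv_cancel, pe_tr_one, pe_tr_inv] at e5
  have e6 := pe_tr_mul_inv A B
  have e7 : tr (A⁻¹ * B⁻¹) = tr (A * B) := by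
    rw [← _root_.mul_inv_rev, pe_tr_inv, pe_tr_comm]
  have e8 : A * B * A⁻¹ * B⁻¹ = A * (B * A⁻¹ * B⁻¹) := by group
  have e9 : A⁻¹ * (B * A⁻¹ * B⁻¹) = A⁻¹ * B * (A⁻¹ * B⁻¹) := by group
  rw [e2, e9] at e1
  rw [e4, e7] at e3
  rw [e8]
  linear_combination e1 - e3 - (tr (A * B)) * e6 + e5

/-- a non-scalar matrix has a cyclic vector -/
private lemma pe_cyc {F : Type*} [Field F] (M : Matrix (Fin 2) (Fin 2) F)
    (hM : ¬ (M 0 1 = 0 ∧ M 1 0 = 0 ∧ M 0 0 = M 1 1)) :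
    ∃ S : Matrix (Fin 2) (Fin 2) F, S.det ≠ 0 ∧
      M * S = S * !![0, -M.det; 1, M.trace] := by
  by_cases h1 : M 0 1 = 0
  · by_cases h2 : M 1 0 = 0
    · have h3 : M 0 0 ≠ M 1 1 := fun h => hM ⟨h1, h2, h⟩
      refine ⟨!![1, M 0 0; 1, M 1 1], ?_, ?_⟩
      · rw [det_fin_two]
        simpa [sub_eq_zero] using h3.symm
      · rw [det_fin_two, trace_fin_two]
        ext i j
        fin_cases i <;> fin_cases j <;> simp [Matrix.mul_apply, Fin.sum_univ_two, h1, h2] <;>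
          ring
    · refine ⟨!![1, M 0 0; 0, M 1 0], ?_, ?_⟩
      · rw [det_fin_two]
        simpa using h2
      · rw [det_fin_two, trace_fin_two]
        ext i j
        fin_cases i <;> fin_cases j <;> simp [Matrix.mul_apply, Fin.sum_univ_two, h1] <;>
          ring
  · refine ⟨!![0, M 0 1; 1, M 1 1], ?_, ?_⟩
    · rw [det_fin_two]
      simpa using h1
    · rw [det_fin_two, trace_fin_two]
      ext i j
      fin_cases i <;> fin_cases j <;> simp [Matrix.mul_apply, Fin.sum_univ_two] <;>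
        ring

private lemma pe_nonscalar {F : Type*} [Field F] (M : SL2 F) (h1 : M ≠ 1) (h2 : M ≠ -1) :
    ¬ (M.1 0 1 = 0 ∧ M.1 1 0 = 0 ∧ M.1 0 0 = M.1 1 1) := by
  rintro ⟨h3, h4, h5⟩
  have hd := M.2
  rw [det_fin_two, h3, zero_mul, sub_zero, ← h5, mul_self_eq_one_iff] at hd
  rcases hd with h6 | h6
  · apply h1
    apply Subtype.ext
    change M.1 = (1 : Matrix (Fin 2) (Fin 2) F)
    rw [h6] at h5
    ext i j
    fin_cases i <;> fin_cases j <;> simp [h3, h4, ← h5, h6]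
  · apply h2
    apply Subtype.ext
    change M.1 = ((-1 : SL2 F) : Matrix (Fin 2) (Fin 2) F)
    rw [Matrix.SpecialLinearGroup.coe_neg, Matrix.SpecialLinearGroup.coe_one]
    rw [h6] at h5
    ext i j
    fin_cases i <;> fin_cases j <;> simp [h3, h4, ← h5, h6]

private lemma pe_conj {F : Type*} [Field F] [IsAlgClosed F] (C D : SL2 F) (htr : tr C = tr D)
    (hC : C ≠ 1) (hC' : C ≠ -1) (hD : D ≠ 1) (hD' : D ≠ -1) :
    ∃ X : SL2 F, X * C * X⁻¹ = D := by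
  obtain ⟨S, hS, hS2⟩ := pe_cyc C.1 (pe_nonscalar C hC hC')
  obtain ⟨T, hT, hT2⟩ := pe_cyc D.1 (pe_nonscalar D hD hD')
  have htr' : C.1.trace = D.1.trace := htr
  rw [C.2, htr'] at hS2
  rw [D.2] at hT2
  have hSu : IsUnit S.det := isUnit_iff_ne_zero.2 hS
  have h1 : S⁻¹ * C.1 = !![0, -1; 1, D.1.trace] * S⁻¹ := by
    have h2 : S⁻¹ * (C.1 * S) * S⁻¹ = S⁻¹ * (S * !![0, -1; 1, D.1.trace]) * S⁻¹ := by rw [hS2]
    rw [← mul_assoc S⁻¹ C.1 S, mul_assoc (S⁻¹ * C.1) S S⁻¹, Matrix.mul_nonsing_inv S hSu, mul_one,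
      ← mul_assoc S⁻¹ S, Matrix.nonsing_inv_mul S hSu, one_mul] at h2
    exact h2
  have h3 : T * S⁻¹ * C.1 = D.1 * (T * S⁻¹) := by
    rw [mul_assoc, h1, ← mul_assoc, ← hT2, mul_assoc]
  have h4 : (T * S⁻¹).det ≠ 0 := by
    rw [det_mul, det_nonsing_inv, Ring.inverse_eq_inv']
    exact mul_ne_zero hT (inv_ne_zero hS)
  obtain ⟨r, hr⟩ := IsAlgClosed.exists_pow_nat_eq ((T * S⁻¹).det)⁻¹ (n := 2) (by norm_num)
  have h5 : (r • (T * S⁻¹)).det = 1 := by
    rw [det_smul, Fintype.card_fin, hr, inv_mul_cancel₀ h4]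
  refine ⟨⟨r • (T * S⁻¹), h5⟩, ?_⟩
  rw [mul_inv_eq_iff_eq_mul]
  apply Subtype.ext
  change (r • (T * S⁻¹)) * C.1 = D.1 * (r • (T * S⁻¹))
  rw [smul_mul_assoc, mul_smul_comm, h3]

private lemma pe_tr_neg {F : Type*} [Field F] (A : SL2 F) : tr (-A) = - tr A := by
  unfold tr
  rw [Matrix.SpecialLinearGroup.coe_neg, trace_neg]

theorem pairExists {F : Type*} [Field F] [IsAlgClosed F] (h2 : (2 : F) ≠ 0) (κ : F)
    (hκ : κ ≠ 4) (v : F × F × F) (hv : OnX κ v) (hv0 : v ≠ (0, 0, 0)) (C : SL2 F)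
    (hC : tr C = κ - 2) (hC1 : C ≠ -1) :
    ∃ P : SL2 F × SL2 F, triple P = v ∧ P.1 * P.2 * P.1⁻¹ * P.2⁻¹ = C := by
  obtain ⟨x, y, z⟩ := v
  obtain ⟨r, hr⟩ := IsAlgClosed.exists_pow_nat_eq ((z - x * y) ^ 2 - 4) (n := 2) (by norm_num)
  obtain ⟨b, hb⟩ : ∃ b : F, b = ((z - x * y) + r) / 2 := ⟨_, rfl⟩
  have hb2 : b ^ 2 - (z - x * y) * b + 1 = 0 := by
    have h3 : 2 * b = (z - x * y) + r := by
      rw [hb]
      field_simp
    have h4 : (2 * 2) * (b ^ 2 - (z - x * y) * b + 1) = 0 := by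
      linear_combination (2 * b + (z - x * y) + r - 2 * (z - x * y)) * h3 + hr
    exact (mul_eq_zero.1 h4).resolve_left (mul_ne_zero h2 h2)
  have hb0 : b ≠ 0 := by
    rintro rfl
    simp at hb2
  obtain ⟨A, hA⟩ : ∃ A : SL2 F, A.1 = !![x, -1; 1, 0] :=
    ⟨⟨!![x, -1; 1, 0], by simp [det_fin_two]⟩, rfl⟩
  obtain ⟨B, hB⟩ : ∃ B : SL2 F, B.1 = !![y, b; -b⁻¹, 0] :=
    ⟨⟨!![y, b; -b⁻¹, 0], by simp [det_fin_two, hb0]⟩, rfl⟩
  have hx : tr A = x := by
    unfold tr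
    rw [hA, trace_fin_two]
    simp
  have hy : tr B = y := by
    unfold tr
    rw [hB, trace_fin_two]
    simp
  have hz : tr (A * B) = z := by
    unfold tr
    rw [Matrix.SpecialLinearGroup.coe_mul, hA, hB, trace_fin_two]
    simp [Matrix.mul_apply, Fin.sum_univ_two]
    field_simp
    linear_combination hb2
  have htr : tr (A * B * A⁻¹ * B⁻¹) = tr C := by
    have h3 := lev_eq (A, B)
    change tr (A * B * A⁻¹ * B⁻¹) = tr A ^ 2 + tr B ^ 2 + tr (A * B) ^ 2 -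
      tr A * tr B * tr (A * B) - 2 at h3
    rw [h3, hx, hy, hz, hC]
    unfold OnX at hv
    linear_combination hv
  have hne : κ - 2 ≠ 2 := by
    intro h
    apply hκ
    linear_combination h
  have hC0 : C ≠ 1 := by
    rintro rfl
    rw [pe_tr_one] at hC
    exact hne hC.symm
  have hD0 : A * B * A⁻¹ * B⁻¹ ≠ 1 := by
    intro h
    rw [h, pe_tr_one, hC] at htr
    exact hne htr.symm
  have hhalf : ∀ t : F, t = -t → t = 0 := by
    intro t ht
    have h3 : 2 * t = 0 := by linear_combination ht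
    exact (mul_eq_zero.1 h3).resolve_left h2
  have hD1 : A * B * A⁻¹ * B⁻¹ ≠ -1 := by
    intro h
    apply hv0
    have h3 : A * B = -(B * A) := by
      have h4 : A * B = (A * B * A⁻¹ * B⁻¹) * (B * A) := by group
      rw [h4, h, neg_mul, one_mul]
    have h5 : A = -(B * A * B⁻¹) := by
      have h6 : A = (A * B) * B⁻¹ := by group
      conv_lhs => rw [h6, h3]
      rw [neg_mul]
    have h7 : B = -(A⁻¹ * B * A⁻¹⁻¹) := by
      have h8 : B = A⁻¹ * (A * B) := by group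
      conv_lhs => rw [h8, h3]
      rw [mul_neg, inv_inv, mul_assoc]
    have hx0 : x = 0 := by
      apply hhalf
      have h9 := congrArg tr h5
      rw [pe_tr_neg, pe_tr_conj, hx] at h9
      exact h9
    have hy0 : y = 0 := by
      apply hhalf
      have h9 := congrArg tr h7
      rw [pe_tr_neg, pe_tr_conj, hy] at h9
      exact h9
    have hz0 : z = 0 := by
      apply hhalf
      have h9 := congrArg tr h3
      rw [pe_tr_neg, pe_tr_comm B A, hz] at h9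
      exact h9
    rw [hx0, hy0, hz0]
  obtain ⟨X, hX⟩ := pe_conj _ C htr hD0 hD1 hC0 hC1
  refine ⟨(X * A * X⁻¹, X * B * X⁻¹), ?_, ?_⟩
  · change (tr (X * A * X⁻¹), tr (X * B * X⁻¹), tr (X * A * X⁻¹ * (X * B * X⁻¹))) = _
    have h3 : X * A * X⁻¹ * (X * B * X⁻¹) = X * (A * B) * X⁻¹ := by group
    rw [h3, pe_tr_conj, pe_tr_conj, pe_tr_conj, hx, hy, hz]
  · change X * A * X⁻¹ * (X * B * X⁻¹) * (X * A * X⁻¹)⁻¹ * (X * B * X⁻¹)⁻¹ = C
    rw [← hX]
    group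

end MW
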