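import Pool.Agent.Lib.MP_a542cf_al.Ord

/-! MW-FibRot: the rotation orbits in the fibre over a regular coordinate. -/

namespace MW

/-- the parameter of a point in the fibre -/
private theorem fibrot_param {K : Type} [Field K] {X Y Z k w : K} (hw : w ≠ 0)
    (hwx : w + w⁻¹ = X) (h4 : 4 - X ^ 2 ≠ 0) (hk : k - X ^ 2 ≠ 0)
    (hv : X ^ 2 + Y ^ 2 + Z ^ 2 - X * Y * Z = k) :
    w - w⁻¹ ≠ 0 ∧ (Z - w⁻¹ * Y) / (w - w⁻¹) ≠ 0 ∧
    (k - X ^ 2) / (4 - X ^ 2) / ((Z - w⁻¹ * Y) / (w - w⁻¹)) = (w * Y - Z) / (w - w⁻¹) ∧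
    (Z - w⁻¹ * Y) / (w - w⁻¹) + (w * Y - Z) / (w - w⁻¹) = Y := by
  have hww : w * w⁻¹ = 1 := mul_inv_cancel₀ hw
  have hD2 : (w - w⁻¹) ^ 2 = -(4 - X ^ 2) := by
    rw [← hwx]
    linear_combination -4 * hww
  have hD : w - w⁻¹ ≠ 0 := by
    intro h
    rw [h] at hD2
    apply h4
    linear_combination hD2
  have hprod : (Z - w⁻¹ * Y) * (w * Y - Z) = -(k - X ^ 2) := by
    rw [← hv, ← hwx]
    linear_combination (-Y ^ 2) * hww
  have hu : (Z - w⁻¹ * Y) / (w - w⁻¹) ≠ 0 := by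
    refine div_ne_zero ?_ hD
    intro h
    rw [h, zero_mul] at hprod
    apply hk
    linear_combination hprod
  refine ⟨hD, hu, ?_, ?_⟩
  · rw [div_eq_iff hu, div_mul_div_comm, mul_comm (w * Y - Z), hprod, ← sq, hD2, neg_div_neg_eq]
  · rw [← add_div]
    rw [div_eq_iff hD]
    ring

/-- the rotation multiplies the parameter by `w` -/
private theorem fibrot_rot (p : ℕ) [Fact p.Prime] (K : Type) [Field K]
    [Algebra (ZMod p) K] (O : Set (ZMod p × ZMod p × ZMod p))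
    (hO : Inv O) (x y z : ZMod p) (hv : (x, y, z) ∈ O)
    (w : K) (hw : w ≠ 0) (hwx : w + w⁻¹ = algebraMap (ZMod p) K x) (n : ℕ) :
    ∃ y' z', (x, y', z') ∈ O ∧
      (algebraMap (ZMod p) K z' - w⁻¹ * algebraMap (ZMod p) K y') / (w - w⁻¹) =
        w ^ n * ((algebraMap (ZMod p) K z - w⁻¹ * algebraMap (ZMod p) K y) / (w - w⁻¹)) := by
  have hww : w * w⁻¹ = 1 := mul_inv_cancel₀ hw
  induction n with
  | zero => exact ⟨y, z, hv, by rw [pow_zero, one_mul]⟩
  | succ n ih =>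
    obtain ⟨y', z', h1, h2⟩ := ih
    refine ⟨z', x * z' - y', hO.vieta _ _ _ (hO.swap23 _ _ _ h1), ?_⟩
    rw [pow_succ', mul_assoc, ← h2, ← mul_div_assoc, map_sub, map_mul, ← hwx]
    congr 1
    linear_combination (algebraMap (ZMod p) K y') * hww

private theorem fibrot_frob (p : ℕ) [Fact p.Prime] (K : Type) [Field K]
    [Algebra (ZMod p) K] (x : ZMod p) :
    (algebraMap (ZMod p) K x) ^ p = algebraMap (ZMod p) K x := by
  rw [← map_pow, ZMod.pow_card]

/-- Frobenius on the parameter, split case -/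
private theorem fibrot_split (p : ℕ) [Fact p.Prime] (K : Type) [Field K]
    [Algebra (ZMod p) K] (y z : ZMod p) (w : K) (hw1 : w ^ (p - 1) = 1)
    (hu : (algebraMap (ZMod p) K z - w⁻¹ * algebraMap (ZMod p) K y) / (w - w⁻¹) ≠ 0) :
    ((algebraMap (ZMod p) K z - w⁻¹ * algebraMap (ZMod p) K y) / (w - w⁻¹)) ^ (p - 1) = 1 := by
  have hp : p.Prime := Fact.out
  have hchar : CharP K p := charP_of_injective_algebraMap (algebraMap (ZMod p) K).injective p
  have hwp : w ^ p = w := by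
    rw [← Nat.sub_add_cancel hp.one_le, pow_succ, hw1, one_mul]
  have h1 : ((algebraMap (ZMod p) K z - w⁻¹ * algebraMap (ZMod p) K y) / (w - w⁻¹)) ^ p =
      (algebraMap (ZMod p) K z - w⁻¹ * algebraMap (ZMod p) K y) / (w - w⁻¹) := by
    rw [div_pow, sub_pow_char, sub_pow_char, mul_pow, inv_pow, hwp, fibrot_frob, fibrot_frob]
  set u := (algebraMap (ZMod p) K z - w⁻¹ * algebraMap (ZMod p) K y) / (w - w⁻¹) with hudef
  have h2 : u ^ (p - 1) * u = 1 * u := by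
    rw [← pow_succ, Nat.sub_add_cancel hp.one_le, one_mul, h1]
  exact mul_right_cancel₀ hu h2

/-- Frobenius on the parameter, nonsplit case -/
private theorem fibrot_nonsplit (p : ℕ) [Fact p.Prime] (K : Type) [Field K]
    [Algebra (ZMod p) K] (y z : ZMod p) (w : K) (hw : w ≠ 0) (hw1 : w ^ (p + 1) = 1) :
    ((algebraMap (ZMod p) K z - w⁻¹ * algebraMap (ZMod p) K y) / (w - w⁻¹)) ^ p =
      (w * algebraMap (ZMod p) K y - algebraMap (ZMod p) K z) / (w - w⁻¹) := by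
  have hp : p.Prime := Fact.out
  have hchar : CharP K p := charP_of_injective_algebraMap (algebraMap (ZMod p) K).injective p
  have hwp : w ^ p = w⁻¹ := by
    rw [pow_succ] at hw1
    exact eq_inv_of_mul_eq_one_left hw1
  rw [div_pow, sub_pow_char, sub_pow_char, mul_pow, inv_pow, hwp, inv_inv, fibrot_frob,
    fibrot_frob, ← neg_sub w w⁻¹, ← neg_sub (w * _) _, neg_div_neg_eq]

theorem fibrot (p : ℕ) [Fact p.Prime] (hp2 : p ≠ 2) (K : Type) [Field K] [Fintype K]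
    [Algebra (ZMod p) K] (κ : ZMod p) (hκ : κ ≠ 4) (O : Set (ZMod p × ZMod p × ZMod p))
    (hO : Inv O) (hX : ∀ v ∈ O, OnX κ v) (x y z : ZMod p) (hv : (x, y, z) ∈ O)
    (hx : Reg κ x) (w : K) (hw : w ≠ 0) (hwx : w + w⁻¹ = algebraMap (ZMod p) K x) :
    ∃ u : K, u ≠ 0 ∧
      (∃ e, TypeC p (algebraMap (ZMod p) K ((κ - x ^ 2) / (4 - x ^ 2))) (u ^ orderOf w)
        (orderOf w) e) ∧
      ∀ h : K, h ^ orderOf w = u ^ orderOf w → ∃ y' z', (x, y', z') ∈ O ∧
        algebraMap (ZMod p) K y' =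
          h + algebraMap (ZMod p) K ((κ - x ^ 2) / (4 - x ^ 2)) / h := by
  set a := algebraMap (ZMod p) K with ha
  have hinj : Function.Injective a := (algebraMap (ZMod p) K).injective
  have h4 : 4 - (a x) ^ 2 ≠ 0 := by
    intro h
    have h1 : a (4 - x ^ 2) = a 0 := by
      rw [map_sub, map_pow, map_zero, map_ofNat]
      exact h
    exact hx.1 (sub_eq_zero.mp (hinj h1)).symm
  have hk : a κ - (a x) ^ 2 ≠ 0 := by
    intro h
    have h1 : a (κ - x ^ 2) = a 0 := by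
      rw [map_sub, map_pow, map_zero]
      exact h
    exact hx.2 (sub_eq_zero.mp (hinj h1)).symm
  have hlam : a ((κ - x ^ 2) / (4 - x ^ 2)) = (a κ - (a x) ^ 2) / (4 - (a x) ^ 2) := by
    rw [map_div₀, map_sub, map_sub, map_pow, map_ofNat]
  have hOn : ∀ y' z', (x, y', z') ∈ O →
      (a x) ^ 2 + (a y') ^ 2 + (a z') ^ 2 - a x * a y' * a z' = a κ := by
    intro y' z' h'
    have h1 : x ^ 2 + y' ^ 2 + z' ^ 2 - x * y' * z' = κ := hX _ h'
    have h2 := congrArg a h1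
    simp only [map_add, map_sub, map_mul, map_pow] at h2
    exact h2
  obtain ⟨hD, hu, hdiv, hsum⟩ := fibrot_param hw hwx h4 hk (hOn y z hv)
  refine ⟨(a z - w⁻¹ * a y) / (w - w⁻¹), hu, ?_, ?_⟩
  · rcases ord_type p K hw hwx with h1 | h1
    · obtain ⟨e, he⟩ := orderOf_dvd_of_pow_eq_one h1
      refine ⟨e, Or.inl ⟨he.symm, ?_⟩⟩
      rw [← pow_mul, ← he]
      exact fibrot_split p K y z w h1 hu
    · obtain ⟨e, he⟩ := orderOf_dvd_of_pow_eq_one h1
      refine ⟨e, Or.inr ⟨he.symm, ?_⟩⟩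
      rw [← pow_mul, ← he, pow_succ, fibrot_nonsplit p K y z w hw h1, hlam, ← hdiv]
      exact div_mul_cancel₀ _ hu
  · intro h hh
    have hp : p.Prime := Fact.out
    have hpos : 0 < orderOf w := by
      have h2p := hp.two_le
      rcases ord_type p K hw hwx with h1 | h1
      · exact Nat.pos_of_dvd_of_pos (orderOf_dvd_of_pow_eq_one h1) (by omega)
      · exact Nat.pos_of_dvd_of_pos (orderOf_dvd_of_pow_eq_one h1) (by omega)
    have : NeZero (orderOf w) := ⟨hpos.ne'⟩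
    have h1 : (h / ((a z - w⁻¹ * a y) / (w - w⁻¹))) ^ orderOf w = 1 := by
      rw [div_pow, hh, div_self (pow_ne_zero _ hu)]
    obtain ⟨i, _, hi⟩ := (IsPrimitiveRoot.orderOf w).eq_pow_of_pow_eq_one h1
    rw [eq_div_iff hu] at hi
    obtain ⟨y', z', hO', he⟩ := fibrot_rot p K O hO x y z hv w hw hwx i
    obtain ⟨-, -, hdiv', hsum'⟩ := fibrot_param hw hwx h4 hk (hOn y' z' hO')
    refine ⟨y', z', hO', ?_⟩
    rw [← hi, ← he, hlam, hdiv', hsum']

/-- the full fibre over a regular coordinate of order `p - 1` -/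
theorem fullfib (p : ℕ) [Fact p.Prime] (hp2 : p ≠ 2) (K : Type) [Field K] [Fintype K]
    [Algebra (ZMod p) K] (κ : ZMod p) (hκ : κ ≠ 4) (O : Set (ZMod p × ZMod p × ZMod p))
    (hO : Inv O) (hX : ∀ v ∈ O, OnX κ v) (x y z : ZMod p) (hv : (x, y, z) ∈ O)
    (hx : Reg κ x) (hord : HasOrd K x (p - 1)) (y' z' : ZMod p) (h' : OnX κ (x, y', z')) :
    (x, y', z') ∈ O := by
  set a := algebraMap (ZMod p) K with ha
  have hinj : Function.Injective a := (algebraMap (ZMod p) K).injective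
  have h4 : 4 - (a x) ^ 2 ≠ 0 := by
    intro h
    have h1 : a (4 - x ^ 2) = a 0 := by
      rw [map_sub, map_pow, map_zero, map_ofNat]
      exact h
    exact hx.1 (sub_eq_zero.mp (hinj h1)).symm
  have hk : a κ - (a x) ^ 2 ≠ 0 := by
    intro h
    have h1 : a (κ - x ^ 2) = a 0 := by
      rw [map_sub, map_pow, map_zero]
      exact h
    exact hx.2 (sub_eq_zero.mp (hinj h1)).symm
  have hOn : ∀ y' z', OnX κ (x, y', z') →
      (a x) ^ 2 + (a y') ^ 2 + (a z') ^ 2 - a x * a y' * a z' = a κ := by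
    intro y' z' h'
    have h1 : x ^ 2 + y' ^ 2 + z' ^ 2 - x * y' * z' = κ := h'
    have h2 := congrArg a h1
    simp only [map_add, map_sub, map_mul, map_pow] at h2
    exact h2
  obtain ⟨w, hw, hwx, hwo⟩ := hord
  have hp : p.Prime := Fact.out
  have h2p := hp.two_le
  have hw1 : w ^ (p - 1) = 1 := by rw [← hwo]; exact pow_orderOf_eq_one w
  obtain ⟨hD, hu, hdiv, hsum⟩ := fibrot_param hw hwx h4 hk (hOn y z (hX _ hv))
  obtain ⟨-, hu', hdiv', hsum'⟩ := fibrot_param hw hwx h4 hk (hOn y' z' h')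
  have hpow := fibrot_split p K y z w hw1 hu
  have hpow' := fibrot_split p K y' z' w hw1 hu'
  have : NeZero (orderOf w) := ⟨by omega⟩
  have h1 : ((a z' - w⁻¹ * a y') / (w - w⁻¹) / ((a z - w⁻¹ * a y) / (w - w⁻¹))) ^ orderOf w =
      1 := by
    rw [hwo, div_pow, hpow, hpow', div_one]
  obtain ⟨i, _, hi⟩ := (IsPrimitiveRoot.orderOf w).eq_pow_of_pow_eq_one h1
  rw [eq_div_iff hu] at hi
  obtain ⟨y₁, z₁, hO₁, he⟩ := fibrot_rot p K O hO x y z hv w hw hwx i
  rw [hi] at he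
  obtain ⟨-, hu₁, hdiv₁, hsum₁⟩ := fibrot_param hw hwx h4 hk (hOn y₁ z₁ (hX _ hO₁))
  have hy : a y₁ = a y' := by
    rw [← hsum₁, ← hsum', ← hdiv₁, ← hdiv', he]
  have hz : a z₁ = a z' := by
    rw [div_left_inj' hD, hy] at he
    linear_combination he
  rw [← hinj hy, ← hinj hz]
  exact hO₁

end MW
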