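import Pool.Agent.Lib.MP_a542cf_al.FinalA

/-! MW-FinalB: the number of orbits of generating pairs over the giant orbit of triples. -/

namespace MW

open Matrix

/-- the orbits of generating pairs at level `k` whose triples lie in `G` -/
def giantSet (p : ℕ) [Fact p.Prime] (k : ZMod p) (G : Set (ZMod p × ZMod p × ZMod p)) :
    Set (Set (SL2 (ZMod p) × SL2 (ZMod p))) :=
  {o | ∃ P, IsGen P ∧ lev P = k ∧ triple P ∈ G ∧ o = {Q | NEquiv P Q}}

section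
variable (p : ℕ) [Fact p.Prime]

theorem two_ne (hp2 : p ≠ 2) : (2 : ZMod p) ≠ 0 := by
  have h : ((2 : ℕ) : ZMod p) ≠ 0 := by
    rw [Ne, ZMod.natCast_eq_zero_iff]
    intro h
    exact hp2 ((Nat.prime_dvd_prime_iff_eq (Fact.out : p.Prime) Nat.prime_two).1 h)
  exact_mod_cast h

theorem class_structure (hp2 : p ≠ 2) (k : ZMod p) (hk : k ≠ 2)
    (G : Set (ZMod p × ZMod p × ZMod p))
    (hmin : ∀ O, Inv O → (O ∩ G).Nonempty → G ⊆ O) {P Q : SL2 (ZMod p) × SL2 (ZMod p)}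
    (hPk : lev P = k) (hPG : triple P ∈ G) (hQG : triple Q ∈ G) :
    ∃ Q' X, NEquiv P Q' ∧ X.det ≠ 0 ∧ ConjBy X Q' Q := by
  have h1 : G ⊆ {v | ∃ Q, NEquiv P Q ∧ triple Q = v} :=
    hmin _ (inv_orbit P) ⟨triple P, ⟨P, nequiv_refl _, rfl⟩, hPG⟩
  obtain ⟨Q', hQ', he⟩ := h1 hQG
  have hl : lev Q' = k := by rw [← lev_nequiv hQ', hPk]
  obtain ⟨X, hX, hc⟩ := conjTriple (two_ne p hp2) (k + 2)
    (by intro h; apply hk; linear_combination h) Q' Q
    (onX_triple Q' (k + 2) (by rw [hl]; ring)) he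
  exact ⟨Q', X, hQ', hX, hc⟩

theorem det_ne_of_nonsq {X : Matrix (Fin 2) (Fin 2) (ZMod p)} (hX : ¬ IsSquare X.det) :
    X.det ≠ 0 := by
  intro h
  exact hX (by rw [h]; exact ⟨0, by ring⟩)

theorem one_class (hp2 : p ≠ 2) (k : ZMod p) (hk : k ≠ 2)
    (G : Set (ZMod p × ZMod p × ZMod p))
    (hmin : ∀ O, Inv O → (O ∩ G).Nonempty → G ⊆ O) {P Q Q0 Q1 : SL2 (ZMod p) × SL2 (ZMod p)}
    (hP : IsGen P) (hPk : lev P = k) (hPG : triple P ∈ G) (hQG : triple Q ∈ G)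
    (h0 : NEquiv P Q0) (h1 : NEquiv Q0 Q1) (X : Matrix (Fin 2) (Fin 2) (ZMod p))
    (hX : ¬ IsSquare X.det) (hc : ConjBy X Q0 Q1) : NEquiv P Q := by
  obtain ⟨Q', Y, hQ', hY, hcY⟩ := class_structure p hp2 k hk G hmin hPk hPG hQG
  have hgen : IsGen Q' := (isGen_nequiv hQ').1 hP
  by_cases hsq : IsSquare Y.det
  · exact nequiv_trans hQ' (conj_square Q' Q hgen Y hY hsq hcY)
  · obtain ⟨Q'', hX'', h''⟩ := nequiv_conj X (det_ne_of_nonsq p hX) hc
      (nequiv_trans (nequiv_symm h0) hQ')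
    have h3 := conj_nonsquare p Q' Q Q'' hgen Y X hsq hX hcY hX''
    exact nequiv_trans (nequiv_trans (nequiv_trans h0 h1) h'') (nequiv_symm h3)

theorem giantSet_ncard_one (hp2 : p ≠ 2) (k : ZMod p) (hk : k ≠ 2)
    (G : Set (ZMod p × ZMod p × ZMod p))
    (hmin : ∀ O, Inv O → (O ∩ G).Nonempty → G ⊆ O) {P Q0 Q1 : SL2 (ZMod p) × SL2 (ZMod p)}
    (hP : IsGen P) (hPk : lev P = k) (hPG : triple P ∈ G)
    (h0 : NEquiv P Q0) (h1 : NEquiv Q0 Q1) (X : Matrix (Fin 2) (Fin 2) (ZMod p))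
    (hX : ¬ IsSquare X.det) (hc : ConjBy X Q0 Q1) : (giantSet p k G).ncard = 1 := by
  rw [Set.ncard_eq_one]
  refine ⟨{Q | NEquiv P Q}, ?_⟩
  ext o
  simp only [Set.mem_singleton_iff]
  constructor
  · rintro ⟨Q, hQ, hQk, hQG, rfl⟩
    have h := one_class p hp2 k hk G hmin hP hPk hPG hQG h0 h1 X hX hc
    ext R
    exact ⟨fun hR => nequiv_trans h hR, fun hR => nequiv_trans (nequiv_symm h) hR⟩
  · rintro rfl
    exact ⟨P, hP, hPk, hPG, rfl⟩

theorem exists_nonsq (hp2 : p ≠ 2) : ∃ X : Matrix (Fin 2) (Fin 2) (ZMod p), ¬ IsSquare X.det := by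
  have hF : ringChar (ZMod p) ≠ 2 := by rwa [ZMod.ringChar_zmod_n]
  obtain ⟨a, ha⟩ := FiniteField.exists_nonsquare hF
  refine ⟨!![1, 0; 0, a], ?_⟩
  rw [det_fin_two_of]
  simpa using ha

theorem giantSet_ncard_two (hp2 : p ≠ 2) (hp4 : p % 4 = 1) (G : Set (ZMod p × ZMod p × ZMod p))
    (hmin : ∀ O, Inv O → (O ∩ G).Nonempty → G ⊆ O) {P : SL2 (ZMod p) × SL2 (ZMod p)}
    (hP : IsGen P) (hPk : lev P = -2) (hPG : triple P ∈ G) (hk : (-2 : ZMod p) ≠ 2) :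
    (giantSet p (-2) G).ncard = 2 := by
  obtain ⟨X, hX⟩ := exists_nonsq p hp2
  have hX0 := det_ne_of_nonsq p hX
  obtain ⟨P2, hP2⟩ := exists_conj X hX0 P
  have hg2 : IsGen P2 := isGen_conj hX0 hP2 hP
  have hl2 : lev P2 = -2 := by rw [← lev_conj hX0 hP2, hPk]
  have ht2 : triple P2 ∈ G := by rw [← triple_conj hX0 hP2]; exact hPG
  have hne : ¬ NEquiv P P2 := neg_two p hp4 P P2 hP hPk X hX hP2
  rw [Set.ncard_eq_two]
  refine ⟨{Q | NEquiv P Q}, {Q | NEquiv P2 Q}, ?_, ?_⟩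
  · intro h
    apply hne
    have : P2 ∈ {Q | NEquiv P Q} := by rw [h]; exact nequiv_refl _
    exact this
  · ext o
    simp only [Set.mem_insert_iff, Set.mem_singleton_iff]
    constructor
    · rintro ⟨Q, hQ, hQk, hQG, rfl⟩
      obtain ⟨Q', Y, hQ', hY, hcY⟩ := class_structure p hp2 (-2) hk G hmin hPk hPG hQG
      have hgen : IsGen Q' := (isGen_nequiv hQ').1 hP
      by_cases hsq : IsSquare Y.det
      · left
        have h := nequiv_trans hQ' (conj_square Q' Q hgen Y hY hsq hcY)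
        ext R
        exact ⟨fun hR => nequiv_trans h hR, fun hR => nequiv_trans (nequiv_symm h) hR⟩
      · right
        obtain ⟨Q'', hX'', h''⟩ := nequiv_conj X hX0 hP2 hQ'
        have h3 := conj_nonsquare p Q' Q Q'' hgen Y X hsq hX hcY hX''
        have h := nequiv_trans h'' (nequiv_symm h3)
        ext R
        exact ⟨fun hR => nequiv_trans h hR, fun hR => nequiv_trans (nequiv_symm h) hR⟩
    · rintro (rfl | rfl)
      · exact ⟨P, hP, hPk, hPG, rfl⟩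
      · exact ⟨P2, hg2, hl2, ht2, rfl⟩

/-- the remaining generating pairs -/
theorem remainder_le (hp2 : p ≠ 2) (k : ZMod p) (hk : k ≠ 2)
    (G : Set (ZMod p × ZMod p × ZMod p)) (N : ℕ)
    (hN : ({v | ∃ P, IsGen P ∧ lev P = k ∧ triple P = v} \ G).ncard ≤ N) :
    {P : SL2 (ZMod p) × SL2 (ZMod p) | IsGen P ∧ lev P = k ∧ ∀ o ∈ giantSet p k G, P ∉ o}.ncard ≤
      N * (8 * p ^ 3) := by
  classical
  set U : Set (ZMod p × ZMod p × ZMod p) :=
    {v | ∃ P, IsGen P ∧ lev P = k ∧ triple P = v} \ G with hU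
  have hUf : U.Finite := Set.toFinite _
  have hsub : {P : SL2 (ZMod p) × SL2 (ZMod p) | IsGen P ∧ lev P = k ∧
      ∀ o ∈ giantSet p k G, P ∉ o} ⊆
      ⋃ v ∈ hUf.toFinset, {P : SL2 (ZMod p) × SL2 (ZMod p) | triple P = v ∧ lev P ≠ 2} := by
    rintro P ⟨hP, hPk, hPo⟩
    simp only [Set.mem_iUnion, Set.Finite.mem_toFinset]
    refine ⟨triple P, ⟨⟨P, hP, hPk, rfl⟩, ?_⟩, rfl, by rw [hPk]; exact hk⟩
    intro h
    exact hPo _ ⟨P, hP, hPk, h, rfl⟩ (nequiv_refl P)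
  refine (Set.ncard_le_ncard hsub (Set.toFinite _)).trans ?_
  have h1 : (⋃ v ∈ hUf.toFinset, {P : SL2 (ZMod p) × SL2 (ZMod p) |
      triple P = v ∧ lev P ≠ 2}).ncard ≤ ∑ v ∈ hUf.toFinset, 8 * p ^ 3 := by
    refine le_trans ?_ (Finset.sum_le_sum (fun v _ => pairCount p hp2 v))
    induction hUf.toFinset using Finset.induction_on with
    | empty => simp
    | insert a s ha ih =>
      rw [Finset.set_biUnion_insert, Finset.sum_insert ha]
      exact (Set.ncard_union_le _ _).trans (Nat.add_le_add_left ih _)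
  refine h1.trans ?_
  rw [Finset.sum_const, smul_eq_mul]
  refine Nat.mul_le_mul_right _ ?_
  rw [← Set.ncard_eq_toFinset_card _ hUf]
  exact hN

end

end MW
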