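import Pool.Agent.Lib.MP_a542cf_al.GenTorus
import Pool.Agent.Lib.MP_a542cf_al.Ord

/-! MW-GenExists: existence of generating pairs at every level. -/

namespace MW

/-- a root of `X^p = X` lies in the prime field -/
private theorem genexists_mem (p : ℕ) [Fact p.Prime] (K : Type) [Field K] [Algebra (ZMod p) K]
    (w : K) (hw : w ^ p = w) : ∃ v : ZMod p, algebraMap (ZMod p) K v = w := by
  classical
  by_contra hcon
  push Not at hcon
  have hp : p.Prime := Fact.out
  have hinj : Function.Injective (algebraMap (ZMod p) K) := (algebraMap (ZMod p) K).injective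
  let Q : Polynomial K := Polynomial.X ^ p - Polynomial.X
  have hQ : Q.natDegree = p := FiniteField.X_pow_card_sub_X_natDegree_eq K hp.one_lt
  have hQ0 : Q ≠ 0 := by
    intro h
    rw [h, Polynomial.natDegree_zero] at hQ
    exact hp.ne_zero hQ.symm
  let S : Finset K := insert w (Finset.univ.image (algebraMap (ZMod p) K))
  have hScard : S.card = p + 1 := by
    rw [Finset.card_insert_of_notMem, Finset.card_image_of_injective _ hinj, Finset.card_univ,
      ZMod.card]
    intro h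
    obtain ⟨v, -, hv⟩ := Finset.mem_image.1 h
    exact hcon v hv
  have hSroot : S.val ⊆ Q.roots := by
    intro a ha
    have ha' : a ∈ S := ha
    rw [Polynomial.mem_roots hQ0, Polynomial.IsRoot.def]
    simp only [Q, Polynomial.eval_sub, Polynomial.eval_pow, Polynomial.eval_X]
    rcases Finset.mem_insert.1 ha' with rfl | h
    · rw [hw, sub_self]
    · obtain ⟨v, -, rfl⟩ := Finset.mem_image.1 h
      rw [← map_pow, ZMod.pow_card, sub_self]
  have h1 := Polynomial.card_le_degree_of_subset_roots hSroot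
  rw [hScard, hQ] at h1
  omega

theorem genExists : ∃ p₀ : ℕ, ∀ (p : ℕ) [Fact p.Prime], p₀ ≤ p → ∀ (K : Type) [Field K]
    [Fintype K] [Algebra (ZMod p) K], ∀ κ x : ZMod p, κ ≠ 4 → Reg κ x → HasOrd K x (p - 1) →
    ∃ P : SL2 (ZMod p) × SL2 (ZMod p), IsGen P ∧ lev P = κ - 2 ∧ tr P.1 = x := by
  obtain ⟨p₀, hp₀⟩ := genTorus
  refine ⟨p₀, fun p _ hp K _ _ _ κ x hκ hx hord => ?_⟩
  have hpp : p.Prime := Fact.out
  obtain ⟨w, hw0, hwx, hword⟩ := hord
  have hwp : w ^ p = w := by
    have h1 : w ^ (p - 1) = 1 := by rw [← hword]; exact pow_orderOf_eq_one w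
    calc w ^ p = w ^ (p - 1 + 1) := by rw [Nat.sub_add_cancel hpp.one_le]
      _ = w := by rw [pow_succ, h1, one_mul]
  obtain ⟨v, hv⟩ := genexists_mem p K w hwp
  have hinj : Function.Injective (algebraMap (ZMod p) K) := (algebraMap (ZMod p) K).injective
  have hv0 : v ≠ 0 := by
    rintro rfl
    rw [map_zero] at hv
    exact hw0 hv.symm
  have hvord : orderOf v = p - 1 := by
    rw [← hword, ← hv]
    exact (orderOf_injective (algebraMap (ZMod p) K).toMonoidHom hinj v).symm
  have hvx : v + v⁻¹ = x := by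
    apply hinj
    rw [map_add, map_inv₀, hv]
    exact hwx
  obtain ⟨hl0, hl1⟩ := lam_ne p hκ hx
  set l : ZMod p := (κ - x ^ 2) / (4 - x ^ 2) with hl
  have h4x : (4 : ZMod p) - x ^ 2 ≠ 0 := sub_ne_zero.2 (Ne.symm hx.1)
  have hl' : l * (4 - x ^ 2) = κ - x ^ 2 := by
    rw [hl]
    exact div_mul_cancel₀ _ h4x
  let A : SL2 (ZMod p) := ⟨!![v, 0; 0, v⁻¹], by simp [Matrix.det_fin_two, hv0]⟩
  let B : SL2 (ZMod p) := ⟨!![1, 1; l - 1, l], by simp [Matrix.det_fin_two]⟩
  refine ⟨(A, B), hp₀ p hp v A B hvord rfl ?_, ?_, ?_⟩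
  · intro i j
    fin_cases i <;> fin_cases j
    · simp [B]
    · simp [B]
    · simpa [B] using sub_ne_zero.2 hl1
    · simpa [B] using hl0
  · have hvv : v * v⁻¹ = 1 := mul_inv_cancel₀ hv0
    have hA : (A : Matrix (Fin 2) (Fin 2) (ZMod p)) = !![v, 0; 0, v⁻¹] := rfl
    have hB : (B : Matrix (Fin 2) (Fin 2) (ZMod p)) = !![1, 1; l - 1, l] := rfl
    have hA' : ((A⁻¹ : SL2 (ZMod p)) : Matrix (Fin 2) (Fin 2) (ZMod p)) = !![v⁻¹, 0; 0, v] := by
      rw [Matrix.SpecialLinearGroup.coe_inv, hA, Matrix.adjugate_fin_two_of]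
      simp
    have hB' : ((B⁻¹ : SL2 (ZMod p)) : Matrix (Fin 2) (Fin 2) (ZMod p)) =
        !![l, -1; 1 - l, 1] := by
      rw [Matrix.SpecialLinearGroup.coe_inv, hB, Matrix.adjugate_fin_two_of]
      simp
    have h1 : lev (A, B) = 2 * l + (1 - l) * (v * v + v⁻¹ * v⁻¹) := by
      have h3 : ((A * B * A⁻¹ * B⁻¹ : SL2 (ZMod p)) : Matrix (Fin 2) (Fin 2) (ZMod p)) =
          !![v, 0; 0, v⁻¹] * !![1, 1; l - 1, l] * !![v⁻¹, 0; 0, v] * !![l, -1; 1 - l, 1] := by
        rw [Matrix.SpecialLinearGroup.coe_mul, Matrix.SpecialLinearGroup.coe_mul,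
          Matrix.SpecialLinearGroup.coe_mul, hA, hB, hA', hB']
      simp only [lev, tr]
      rw [h3, Matrix.trace_fin_two]
      simp only [Matrix.mul_apply, Fin.sum_univ_two, Matrix.of_apply, Matrix.cons_val',
        Matrix.cons_val_zero, Matrix.cons_val_one, Matrix.cons_val_fin_one, Fin.isValue]
      linear_combination 2 * l * hvv
    rw [h1]
    have h2 : v * v + v⁻¹ * v⁻¹ = x ^ 2 - 2 := by
      rw [← hvx]
      linear_combination (-2 : ZMod p) * hvv
    rw [h2]
    linear_combination hl'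
  · rw [← hvx]
    simp [tr, Matrix.trace_fin_two, A]

end MW
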