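import Pool.Agent.Lib.MP_a542cf_al.Lower
import Pool.Agent.Lib.MP_a542cf_al.DvBound

/-! MW-SpecPt: points fixed by a move whose conjugation has nonsquare determinant. -/

namespace MW

section specpt
variable (p : ℕ) [Fact p.Prime] (K : Type) [Field K] [Algebra (ZMod p) K]

/-- a root of `X^p = X` lies in the prime field -/
private theorem specpt_mem (w : K) (hw : w ^ p = w) : ∃ v : ZMod p, algebraMap (ZMod p) K v = w := by
  classical
  by_contra hcon
  push Not at hcon
  have hp : p.Prime := Fact.out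
  have hinj : Function.Injective (algebraMap (ZMod p) K) := (algebraMap (ZMod p) K).injective
  let Q : Polynomial K := Polynomial.X ^ p - Polynomial.X
  have hQ : Q.natDegree = p := FiniteField.X_pow_card_sub_X_natDegree_eq K hp.one_lt
  have hQ0 : Q ≠ 0 := by
    intro h
    rw [h, Polynomial.natDegree_zero] at hQ
    exact hp.ne_zero hQ.symm
  let S : Finset K := insert w (Finset.univ.image (algebraMap (ZMod p) K))
  have hScard : S.card = p + 1 := by
    rw [Finset.card_insert_of_notMem, Finset.card_image_of_injective _ hinj, Finset.card_univ,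
      ZMod.card]
    intro h
    obtain ⟨v, -, hv⟩ := Finset.mem_image.1 h
    exact hcon v hv
  have hSroot : S.val ⊆ Q.roots := by
    intro a ha
    have ha' : a ∈ S := ha
    rw [Polynomial.mem_roots hQ0, Polynomial.IsRoot.def]
    simp only [Q, Polynomial.eval_sub, Polynomial.eval_pow, Polynomial.eval_X]
    rcases Finset.mem_insert.1 ha' with rfl | h
    · rw [hw, sub_self]
    · obtain ⟨v, -, rfl⟩ := Finset.mem_image.1 h
      rw [← map_pow, ZMod.pow_card, sub_self]
  have h1 := Polynomial.card_le_degree_of_subset_roots hSroot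
  rw [hScard, hQ] at h1
  omega

private theorem specpt_two (hp2 : p ≠ 2) : (2 : ZMod p) ≠ 0 := by
  have hpp : p.Prime := Fact.out
  intro h0
  have h3 : ((2 : ℕ) : ZMod p) = 0 := by exact_mod_cast h0
  rw [ZMod.natCast_eq_zero_iff] at h3
  exact hp2 ((Nat.prime_dvd_prime_iff_eq hpp Nat.prime_two).1 h3)

private theorem specpt_nonsq_mul (hp2 : p ≠ 2) {a b : ZMod p}
    (ha : ¬ IsSquare a) (hb : ¬ IsSquare b) : IsSquare (a * b) := by
  have hchar : ringChar (ZMod p) ≠ 2 := by
    rw [ZMod.ringChar_zmod_n]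
    exact hp2
  have ha0 : a ≠ 0 := by rintro rfl; exact ha (IsSquare.zero)
  have hb0 : b ≠ 0 := by rintro rfl; exact hb (IsSquare.zero)
  have h1 : quadraticChar (ZMod p) a = -1 := quadraticChar_neg_one_iff_not_isSquare.2 ha
  have h2 : quadraticChar (ZMod p) b = -1 := quadraticChar_neg_one_iff_not_isSquare.2 hb
  rw [← quadraticChar_one_iff_isSquare (mul_ne_zero ha0 hb0), map_mul, h1, h2]
  norm_num

/-- the key dichotomy -/
private theorem specpt_nonsq (hp2 : p ≠ 2) (z : ZMod p) (hz : z ≠ 0) (D : K)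
    (hD : D ^ 2 = algebraMap (ZMod p) K z)
    (h : (p % 4 = 3 ∧ D ^ p = D) ∨ (p % 4 = 1 ∧ D ^ p = -D)) : ¬ IsSquare (-z) := by
  have hinj : Function.Injective (algebraMap (ZMod p) K) := (algebraMap (ZMod p) K).injective
  have h2 := specpt_two p hp2
  have h2K : (2 : K) ≠ 0 := by
    intro h0
    apply h2
    apply hinj
    rw [map_zero, map_ofNat]
    exact h0
  have hD0 : D ≠ 0 := by
    rintro rfl
    apply hz
    apply hinj
    rw [← hD, map_zero]
    ring
  rintro ⟨r, hr⟩
  rcases h with ⟨hp4, hDp⟩ | ⟨hp4, hDp⟩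
  · obtain ⟨v, hv⟩ := specpt_mem p K D hDp
    have hv2 : v ^ 2 = z := by
      apply hinj
      rw [map_pow, hv, hD]
    have hv0 : v ≠ 0 := by
      rintro rfl
      exact hD0 (by rw [← hv, map_zero])
    have h3 : IsSquare (-1 : ZMod p) := by
      refine ⟨r / v, ?_⟩
      field_simp
      linear_combination hr - hv2
    rw [ZMod.exists_sq_eq_neg_one_iff] at h3
    exact h3 hp4
  · have h3 : IsSquare (-1 : ZMod p) := by
      rw [ZMod.exists_sq_eq_neg_one_iff]
      omega
    obtain ⟨i, hi⟩ := h3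
    have h4 : D ^ 2 = (algebraMap (ZMod p) K (i * r)) ^ 2 := by
      rw [hD, ← map_pow]
      congr 1
      linear_combination (-z) * hi + i ^ 2 * hr
    have h5 : D ^ p = D := by
      rcases sq_eq_sq_iff_eq_or_eq_neg.1 h4 with h6 | h6
      · rw [h6, ← map_pow, ZMod.pow_card]
      · rw [h6, ← map_neg, ← map_pow, ZMod.pow_card]
    rw [h5] at hDp
    apply hD0
    have h7 : 2 * D = 0 := by linear_combination hDp
    exact (mul_eq_zero.1 h7).resolve_left h2K

private theorem specpt_fiber (l a : K) (s : Finset (K × K))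
    (hs : ∀ q ∈ s, q.1 ≠ 0 ∧ q.2 ≠ 0 ∧ q.1 + l / q.1 = a ∧ q.2 + 1 / q.2 = a) :
    s.card ≤ 4 := by
  classical
  have hroot : ∀ b : K, (Polynomial.X ^ 2 - Polynomial.C a * Polynomial.X + Polynomial.C b :
      Polynomial K).natDegree = 2 := by
    intro b
    compute_degree!
  let P : K → Polynomial K := fun b =>
    Polynomial.X ^ 2 - Polynomial.C a * Polynomial.X + Polynomial.C b
  have hP0 : ∀ b, P b ≠ 0 := by
    intro b h
    have := hroot b
    rw [show (Polynomial.X ^ 2 - Polynomial.C a * Polynomial.X + Polynomial.C b :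
      Polynomial K) = 0 from h] at this
    simp at this
  have hPcard : ∀ b, (P b).roots.toFinset.card ≤ 2 := by
    intro b
    calc (P b).roots.toFinset.card ≤ Multiset.card (P b).roots := Multiset.toFinset_card_le _
      _ ≤ (P b).natDegree := Polynomial.card_roots' _
      _ = 2 := hroot b
  have hsub : s ⊆ (P l).roots.toFinset ×ˢ (P 1).roots.toFinset := by
    intro q hq
    obtain ⟨h1, h2, h3, h4⟩ := hs q hq
    rw [Finset.mem_product, Multiset.mem_toFinset, Multiset.mem_toFinset,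
      Polynomial.mem_roots (hP0 _), Polynomial.mem_roots (hP0 _)]
    constructor
    · simp only [P, Polynomial.IsRoot.def, Polynomial.eval_add, Polynomial.eval_sub,
        Polynomial.eval_pow, Polynomial.eval_X, Polynomial.eval_mul, Polynomial.eval_C]
      rw [← h3]
      field_simp
      ring
    · simp only [P, Polynomial.IsRoot.def, Polynomial.eval_add, Polynomial.eval_sub,
        Polynomial.eval_pow, Polynomial.eval_X, Polynomial.eval_mul, Polynomial.eval_C]
      rw [← h4]
      field_simp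
      ring
  calc s.card ≤ ((P l).roots.toFinset ×ˢ (P 1).roots.toFinset).card := Finset.card_le_card hsub
    _ = (P l).roots.toFinset.card * (P 1).roots.toFinset.card := Finset.card_product _ _
    _ ≤ 2 * 2 := Nat.mul_le_mul (hPcard _) (hPcard _)

end specpt

/-- the bad values of `y` -/
private theorem specpt_bad (p : ℕ) [Fact p.Prime] (K : Type) [Field K] [Fintype K]
    [Algebra (ZMod p) K] (κ : ZMod p) (Y : ℕ) :
    {y : ZMod p | y ^ 2 = 4 ∨ y ^ 2 = κ ∨ ∃ t < Y, HasOrd K y t}.ncard ≤ 4 + Dv p * Y := by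
  classical
  have hsq : ∀ a : ZMod p, {y : ZMod p | y ^ 2 = a}.ncard ≤ 2 := by
    intro a
    let Q : Polynomial (ZMod p) := Polynomial.X ^ 2 - Polynomial.C a
    have hQ : Q.natDegree = 2 := Polynomial.natDegree_X_pow_sub_C
    have hQ0 : Q ≠ 0 := by
      intro h
      rw [h, Polynomial.natDegree_zero] at hQ
      omega
    have hsub : {y : ZMod p | y ^ 2 = a} ⊆ (Q.roots.toFinset : Set (ZMod p)) := by
      intro y hy
      rw [Finset.mem_coe, Multiset.mem_toFinset, Polynomial.mem_roots hQ0]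
      simp only [Q, Polynomial.IsRoot.def, Polynomial.eval_sub, Polynomial.eval_pow,
        Polynomial.eval_X, Polynomial.eval_C]
      exact sub_eq_zero.2 hy
    calc {y : ZMod p | y ^ 2 = a}.ncard ≤ (Q.roots.toFinset : Set (ZMod p)).ncard :=
          Set.ncard_le_ncard hsub (Finset.finite_toSet _)
      _ = Q.roots.toFinset.card := Set.ncard_coe_finset _
      _ ≤ Multiset.card Q.roots := Multiset.toFinset_card_le _
      _ ≤ 2 := by rw [← hQ]; exact Polynomial.card_roots' _
  let T : Finset ℕ := ((Nat.divisors (p - 1)) ∪ (Nat.divisors (p + 1))).filter (fun t => t < Y)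
  have hpp : p.Prime := Fact.out
  have hT : {y : ZMod p | ∃ t < Y, HasOrd K y t}.ncard ≤ Dv p * Y := by
    have hsub : {y : ZMod p | ∃ t < Y, HasOrd K y t} ⊆
        ((T.biUnion fun t => (Set.toFinite {y : ZMod p | HasOrd K y t}).toFinset :
          Finset (ZMod p)) : Set (ZMod p)) := by
      rintro y ⟨t, htY, hty⟩
      rw [Finset.mem_coe, Finset.mem_biUnion]
      refine ⟨t, ?_, ?_⟩
      · simp only [T, Finset.mem_filter, Finset.mem_union, Nat.mem_divisors]
        refine ⟨?_, htY⟩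
        rcases hasOrd_dvd p K hty with h | h
        · left
          exact ⟨h, by have := hpp.two_le; omega⟩
        · right
          exact ⟨h, by omega⟩
      · rw [Set.Finite.mem_toFinset]
        exact hty
    calc {y : ZMod p | ∃ t < Y, HasOrd K y t}.ncard
        ≤ ((T.biUnion fun t => (Set.toFinite {y : ZMod p | HasOrd K y t}).toFinset :
          Finset (ZMod p)) : Set (ZMod p)).ncard :=
          Set.ncard_le_ncard hsub (Finset.finite_toSet _)
      _ = (T.biUnion fun t => (Set.toFinite {y : ZMod p | HasOrd K y t}).toFinset).card :=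
          Set.ncard_coe_finset _
      _ ≤ ∑ t ∈ T, ((Set.toFinite {y : ZMod p | HasOrd K y t}).toFinset).card :=
          Finset.card_biUnion_le
      _ ≤ ∑ t ∈ T, Y := by
          apply Finset.sum_le_sum
          intro t ht
          rw [← Set.ncard_eq_toFinset_card]
          exact (hasOrd_ncard p K t).trans (Finset.mem_filter.1 ht).2.le
      _ = T.card * Y := by rw [Finset.sum_const, smul_eq_mul]
      _ ≤ Dv p * Y := by
          apply Nat.mul_le_mul_right
          calc T.card ≤ ((Nat.divisors (p - 1)) ∪ (Nat.divisors (p + 1))).card :=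
                Finset.card_filter_le _ _
            _ ≤ Dv p := Finset.card_union_le _ _
  have hsplit : {y : ZMod p | y ^ 2 = 4 ∨ y ^ 2 = κ ∨ ∃ t < Y, HasOrd K y t} =
      {y : ZMod p | y ^ 2 = 4} ∪ ({y : ZMod p | y ^ 2 = κ} ∪
        {y : ZMod p | ∃ t < Y, HasOrd K y t}) := by
    ext y
    simp only [Set.mem_union, Set.mem_ofPred_eq]
  rw [hsplit]
  have h1 := Set.ncard_union_le {y : ZMod p | y ^ 2 = 4} ({y : ZMod p | y ^ 2 = κ} ∪
        {y : ZMod p | ∃ t < Y, HasOrd K y t})
  have h2 := Set.ncard_union_le {y : ZMod p | y ^ 2 = κ}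
        {y : ZMod p | ∃ t < Y, HasOrd K y t}
  have h3 := hsq 4
  have h4 := hsq κ
  omega

theorem specPt (c : ℕ) : ∃ p₀ : ℕ, ∀ (p : ℕ) [Fact p.Prime], p₀ ≤ p → ∀ (K : Type) [Field K]
    [Fintype K] [Algebra (ZMod p) K], Fintype.card K = p ^ 2 → ∀ κ : ZMod p, κ ≠ 0 → κ ≠ 4 →
    ∃ (x y : ZMod p) (t : ℕ), OnX κ (x, y, x * y / 2) ∧ ¬ IsSquare (4 - y ^ 2) ∧ Reg κ y ∧
      HasOrd K y t ∧ c * (Dv p) ^ 5 ≤ t := by
  classical
  obtain ⟨p₁, hp₁⟩ := dvBound 12
  refine ⟨p₁ + 10 ^ 4 + (100 + 4 * c) ^ 2, ?_⟩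
  intro p _ hp K _ _ _ hK κ hκ0 hκ4
  have hpp : p.Prime := Fact.out
  have hp2 : p ≠ 2 := by
    rintro rfl
    omega
  have h2 := specpt_two p hp2
  have hinj : Function.Injective (algebraMap (ZMod p) K) := (algebraMap (ZMod p) K).injective
  have : CharP K p := charP_of_injective_algebraMap hinj p
  have h4ne : (4 : ZMod p) ≠ 0 := by
    intro h
    have h5 : (2 : ZMod p) * 2 = 0 := by linear_combination h
    exact h2 (mul_self_eq_zero.1 h5)
  set l : ZMod p := κ / 4 with hl
  have hl4 : 4 * l = κ := by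
    rw [hl]
    field_simp
  have hl0 : l ≠ 0 := div_ne_zero hκ0 h4ne
  have hl1 : l ≠ 1 := by
    intro h
    apply hκ4
    rw [← hl4, h, mul_one]
  set lK : K := algebraMap (ZMod p) K l with hlK
  have hlK0 : lK ≠ 0 := by
    intro h
    apply hl0
    apply hinj
    rw [map_zero]
    exact h
  have hlp : lK ^ p = lK := by rw [hlK, ← map_pow, ZMod.pow_card]
  -- the set of pairs
  obtain ⟨S, hScard, hS⟩ : ∃ S : Set (K × K), ((p : ℝ) - 82 * Real.sqrt p ≤ S.ncard) ∧
      ∀ q ∈ S, q.1 ≠ 0 ∧ q.2 ≠ 0 ∧ q.1 + lK / q.1 = q.2 + 1 / q.2 ∧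
        ((p % 4 = 3 ∧ q.1 ^ p = q.1 ∧ q.2 ^ p = q.2) ∨
          (p % 4 = 1 ∧ q.1 ^ p = lK / q.1 ∧ q.2 ^ p = 1 / q.2)) := by
    have hpo : p % 4 = 3 ∨ p % 4 = 1 := by
      rcases hpp.eq_two_or_odd with h | h
      · exact absurd h hp2
      · omega
    rcases hpo with hp4 | hp4
    · refine ⟨{q : K × K | Adm lK (p - 1) 1 (p - 1) 1 q}, ?_, ?_⟩
      · have h1 := lower p hp2 K hK l hl0 hl1 1 1 (p - 1) (p - 1) 1 1
          (Or.inl ⟨by ring, by ring⟩) (Or.inl (by ring)) (by ring) (by norm_num; omega)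
        rw [abs_le] at h1
        simp only [Nat.cast_one, mul_one, div_one, one_pow] at h1
        have := h1.1
        linarith
      · rintro q ⟨h1, h3, h5, h6, h7⟩
        refine ⟨h1, h3, h5, Or.inl ⟨hp4, ?_, ?_⟩⟩
        · calc q.1 ^ p = q.1 ^ (p - 1 + 1) := by rw [Nat.sub_add_cancel hpp.one_le]
            _ = q.1 := by rw [pow_succ, h6, one_mul]
        · calc q.2 ^ p = q.2 ^ (p - 1 + 1) := by rw [Nat.sub_add_cancel hpp.one_le]
            _ = q.2 := by rw [pow_succ, h7, one_mul]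
    · refine ⟨{q : K × K | Adm lK (p + 1) lK (p + 1) 1 q}, ?_, ?_⟩
      · have h1 := lower p hp2 K hK l hl0 hl1 1 1 (p + 1) (p + 1) lK 1
          (Or.inr ⟨by ring, by ring⟩) (Or.inr (by ring)) (by ring) (by norm_num; omega)
        rw [abs_le] at h1
        simp only [Nat.cast_one, mul_one, div_one, one_pow] at h1
        have := h1.1
        linarith
      · rintro q ⟨h1, h3, h5, h6, h7⟩
        refine ⟨h1, h3, h5, Or.inr ⟨hp4, ?_, ?_⟩⟩
        · rw [eq_div_iff h1, ← pow_succ, h6]
        · rw [eq_div_iff h3, ← pow_succ, h7]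
  -- the values
  set Y : ℕ := c * (Dv p) ^ 5 with hY
  have hbad := specpt_bad p K κ Y
  have hex : ∃ q ∈ S, ∀ y : ZMod p, algebraMap (ZMod p) K y = q.2 + 1 / q.2 →
      ¬ (y ^ 2 = 4 ∨ y ^ 2 = κ ∨ ∃ t < Y, HasOrd K y t) := by
    by_contra hcon
    push Not at hcon
    have hSfin : S.Finite := Set.toFinite S
    let SF : Finset (K × K) := hSfin.toFinset
    let Bad : Finset (ZMod p) :=
      (Set.toFinite {y : ZMod p | y ^ 2 = 4 ∨ y ^ 2 = κ ∨ ∃ t < Y, HasOrd K y t}).toFinset
    have hBadcard : Bad.card ≤ 4 + Dv p * Y := by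
      rw [← Set.ncard_eq_toFinset_card]
      exact hbad
    have himg : SF.image (fun q => q.2 + 1 / q.2) ⊆ Bad.image (algebraMap (ZMod p) K) := by
      intro a ha
      obtain ⟨q, hq, rfl⟩ := Finset.mem_image.1 ha
      have hq' : q ∈ S := hSfin.mem_toFinset.1 hq
      obtain ⟨y, hy, hyb⟩ := hcon q hq'
      refine Finset.mem_image.2 ⟨y, ?_, hy⟩
      rw [Set.Finite.mem_toFinset]
      exact hyb
    have hcard := Finset.card_le_mul_card_image (f := fun q : K × K => q.2 + 1 / q.2) SF 4 (by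
      intro a _
      apply specpt_fiber K lK a
      intro q hq
      obtain ⟨hq1, hq2⟩ := Finset.mem_filter.1 hq
      have hq' : q ∈ S := hSfin.mem_toFinset.1 hq1
      obtain ⟨h3, h5, h6, -⟩ := hS q hq'
      exact ⟨h3, h5, h6.trans hq2, hq2⟩)
    have h3 : SF.card ≤ 4 * (4 + Dv p * Y) := by
      refine hcard.trans (Nat.mul_le_mul_left 4 ?_)
      exact (Finset.card_le_card himg).trans (Finset.card_image_le.trans hBadcard)
    have h5 : (S.ncard : ℝ) ≤ 4 * (4 + Dv p * Y) := by
      rw [Set.ncard_eq_toFinset_card S hSfin]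
      exact_mod_cast h3
    have h6 : ((Dv p : ℝ)) ^ 6 ≤ Real.sqrt p := by
      apply Real.le_sqrt_of_sq_le
      rw [← pow_mul]
      have := hp₁ p (by omega)
      exact_mod_cast this
    have h7 : ((Dv p * Y : ℕ) : ℝ) ≤ c * Real.sqrt p := by
      have h8 : ((Dv p * Y : ℕ) : ℝ) = c * (Dv p : ℝ) ^ 6 := by
        rw [hY]
        push_cast
        ring
      rw [h8]
      exact mul_le_mul_of_nonneg_left h6 (Nat.cast_nonneg c)
    have h9 : (100 + 4 * c : ℝ) ≤ Real.sqrt p := by
      apply Real.le_sqrt_of_sq_le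
      have h10 : (100 + 4 * c) ^ 2 ≤ p := by omega
      exact_mod_cast h10
    have h11 : Real.sqrt p * Real.sqrt p = p := Real.mul_self_sqrt (Nat.cast_nonneg p)
    push_cast at h7
    have hc0 : (0 : ℝ) ≤ c := Nat.cast_nonneg c
    nlinarith [Real.sqrt_nonneg (p : ℝ)]
  obtain ⟨q, hqS, hq⟩ := hex
  obtain ⟨hq1, hq2, hq3, hq4⟩ := hS q hqS
  -- y in the prime field
  have hyp : (q.2 + 1 / q.2) ^ p = q.2 + 1 / q.2 := by
    rw [add_pow_char, div_pow, one_pow]
    rcases hq4 with ⟨-, -, h3⟩ | ⟨-, -, h3⟩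
    · rw [h3]
    · rw [h3, one_div_one_div, add_comm]
  obtain ⟨y, hy⟩ := specpt_mem p K _ hyp
  have hyb := hq y hy
  push Not at hyb
  obtain ⟨hy4, hyκ, hyt⟩ := hyb
  obtain ⟨t, ht⟩ := hasOrd_exists p K hp2 hK y
  have htY : Y ≤ t := by
    by_contra h
    exact hyt t (by omega) ht
  -- the two nonsquares
  have hns1 : ¬ IsSquare (4 - y ^ 2) := by
    have h3 := specpt_nonsq p K hp2 (y ^ 2 - 4) (sub_ne_zero.2 hy4) (q.2 - 1 / q.2) (by
      rw [map_sub, map_pow, hy, map_ofNat]
      field_simp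
      ring) (by
      rcases hq4 with ⟨h3, -, h5⟩ | ⟨h3, -, h5⟩
      · left
        refine ⟨h3, ?_⟩
        rw [sub_pow_char, div_pow, one_pow, h5]
      · right
        refine ⟨h3, ?_⟩
        rw [sub_pow_char, div_pow, one_pow, h5, one_div_one_div]
        ring)
    rwa [neg_sub] at h3
  have hns2 : ¬ IsSquare (κ - y ^ 2) := by
    have h3 := specpt_nonsq p K hp2 (y ^ 2 - κ) (sub_ne_zero.2 hyκ) (q.1 - lK / q.1) (by
      have h4 : algebraMap (ZMod p) K κ = 4 * lK := by
        rw [← hl4, map_mul, map_ofNat]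
      rw [map_sub, map_pow, hy, h4, ← hq3]
      field_simp
      ring) (by
      rcases hq4 with ⟨h3, h5, -⟩ | ⟨h3, h5, -⟩
      · left
        refine ⟨h3, ?_⟩
        rw [sub_pow_char, div_pow, hlp, h5]
      · right
        refine ⟨h3, ?_⟩
        rw [sub_pow_char, div_pow, hlp, h5]
        field_simp
        ring)
    rwa [neg_sub] at h3
  obtain ⟨r, hr⟩ := specpt_nonsq_mul p hp2 hns2 hns1
  have h4y : (4 : ZMod p) - y ^ 2 ≠ 0 := sub_ne_zero.2 (Ne.symm hy4)
  obtain ⟨m, hm⟩ : ∃ m : ZMod p, m ^ 2 * (4 - y ^ 2) = κ - y ^ 2 := by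
    refine ⟨r / (4 - y ^ 2), ?_⟩
    field_simp
    linear_combination -hr
  refine ⟨2 * m, y, t, ?_, hns1, ⟨hy4, hyκ⟩, ht, htY⟩
  have hxy : 2 * m * y / 2 = m * y := by field_simp
  simp only [OnX]
  rw [hxy]
  linear_combination hm

end MW
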