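import Pool.Agent.Lib.MP_a542cf_al.Core
import Pool.Agent.Lib.MP_a542cf_al.FinalB
import Pool.Agent.Lib.MP_a542cf_al.GenExists
import Pool.Agent.Lib.MP_a542cf_al.SpecPt

/-! MW-Final: the main theorem. -/

namespace MW

open Matrix

section
variable (p : ℕ) [Fact p.Prime]

theorem neg_pow_imp {g : SL2 (ZMod p)} {n N : ℕ} (h : (-g) ^ n = 1) (hN : 2 * n < N)
    (hg : N ≤ orderOf g) : n = 0 := by
  by_contra hn
  have h1 : g ^ (2 * n) = 1 := by
    have e : g ^ 2 = (-g) ^ 2 := (neg_sq g).symm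
    rw [pow_mul, e, ← pow_mul, mul_comm, pow_mul, h, one_pow]
  have h2 := Nat.le_of_dvd (by omega) (orderOf_dvd_of_pow_eq_one h1)
  omega

theorem exists_trace (k : ZMod p) : ∃ g : SL2 (ZMod p), tr g = k ∧ g ≠ -1 := by
  refine ⟨⟨!![k, -1; 1, 0], by rw [det_fin_two_of]; ring⟩, ?_, ?_⟩
  · show trace !![k, -1; 1, 0] = k
    rw [trace_fin_two_of]; ring
  · intro h
    have h1 := congrArg (fun A : SL2 (ZMod p) => A.1 1 0) h
    have h2 : (-1 : SL2 (ZMod p)).1 1 0 = 0 := by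
      show (-(1 : Matrix (Fin 2) (Fin 2) (ZMod p))) 1 0 = 0
      simp
    simp only [h2] at h1
    exact one_ne_zero h1

/-- the set of triples of generating pairs outside `G` is empty if the orders at level `k` are
large -/
theorem outside_empty (hp5 : 5 ≤ p) (k : ZMod p) (hk : k ≠ 2)
    (G : Set (ZMod p × ZMod p × ZMod p)) (hG : Inv G) (N : ℕ)
    (hN : ({v | ∃ P, IsGen P ∧ lev P = k ∧ triple P = v} \ G).ncard ≤ N)
    (hord : ∀ g : SL2 (ZMod p), tr g = k → g ≠ -1 → 2 * N < orderOf g) :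
    ({v | ∃ P, IsGen P ∧ lev P = k ∧ triple P = v} \ G) = ∅ := by
  obtain ⟨g, hg, hg1⟩ := exists_trace p k
  have hk4 : k + 2 ≠ 4 := by intro h; apply hk; linear_combination h
  have h := transferZ p (by omega) (k + 2) hk4
    ({v | ∃ P, IsGen P ∧ lev P = k ∧ triple P = v} \ G) (inv_diff (inv_gen k) hG)
    (by
      rintro v ⟨⟨P, hP, hPk, rfl⟩, _⟩
      exact onX_triple P (k + 2) (by rw [hPk]; ring))
    (by
      rintro x y z ⟨⟨P, hP, hPk, hv⟩, _⟩ ⟨hy, hz⟩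
      apply gen_nondih p hp5 P hP
      unfold triple at hv
      simp only [Prod.mk.injEq] at hv
      exact ⟨by rw [hv.2.1, hy], by rw [hv.2.2, hz]⟩)
    g (by rw [hg]; ring) hg1
  have h0 := neg_pow_imp p h (N := orderOf g) (by
    have := hord g hg hg1
    omega) le_rfl
  exact (Set.ncard_eq_zero (Set.toFinite _)).1 h0

/-- at level `-2` every nonzero triple is in the giant orbit -/
theorem mem_giant_zero (hp5 : 5 ≤ p) (G : Set (ZMod p × ZMod p × ZMod p)) (hG : Inv G) (N : ℕ)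
    (hdisj : ∀ O, Inv O → (∀ v ∈ O, OnX (0 : ZMod p) v) → Disjoint O G → O.ncard ≤ N)
    (hNp : 2 * N < p) (v : ZMod p × ZMod p × ZMod p) (hv : OnX 0 v) (hv0 : v ≠ (0, 0, 0)) :
    v ∈ G := by
  by_contra hvG
  set U : Set (ZMod p × ZMod p × ZMod p) := ({v | OnX 0 v} ∩ {v | v ≠ (0, 0, 0)}) \ G with hU
  have hUi : Inv U := inv_diff (inv_inter (inv_surface 0) inv_ne_zero) hG
  have hUN : U.ncard ≤ N := hdisj U hUi (fun v hv => hv.1.1) Set.disjoint_sdiff_left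
  obtain ⟨g, hg, hg1⟩ := exists_trace p (-2)
  have h := transferZ p (by omega) 0 (by
      intro h
      have h4 : ((4 : ℕ) : ZMod p) = 0 := by exact_mod_cast h.symm
      rw [ZMod.natCast_eq_zero_iff] at h4
      have := Nat.le_of_dvd (by norm_num) h4
      omega) U hUi (fun v hv => hv.1.1)
    (by
      rintro x y z ⟨⟨hx, hn⟩, _⟩ ⟨hy, hz⟩
      apply hn
      subst hy; subst hz
      simp only [Set.mem_ofPred_eq, OnX] at hx
      have hx2 : x ^ 2 = 0 := by linear_combination hx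
      rw [pow_eq_zero_iff (by norm_num)] at hx2
      rw [hx2])
    g (by rw [hg]; ring) hg1
  have h0 := neg_pow_imp p h (N := p) (by omega) (order_neg_two p (by omega) g hg hg1)
  rw [Set.ncard_eq_zero (Set.toFinite _)] at h0
  have : v ∈ U := ⟨⟨hv, hv0⟩, hvG⟩
  rw [h0] at this
  exact this

end

/-- the properties of the giant orbit provided by `core` -/
structure GiantProps (p : ℕ) [Fact p.Prime] (K : Type) [Field K] [Algebra (ZMod p) K]
    (κ : ZMod p) (G : Set (ZMod p × ZMod p × ZMod p)) : Prop where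
  inv : Inv G
  onX : ∀ v ∈ G, OnX κ v
  ne : G.Nonempty
  min : ∀ O, Inv O → (O ∩ G).Nonempty → G ⊆ O
  disj : ∀ O, Inv O → (∀ v ∈ O, OnX κ v) → Disjoint O G → O.ncard ≤ 2 ^ 70 * (Dv p) ^ 12
  spec : ∀ x y z, OnX κ (x, y, z) → Reg κ x → ∀ t, HasOrd K x t → 2 ^ 31 * (Dv p) ^ 5 ≤ t →
    (x, y, z) ∈ G

theorem core_props : ∃ p₀ : ℕ, ∀ (p : ℕ) [Fact p.Prime], p₀ ≤ p → ∀ (K : Type) [Field K]
    [Fintype K] [Algebra (ZMod p) K], Fintype.card K = p ^ 2 → ∀ κ : ZMod p, κ ≠ 4 →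
    ∃ G : Set (ZMod p × ZMod p × ZMod p), GiantProps p K κ G := by
  obtain ⟨p₀, h⟩ := core
  refine ⟨p₀, fun p _ hp K _ _ _ hK κ hκ => ?_⟩
  obtain ⟨G, h1, h2, h3, h4, h5, h6⟩ := h p hp K hK κ hκ
  exact ⟨G, h1, h2, h3, h4, h5, h6⟩

theorem dv_facts : ∃ p₀ : ℕ, ∀ p : ℕ, p₀ ≤ p → 2 * (2 ^ 70 * (Dv p) ^ 12) < p ∧
    2 ^ 31 * (Dv p) ^ 5 ≤ p - 1 ∧ 5 ≤ p ∧ 1 ≤ Dv p := by
  obtain ⟨p₅, hdv⟩ := dvBound 24
  refine ⟨p₅ + 2 ^ 200, fun p hp => ?_⟩
  have hpbig : 2 ^ 200 ≤ p := by omega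
  have hp5 : 5 ≤ p := le_trans (by norm_num) hpbig
  set D := Dv p with hDdef
  have hD1 : 1 ≤ D := by
    rw [hDdef]; unfold Dv
    have : 0 < (Nat.divisors (p + 1)).card :=
      Finset.card_pos.2 ⟨1, Nat.one_mem_divisors.2 (by omega)⟩
    omega
  have hD24 : D ^ 24 ≤ p := hdv p (by omega)
  have hD12 : D ^ 12 * D ^ 12 ≤ p := by rw [← pow_add]; exact hD24
  have hND : 2 * (2 ^ 70 * D ^ 12) < p := by
    by_contra hcon
    push Not at hcon
    have h1 : D ^ 12 * D ^ 12 ≤ 2 * (2 ^ 70 * D ^ 12) := hD12.trans hcon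
    have h2 : D ^ 12 ≤ 2 ^ 71 := by
      have hpos : 0 < D ^ 12 := pow_pos (by omega) 12
      have : D ^ 12 * D ^ 12 ≤ 2 ^ 71 * D ^ 12 := by
        calc _ ≤ 2 * (2 ^ 70 * D ^ 12) := h1
          _ = 2 ^ 71 * D ^ 12 := by ring
      exact Nat.le_of_mul_le_mul_right this hpos
    have h3 : p ≤ 2 ^ 142 := by
      calc p ≤ 2 * (2 ^ 70 * D ^ 12) := hcon
        _ ≤ 2 * (2 ^ 70 * 2 ^ 71) := by gcongr
        _ = 2 ^ 142 := by norm_num
    have : 2 ^ 200 ≤ 2 ^ 142 := hpbig.trans h3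
    norm_num at this
  have hD5 : D ^ 5 ≤ D ^ 12 := Nat.pow_le_pow_right hD1 (by norm_num)
  have hT : 2 ^ 31 * D ^ 5 ≤ p - 1 := by
    have : 2 ^ 31 * D ^ 5 ≤ 2 ^ 70 * D ^ 12 := Nat.mul_le_mul (by norm_num) hD5
    omega
  exact ⟨hND, hT, hp5, hD1⟩

/-- the number of orbits of generating pairs over the giant orbit of triples -/
theorem final_G : ∃ p₀ : ℕ, ∀ (p : ℕ) [Fact p.Prime], p₀ ≤ p → ∀ (K : Type) [Field K]
    [Fintype K] [Algebra (ZMod p) K], Fintype.card K = p ^ 2 → ∀ k : ZMod p, k ≠ 2 →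
    ∀ G : Set (ZMod p × ZMod p × ZMod p), GiantProps p K (k + 2) G →
      (giantSet p k G).ncard = expected p k ∧
      ((∀ P : SL2 (ZMod p) × SL2 (ZMod p), IsGen P → lev P = k → triple P ∈ G) →
        numOrbits p k = expected p k) := by
  obtain ⟨p₂, hex⟩ := exPrim
  obtain ⟨p₃, hgen⟩ := genExists
  obtain ⟨p₄, hsp⟩ := specPt (2 ^ 31)
  obtain ⟨p₅, hdv⟩ := dv_facts
  refine ⟨p₂ + p₃ + p₄ + p₅, ?_⟩
  intro p _ hp K _ _ _ hK k hk G hGP
  obtain ⟨hG, hGX, hGne, hmin, hdisj, hspec⟩ := hGP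
  obtain ⟨hND, hT, hp5, hD1⟩ := hdv p (by omega)
  have hp2 : p ≠ 2 := by omega
  have hk4 : k + 2 ≠ 4 := by intro h; apply hk; linear_combination h
  -- the basic pair
  obtain ⟨x, hx, hxord⟩ := hex p (by omega) K hK (k + 2)
  obtain ⟨P, hP, hPk, hPx⟩ := hgen p (by omega) K (k + 2) x hk4 hx hxord
  have hPk : lev P = k := by rw [hPk]; ring
  have hPG : triple P ∈ G := by
    have := onX_triple P (k + 2) (by rw [hPk]; ring)
    unfold triple at this ⊢
    rw [hPx] at this ⊢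
    exact hspec _ _ _ this hx (p - 1) hxord hT
  -- the number of giant orbits
  have hcard : (giantSet p k G).ncard = expected p k := by
    by_cases hk2 : k = -2
    · subst hk2
      by_cases hp4 : p % 4 = 1
      · rw [giantSet_ncard_two p hp2 hp4 G hmin hP hPk hPG hk]
        unfold expected
        rw [if_pos ⟨rfl, hp4⟩]
      · have hexp : expected p (-2) = 1 := by
          unfold expected
          rw [if_neg (fun h => hp4 h.2)]
        rw [hexp]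
        have hp43 : p % 4 = 3 := by
          have := (Fact.out : p.Prime).eq_two_or_odd
          omega
        have e0 : (-2 : ZMod p) + 2 = 0 := by ring
        rw [e0] at hdisj
        have h3 : ((3 : ZMod p), (3 : ZMod p), (3 : ZMod p)) ∈ G := by
          refine mem_giant_zero p hp5 G hG _ hdisj hND _ ?_ ?_
          · unfold OnX; norm_num
          · intro h
            have h3 : ((3 : ℕ) : ZMod p) = 0 := by exact_mod_cast congrArg Prod.fst h
            rw [ZMod.natCast_eq_zero_iff] at h3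
            have := Nat.le_of_dvd (by norm_num) h3
            omega
        have h1 : G ⊆ {v | ∃ Q, NEquiv P Q ∧ triple Q = v} :=
          hmin _ (inv_orbit P) ⟨triple P, ⟨P, nequiv_refl _, rfl⟩, hPG⟩
        obtain ⟨Q0, hQ0, he⟩ := h1 h3
        obtain ⟨A, B⟩ := Q0
        unfold triple at he
        simp only [Prod.mk.injEq] at he
        obtain ⟨hc, hdet⟩ := ns_swap A B (by rw [he.1, he.2.1])
        refine giantSet_ncard_one p hp2 (-2) hk G hmin hP hPk hPG hQ0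
          (Relation.EqvGen.rel _ _ (Move.swap A B)) _ ?_ hc
        rw [hdet, he.2.2]
        have e1 : (2 : ZMod p) - 3 = -1 := by norm_num
        rw [e1, ZMod.exists_sq_eq_neg_one_iff]
        simpa using hp43
    · have hexp : expected p k = 1 := by
        unfold expected
        rw [if_neg (fun h => hk2 h.1)]
      rw [hexp]
      have hκ0 : k + 2 ≠ 0 := by intro h; apply hk2; linear_combination h
      obtain ⟨x', y, t, hX', hns, hreg, hyo, hyt⟩ := hsp p (by omega) K hK (k + 2) hκ0 hk4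
      have hX'' : OnX (k + 2) (y, x', x' * y / 2) := by
        unfold OnX at hX' ⊢
        linear_combination hX'
      have h3 : (x', y, x' * y / 2) ∈ G :=
        hG.swap12 _ _ _ (hspec _ _ _ hX'' hreg t hyo hyt)
      have h1 : G ⊆ {v | ∃ Q, NEquiv P Q ∧ triple Q = v} :=
        hmin _ (inv_orbit P) ⟨triple P, ⟨P, nequiv_refl _, rfl⟩, hPG⟩
      obtain ⟨Q0, hQ0, he⟩ := h1 h3
      obtain ⟨A, B⟩ := Q0
      unfold triple at he
      simp only [Prod.mk.injEq] at he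
      obtain ⟨hc, hdet⟩ := ns_half A B (by
        rw [he.1, he.2.1, he.2.2]
        have h2 := two_ne p hp2
        field_simp)
      refine giantSet_ncard_one p hp2 k hk G hmin hP hPk hPG hQ0
        (Relation.EqvGen.rel _ _ (Move.inv A B)) _ ?_ hc
      rw [hdet, he.2.1]
      exact hns
  refine ⟨hcard, fun hall => ?_⟩
  unfold numOrbits
  rw [← hcard]
  congr 1
  apply Set.Subset.antisymm
  · rintro o ⟨Q, hQ, hQk, rfl⟩
    exact ⟨Q, hQ, hQk, hall Q hQ hQk, rfl⟩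
  · rintro o ⟨P, hP, hPk, _, rfl⟩
    exact ⟨P, hP, hPk, rfl⟩

theorem main : ∃ c₀ p₀ : ℕ, ∀ (p : ℕ) [Fact p.Prime], p₀ ≤ p → ∀ k : ZMod p, k ≠ 2 →
    ∃ S ⊆ orbitsAt p k, S.ncard = expected p k ∧
      {P : SL2 (ZMod p) × SL2 (ZMod p) | IsGen P ∧ lev P = k ∧ ∀ o ∈ S, P ∉ o}.ncard ≤
        c₀ * (Nat.divisors (p ^ 2 - 1)).card ^ 12 * p ^ 3 ∧
      ((∀ g : SL2 (ZMod p), tr g = k → g ≠ -1 →
          c₀ * (Nat.divisors (p ^ 2 - 1)).card ^ 12 ≤ orderOf g) →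
        S = orbitsAt p k) := by
  obtain ⟨p₁, hcore⟩ := core_props
  obtain ⟨p₂, hfin⟩ := final_G
  obtain ⟨p₃, hdv⟩ := dv_facts
  refine ⟨2 ^ 85, p₁ + p₂ + p₃, ?_⟩
  intro p _ hp k hk
  obtain ⟨hND, hT, hp5, hD1⟩ := hdv p (by omega)
  have hp2 : p ≠ 2 := by omega
  letI : Fintype (GaloisField p 2) := Fintype.ofFinite _
  have hK : Fintype.card (GaloisField p 2) = p ^ 2 := by
    rw [← Nat.card_eq_fintype_card, GaloisField.card p 2 (by norm_num)]
  have hk4 : k + 2 ≠ 4 := by intro h; apply hk; linear_combination h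
  obtain ⟨G, hGP⟩ := hcore p (by omega) (GaloisField p 2) hK (k + 2) hk4
  obtain ⟨hcard, -⟩ := hfin p (by omega) (GaloisField p 2) hK k hk G hGP
  obtain ⟨hG, hGX, hGne, hmin, hdisj, hspec⟩ := hGP
  set D := Dv p with hDdef
  set τ := (Nat.divisors (p ^ 2 - 1)).card with hτ
  have hDτ : D ≤ 2 * τ := dv_le p (by omega)
  have hDτ12 : 2 ^ 70 * D ^ 12 ≤ 2 ^ 82 * τ ^ 12 := by
    calc 2 ^ 70 * D ^ 12 ≤ 2 ^ 70 * (2 * τ) ^ 12 := by gcongr
      _ = 2 ^ 82 * τ ^ 12 := by ring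
  have hτ1 : 1 ≤ τ := by omega
  -- triples outside
  have hout : ({v | ∃ P, IsGen P ∧ lev P = k ∧ triple P = v} \ G).ncard ≤ 2 ^ 70 * D ^ 12 := by
    refine hdisj _ (inv_diff (inv_gen k) hG) ?_ Set.disjoint_sdiff_left
    rintro v ⟨⟨P, hP, hPk, rfl⟩, _⟩
    exact onX_triple P (k + 2) (by rw [hPk]; ring)
  have hsub : giantSet p k G ⊆ orbitsAt p k := by
    rintro o ⟨P, hP, hPk, _, rfl⟩
    exact ⟨P, hP, hPk, rfl⟩
  refine ⟨giantSet p k G, hsub, hcard, ?_, ?_⟩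
  · refine (remainder_le p hp2 k hk G _ hout).trans ?_
    calc 2 ^ 70 * D ^ 12 * (8 * p ^ 3) ≤ 2 ^ 82 * τ ^ 12 * (8 * p ^ 3) :=
          Nat.mul_le_mul_right _ hDτ12
      _ = 2 ^ 85 * τ ^ 12 * p ^ 3 := by ring
  · intro hord
    have hemp := outside_empty p hp5 k hk G hG _ hout (by
      intro g hg hg1
      refine lt_of_lt_of_le ?_ (hord g hg hg1)
      have : 0 < τ ^ 12 := pow_pos (by omega) 12
      have e : 2 ^ 85 * τ ^ 12 = 4 * (2 * (2 ^ 82 * τ ^ 12)) := by ring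
      rw [e]
      omega)
    apply Set.Subset.antisymm hsub
    rintro o ⟨Q, hQ, hQk, rfl⟩
    refine ⟨Q, hQ, hQk, ?_, rfl⟩
    by_contra hQG
    have : triple Q ∈ ({v | ∃ P, IsGen P ∧ lev P = k ∧ triple P = v} \ G) :=
      ⟨⟨Q, hQ, hQk, rfl⟩, hQG⟩
    rw [hemp] at this
    exact this

theorem main_num : ∃ c₀ p₀ : ℕ, ∀ (p : ℕ) [Fact p.Prime], p₀ ≤ p → ∀ k : ZMod p, k ≠ 2 →
    (∀ g : SL2 (ZMod p), tr g = k → g ≠ -1 →
        c₀ * (Nat.divisors (p ^ 2 - 1)).card ^ 12 ≤ orderOf g) →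
      numOrbits p k = expected p k := by
  obtain ⟨c₀, p₀, h⟩ := main
  refine ⟨c₀, p₀, fun p _ hp k hk hord => ?_⟩
  obtain ⟨S, hS, hc, _, h2⟩ := h p hp k hk
  unfold numOrbits
  rw [← h2 hord, hc]

end MW
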