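import Pool.Agent.Lib.MP_a542cf_al.Defs

/-! MW-GenNondih: generating pairs are not of dihedral type. -/

namespace MW

section
variable {F : Type*} [Field F]

private theorem nondih_all (P : SL2 F × SL2 F) (hP : IsGen P) (N : Matrix (Fin 2) (Fin 2) F)
    (h1 : P.1.1 * N = N * P.1.1 ∨ P.1.1 * N = -(N * P.1.1))
    (h2 : P.2.1 * N = N * P.2.1 ∨ P.2.1 * N = -(N * P.2.1)) (g : SL2 F) :
    g.1 * N = N * g.1 ∨ g.1 * N = -(N * g.1) := by
  have hg : g ∈ Subgroup.closure ({P.1, P.2} : Set (SL2 F)) := by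
    rw [show Subgroup.closure ({P.1, P.2} : Set (SL2 F)) = ⊤ from hP]
    trivial
  induction hg using Subgroup.closure_induction with
  | mem x hx =>
    rcases hx with rfl | hx
    · exact h1
    · rw [Set.mem_singleton_iff] at hx
      subst hx
      exact h2
  | one =>
    left
    have : (1 : SL2 F).1 = 1 := rfl
    rw [this, one_mul, mul_one]
  | mul x y _ _ hx hy =>
    have hxy : (x * y).1 = x.1 * y.1 := rfl
    rw [hxy, mul_assoc]
    rcases hx with hx | hx <;> rcases hy with hy | hy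
    · left; rw [hy, ← mul_assoc, hx, mul_assoc]
    · right; rw [hy, mul_neg, ← mul_assoc, hx, mul_assoc]
    · right; rw [hy, ← mul_assoc, hx, neg_mul, mul_assoc]
    · left; rw [hy, mul_neg, ← mul_assoc, hx, neg_mul, neg_neg, mul_assoc]
  | inv x _ hx =>
    have e1 : x⁻¹.1 * x.1 = 1 := by
      have : (x⁻¹ * x).1 = (1 : SL2 F).1 := by rw [inv_mul_cancel]
      exact this
    have e2 : x.1 * x⁻¹.1 = 1 := by
      have : (x * x⁻¹).1 = (1 : SL2 F).1 := by rw [mul_inv_cancel]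
      exact this
    rcases hx with hx | hx
    · left
      calc x⁻¹.1 * N = x⁻¹.1 * N * (x.1 * x⁻¹.1) := by rw [e2, mul_one]
        _ = x⁻¹.1 * (N * x.1) * x⁻¹.1 := by simp only [mul_assoc]
        _ = x⁻¹.1 * (x.1 * N) * x⁻¹.1 := by rw [hx]
        _ = (x⁻¹.1 * x.1) * N * x⁻¹.1 := by simp only [mul_assoc]
        _ = N * x⁻¹.1 := by rw [e1, one_mul]
    · right
      have hx' : N * x.1 = -(x.1 * N) := by rw [hx, neg_neg]
      calc x⁻¹.1 * N = x⁻¹.1 * N * (x.1 * x⁻¹.1) := by rw [e2, mul_one]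
        _ = x⁻¹.1 * (N * x.1) * x⁻¹.1 := by simp only [mul_assoc]
        _ = x⁻¹.1 * (-(x.1 * N)) * x⁻¹.1 := by rw [hx']
        _ = -((x⁻¹.1 * x.1) * N * x⁻¹.1) := by simp only [mul_assoc, mul_neg, neg_mul]
        _ = -(N * x⁻¹.1) := by rw [e1, one_mul]

private theorem nondih_zero (h2 : (2 : F) ≠ 0) (N : Matrix (Fin 2) (Fin 2) F)
    (htr : N 0 0 + N 1 1 = 0)
    (h : ∀ g : SL2 F, g.1 * N = N * g.1 ∨ g.1 * N = -(N * g.1)) :
    N 0 0 = 0 ∧ N 0 1 = 0 ∧ N 1 0 = 0 ∧ N 1 1 = 0 := by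
  have hd : ∀ x : F, x + x = 0 → x = 0 := by
    intro x hx
    have : (2 : F) * x = 0 := by rw [two_mul]; exact hx
    exact (mul_eq_zero.1 this).resolve_left h2
  have hU := h ⟨!![1, 1; 0, 1], by simp [Matrix.det_fin_two]⟩
  have hV := h ⟨!![1, 0; 1, 1], by simp [Matrix.det_fin_two]⟩
  have kU : N 1 0 = 0 ∧ N 0 0 = 0 := by
    rcases hU with hU | hU
    · have a1 := congrFun (congrFun hU 0) 0
      have a2 := congrFun (congrFun hU 0) 1
      simp [Matrix.mul_apply, Fin.sum_univ_two] at a1 a2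
      refine ⟨a1, hd _ ?_⟩
      linear_combination htr - a2
    · have a1 := congrFun (congrFun hU 0) 0
      have a3 := congrFun (congrFun hU 1) 0
      simp [Matrix.mul_apply, Fin.sum_univ_two] at a1 a3
      have a4 : N 1 0 = 0 := hd _ (by linear_combination a3)
      refine ⟨a4, hd _ ?_⟩
      linear_combination a1 - a4
  have kV : N 0 1 = 0 := by
    rcases hV with hV | hV
    · have a1 := congrFun (congrFun hV 0) 0
      simp [Matrix.mul_apply, Fin.sum_univ_two] at a1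
      exact a1
    · have a1 := congrFun (congrFun hV 0) 1
      simp [Matrix.mul_apply, Fin.sum_univ_two] at a1
      exact hd _ (by linear_combination a1)
  refine ⟨kU.2, kV, kU.1, ?_⟩
  linear_combination htr - kU.2

end

theorem gen_nondih (p : ℕ) [Fact p.Prime] (hp : 5 ≤ p) (P : SL2 (ZMod p) × SL2 (ZMod p))
    (hP : IsGen P) : ¬ (tr P.2 = 0 ∧ tr (P.1 * P.2) = 0) := by
  rintro ⟨hB, hAB⟩
  have h2 : (2 : ZMod p) ≠ 0 := by
    intro h
    have h3 : ((2 : ℕ) : ZMod p) = 0 := by exact_mod_cast h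
    rw [ZMod.natCast_eq_zero_iff] at h3
    have := Nat.le_of_dvd (by norm_num) h3
    omega
  obtain ⟨A, B⟩ := P
  simp only at hB hAB
  have hB' : B.1 0 0 + B.1 1 1 = 0 := by
    rw [← Matrix.trace_fin_two]; exact hB
  have hAB' : A.1 0 0 * B.1 0 0 + A.1 0 1 * B.1 1 0 + (A.1 1 0 * B.1 0 1 + A.1 1 1 * B.1 1 1) = 0 := by
    have h1 : tr (A * B) = (A.1 * B.1) 0 0 + (A.1 * B.1) 1 1 := Matrix.trace_fin_two _
    rw [hAB] at h1
    simp only [Matrix.mul_apply, Fin.sum_univ_two] at h1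
    exact h1.symm
  have hBe : B.1 1 1 = - B.1 0 0 := by linear_combination hB'
  obtain ⟨M, hM⟩ : ∃ M : Matrix (Fin 2) (Fin 2) (ZMod p), M =
    !![A.1 0 0 - A.1 1 1, 2 * A.1 0 1; 2 * A.1 1 0, A.1 1 1 - A.1 0 0] := ⟨_, rfl⟩
  have hM00 : M 0 0 = A.1 0 0 - A.1 1 1 := by rw [hM]; rfl
  have hM01 : M 0 1 = 2 * A.1 0 1 := by rw [hM]; rfl
  have hM10 : M 1 0 = 2 * A.1 1 0 := by rw [hM]; rfl
  have hM11 : M 1 1 = A.1 1 1 - A.1 0 0 := by rw [hM]; rfl
  have hall := nondih_all (A, B) hP M ?_ ?_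
  · obtain ⟨m1, m2, m3, m4⟩ := nondih_zero h2 M (by rw [hM00, hM11]; ring) hall
    rw [hM00] at m1
    rw [hM01] at m2
    rw [hM10] at m3
    have n1 : A.1 0 0 = A.1 1 1 := sub_eq_zero.1 m1
    have n2 : A.1 0 1 = 0 := (mul_eq_zero.1 m2).resolve_left h2
    have n3 : A.1 1 0 = 0 := (mul_eq_zero.1 m3).resolve_left h2
    have hall2 := nondih_all (A, B) hP B.1 ?_ (Or.inl rfl)
    · obtain ⟨b1, b2, b3, b4⟩ := nondih_zero h2 B.1 hB' hall2
      have hdet := B.2
      rw [Matrix.det_fin_two, b1, b2, b3, b4] at hdet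
      simp at hdet
    · left
      ext i j
      fin_cases i <;> fin_cases j <;>
        simp [Matrix.mul_apply, Fin.sum_univ_two, n1, n2, n3, mul_comm]
  · left
    show A.1 * M = M * A.1
    ext i j
    fin_cases i <;> fin_cases j <;>
      simp only [Matrix.mul_apply, Fin.sum_univ_two, Fin.zero_eta, Fin.mk_one, hM00, hM01, hM10,
        hM11] <;> ring
  · right
    show B.1 * M = -(M * B.1)
    ext i j
    fin_cases i <;> fin_cases j <;>
      simp only [Matrix.mul_apply, Fin.sum_univ_two, Fin.zero_eta, Fin.mk_one, hM00, hM01, hM10,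
        hM11, Matrix.neg_apply, hBe]
    · linear_combination 2 * hAB' - 2 * A.1 1 1 * hBe
    · ring
    · ring
    · linear_combination 2 * hAB' - 2 * A.1 1 1 * hBe

end MW
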