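import Pool.Agent.Lib.MP_a542cf_al.Moves

/-! MW-Inner: inner automorphisms and the two classes of conjugations. -/

namespace MW

section
variable {F : Type*} [Field F]

private theorem inner_trans {P Q R : SL2 F × SL2 F} (h1 : NEquiv P Q) (h2 : NEquiv Q R) :
    NEquiv P R := Relation.EqvGen.trans _ _ _ h1 h2

private theorem inner_symm {P Q : SL2 F × SL2 F} (h1 : NEquiv P Q) : NEquiv Q P :=
  Relation.EqvGen.symm _ _ h1

private theorem inner_swap (A B : SL2 F) : NEquiv (A, B) (B, A) :=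
  Relation.EqvGen.rel _ _ (Move.swap A B)

private theorem inner_invl (A B : SL2 F) : NEquiv (A, B) (A⁻¹, B) :=
  Relation.EqvGen.rel _ _ (Move.inv A B)

private theorem inner_mull (A B : SL2 F) : NEquiv (A, B) (A * B, B) :=
  Relation.EqvGen.rel _ _ (Move.mul A B)

private theorem inner_invr (A B : SL2 F) : NEquiv (A, B) (A, B⁻¹) :=
  inner_trans (inner_swap _ _) (inner_trans (inner_invl _ _) (inner_swap _ _))

private theorem inner_mulr (A B : SL2 F) : NEquiv (A, B) (A, B * A) :=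
  inner_trans (inner_swap _ _) (inner_trans (inner_mull _ _) (inner_swap _ _))

private theorem inner_divr (A B : SL2 F) : NEquiv (A, B) (A, B * A⁻¹) := by
  have h := inner_symm (inner_mulr A (B * A⁻¹))
  rwa [mul_assoc, inv_mul_cancel, mul_one] at h

private theorem inner_one (A B : SL2 F) : NEquiv (A, B) (A, A * B * A⁻¹) := by
  have h1 := inner_divr A B⁻¹
  have h2 := inner_invr A (B⁻¹ * A⁻¹)
  have h3 : (B⁻¹ * A⁻¹)⁻¹ = A * B := by group
  rw [h3] at h2
  exact inner_trans (inner_invr A B) (inner_trans h1 (inner_trans h2 (inner_divr A (A * B))))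

private theorem inner_two (A B : SL2 F) : NEquiv (A, B) (B * A * B⁻¹, B) :=
  inner_trans (inner_swap _ _) (inner_trans (inner_one _ _) (inner_swap _ _))

/-- group homomorphisms preserve Nielsen equivalence -/
private theorem inner_hom (φ : SL2 F →* SL2 F) {P Q : SL2 F × SL2 F} (h : NEquiv P Q) :
    NEquiv (φ P.1, φ P.2) (φ Q.1, φ Q.2) := by
  induction h with
  | rel P Q h =>
    cases h with
    | swap A B => exact inner_swap _ _
    | inv A B =>
      show NEquiv (φ A, φ B) (φ A⁻¹, φ B)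
      rw [map_inv]
      exact inner_invl _ _
    | mul A B =>
      show NEquiv (φ A, φ B) (φ (A * B), φ B)
      rw [map_mul]
      exact inner_mull _ _
  | refl P => exact Relation.EqvGen.refl _
  | symm P Q _ ih => exact inner_symm ih
  | trans P Q R _ _ ih1 ih2 => exact inner_trans ih1 ih2

private theorem inner_conj (g : SL2 F) {P Q : SL2 F × SL2 F} (h : NEquiv P Q) :
    NEquiv (g * P.1 * g⁻¹, g * P.2 * g⁻¹) (g * Q.1 * g⁻¹, g * Q.2 * g⁻¹) :=
  inner_hom (MulAut.conj g).toMonoidHom h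

/-- the subgroup of the elements whose conjugation is a Nielsen equivalence -/
private def innerS (P : SL2 F × SL2 F) : Subgroup (SL2 F) where
  carrier := {g | NEquiv P (g * P.1 * g⁻¹, g * P.2 * g⁻¹)}
  one_mem' := by
    show NEquiv P (1 * P.1 * 1⁻¹, 1 * P.2 * 1⁻¹)
    simp only [one_mul, inv_one, mul_one]
    exact Relation.EqvGen.refl _
  mul_mem' := by
    intro a b ha hb
    have h1 := inner_conj a hb
    have h2 := inner_trans ha h1
    show NEquiv P (a * b * P.1 * (a * b)⁻¹, a * b * P.2 * (a * b)⁻¹)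
    have e1 : a * b * P.1 * (a * b)⁻¹ = a * (b * P.1 * b⁻¹) * a⁻¹ := by group
    have e2 : a * b * P.2 * (a * b)⁻¹ = a * (b * P.2 * b⁻¹) * a⁻¹ := by group
    rw [e1, e2]
    exact h2
  inv_mem' := by
    intro a ha
    have h1 := inner_conj a⁻¹ ha
    show NEquiv P (a⁻¹ * P.1 * a⁻¹⁻¹, a⁻¹ * P.2 * a⁻¹⁻¹)
    have e1 : a⁻¹ * (a * P.1 * a⁻¹) * a⁻¹⁻¹ = P.1 := by group
    have e2 : a⁻¹ * (a * P.2 * a⁻¹) * a⁻¹⁻¹ = P.2 := by group
    simp only [e1, e2] at h1
    exact inner_symm h1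

theorem inner_nequiv (P : SL2 F × SL2 F) (hP : IsGen P) (g : SL2 F) :
    NEquiv P (g * P.1 * g⁻¹, g * P.2 * g⁻¹) := by
  have h1 : innerS P = ⊤ := by
    rw [eq_top_iff, ← hP, Subgroup.closure_le]
    rintro x (rfl | rfl)
    · show NEquiv P (P.1 * P.1 * P.1⁻¹, P.1 * P.2 * P.1⁻¹)
      have e : P.1 * P.1 * P.1⁻¹ = P.1 := by group
      rw [e]
      exact inner_one P.1 P.2
    · show NEquiv P (P.2 * P.1 * P.2⁻¹, P.2 * P.2 * P.2⁻¹)
      have e : P.2 * P.2 * P.2⁻¹ = P.2 := by group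
      rw [e]
      exact inner_two P.1 P.2
  have h2 : g ∈ innerS P := by rw [h1]; trivial
  exact h2

private theorem inner_ext (X : Matrix (Fin 2) (Fin 2) F) (A B : SL2 F) (g : SL2 F)
    (d : F) (hd : d ≠ 0) (hg : d • (g : Matrix (Fin 2) (Fin 2) F) = X)
    (h : X * (A : Matrix (Fin 2) (Fin 2) F) = (B : Matrix (Fin 2) (Fin 2) F) * X) :
    g * A * g⁻¹ = B := by
  have h1 : g * A = B * g := by
    apply Subtype.ext
    show (g : Matrix (Fin 2) (Fin 2) F) * (A : Matrix (Fin 2) (Fin 2) F) =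
      (B : Matrix (Fin 2) (Fin 2) F) * (g : Matrix (Fin 2) (Fin 2) F)
    rw [← hg, Matrix.smul_mul, Matrix.mul_smul] at h
    exact smul_right_injective _ hd h
  rw [h1, mul_assoc, mul_inv_cancel, mul_one]

theorem conj_square (P Q : SL2 F × SL2 F) (hP : IsGen P) (X : Matrix (Fin 2) (Fin 2) F)
    (hX : X.det ≠ 0) (hsq : IsSquare X.det) (h : ConjBy X P Q) : NEquiv P Q := by
  obtain ⟨d, hd⟩ := hsq
  have hd0 : d ≠ 0 := by
    rintro rfl
    exact hX (by rw [hd, mul_zero])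
  have hdet : (d⁻¹ • X).det = 1 := by
    rw [Matrix.det_smul, hd, Fintype.card_fin]
    field_simp
  have hg : d • ((⟨d⁻¹ • X, hdet⟩ : SL2 F) : Matrix (Fin 2) (Fin 2) F) = X := by
    show d • (d⁻¹ • X) = X
    rw [smul_smul, mul_inv_cancel₀ hd0, one_smul]
  have h1 := inner_nequiv P hP ⟨d⁻¹ • X, hdet⟩
  rw [inner_ext X P.1 Q.1 _ d hd0 hg h.1, inner_ext X P.2 Q.2 _ d hd0 hg h.2] at h1
  exact h1

/-- conjugation by an invertible matrix as a homomorphism of `SL_2` -/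
private noncomputable def innerCj (X : Matrix (Fin 2) (Fin 2) F) (hX : X.det ≠ 0) :
    SL2 F →* SL2 F where
  toFun A := ⟨X * (A : Matrix (Fin 2) (Fin 2) F) * X⁻¹, by
    rw [Matrix.det_mul, Matrix.det_mul, A.det_coe, mul_one, ← Matrix.det_mul,
      Matrix.mul_nonsing_inv _ (isUnit_iff_ne_zero.2 hX), Matrix.det_one]⟩
  map_one' := by
    apply Subtype.ext
    show X * (1 : Matrix (Fin 2) (Fin 2) F) * X⁻¹ = 1
    rw [mul_one, Matrix.mul_nonsing_inv _ (isUnit_iff_ne_zero.2 hX)]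
  map_mul' A B := by
    apply Subtype.ext
    show X * ((A * B : SL2 F) : Matrix (Fin 2) (Fin 2) F) * X⁻¹ =
      X * (A : Matrix (Fin 2) (Fin 2) F) * X⁻¹ * (X * (B : Matrix (Fin 2) (Fin 2) F) * X⁻¹)
    rw [Matrix.SpecialLinearGroup.coe_mul]
    have h : X⁻¹ * X = 1 := Matrix.nonsing_inv_mul _ (isUnit_iff_ne_zero.2 hX)
    calc X * ((A : Matrix (Fin 2) (Fin 2) F) * (B : Matrix (Fin 2) (Fin 2) F)) * X⁻¹
        = X * (A : Matrix (Fin 2) (Fin 2) F) * 1 * (B : Matrix (Fin 2) (Fin 2) F) * X⁻¹ := by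
          noncomm_ring
      _ = _ := by rw [← h]; noncomm_ring

private theorem innerCj_coe (X : Matrix (Fin 2) (Fin 2) F) (hX : X.det ≠ 0) (A : SL2 F) :
    ((innerCj X hX A : SL2 F) : Matrix (Fin 2) (Fin 2) F) =
      X * (A : Matrix (Fin 2) (Fin 2) F) * X⁻¹ := rfl

private theorem innerCj_eq (X : Matrix (Fin 2) (Fin 2) F) (hX : X.det ≠ 0) (A B : SL2 F)
    (h : X * (A : Matrix (Fin 2) (Fin 2) F) = (B : Matrix (Fin 2) (Fin 2) F) * X) :
    innerCj X hX A = B := by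
  apply Subtype.ext
  show X * (A : Matrix (Fin 2) (Fin 2) F) * X⁻¹ = (B : Matrix (Fin 2) (Fin 2) F)
  rw [h, mul_assoc, Matrix.mul_nonsing_inv _ (isUnit_iff_ne_zero.2 hX), mul_one]

private theorem innerCj_surj (X : Matrix (Fin 2) (Fin 2) F) (hX : X.det ≠ 0) :
    Function.Surjective (innerCj X hX) := by
  intro B
  have hu : IsUnit X.det := isUnit_iff_ne_zero.2 hX
  have hd : (X⁻¹ * (B : Matrix (Fin 2) (Fin 2) F) * X).det = 1 := by
    rw [Matrix.det_mul, Matrix.det_mul, B.det_coe, mul_one, ← Matrix.det_mul,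
      Matrix.nonsing_inv_mul _ hu, Matrix.det_one]
  refine ⟨⟨X⁻¹ * (B : Matrix (Fin 2) (Fin 2) F) * X, hd⟩, innerCj_eq X hX _ _ ?_⟩
  show X * (X⁻¹ * (B : Matrix (Fin 2) (Fin 2) F) * X) = (B : Matrix (Fin 2) (Fin 2) F) * X
  rw [← mul_assoc, ← mul_assoc, Matrix.mul_nonsing_inv _ hu, one_mul]

private theorem inner_gen (P Q : SL2 F × SL2 F) (hP : IsGen P) (X : Matrix (Fin 2) (Fin 2) F)
    (hX : X.det ≠ 0) (h : ConjBy X P Q) : IsGen Q := by
  have h1 := innerCj_eq X hX _ _ h.1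
  have h2 := innerCj_eq X hX _ _ h.2
  unfold IsGen at *
  have h3 : (⊤ : Subgroup (SL2 F)).map (innerCj X hX) = ⊤ :=
    Subgroup.map_top_of_surjective _ (innerCj_surj X hX)
  rw [← hP, MonoidHom.map_closure, Set.image_pair, h1, h2] at h3
  rw [h3, hP]

/-- over `F_p` two conjugations with nonsquare determinant give equivalent pairs -/
theorem conj_nonsquare (p : ℕ) [Fact p.Prime] (P Q Q' : SL2 (ZMod p) × SL2 (ZMod p))
    (hP : IsGen P) (X Y : Matrix (Fin 2) (Fin 2) (ZMod p)) (hX : ¬ IsSquare X.det)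
    (hY : ¬ IsSquare Y.det) (h : ConjBy X P Q) (h' : ConjBy Y P Q') : NEquiv Q Q' := by
  have hX0 : X.det ≠ 0 := fun e => hX (by rw [e]; exact ⟨0, by simp⟩)
  have hY0 : Y.det ≠ 0 := fun e => hY (by rw [e]; exact ⟨0, by simp⟩)
  have hu : IsUnit X.det := isUnit_iff_ne_zero.2 hX0
  have hQ : IsGen Q := inner_gen P Q hP X hX0 h
  have hdet : (Y * X⁻¹).det = Y.det * X.det / (X.det * X.det) := by
    rw [Matrix.det_mul, Matrix.det_nonsing_inv, Ring.inverse_eq_inv']
    field_simp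
  have hne : (Y * X⁻¹).det ≠ 0 := by
    rw [hdet]
    exact div_ne_zero (mul_ne_zero hY0 hX0) (mul_ne_zero hX0 hX0)
  have hsq : IsSquare (Y * X⁻¹).det := by
    rw [hdet]
    apply IsSquare.div
    · have h1 : quadraticChar (ZMod p) (Y.det * X.det) = 1 := by
        rw [map_mul, quadraticChar_neg_one_iff_not_isSquare.2 hX,
          quadraticChar_neg_one_iff_not_isSquare.2 hY]
        norm_num
      exact (quadraticChar_one_iff_isSquare (mul_ne_zero hY0 hX0)).1 h1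
    · exact ⟨X.det, rfl⟩
  apply conj_square Q Q' hQ (Y * X⁻¹) hne hsq
  have key : ∀ A B B' : SL2 (ZMod p),
      X * (A : Matrix (Fin 2) (Fin 2) (ZMod p)) = (B : Matrix (Fin 2) (Fin 2) (ZMod p)) * X →
      Y * (A : Matrix (Fin 2) (Fin 2) (ZMod p)) = (B' : Matrix (Fin 2) (Fin 2) (ZMod p)) * Y →
      Y * X⁻¹ * (B : Matrix (Fin 2) (Fin 2) (ZMod p)) =
        (B' : Matrix (Fin 2) (Fin 2) (ZMod p)) * (Y * X⁻¹) := by
    intro A B B' e1 e2
    have e3 : X⁻¹ * (B : Matrix (Fin 2) (Fin 2) (ZMod p)) =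
        (A : Matrix (Fin 2) (Fin 2) (ZMod p)) * X⁻¹ := by
      have e4 : (B : Matrix (Fin 2) (Fin 2) (ZMod p)) =
          X * (A : Matrix (Fin 2) (Fin 2) (ZMod p)) * X⁻¹ := by
        rw [e1, mul_assoc, Matrix.mul_nonsing_inv _ hu, mul_one]
      rw [e4, ← mul_assoc, ← mul_assoc, Matrix.nonsing_inv_mul _ hu, one_mul]
    rw [mul_assoc, e3, ← mul_assoc, e2, mul_assoc]
  exact ⟨key _ _ _ h.1 h'.1, key _ _ _ h.2 h'.2⟩

end

end MW
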