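import Pool.Agent.Lib.MP_a542cf_al.Defs

/-! MW-LevelOrd: orders of the elements of a given trace. -/

namespace MW

private theorem levelord_ch {F : Type*} [Field F] (g : SL2 F) :
    (g : Matrix (Fin 2) (Fin 2) F) * g = tr g • (g : Matrix (Fin 2) (Fin 2) F) - 1 := by
  have hd := g.det_coe
  rw [Matrix.det_fin_two] at hd
  ext i j
  fin_cases i <;> fin_cases j <;>
    simp only [Matrix.mul_apply, Fin.sum_univ_two, tr, Matrix.trace_fin_two, Matrix.sub_apply,
      Matrix.smul_apply, smul_eq_mul, Matrix.one_apply, Fin.isValue, Fin.zero_eta, Fin.mk_one,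
      if_true, zero_ne_one, one_ne_zero, if_false] <;>
    first | linear_combination (-1 : F) * hd | ring

theorem order_neg_two (p : ℕ) [Fact p.Prime] (hp2 : p ≠ 2) (g : SL2 (ZMod p)) (hg : tr g = -2)
    (hg1 : g ≠ -1) : p ≤ orderOf g := by
  have hch := levelord_ch g
  rw [hg] at hch
  set M : Matrix (Fin 2) (Fin 2) (ZMod p) := (g : Matrix (Fin 2) (Fin 2) (ZMod p)) with hM
  set N : Matrix (Fin 2) (Fin 2) (ZMod p) := -M - 1 with hN
  have hNN : N * N = 0 := by
    have h1 : N * N = M * M + 2 • M + 1 := by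
      rw [hN]
      noncomm_ring
    rw [h1, hch]
    simp only [neg_smul, two_smul]
    abel
  have hMN : M = -(1 + N) := by
    rw [hN]
    abel
  have hN0 : N ≠ 0 := by
    intro h
    apply hg1
    apply Subtype.ext
    rw [← hM, hMN, h, add_zero]
    rfl
  have hpow : ∀ k : ℕ, (1 + N) ^ k = 1 + (k : ZMod p) • N := by
    intro k
    induction k with
    | zero => simp
    | succ k ih =>
      rw [pow_succ, ih, mul_add, mul_one, add_mul, one_mul, smul_mul_assoc, hNN,
        smul_zero, add_zero]
      push_cast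
      rw [add_smul, one_smul]
      abel
  have hfin : 0 < orderOf g := orderOf_pos g
  have h1 : g ^ orderOf g = 1 := pow_orderOf_eq_one g
  have h2 : M ^ (orderOf g) = 1 := by
    rw [hM, ← Matrix.SpecialLinearGroup.coe_pow, h1]
    rfl
  have h3 : M ^ (2 * orderOf g) = 1 + ((2 * orderOf g : ℕ) : ZMod p) • N := by
    rw [hMN, Even.neg_pow (even_two_mul _), hpow]
  have h4 : M ^ (2 * orderOf g) = 1 := by
    rw [mul_comm, pow_mul, h2, one_pow]
  rw [h4] at h3
  have h5 : ((2 * orderOf g : ℕ) : ZMod p) • N = 0 := by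
    have := h3.symm
    rwa [add_eq_left] at this
  have h6 : ((2 * orderOf g : ℕ) : ZMod p) = 0 := by
    by_contra h
    exact hN0 ((smul_eq_zero.1 h5).resolve_left h)
  rw [ZMod.natCast_eq_zero_iff] at h6
  have hpp : p.Prime := Fact.out
  rcases (hpp.dvd_mul).1 h6 with h | h
  · exfalso
    exact hp2 ((Nat.prime_dvd_prime_iff_eq hpp Nat.prime_two).1 h)
  · exact Nat.le_of_dvd hfin h

private theorem levelord_root {F K : Type*} [Field F] [Field K] [Algebra F K] (g : SL2 F)
    (hk2 : tr g ≠ 2) (hkm2 : tr g ≠ -2) (m : ℕ) (hm : g ^ m = 1) (w : K)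
    (hw : w * w = algebraMap F K (tr g) * w - 1) : w ^ m = 1 := by
  have hch := levelord_ch g
  set M : Matrix (Fin 2) (Fin 2) F := (g : Matrix (Fin 2) (Fin 2) F) with hM
  set k := tr g with hk
  have hrec : ∀ m : ℕ, ∃ a b : F, M ^ m = a • M + b • 1 ∧
      w ^ m = algebraMap F K a * w + algebraMap F K b := by
    intro m
    induction m with
    | zero => exact ⟨0, 1, by simp, by simp⟩
    | succ m ih =>
      obtain ⟨a, b, h1, h2⟩ := ih
      refine ⟨a * k + b, -a, ?_, ?_⟩
      · rw [pow_succ, h1, add_mul, smul_mul_assoc, smul_mul_assoc, one_mul, hch, smul_sub,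
          smul_smul, add_smul, neg_smul]
        abel
      · rw [pow_succ, h2, add_mul, mul_assoc, hw]
        simp only [map_add, map_mul, map_neg]
        ring
  obtain ⟨a, b, h1, h2⟩ := hrec m
  have h3 : M ^ m = 1 := by
    rw [hM, ← Matrix.SpecialLinearGroup.coe_pow, hm]
    rfl
  rw [h3] at h1
  have ha : a = 0 := by
    by_contra ha
    -- M is scalar
    have h01 := congrFun (congrFun h1 0) 1
    have h10 := congrFun (congrFun h1 1) 0
    have h00 := congrFun (congrFun h1 0) 0
    have h11 := congrFun (congrFun h1 1) 1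
    simp [ha] at h01 h10 h00 h11
    have hd : M 0 0 * M 1 1 - M 0 1 * M 1 0 = 1 := by
      rw [← Matrix.det_fin_two]
      exact g.det_coe
    have ht : k = M 0 0 + M 1 1 := by
      rw [hk, tr, ← hM, Matrix.trace_fin_two]
    have heq : M 0 0 = M 1 1 := by
      have : a * (M 0 0 - M 1 1) = 0 := by linear_combination h11 - h00
      exact sub_eq_zero.1 ((mul_eq_zero.1 this).resolve_left ha)
    rw [h01, zero_mul, sub_zero, ← heq] at hd
    rcases mul_self_eq_one_iff.1 hd with h | h
    · apply hk2
      rw [ht, ← heq, h]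
      norm_num
    · apply hkm2
      rw [ht, ← heq, h]
      norm_num
  have hb : b = 1 := by
    have h00 := congrFun (congrFun h1 0) 0
    simp [ha] at h00
    exact h00.symm
  rw [h2, ha, hb]
  simp

theorem levelCount (p : ℕ) [Fact p.Prime] (hp2 : p ≠ 2) (Y : ℕ) :
    {k : ZMod p | k ≠ 2 ∧ k ≠ -2 ∧ ∃ g : SL2 (ZMod p), tr g = k ∧ orderOf g < Y}.ncard ≤
      Y ^ 2 := by
  classical
  let K := AlgebraicClosure (ZMod p)
  let T : Finset K := (Finset.range Y).biUnion fun m =>
    ((Polynomial.nthRoots m (1 : K)).toFinset).image fun w => w + w⁻¹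
  have hT : T.card ≤ Y ^ 2 := by
    calc T.card ≤ ∑ m ∈ Finset.range Y, (((Polynomial.nthRoots m (1 : K)).toFinset).image
          fun w => w + w⁻¹).card := Finset.card_biUnion_le
      _ ≤ ∑ m ∈ Finset.range Y, Y := by
          apply Finset.sum_le_sum
          intro m hm
          calc _ ≤ ((Polynomial.nthRoots m (1 : K)).toFinset).card := Finset.card_image_le
            _ ≤ Multiset.card (Polynomial.nthRoots m (1 : K)) := Multiset.toFinset_card_le _
            _ ≤ m := Polynomial.card_nthRoots m 1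
            _ ≤ Y := (Finset.mem_range.1 hm).le
      _ = Y ^ 2 := by rw [Finset.sum_const, Finset.card_range, smul_eq_mul, sq]
  refine le_trans ?_ hT
  have hinj : Function.Injective (algebraMap (ZMod p) K) := (algebraMap (ZMod p) K).injective
  rw [← Set.ncard_coe_finset T]
  apply Set.ncard_le_ncard_of_injOn (algebraMap (ZMod p) K) _ hinj.injOn T.finite_toSet
  rintro k ⟨hk2, hkm2, g, rfl, hord⟩
  -- a root
  obtain ⟨w, hw⟩ : ∃ w : K, w * w = algebraMap (ZMod p) K (tr g) * w - 1 := by
    obtain ⟨w, hw⟩ := IsAlgClosed.exists_root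
      (Polynomial.X ^ 2 - Polynomial.C (algebraMap (ZMod p) K (tr g)) * Polynomial.X + 1 :
        Polynomial K) (by
        have : (Polynomial.X ^ 2 - Polynomial.C (algebraMap (ZMod p) K (tr g)) * Polynomial.X + 1 :
          Polynomial K).degree = 2 := by
          compute_degree!
        rw [this]
        norm_num)
    refine ⟨w, ?_⟩
    simp only [Polynomial.IsRoot.def, Polynomial.eval_add, Polynomial.eval_sub,
      Polynomial.eval_pow, Polynomial.eval_X, Polynomial.eval_mul, Polynomial.eval_C,
      Polynomial.eval_one] at hw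
    linear_combination hw
  have hw0 : w ≠ 0 := by
    rintro rfl
    simp at hw
  have hpow := levelord_root g hk2 hkm2 (orderOf g) (pow_orderOf_eq_one g) w hw
  simp only [T, Finset.coe_biUnion, Set.mem_iUnion, Finset.coe_image, Finset.coe_range,
    Set.mem_Iio, Set.mem_image, Finset.mem_coe, Multiset.mem_toFinset]
  refine ⟨orderOf g, hord, w, ?_, ?_⟩
  · rw [Polynomial.mem_nthRoots (orderOf_pos g)]
    exact hpow
  · have h1 : w + w⁻¹ = algebraMap (ZMod p) K (tr g) := by
      have h2 : (w + w⁻¹ - algebraMap (ZMod p) K (tr g)) * w = 0 := by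
        rw [sub_mul, add_mul, inv_mul_cancel₀ hw0]
        linear_combination hw
      exact sub_eq_zero.1 ((mul_eq_zero.1 h2).resolve_right hw0)
    exact h1

end MW
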