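import Pool.Agent.Lib.MP_a542cf_al.Moves

/-! MW-NegTwo: the level `-2` for `p ≡ 1 mod 4`: there are at least two orbits. -/

namespace MW

open Matrix

section negtwo
variable {F : Type*} [Field F]

private def negtwo_om (v w : Fin 2 → F) : F := v 0 * w 1 - v 1 * w 0

private def negtwo_q (M : Matrix (Fin 2) (Fin 2) F) (v : Fin 2 → F) : F :=
  negtwo_om v (M *ᵥ v)

private theorem negtwo_om_mul (X : Matrix (Fin 2) (Fin 2) F) (v w : Fin 2 → F) :
    negtwo_om (X *ᵥ v) (X *ᵥ w) = X.det * negtwo_om v w := by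
  simp only [negtwo_om, Matrix.mulVec, dotProduct, Fin.sum_univ_two, Matrix.det_fin_two]
  ring

private theorem negtwo_q_conj (X M M' : Matrix (Fin 2) (Fin 2) F) (h : X * M = M' * X)
    (v : Fin 2 → F) : negtwo_q M' (X *ᵥ v) = X.det * negtwo_q M v := by
  rw [negtwo_q, negtwo_q, Matrix.mulVec_mulVec, ← h, ← Matrix.mulVec_mulVec, negtwo_om_mul]

private theorem negtwo_q_inv (C : SL2 F) (v : Fin 2 → F) :
    negtwo_q ((C⁻¹ : SL2 F) : Matrix (Fin 2) (Fin 2) F) v = -negtwo_q (C : Matrix _ _ F) v := by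
  rw [Matrix.SpecialLinearGroup.coe_inv, Matrix.adjugate_fin_two]
  simp only [negtwo_q, negtwo_om, Matrix.mulVec, dotProduct, Fin.sum_univ_two, Matrix.of_apply,
    Matrix.cons_val', Matrix.cons_val_zero, Matrix.cons_val_one, Matrix.cons_val_fin_one]
  ring

private def negtwo_Sq (C : SL2 F) : Prop :=
  ∀ v : Fin 2 → F, IsSquare (negtwo_q (C : Matrix (Fin 2) (Fin 2) F) v)

private theorem negtwo_Sq_inv (h1 : IsSquare (-1 : F)) (C : SL2 F) (h : negtwo_Sq C) :
    negtwo_Sq C⁻¹ := by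
  intro v
  rw [negtwo_q_inv, neg_eq_neg_one_mul]
  exact h1.mul (h v)

private theorem negtwo_Sq_inv_iff (h1 : IsSquare (-1 : F)) (C : SL2 F) :
    negtwo_Sq C⁻¹ ↔ negtwo_Sq C := by
  constructor
  · intro h
    have := negtwo_Sq_inv h1 _ h
    rwa [inv_inv] at this
  · exact negtwo_Sq_inv h1 C

private theorem negtwo_Sq_conj (g C : SL2 F) (h : negtwo_Sq C) : negtwo_Sq (g * C * g⁻¹) := by
  intro v
  have h2 : (g : Matrix (Fin 2) (Fin 2) F) * (C : Matrix (Fin 2) (Fin 2) F) =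
      ((g * C * g⁻¹ : SL2 F) : Matrix (Fin 2) (Fin 2) F) * (g : Matrix (Fin 2) (Fin 2) F) := by
    rw [← Matrix.SpecialLinearGroup.coe_mul, ← Matrix.SpecialLinearGroup.coe_mul,
      inv_mul_cancel_right]
  have h3 := negtwo_q_conj _ _ _ h2
    (((g⁻¹ : SL2 F) : Matrix (Fin 2) (Fin 2) F) *ᵥ v)
  have h4 : (g : Matrix (Fin 2) (Fin 2) F) *ᵥ
      (((g⁻¹ : SL2 F) : Matrix (Fin 2) (Fin 2) F) *ᵥ v) = v := by
    rw [Matrix.mulVec_mulVec, ← Matrix.SpecialLinearGroup.coe_mul, mul_inv_cancel]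
    simp
  rw [h4] at h3
  rw [h3, g.det_coe, one_mul]
  exact h _

private theorem negtwo_Sq_conj_iff (g C : SL2 F) : negtwo_Sq (g * C * g⁻¹) ↔ negtwo_Sq C := by
  constructor
  · intro h
    have := negtwo_Sq_conj g⁻¹ _ h
    have h2 : g⁻¹ * (g * C * g⁻¹) * g⁻¹⁻¹ = C := by group
    rwa [h2] at this
  · exact negtwo_Sq_conj g C

private def negtwo_com (P : SL2 F × SL2 F) : SL2 F := P.1 * P.2 * P.1⁻¹ * P.2⁻¹

private theorem negtwo_move (h1 : IsSquare (-1 : F)) {P Q : SL2 F × SL2 F} (h : Move P Q) :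
    negtwo_Sq (negtwo_com P) ↔ negtwo_Sq (negtwo_com Q) := by
  cases h with
  | swap A B =>
    have h2 : negtwo_com (B, A) = (negtwo_com (A, B))⁻¹ := by
      simp only [negtwo_com]
      group
    rw [h2, negtwo_Sq_inv_iff h1]
  | inv A B =>
    have h2 : negtwo_com (A⁻¹, B) = A⁻¹ * (negtwo_com (A, B))⁻¹ * A⁻¹⁻¹ := by
      simp only [negtwo_com]
      group
    rw [h2, negtwo_Sq_conj_iff, negtwo_Sq_inv_iff h1]
  | mul A B =>
    have h2 : negtwo_com (A * B, B) = negtwo_com (A, B) := by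
      simp only [negtwo_com]
      group
    rw [h2]

private theorem negtwo_nequiv (h1 : IsSquare (-1 : F)) {P Q : SL2 F × SL2 F} (h : NEquiv P Q) :
    negtwo_Sq (negtwo_com P) ↔ negtwo_Sq (negtwo_com Q) := by
  induction h with
  | rel _ _ h => exact negtwo_move h1 h
  | refl _ => exact Iff.rfl
  | symm _ _ _ ih => exact ih.symm
  | trans _ _ _ _ _ ih1 ih2 => exact ih1.trans ih2

/-- the elements commuting with `x` up to sign -/
private def negtwo_sub (x : SL2 F) : Subgroup (SL2 F) where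
  carrier := {g | x * g = g * x ∨ x * g = -(g * x)}
  one_mem' := Or.inl (by rw [mul_one, one_mul])
  mul_mem' := by
    intro a b ha hb
    simp only [Set.mem_ofPred_eq] at ha hb ⊢
    have key : x * (a * b) = x * a * b := (mul_assoc _ _ _).symm
    rcases ha with ha | ha <;> rcases hb with hb | hb
    · left
      rw [key, ha, mul_assoc, hb, mul_assoc]
    · right
      rw [key, ha, mul_assoc, hb, mul_neg, mul_assoc]
    · right
      rw [key, ha, neg_mul, mul_assoc, hb, mul_assoc]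
    · left
      rw [key, ha, neg_mul, mul_assoc, hb, mul_neg, neg_neg, mul_assoc]
  inv_mem' := by
    intro a ha
    simp only [Set.mem_ofPred_eq] at ha ⊢
    rcases ha with ha | ha
    · left
      have h2 : a⁻¹ * (x * a) * a⁻¹ = a⁻¹ * (a * x) * a⁻¹ := by rw [ha]
      have h3 : a⁻¹ * (x * a) * a⁻¹ = a⁻¹ * x := by group
      have h4 : a⁻¹ * (a * x) * a⁻¹ = x * a⁻¹ := by group
      rw [h3, h4] at h2
      exact h2.symm
    · right
      have h2 : a⁻¹ * (x * a) * a⁻¹ = a⁻¹ * (-(a * x)) * a⁻¹ := by rw [ha]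
      have h3 : a⁻¹ * (x * a) * a⁻¹ = a⁻¹ * x := by group
      have h4 : a⁻¹ * (-(a * x)) * a⁻¹ = -(x * a⁻¹) := by
        rw [mul_neg, neg_mul, inv_mul_cancel_left]
      rw [h3, h4] at h2
      rw [h2, neg_neg]

private theorem negtwo_com_ne (P : SL2 F × SL2 F) (hP : IsGen P) : negtwo_com P ≠ -1 := by
  intro hC
  have hAB : P.1 * P.2 = -(P.2 * P.1) := by
    have h2 : P.1 * P.2 = negtwo_com P * (P.2 * P.1) := by
      simp only [negtwo_com]
      group
    rw [h2, hC, neg_mul, one_mul]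
  have hBA : P.2 * P.1 = -(P.1 * P.2) := by rw [hAB, neg_neg]
  have hA : ∀ g : SL2 F, g ∈ negtwo_sub P.1 := by
    intro g
    have h2 : Subgroup.closure ({P.1, P.2} : Set (SL2 F)) ≤ negtwo_sub P.1 := by
      rw [Subgroup.closure_le]
      rintro x (rfl | hx)
      · exact Or.inl rfl
      · rw [Set.mem_singleton_iff] at hx
        rw [hx]
        exact Or.inr hAB
    rw [hP] at h2
    exact h2 (Subgroup.mem_top g)
  have hB : ∀ g : SL2 F, g ∈ negtwo_sub P.2 := by
    intro g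
    have h2 : Subgroup.closure ({P.1, P.2} : Set (SL2 F)) ≤ negtwo_sub P.2 := by
      rw [Subgroup.closure_le]
      rintro x (rfl | hx)
      · exact Or.inr hBA
      · rw [Set.mem_singleton_iff] at hx
        rw [hx]
        exact Or.inl rfl
    rw [hP] at h2
    exact h2 (Subgroup.mem_top g)
  have hall : ∀ x g : SL2 F, g ∈ negtwo_sub x := by
    intro x g
    have h2 : Subgroup.closure ({P.1, P.2} : Set (SL2 F)) ≤ negtwo_sub x := by
      rw [Subgroup.closure_le]
      rintro y (rfl | hy)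
      · rcases hA x with h | h
        · exact Or.inl h.symm
        · right
          rw [h, neg_neg]
      · rw [Set.mem_singleton_iff] at hy
        rw [hy]
        rcases hB x with h | h
        · exact Or.inl h.symm
        · right
          rw [h, neg_neg]
    rw [hP] at h2
    exact h2 (Subgroup.mem_top g)
  let u : SL2 F := ⟨!![1, 1; 0, 1], by simp [Matrix.det_fin_two]⟩
  let l : SL2 F := ⟨!![1, 0; 1, 1], by simp [Matrix.det_fin_two]⟩
  have hu : (u : Matrix (Fin 2) (Fin 2) F) = !![1, 1; 0, 1] := rfl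
  have hl : (l : Matrix (Fin 2) (Fin 2) F) = !![1, 0; 1, 1] := rfl
  rcases hall u l with h | h
  · have h2 := congrArg (fun g : SL2 F => (g : Matrix (Fin 2) (Fin 2) F) 0 0) h
    simp only [Matrix.SpecialLinearGroup.coe_mul, hu, hl, Matrix.mul_apply, Fin.sum_univ_two,
      Matrix.of_apply, Matrix.cons_val', Matrix.cons_val_zero, Matrix.cons_val_one,
      Matrix.cons_val_fin_one] at h2
    exact one_ne_zero (show (1 : F) = 0 by linear_combination h2)
  · have h2 := congrArg (fun g : SL2 F => (g : Matrix (Fin 2) (Fin 2) F) 0 1) h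
    have h3 := congrArg (fun g : SL2 F => (g : Matrix (Fin 2) (Fin 2) F) 0 0) h
    simp only [Matrix.SpecialLinearGroup.coe_mul, Matrix.SpecialLinearGroup.coe_neg,
      Matrix.neg_apply, hu, hl, Matrix.mul_apply, Fin.sum_univ_two,
      Matrix.of_apply, Matrix.cons_val', Matrix.cons_val_zero, Matrix.cons_val_one,
      Matrix.cons_val_fin_one] at h2 h3
    have h4 : (1 : F) = 0 := by linear_combination h3 - h2
    exact one_ne_zero h4

private theorem negtwo_q_zero (h2 : (2 : F) ≠ 0) (C : SL2 F) (ht : tr C = -2)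
    (h : ∀ v : Fin 2 → F, negtwo_q (C : Matrix (Fin 2) (Fin 2) F) v = 0) : C = -1 := by
  have h10 := h ![1, 0]
  have h01 := h ![0, 1]
  have h11 := h ![1, 1]
  simp only [negtwo_q, negtwo_om, Matrix.mulVec, dotProduct, Fin.sum_univ_two,
    Matrix.cons_val_zero, Matrix.cons_val_one, Matrix.cons_val_fin_one] at h10 h01 h11
  rw [tr, Matrix.trace_fin_two] at ht
  set M : Matrix (Fin 2) (Fin 2) F := (C : Matrix (Fin 2) (Fin 2) F) with hM
  have e10 : M 1 0 = 0 := by linear_combination h10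
  have e01 : M 0 1 = 0 := by linear_combination -h01
  have ee : M 1 1 = M 0 0 := by linear_combination h11 - e10 + e01
  have e00 : M 0 0 = -1 := by
    have : 2 * (M 0 0 + 1) = 0 := by linear_combination ht - ee
    have h3 := (mul_eq_zero.1 this).resolve_left h2
    linear_combination h3
  apply Subtype.ext
  rw [← hM]
  ext i j
  fin_cases i <;> fin_cases j <;>
    simp [e10, e01, ee, e00]

/-- the quadratic form has rank one -/
private theorem negtwo_rank (C : SL2 F) (ht : tr C = -2) (u v : Fin 2 → F) :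
    4 * (negtwo_q (C : Matrix (Fin 2) (Fin 2) F) u * negtwo_q (C : Matrix (Fin 2) (Fin 2) F) v) =
      (negtwo_om u ((C : Matrix (Fin 2) (Fin 2) F) *ᵥ v) +
        negtwo_om v ((C : Matrix (Fin 2) (Fin 2) F) *ᵥ u)) ^ 2 := by
  have hd := C.det_coe
  rw [Matrix.det_fin_two] at hd
  rw [tr, Matrix.trace_fin_two] at ht
  simp only [negtwo_q, negtwo_om, Matrix.mulVec, dotProduct, Fin.sum_univ_two]
  set M : Matrix (Fin 2) (Fin 2) F := (C : Matrix (Fin 2) (Fin 2) F) with hM
  have hdisc : (M 1 1 - M 0 0) ^ 2 + 4 * (M 1 0 * M 0 1) = 0 := by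
    have h3 : (M 0 0 + M 1 1) ^ 2 = 4 := by rw [ht]; norm_num
    linear_combination h3 - 4 * hd
  linear_combination (-(u 0 * v 1 - v 0 * u 1) ^ 2) * hdisc

end negtwo

private theorem negtwo_nonsq_mul (p : ℕ) [Fact p.Prime] (hp2 : p ≠ 2) {a b : ZMod p}
    (ha : ¬ IsSquare a) (hb : ¬ IsSquare b) : IsSquare (a * b) := by
  have hchar : ringChar (ZMod p) ≠ 2 := by
    rw [ZMod.ringChar_zmod_n]
    exact hp2
  have ha0 : a ≠ 0 := by rintro rfl; exact ha (IsSquare.zero)
  have hb0 : b ≠ 0 := by rintro rfl; exact hb (IsSquare.zero)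
  have h1 : quadraticChar (ZMod p) a = -1 := quadraticChar_neg_one_iff_not_isSquare.2 ha
  have h2 : quadraticChar (ZMod p) b = -1 := quadraticChar_neg_one_iff_not_isSquare.2 hb
  rw [← quadraticChar_one_iff_isSquare (mul_ne_zero ha0 hb0), map_mul, h1, h2]
  norm_num

private theorem negtwo_sq_mul {F : Type*} [Field F] {a b : F} (ha : IsSquare a) (ha0 : a ≠ 0)
    (h : IsSquare (a * b)) : IsSquare b := by
  obtain ⟨r, rfl⟩ := ha
  obtain ⟨s, hs⟩ := h
  have hr : r ≠ 0 := fun h => ha0 (by rw [h, mul_zero])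
  refine ⟨s / r, ?_⟩
  field_simp
  linear_combination hs

theorem neg_two (p : ℕ) [Fact p.Prime] (hp : p % 4 = 1) (P Q : SL2 (ZMod p) × SL2 (ZMod p))
    (hP : IsGen P) (hl : lev P = -2) (X : Matrix (Fin 2) (Fin 2) (ZMod p))
    (hX : ¬ IsSquare X.det) (h : ConjBy X P Q) : ¬ NEquiv P Q := by
  intro hPQ
  have hpp : p.Prime := Fact.out
  have hp2 : p ≠ 2 := by
    rintro rfl
    omega
  have h2 : (2 : ZMod p) ≠ 0 := by
    intro h0
    have h3 : ((2 : ℕ) : ZMod p) = 0 := by exact_mod_cast h0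
    rw [ZMod.natCast_eq_zero_iff] at h3
    exact hp2 ((Nat.prime_dvd_prime_iff_eq hpp Nat.prime_two).1 h3)
  have hm1 : IsSquare (-1 : ZMod p) := by
    rw [ZMod.exists_sq_eq_neg_one_iff]
    omega
  have hiff := negtwo_nequiv hm1 hPQ
  have hCne := negtwo_com_ne P hP
  have htr : tr (negtwo_com P) = -2 := hl
  have hdet0 : X.det ≠ 0 := by
    intro h0
    exact hX (h0 ▸ IsSquare.zero)
  -- the commutators are conjugate
  have hinv : ∀ A B : SL2 (ZMod p), X * (A : Matrix (Fin 2) (Fin 2) (ZMod p)) =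
      (B : Matrix (Fin 2) (Fin 2) (ZMod p)) * X →
      X * ((A⁻¹ : SL2 (ZMod p)) : Matrix (Fin 2) (Fin 2) (ZMod p)) =
        ((B⁻¹ : SL2 (ZMod p)) : Matrix (Fin 2) (Fin 2) (ZMod p)) * X := by
    intro A B hAB
    have h3 : ((B⁻¹ : SL2 (ZMod p)) : Matrix (Fin 2) (Fin 2) (ZMod p)) *
        (X * (A : Matrix (Fin 2) (Fin 2) (ZMod p))) *
        ((A⁻¹ : SL2 (ZMod p)) : Matrix (Fin 2) (Fin 2) (ZMod p)) =
        ((B⁻¹ : SL2 (ZMod p)) : Matrix (Fin 2) (Fin 2) (ZMod p)) *
        ((B : Matrix (Fin 2) (Fin 2) (ZMod p)) * X) *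
        ((A⁻¹ : SL2 (ZMod p)) : Matrix (Fin 2) (Fin 2) (ZMod p)) := by rw [hAB]
    have h4 : (A : Matrix (Fin 2) (Fin 2) (ZMod p)) *
        ((A⁻¹ : SL2 (ZMod p)) : Matrix (Fin 2) (Fin 2) (ZMod p)) = 1 := by
      rw [← Matrix.SpecialLinearGroup.coe_mul, mul_inv_cancel, Matrix.SpecialLinearGroup.coe_one]
    have h5 : ((B⁻¹ : SL2 (ZMod p)) : Matrix (Fin 2) (Fin 2) (ZMod p)) *
        (B : Matrix (Fin 2) (Fin 2) (ZMod p)) = 1 := by
      rw [← Matrix.SpecialLinearGroup.coe_mul, inv_mul_cancel, Matrix.SpecialLinearGroup.coe_one]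
    rw [mul_assoc, mul_assoc X, h4, mul_one, ← mul_assoc _ _ X, h5, one_mul] at h3
    exact h3.symm
  have hcom : X * ((negtwo_com P : SL2 (ZMod p)) : Matrix (Fin 2) (Fin 2) (ZMod p)) =
      ((negtwo_com Q : SL2 (ZMod p)) : Matrix (Fin 2) (Fin 2) (ZMod p)) * X := by
    simp only [negtwo_com, Matrix.SpecialLinearGroup.coe_mul]
    rw [← mul_assoc, ← mul_assoc, ← mul_assoc, h.1, mul_assoc _ X, h.2, ← mul_assoc, mul_assoc _ X,
      hinv _ _ h.1, ← mul_assoc, mul_assoc _ X, hinv _ _ h.2, ← mul_assoc]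
  have hq := negtwo_q_conj X _ _ hcom
  by_cases hS : negtwo_Sq (negtwo_com P)
  · have hSQ := hiff.1 hS
    apply hCne
    apply negtwo_q_zero h2 _ htr
    intro v
    by_contra hv
    apply hX
    apply negtwo_sq_mul (hS v) hv
    rw [mul_comm, ← hq]
    exact hSQ _
  · have hSQ : ¬ negtwo_Sq (negtwo_com Q) := fun h3 => hS (hiff.2 h3)
    rw [negtwo_Sq] at hS hSQ
    push Not at hS hSQ
    obtain ⟨v, hv⟩ := hS
    obtain ⟨w, hw⟩ := hSQ
    -- w = X u
    have hunit : IsUnit X.det := isUnit_iff_ne_zero.2 hdet0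
    have hXw : X *ᵥ (X⁻¹ *ᵥ w) = w := by
      rw [Matrix.mulVec_mulVec, Matrix.mul_nonsing_inv _ hunit, Matrix.one_mulVec]
    have h3 := hq (X⁻¹ *ᵥ w)
    rw [hXw] at h3
    rw [h3] at hw
    set a := negtwo_q ((negtwo_com P : SL2 (ZMod p)) : Matrix (Fin 2) (Fin 2) (ZMod p))
      (X⁻¹ *ᵥ w) with ha
    set b := negtwo_q ((negtwo_com P : SL2 (ZMod p)) : Matrix (Fin 2) (Fin 2) (ZMod p)) v with hb
    have ha0 : a ≠ 0 := by
      intro h0
      rw [h0, mul_zero] at hw
      exact hw IsSquare.zero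
    have hasq : IsSquare a := by
      by_contra hna
      exact hw (negtwo_nonsq_mul p hp2 hX hna)
    have hrank := negtwo_rank (negtwo_com P) htr (X⁻¹ *ᵥ w) v
    rw [← ha, ← hb] at hrank
    apply hv
    apply negtwo_sq_mul hasq ha0
    apply negtwo_sq_mul (a := 4) ⟨2, by norm_num⟩
    · intro h4
      apply h2
      have h5 : (2 : ZMod p) * 2 = 0 := by linear_combination h4
      exact (mul_self_eq_zero.1 h5)
    · rw [hrank]
      exact ⟨_, sq _⟩

end MW
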