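import Pool.Agent.Lib.MP_a542cf_al.Moves

/-! MW-NonSq: three explicit conjugations between Nielsen equivalent pairs. -/

namespace MW

section
variable {F : Type*} [Field F]

private theorem ns_inv_val (A : SL2 F) : (A⁻¹ : SL2 F).1 = !![A.1 1 1, -A.1 0 1; -A.1 1 0, A.1 0 0] := by
  rw [Matrix.SpecialLinearGroup.coe_inv, Matrix.adjugate_fin_two]

private theorem ns_det (A : SL2 F) : A.1 0 0 * A.1 1 1 - A.1 0 1 * A.1 1 0 = 1 := by
  rw [← Matrix.det_fin_two]; exact A.2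

theorem ns_inv (A B : SL2 F) :
    ConjBy (A.1 * B.1 - B.1 * A.1) (A, B) (A⁻¹, B⁻¹) ∧
      (A.1 * B.1 - B.1 * A.1).det = 2 - lev (A, B) := by
  have hA := ns_det A
  have hB := ns_det B
  have iA00 : (A⁻¹ : SL2 F).1 0 0 = A.1 1 1 := by rw [ns_inv_val]; rfl
  have iA01 : (A⁻¹ : SL2 F).1 0 1 = -A.1 0 1 := by rw [ns_inv_val]; rfl
  have iA10 : (A⁻¹ : SL2 F).1 1 0 = -A.1 1 0 := by rw [ns_inv_val]; rfl
  have iA11 : (A⁻¹ : SL2 F).1 1 1 = A.1 0 0 := by rw [ns_inv_val]; rfl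
  have iB00 : (B⁻¹ : SL2 F).1 0 0 = B.1 1 1 := by rw [ns_inv_val]; rfl
  have iB01 : (B⁻¹ : SL2 F).1 0 1 = -B.1 0 1 := by rw [ns_inv_val]; rfl
  have iB10 : (B⁻¹ : SL2 F).1 1 0 = -B.1 1 0 := by rw [ns_inv_val]; rfl
  have iB11 : (B⁻¹ : SL2 F).1 1 1 = B.1 0 0 := by rw [ns_inv_val]; rfl
  have hlev : lev (A, B) = (A.1 * B.1 * (A⁻¹ : SL2 F).1 * (B⁻¹ : SL2 F).1) 0 0 +
      (A.1 * B.1 * (A⁻¹ : SL2 F).1 * (B⁻¹ : SL2 F).1) 1 1 := Matrix.trace_fin_two _
  refine ⟨⟨?_, ?_⟩, ?_⟩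
  · show (A.1 * B.1 - B.1 * A.1) * A.1 = (A⁻¹ : SL2 F).1 * (A.1 * B.1 - B.1 * A.1)
    ext i j
    fin_cases i <;> fin_cases j <;>
      simp only [Matrix.mul_apply, Matrix.sub_apply, Fin.sum_univ_two, Fin.zero_eta, Fin.mk_one,
        iA00, iA01, iA10, iA11] <;> ring
  · show (A.1 * B.1 - B.1 * A.1) * B.1 = (B⁻¹ : SL2 F).1 * (A.1 * B.1 - B.1 * A.1)
    ext i j
    fin_cases i <;> fin_cases j <;>
      simp only [Matrix.mul_apply, Matrix.sub_apply, Fin.sum_univ_two, Fin.zero_eta, Fin.mk_one,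
        iB00, iB01, iB10, iB11] <;> ring
  · rw [hlev, Matrix.det_fin_two]
    simp only [Matrix.mul_apply, Matrix.sub_apply, Fin.sum_univ_two, iA00, iA01, iA10, iA11,
      iB00, iB01, iB10, iB11]
    generalize A.1 0 0 = a at *
    generalize A.1 0 1 = b at *
    generalize A.1 1 0 = c at *
    generalize A.1 1 1 = d at *
    generalize B.1 0 0 = e at *
    generalize B.1 0 1 = f at *
    generalize B.1 1 0 = g at *
    generalize B.1 1 1 = h at *
    linear_combination (2 * (e * h - f * g)) * hA + 2 * hB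

theorem ns_half (A B : SL2 F) (h : 2 * tr (A * B) = tr A * tr B) :
    ConjBy ((2 : F) • B.1 - (tr B) • 1) (A, B) (A⁻¹, B) ∧
      ((2 : F) • B.1 - (tr B) • (1 : Matrix (Fin 2) (Fin 2) F)).det = 4 - tr B ^ 2 := by
  have hA := ns_det A
  have hB := ns_det B
  have iA00 : (A⁻¹ : SL2 F).1 0 0 = A.1 1 1 := by rw [ns_inv_val]; rfl
  have iA01 : (A⁻¹ : SL2 F).1 0 1 = -A.1 0 1 := by rw [ns_inv_val]; rfl
  have iA10 : (A⁻¹ : SL2 F).1 1 0 = -A.1 1 0 := by rw [ns_inv_val]; rfl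
  have iA11 : (A⁻¹ : SL2 F).1 1 1 = A.1 0 0 := by rw [ns_inv_val]; rfl
  have tA : tr A = A.1 0 0 + A.1 1 1 := Matrix.trace_fin_two _
  have tB : tr B = B.1 0 0 + B.1 1 1 := Matrix.trace_fin_two _
  have tAB : tr (A * B) = (A.1 * B.1) 0 0 + (A.1 * B.1) 1 1 := Matrix.trace_fin_two _
  simp only [Matrix.mul_apply, Fin.sum_univ_two] at tAB
  rw [tA, tB, tAB] at h
  refine ⟨⟨?_, ?_⟩, ?_⟩
  · show ((2 : F) • B.1 - (tr B) • 1) * A.1 = (A⁻¹ : SL2 F).1 * ((2 : F) • B.1 - (tr B) • 1)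
    rw [tB]
    ext i j
    fin_cases i <;> fin_cases j <;>
      simp only [Matrix.mul_apply, Matrix.sub_apply, Matrix.smul_apply, Fin.sum_univ_two,
        Fin.zero_eta, Fin.mk_one, iA00, iA01, iA10, iA11, smul_eq_mul, Matrix.one_apply,
        Fin.isValue, if_true, if_false, zero_ne_one, one_ne_zero, mul_zero, mul_one, sub_zero]
    · linear_combination h
    · ring
    · ring
    · linear_combination h
  · show ((2 : F) • B.1 - (tr B) • 1) * B.1 = B.1 * ((2 : F) • B.1 - (tr B) • 1)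
    rw [sub_mul, mul_sub, smul_mul_assoc, mul_smul_comm, smul_mul_assoc, mul_smul_comm, one_mul,
      mul_one]
  · rw [tB, Matrix.det_fin_two]
    simp only [Matrix.sub_apply, Matrix.smul_apply, smul_eq_mul, Matrix.one_apply,
        Fin.isValue, if_true, if_false, zero_ne_one, one_ne_zero, mul_zero, mul_one, sub_zero]
    linear_combination 4 * hB

theorem ns_swap (A B : SL2 F) (h : tr A = tr B) :
    ConjBy (A.1 - (B⁻¹ : SL2 F).1) (A, B) (B, A) ∧
      (A.1 - (B⁻¹ : SL2 F).1).det = 2 - tr (A * B) := by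
  have hA := ns_det A
  have hB := ns_det B
  have iB00 : (B⁻¹ : SL2 F).1 0 0 = B.1 1 1 := by rw [ns_inv_val]; rfl
  have iB01 : (B⁻¹ : SL2 F).1 0 1 = -B.1 0 1 := by rw [ns_inv_val]; rfl
  have iB10 : (B⁻¹ : SL2 F).1 1 0 = -B.1 1 0 := by rw [ns_inv_val]; rfl
  have iB11 : (B⁻¹ : SL2 F).1 1 1 = B.1 0 0 := by rw [ns_inv_val]; rfl
  have tA : tr A = A.1 0 0 + A.1 1 1 := Matrix.trace_fin_two _
  have tB : tr B = B.1 0 0 + B.1 1 1 := Matrix.trace_fin_two _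
  have tAB : tr (A * B) = (A.1 * B.1) 0 0 + (A.1 * B.1) 1 1 := Matrix.trace_fin_two _
  simp only [Matrix.mul_apply, Fin.sum_univ_two] at tAB
  rw [tA, tB] at h
  refine ⟨⟨?_, ?_⟩, ?_⟩
  · show (A.1 - (B⁻¹ : SL2 F).1) * A.1 = B.1 * (A.1 - (B⁻¹ : SL2 F).1)
    ext i j
    fin_cases i <;> fin_cases j <;>
      simp only [Matrix.mul_apply, Matrix.sub_apply, Fin.sum_univ_two, Fin.zero_eta, Fin.mk_one,
        iB00, iB01, iB10, iB11]
    · linear_combination A.1 0 0 * h - hA + hB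
    · linear_combination A.1 0 1 * h
    · linear_combination A.1 1 0 * h
    · linear_combination A.1 1 1 * h - hA + hB
  · show (A.1 - (B⁻¹ : SL2 F).1) * B.1 = A.1 * (A.1 - (B⁻¹ : SL2 F).1)
    ext i j
    fin_cases i <;> fin_cases j <;>
      simp only [Matrix.mul_apply, Matrix.sub_apply, Fin.sum_univ_two, Fin.zero_eta, Fin.mk_one,
        iB00, iB01, iB10, iB11]
    · linear_combination -A.1 0 0 * h + hA - hB
    · linear_combination -A.1 0 1 * h
    · linear_combination -A.1 1 0 * h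
    · linear_combination -A.1 1 1 * h + hA - hB
  · rw [tAB, Matrix.det_fin_two]
    simp only [Matrix.sub_apply, iB00, iB01, iB10, iB11]
    linear_combination hA + hB

end

end MW
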