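import Pool.Agent.Lib.MP_a542cf_al.Defs

/-! MW-PairCount: number of pairs with a given triple. -/

namespace MW

open Matrix

lemma pc_ext_entries {F : Type*} [Field F] (A B : SL2 F)
    (h00 : (A : Matrix (Fin 2) (Fin 2) F) 0 0 = (B : Matrix (Fin 2) (Fin 2) F) 0 0)
    (h01 : (A : Matrix (Fin 2) (Fin 2) F) 0 1 = (B : Matrix (Fin 2) (Fin 2) F) 0 1)
    (h10 : (A : Matrix (Fin 2) (Fin 2) F) 1 0 = (B : Matrix (Fin 2) (Fin 2) F) 1 0)
    (h11 : (A : Matrix (Fin 2) (Fin 2) F) 1 1 = (B : Matrix (Fin 2) (Fin 2) F) 1 1) : A = B := by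
  apply Subtype.ext
  ext i j
  fin_cases i <;> fin_cases j
  · exact h00
  · exact h01
  · exact h10
  · exact h11

lemma pc_det {F : Type*} [Field F] (A : SL2 F) :
    (A : Matrix (Fin 2) (Fin 2) F) 0 0 * (A : Matrix (Fin 2) (Fin 2) F) 1 1 -
      (A : Matrix (Fin 2) (Fin 2) F) 0 1 * (A : Matrix (Fin 2) (Fin 2) F) 1 0 = 1 := by
  have := A.det_coe
  rw [Matrix.det_fin_two] at this
  exact this

lemma pc_tr {F : Type*} [Field F] (A : SL2 F) :
    tr A = (A : Matrix (Fin 2) (Fin 2) F) 0 0 + (A : Matrix (Fin 2) (Fin 2) F) 1 1 := by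
  simp [tr, Matrix.trace_fin_two]

lemma pc_tr_mul {F : Type*} [Field F] (A B : SL2 F) :
    tr (A * B) = (A : Matrix (Fin 2) (Fin 2) F) 0 0 * (B : Matrix (Fin 2) (Fin 2) F) 0 0 +
      (A : Matrix (Fin 2) (Fin 2) F) 0 1 * (B : Matrix (Fin 2) (Fin 2) F) 1 0 +
      ((A : Matrix (Fin 2) (Fin 2) F) 1 0 * (B : Matrix (Fin 2) (Fin 2) F) 0 1 +
      (A : Matrix (Fin 2) (Fin 2) F) 1 1 * (B : Matrix (Fin 2) (Fin 2) F) 1 1) := by
  rw [pc_tr, Matrix.SpecialLinearGroup.coe_mul]
  simp only [Matrix.mul_apply, Fin.sum_univ_two]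

/-- a finset without three distinct elements has at most two elements -/
lemma pc_card_le_two_of {α : Type*} (s : Finset α)
    (h : ∀ a ∈ s, ∀ b ∈ s, ∀ c ∈ s, a ≠ b → a ≠ c → b = c) : s.card ≤ 2 := by
  by_contra hc
  push Not at hc
  obtain ⟨a, b, c, ha, hb, hc, hab, hac, hbc⟩ := Finset.two_lt_card_iff.1 hc
  exact hbc (h a ha b hb c hc hab hac)

open Classical in
/-- at most `2 p^2` matrices with a given trace -/
lemma pc_card_trace (p : ℕ) [Fact p.Prime] (x : ZMod p) :
    (Finset.univ.filter (fun A : SL2 (ZMod p) => tr A = x)).card ≤ 2 * p ^ 2 := by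
  have h := Finset.card_le_mul_card_image_of_maps_to
    (s := Finset.univ.filter (fun A : SL2 (ZMod p) => tr A = x))
    (t := (Finset.univ : Finset (ZMod p × ZMod p)))
    (f := fun A : SL2 (ZMod p) => ((A : Matrix (Fin 2) (Fin 2) (ZMod p)) 0 1,
      (A : Matrix (Fin 2) (Fin 2) (ZMod p)) 1 0)) (fun _ _ => Finset.mem_univ _) 2 ?_
  · refine h.trans (le_of_eq ?_)
    rw [Finset.card_univ, Fintype.card_prod, ZMod.card]; ring
  · rintro ⟨b, c⟩ -
    apply pc_card_le_two_of
    intro A hA B hB C hC hAB hAC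
    simp only [Finset.mem_filter, Finset.mem_univ, true_and, Prod.mk.injEq] at hA hB hC
    obtain ⟨hA1, hA2, hA3⟩ := hA
    obtain ⟨hB1, hB2, hB3⟩ := hB
    obtain ⟨hC1, hC2, hC3⟩ := hC
    have dA := pc_det A
    have dB := pc_det B
    have dC := pc_det C
    rw [pc_tr] at hA1 hB1 hC1
    have nAB : (A : Matrix (Fin 2) (Fin 2) (ZMod p)) 0 0 -
        (B : Matrix (Fin 2) (Fin 2) (ZMod p)) 0 0 ≠ 0 := by
      intro h
      apply hAB
      apply pc_ext_entries
      · linear_combination h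
      · rw [hA2, hB2]
      · rw [hA3, hB3]
      · linear_combination hA1 - hB1 - h
    have nAC : (A : Matrix (Fin 2) (Fin 2) (ZMod p)) 0 0 -
        (C : Matrix (Fin 2) (Fin 2) (ZMod p)) 0 0 ≠ 0 := by
      intro h
      apply hAC
      apply pc_ext_entries
      · linear_combination h
      · rw [hA2, hC2]
      · rw [hA3, hC3]
      · linear_combination hA1 - hC1 - h
    rw [hA2, hA3] at dA
    rw [hB2, hB3] at dB
    rw [hC2, hC3] at dC
    generalize (A : Matrix (Fin 2) (Fin 2) (ZMod p)) 0 0 = a1 at *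
    generalize (A : Matrix (Fin 2) (Fin 2) (ZMod p)) 1 1 = d1 at *
    have e1 : x - a1 - (B : Matrix (Fin 2) (Fin 2) (ZMod p)) 0 0 = 0 := by
      apply mul_left_cancel₀ nAB
      rw [mul_zero]
      linear_combination dA - dB - a1 * hA1 + (B : Matrix (Fin 2) (Fin 2) (ZMod p)) 0 0 * hB1
    have e2 : x - a1 - (C : Matrix (Fin 2) (Fin 2) (ZMod p)) 0 0 = 0 := by
      apply mul_left_cancel₀ nAC
      rw [mul_zero]
      linear_combination dA - dC - a1 * hA1 + (C : Matrix (Fin 2) (Fin 2) (ZMod p)) 0 0 * hC1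
    apply pc_ext_entries
    · linear_combination e2 - e1
    · rw [hB2, hC2]
    · rw [hB3, hC3]
    · linear_combination hB1 - hC1 - (e2 - e1)

open Classical in
/-- for a fixed non-scalar `A`, at most `2 p` matrices `B` with given `tr B`, `tr (AB)` -/
lemma pc_card_second (p : ℕ) [Fact p.Prime] (A : SL2 (ZMod p)) (y z : ZMod p) :
    (Finset.univ.filter (fun B : SL2 (ZMod p) => tr B = y ∧ tr (A * B) = z ∧
      lev (A, B) ≠ 2)).card ≤ 2 * p := by
  have dA := pc_det A
  by_cases hc : (A : Matrix (Fin 2) (Fin 2) (ZMod p)) 1 0 = 0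
  · by_cases hb : (A : Matrix (Fin 2) (Fin 2) (ZMod p)) 0 1 = 0
    · -- diagonal
      by_cases had : (A : Matrix (Fin 2) (Fin 2) (ZMod p)) 0 0 -
          (A : Matrix (Fin 2) (Fin 2) (ZMod p)) 1 1 = 0
      · -- scalar: empty
        have hempty : Finset.univ.filter (fun B : SL2 (ZMod p) => tr B = y ∧ tr (A * B) = z ∧
            lev (A, B) ≠ 2) = ∅ := by
          apply Finset.filter_false_of_mem
          rintro B - ⟨-, -, h⟩
          apply h
          have hcomm : A * B = B * A := by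
            have had' : (A : Matrix (Fin 2) (Fin 2) (ZMod p)) 0 0 =
                (A : Matrix (Fin 2) (Fin 2) (ZMod p)) 1 1 := by linear_combination had
            apply pc_ext_entries <;>
              simp [Matrix.SpecialLinearGroup.coe_mul, Matrix.mul_apply, Fin.sum_univ_two, hb, hc,
                had', mul_comm]
          show tr (A * B * A⁻¹ * B⁻¹) = 2
          rw [hcomm, mul_inv_cancel_right, mul_inv_cancel, pc_tr]
          simp
          norm_num
        rw [hempty]
        simp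
      · have hcard : (Finset.univ : Finset (Bool × ZMod p)).card = 2 * p := by
          rw [Finset.card_univ, Fintype.card_prod, ZMod.card, Fintype.card_bool]
        rw [← hcard]
        apply Finset.card_le_card_of_injOn (fun B : SL2 (ZMod p) =>
          if (B : Matrix (Fin 2) (Fin 2) (ZMod p)) 0 1 = 0 then
            (true, (B : Matrix (Fin 2) (Fin 2) (ZMod p)) 1 0) else
            (false, (B : Matrix (Fin 2) (Fin 2) (ZMod p)) 0 1)) (fun _ _ => Finset.mem_univ _)
        intro B hB C hC hBC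
        simp only [Finset.coe_filter, Finset.mem_univ, true_and, Set.mem_ofPred_eq] at hB hC
        obtain ⟨hB1, hB2, -⟩ := hB
        obtain ⟨hC1, hC2, -⟩ := hC
        have dB := pc_det B
        have dC := pc_det C
        rw [pc_tr] at hB1 hC1
        rw [pc_tr_mul, hb, hc] at hB2 hC2
        have e : (B : Matrix (Fin 2) (Fin 2) (ZMod p)) 0 0 =
            (C : Matrix (Fin 2) (Fin 2) (ZMod p)) 0 0 := by
          apply mul_left_cancel₀ had
          linear_combination hB2 - hC2 - (A : Matrix (Fin 2) (Fin 2) (ZMod p)) 1 1 * (hB1 - hC1)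
        have e' : (B : Matrix (Fin 2) (Fin 2) (ZMod p)) 1 1 =
            (C : Matrix (Fin 2) (Fin 2) (ZMod p)) 1 1 := by
          linear_combination hB1 - hC1 - e
        by_cases h1 : (B : Matrix (Fin 2) (Fin 2) (ZMod p)) 0 1 = 0
        · by_cases h2 : (C : Matrix (Fin 2) (Fin 2) (ZMod p)) 0 1 = 0
          · simp only [h1, h2, if_true, Prod.mk.injEq, true_and] at hBC
            exact pc_ext_entries _ _ e (h1.trans h2.symm) hBC e'
          · simp [h1, h2] at hBC
        · by_cases h2 : (C : Matrix (Fin 2) (Fin 2) (ZMod p)) 0 1 = 0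
          · simp [h1, h2] at hBC
          · simp only [h1, h2, if_false, Prod.mk.injEq, true_and] at hBC
            refine pc_ext_entries _ _ e hBC ?_ e'
            apply mul_left_cancel₀ h1
            rw [e, e'] at dB
            have : (B : Matrix (Fin 2) (Fin 2) (ZMod p)) 0 1 *
                (B : Matrix (Fin 2) (Fin 2) (ZMod p)) 1 0 =
                (C : Matrix (Fin 2) (Fin 2) (ZMod p)) 0 1 *
                (C : Matrix (Fin 2) (Fin 2) (ZMod p)) 1 0 := by linear_combination dC - dB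
            rw [this, hBC]
    · -- b ≠ 0, c = 0 : parameter B 0 1
      have h := Finset.card_le_mul_card_image_of_maps_to
        (s := Finset.univ.filter (fun B : SL2 (ZMod p) => tr B = y ∧ tr (A * B) = z ∧
          lev (A, B) ≠ 2))
        (t := (Finset.univ : Finset (ZMod p)))
        (f := fun B : SL2 (ZMod p) => (B : Matrix (Fin 2) (Fin 2) (ZMod p)) 0 1)
        (fun _ _ => Finset.mem_univ _) 2 ?_
      · refine h.trans (le_of_eq ?_)
        rw [Finset.card_univ, ZMod.card]
      · rintro f -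
        apply pc_card_le_two_of
        intro B hB C hC D hD hBC hBD
        simp only [Finset.mem_filter, Finset.mem_univ, true_and] at hB hC hD
        obtain ⟨⟨hB1, hB2, -⟩, hB3⟩ := hB
        obtain ⟨⟨hC1, hC2, -⟩, hC3⟩ := hC
        obtain ⟨⟨hD1, hD2, -⟩, hD3⟩ := hD
        have dB := pc_det B
        have dC := pc_det C
        have dD := pc_det D
        rw [pc_tr] at hB1 hC1 hD1
        rw [pc_tr_mul, hc] at hB2 hC2 hD2
        rw [hB3] at dB hB2
        rw [hC3] at dC hC2
        rw [hD3] at dD hD2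
        have key : ∀ (P Q : SL2 (ZMod p)),
            (P : Matrix (Fin 2) (Fin 2) (ZMod p)) 0 1 = f →
            (Q : Matrix (Fin 2) (Fin 2) (ZMod p)) 0 1 = f →
            (P : Matrix (Fin 2) (Fin 2) (ZMod p)) 0 0 +
              (P : Matrix (Fin 2) (Fin 2) (ZMod p)) 1 1 = y →
            (Q : Matrix (Fin 2) (Fin 2) (ZMod p)) 0 0 +
              (Q : Matrix (Fin 2) (Fin 2) (ZMod p)) 1 1 = y →
            (A : Matrix (Fin 2) (Fin 2) (ZMod p)) 0 0 *
              (P : Matrix (Fin 2) (Fin 2) (ZMod p)) 0 0 +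
              (A : Matrix (Fin 2) (Fin 2) (ZMod p)) 0 1 *
              (P : Matrix (Fin 2) (Fin 2) (ZMod p)) 1 0 +
              (0 * f + (A : Matrix (Fin 2) (Fin 2) (ZMod p)) 1 1 *
              (P : Matrix (Fin 2) (Fin 2) (ZMod p)) 1 1) = z →
            (A : Matrix (Fin 2) (Fin 2) (ZMod p)) 0 0 *
              (Q : Matrix (Fin 2) (Fin 2) (ZMod p)) 0 0 +
              (A : Matrix (Fin 2) (Fin 2) (ZMod p)) 0 1 *
              (Q : Matrix (Fin 2) (Fin 2) (ZMod p)) 1 0 +
              (0 * f + (A : Matrix (Fin 2) (Fin 2) (ZMod p)) 1 1 *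
              (Q : Matrix (Fin 2) (Fin 2) (ZMod p)) 1 1) = z →
            (P : Matrix (Fin 2) (Fin 2) (ZMod p)) 0 0 =
              (Q : Matrix (Fin 2) (Fin 2) (ZMod p)) 0 0 → P = Q := by
          intro P Q h1 h2 h3 h4 h5 h6 h7
          refine pc_ext_entries _ _ h7 (h1.trans h2.symm) ?_ ?_
          · apply mul_left_cancel₀ hb
            linear_combination h5 - h6 - (A : Matrix (Fin 2) (Fin 2) (ZMod p)) 1 1 * (h3 - h4) -
              ((A : Matrix (Fin 2) (Fin 2) (ZMod p)) 0 0 -
                (A : Matrix (Fin 2) (Fin 2) (ZMod p)) 1 1) * h7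
          · linear_combination h3 - h4 - h7
        have nBC : (B : Matrix (Fin 2) (Fin 2) (ZMod p)) 0 0 -
            (C : Matrix (Fin 2) (Fin 2) (ZMod p)) 0 0 ≠ 0 := fun h =>
          hBC (key B C hB3 hC3 hB1 hC1 hB2 hC2 (by linear_combination h))
        have nBD : (B : Matrix (Fin 2) (Fin 2) (ZMod p)) 0 0 -
            (D : Matrix (Fin 2) (Fin 2) (ZMod p)) 0 0 ≠ 0 := fun h =>
          hBD (key B D hB3 hD3 hB1 hD1 hB2 hD2 (by linear_combination h))
        apply key C D hC3 hD3 hC1 hD1 hC2 hD2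
        set a := (A : Matrix (Fin 2) (Fin 2) (ZMod p)) 0 0
        set b := (A : Matrix (Fin 2) (Fin 2) (ZMod p)) 0 1
        set d := (A : Matrix (Fin 2) (Fin 2) (ZMod p)) 1 1
        have quad : ∀ (P : SL2 (ZMod p)),
            (P : Matrix (Fin 2) (Fin 2) (ZMod p)) 0 0 +
              (P : Matrix (Fin 2) (Fin 2) (ZMod p)) 1 1 = y →
            a * (P : Matrix (Fin 2) (Fin 2) (ZMod p)) 0 0 +
              b * (P : Matrix (Fin 2) (Fin 2) (ZMod p)) 1 0 +
              (0 * f + d * (P : Matrix (Fin 2) (Fin 2) (ZMod p)) 1 1) = z →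
            (P : Matrix (Fin 2) (Fin 2) (ZMod p)) 0 0 *
              (P : Matrix (Fin 2) (Fin 2) (ZMod p)) 1 1 -
              f * (P : Matrix (Fin 2) (Fin 2) (ZMod p)) 1 0 = 1 →
            b * (P : Matrix (Fin 2) (Fin 2) (ZMod p)) 0 0 *
              (y - (P : Matrix (Fin 2) (Fin 2) (ZMod p)) 0 0) -
              f * (z - d * y - (a - d) * (P : Matrix (Fin 2) (Fin 2) (ZMod p)) 0 0) = b := by
          intro P h1 h2 h3
          linear_combination b * h3 - (b * (P : Matrix (Fin 2) (Fin 2) (ZMod p)) 0 0) * h1 +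
            f * (h2 - d * h1)
        have qB := quad B hB1 hB2 dB
        have qC := quad C hC1 hC2 dC
        have qD := quad D hD1 hD2 dD
        generalize (B : Matrix (Fin 2) (Fin 2) (ZMod p)) 0 0 = e1 at *
        generalize (C : Matrix (Fin 2) (Fin 2) (ZMod p)) 0 0 = e2 at *
        generalize (D : Matrix (Fin 2) (Fin 2) (ZMod p)) 0 0 = e3 at *
        have r1 : b * y - b * (e1 + e2) + f * (a - d) = 0 := by
          apply mul_left_cancel₀ nBC
          rw [mul_zero]
          linear_combination qB - qC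
        have r2 : b * y - b * (e1 + e3) + f * (a - d) = 0 := by
          apply mul_left_cancel₀ nBD
          rw [mul_zero]
          linear_combination qB - qD
        apply mul_left_cancel₀ hb
        linear_combination r2 - r1
  · -- c ≠ 0 : parameter B 1 0
    have h := Finset.card_le_mul_card_image_of_maps_to
      (s := Finset.univ.filter (fun B : SL2 (ZMod p) => tr B = y ∧ tr (A * B) = z ∧
        lev (A, B) ≠ 2))
      (t := (Finset.univ : Finset (ZMod p)))
      (f := fun B : SL2 (ZMod p) => (B : Matrix (Fin 2) (Fin 2) (ZMod p)) 1 0)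
      (fun _ _ => Finset.mem_univ _) 2 ?_
    · refine h.trans (le_of_eq ?_)
      rw [Finset.card_univ, ZMod.card]
    · rintro g -
      apply pc_card_le_two_of
      intro B hB C hC D hD hBC hBD
      simp only [Finset.mem_filter, Finset.mem_univ, true_and] at hB hC hD
      obtain ⟨⟨hB1, hB2, -⟩, hB3⟩ := hB
      obtain ⟨⟨hC1, hC2, -⟩, hC3⟩ := hC
      obtain ⟨⟨hD1, hD2, -⟩, hD3⟩ := hD
      have dB := pc_det B
      have dC := pc_det C
      have dD := pc_det D
      rw [pc_tr] at hB1 hC1 hD1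
      rw [pc_tr_mul] at hB2 hC2 hD2
      rw [hB3] at dB hB2
      rw [hC3] at dC hC2
      rw [hD3] at dD hD2
      set a := (A : Matrix (Fin 2) (Fin 2) (ZMod p)) 0 0
      set b := (A : Matrix (Fin 2) (Fin 2) (ZMod p)) 0 1
      set c := (A : Matrix (Fin 2) (Fin 2) (ZMod p)) 1 0
      set d := (A : Matrix (Fin 2) (Fin 2) (ZMod p)) 1 1
      have key : ∀ (P Q : SL2 (ZMod p)),
          (P : Matrix (Fin 2) (Fin 2) (ZMod p)) 1 0 = g →
          (Q : Matrix (Fin 2) (Fin 2) (ZMod p)) 1 0 = g →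
          (P : Matrix (Fin 2) (Fin 2) (ZMod p)) 0 0 +
            (P : Matrix (Fin 2) (Fin 2) (ZMod p)) 1 1 = y →
          (Q : Matrix (Fin 2) (Fin 2) (ZMod p)) 0 0 +
            (Q : Matrix (Fin 2) (Fin 2) (ZMod p)) 1 1 = y →
          a * (P : Matrix (Fin 2) (Fin 2) (ZMod p)) 0 0 + b * g +
            (c * (P : Matrix (Fin 2) (Fin 2) (ZMod p)) 0 1 +
            d * (P : Matrix (Fin 2) (Fin 2) (ZMod p)) 1 1) = z →
          a * (Q : Matrix (Fin 2) (Fin 2) (ZMod p)) 0 0 + b * g +
            (c * (Q : Matrix (Fin 2) (Fin 2) (ZMod p)) 0 1 +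
            d * (Q : Matrix (Fin 2) (Fin 2) (ZMod p)) 1 1) = z →
          (P : Matrix (Fin 2) (Fin 2) (ZMod p)) 0 0 =
            (Q : Matrix (Fin 2) (Fin 2) (ZMod p)) 0 0 → P = Q := by
        intro P Q h1 h2 h3 h4 h5 h6 h7
        refine pc_ext_entries _ _ h7 ?_ (h1.trans h2.symm) ?_
        · apply mul_left_cancel₀ hc
          linear_combination h5 - h6 - d * (h3 - h4) - (a - d) * h7
        · linear_combination h3 - h4 - h7
      have nBC : (B : Matrix (Fin 2) (Fin 2) (ZMod p)) 0 0 -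
          (C : Matrix (Fin 2) (Fin 2) (ZMod p)) 0 0 ≠ 0 := fun h =>
        hBC (key B C hB3 hC3 hB1 hC1 hB2 hC2 (by linear_combination h))
      have nBD : (B : Matrix (Fin 2) (Fin 2) (ZMod p)) 0 0 -
          (D : Matrix (Fin 2) (Fin 2) (ZMod p)) 0 0 ≠ 0 := fun h =>
        hBD (key B D hB3 hD3 hB1 hD1 hB2 hD2 (by linear_combination h))
      apply key C D hC3 hD3 hC1 hD1 hC2 hD2
      have quad : ∀ (P : SL2 (ZMod p)),
          (P : Matrix (Fin 2) (Fin 2) (ZMod p)) 0 0 +
            (P : Matrix (Fin 2) (Fin 2) (ZMod p)) 1 1 = y →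
          a * (P : Matrix (Fin 2) (Fin 2) (ZMod p)) 0 0 + b * g +
            (c * (P : Matrix (Fin 2) (Fin 2) (ZMod p)) 0 1 +
            d * (P : Matrix (Fin 2) (Fin 2) (ZMod p)) 1 1) = z →
          (P : Matrix (Fin 2) (Fin 2) (ZMod p)) 0 0 *
            (P : Matrix (Fin 2) (Fin 2) (ZMod p)) 1 1 -
            (P : Matrix (Fin 2) (Fin 2) (ZMod p)) 0 1 * g = 1 →
          c * (P : Matrix (Fin 2) (Fin 2) (ZMod p)) 0 0 *
            (y - (P : Matrix (Fin 2) (Fin 2) (ZMod p)) 0 0) -
            g * (z - d * y - b * g - (a - d) * (P : Matrix (Fin 2) (Fin 2) (ZMod p)) 0 0) = c := by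
        intro P h1 h2 h3
        linear_combination c * h3 - (c * (P : Matrix (Fin 2) (Fin 2) (ZMod p)) 0 0) * h1 +
          g * (h2 - d * h1)
      have qB := quad B hB1 hB2 dB
      have qC := quad C hC1 hC2 dC
      have qD := quad D hD1 hD2 dD
      generalize (B : Matrix (Fin 2) (Fin 2) (ZMod p)) 0 0 = e1 at *
      generalize (C : Matrix (Fin 2) (Fin 2) (ZMod p)) 0 0 = e2 at *
      generalize (D : Matrix (Fin 2) (Fin 2) (ZMod p)) 0 0 = e3 at *
      have r1 : c * y - c * (e1 + e2) + g * (a - d) = 0 := by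
        apply mul_left_cancel₀ nBC
        rw [mul_zero]
        linear_combination qB - qC
      have r2 : c * y - c * (e1 + e3) + g * (a - d) = 0 := by
        apply mul_left_cancel₀ nBD
        rw [mul_zero]
        linear_combination qB - qD
      apply mul_left_cancel₀ hc
      linear_combination r2 - r1

theorem pairCount (p : ℕ) [Fact p.Prime] (hp2 : p ≠ 2) (v : ZMod p × ZMod p × ZMod p) :
    {P : SL2 (ZMod p) × SL2 (ZMod p) | triple P = v ∧ lev P ≠ 2}.ncard ≤ 8 * p ^ 3 := by
  classical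
  obtain ⟨x, y, z⟩ := v
  have hset : {P : SL2 (ZMod p) × SL2 (ZMod p) | triple P = (x, y, z) ∧ lev P ≠ 2} =
      ((Finset.univ.filter (fun P : SL2 (ZMod p) × SL2 (ZMod p) =>
        triple P = (x, y, z) ∧ lev P ≠ 2) : Finset _) : Set _) := by
    ext P; simp
  rw [hset, Set.ncard_coe_finset]
  have h := Finset.card_le_mul_card_image_of_maps_to
    (s := Finset.univ.filter (fun P : SL2 (ZMod p) × SL2 (ZMod p) =>
      triple P = (x, y, z) ∧ lev P ≠ 2))
    (t := Finset.univ.filter (fun A : SL2 (ZMod p) => tr A = x))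
    (f := fun P => P.1) ?_ (2 * p) ?_
  · have h2 := pc_card_trace p x
    calc _ ≤ _ := h
      _ ≤ 2 * p * (2 * p ^ 2) := Nat.mul_le_mul_left _ h2
      _ ≤ 8 * p ^ 3 := by nlinarith [Nat.zero_le (p ^ 3)]
  · intro P hP
    simp only [Finset.mem_filter, Finset.mem_univ, true_and, triple, Prod.mk.injEq] at hP ⊢
    exact hP.1.1
  · intro A hA
    refine le_trans ?_ (pc_card_second p A y z)
    apply Finset.card_le_card_of_injOn (fun P => P.2)
    · intro P hP
      simp only [Finset.coe_filter, Finset.mem_filter, Finset.mem_univ, true_and,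
        Set.mem_ofPred_eq, triple, Prod.mk.injEq] at hP ⊢
      obtain ⟨⟨⟨h1, h2, h3⟩, h4⟩, h5⟩ := hP
      subst h5
      exact ⟨h2, h3, h4⟩
    · intro P hP Q hQ hPQ
      simp only [Finset.coe_filter, Finset.mem_filter, Finset.mem_univ, true_and,
        Set.mem_ofPred_eq] at hP hQ
      exact Prod.ext (hP.2.trans hQ.2.symm) hPQ

end MW
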