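import Pool.Agent.Lib.MP_a542cf_al.TransferZ
import Pool.Agent.Lib.MP_a542cf_al.Inner
import Pool.Agent.Lib.MP_a542cf_al.NonSq
import Pool.Agent.Lib.MP_a542cf_al.GenNondih
import Pool.Agent.Lib.MP_a542cf_al.NegTwo
import Pool.Agent.Lib.MP_a542cf_al.PairCount
import Pool.Agent.Lib.MP_a542cf_al.LevelOrd

/-! MW-FinalA: from orbits of triples to orbits of pairs (algebra). -/

namespace MW

open Matrix

section field
variable {F : Type*} [Field F]

theorem onX_triple (P : SL2 F × SL2 F) (κ : F) (h : lev P = κ - 2) : OnX κ (triple P) := by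
  have h1 := lev_eq P
  unfold OnX
  rw [h] at h1
  linear_combination -h1

/-- every invertible matrix conjugates a pair to a pair -/
theorem exists_conj (X : Matrix (Fin 2) (Fin 2) F) (hX : X.det ≠ 0) (P : SL2 F × SL2 F) :
    ∃ Q, ConjBy X P Q := by
  have hu : IsUnit X.det := isUnit_iff_ne_zero.2 hX
  have key : ∀ A : SL2 F, ∃ B : SL2 F, X * A.1 = B.1 * X := by
    intro A
    refine ⟨⟨X * A.1 * X⁻¹, ?_⟩, ?_⟩
    · rw [det_mul, det_mul, A.2, mul_one, ← det_mul, mul_nonsing_inv _ hu, det_one]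
    · simp only
      rw [mul_assoc, nonsing_inv_mul _ hu, mul_one]
  obtain ⟨B1, h1⟩ := key P.1
  obtain ⟨B2, h2⟩ := key P.2
  exact ⟨(B1, B2), h1, h2⟩

theorem conjBy_unique {X : Matrix (Fin 2) (Fin 2) F} (hX : X.det ≠ 0) {P Q Q' : SL2 F × SL2 F}
    (h : ConjBy X P Q) (h' : ConjBy X P Q') : Q = Q' := by
  have hu : IsUnit X.det := isUnit_iff_ne_zero.2 hX
  have key : ∀ A B B' : SL2 F, X * A.1 = B.1 * X → X * A.1 = B'.1 * X → B = B' := by
    intro A B B' h1 h2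
    apply Subtype.ext
    have h3 : B.1 * X = B'.1 * X := h1.symm.trans h2
    calc B.1 = B.1 * X * X⁻¹ := by rw [mul_assoc, mul_nonsing_inv _ hu, mul_one]
      _ = B'.1 * X * X⁻¹ := by rw [h3]
      _ = B'.1 := by rw [mul_assoc, mul_nonsing_inv _ hu, mul_one]
  exact Prod.ext (key _ _ _ h.1 h'.1) (key _ _ _ h.2 h'.2)

theorem tr_eq_of_conj {X : Matrix (Fin 2) (Fin 2) F} (hX : X.det ≠ 0) {A B : SL2 F}
    (h : X * A.1 = B.1 * X) : tr A = tr B := by
  have hu : IsUnit X.det := isUnit_iff_ne_zero.2 hX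
  have h1 : A.1 = X⁻¹ * (B.1 * X) := by
    rw [← h, ← mul_assoc, nonsing_inv_mul _ hu, one_mul]
  unfold tr
  rw [h1, trace_mul_comm, mul_assoc, mul_nonsing_inv _ hu, mul_one]

theorem mul_conj {X : Matrix (Fin 2) (Fin 2) F} {A B A' B' : SL2 F}
    (h : X * A.1 = A'.1 * X) (h' : X * B.1 = B'.1 * X) :
    X * (A * B).1 = (A' * B').1 * X := by
  have e1 : (A * B).1 = A.1 * B.1 := rfl
  have e2 : (A' * B').1 = A'.1 * B'.1 := rfl
  rw [e1, e2, ← mul_assoc, h, mul_assoc, h', mul_assoc]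

theorem inv_conj {X : Matrix (Fin 2) (Fin 2) F} {A A' : SL2 F}
    (h : X * A.1 = A'.1 * X) : X * (A⁻¹).1 = (A'⁻¹).1 * X := by
  have h1 : (A'⁻¹).1 * (X * A.1) * (A⁻¹).1 = (A'⁻¹).1 * (A'.1 * X) * (A⁻¹).1 := by rw [h]
  have e1 : A.1 * (A⁻¹).1 = 1 := congrArg Subtype.val (mul_inv_cancel A)
  have e2 : (A'⁻¹).1 * A'.1 = 1 := congrArg Subtype.val (inv_mul_cancel A')
  rw [mul_assoc (A'⁻¹).1 (X * A.1), mul_assoc X, e1, mul_one, ← mul_assoc (A'⁻¹).1 A'.1, e2,
    one_mul] at h1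
  exact h1.symm

theorem triple_conj {X : Matrix (Fin 2) (Fin 2) F} (hX : X.det ≠ 0) {P Q : SL2 F × SL2 F}
    (h : ConjBy X P Q) : triple P = triple Q := by
  unfold triple
  rw [tr_eq_of_conj hX h.1, tr_eq_of_conj hX h.2, tr_eq_of_conj hX (mul_conj h.1 h.2)]

theorem lev_conj {X : Matrix (Fin 2) (Fin 2) F} (hX : X.det ≠ 0) {P Q : SL2 F × SL2 F}
    (h : ConjBy X P Q) : lev P = lev Q := by
  rw [lev_eq, lev_eq, triple_conj hX h]

/-- conjugation as a group automorphism -/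
theorem isGen_conj {X : Matrix (Fin 2) (Fin 2) F} (hX : X.det ≠ 0) {P Q : SL2 F × SL2 F}
    (h : ConjBy X P Q) (hP : IsGen P) : IsGen Q := by
  have hu : IsUnit X.det := isUnit_iff_ne_zero.2 hX
  unfold IsGen
  rw [eq_top_iff]
  intro g _
  -- g = X g' X⁻¹
  obtain ⟨g', hg'⟩ : ∃ g' : SL2 F, X * g'.1 = g.1 * X := by
    refine ⟨⟨X⁻¹ * g.1 * X, ?_⟩, ?_⟩
    · rw [det_mul, det_mul, g.2, mul_one, ← det_mul, nonsing_inv_mul _ hu, det_one]
    · simp only
      rw [← mul_assoc, ← mul_assoc, mul_nonsing_inv _ hu, one_mul]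
  have hmem : g' ∈ Subgroup.closure ({P.1, P.2} : Set (SL2 F)) := by
    rw [show Subgroup.closure ({P.1, P.2} : Set (SL2 F)) = ⊤ from hP]; trivial
  have key : ∀ a ∈ Subgroup.closure ({P.1, P.2} : Set (SL2 F)),
      ∀ b : SL2 F, X * a.1 = b.1 * X → b ∈ Subgroup.closure ({Q.1, Q.2} : Set (SL2 F)) := by
    intro a ha
    induction ha using Subgroup.closure_induction with
    | mem a ha =>
      intro b hb
      simp only [Set.mem_insert_iff, Set.mem_singleton_iff] at ha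
      have huq : ∀ A B B' : SL2 F, X * A.1 = B.1 * X → X * A.1 = B'.1 * X → B = B' := by
        intro A B B' h1 h2
        exact congrArg Prod.fst
          (conjBy_unique hX (P := (A, A)) (Q := (B, B)) (Q' := (B', B')) ⟨h1, h1⟩ ⟨h2, h2⟩)
      rcases ha with rfl | rfl
      · rw [huq _ _ _ hb h.1]
        exact Subgroup.subset_closure (by simp)
      · rw [huq _ _ _ hb h.2]
        exact Subgroup.subset_closure (by simp)
    | one =>
      intro b hb
      have : b = 1 := by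
        have := conjBy_unique hX (P := (1, 1)) (Q := (b, b)) (Q' := (1, 1)) ⟨hb, hb⟩
          (by constructor <;> simp)
        exact congrArg Prod.fst this
      rw [this]; exact Subgroup.one_mem _
    | mul a a' _ _ ih ih' =>
      intro b hb
      obtain ⟨c, hc⟩ := exists_conj X hX (a, a')
      have h3 : b = c.1 * c.2 := by
        have := conjBy_unique hX (P := (a * a', a * a')) (Q := (b, b))
          (Q' := (c.1 * c.2, c.1 * c.2)) ⟨hb, hb⟩ ⟨mul_conj hc.1 hc.2, mul_conj hc.1 hc.2⟩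
        exact congrArg Prod.fst this
      rw [h3]
      exact Subgroup.mul_mem _ (ih _ hc.1) (ih' _ hc.2)
    | inv a _ ih =>
      intro b hb
      have h3 := inv_conj hb
      rw [inv_inv] at h3
      have h4 := ih _ h3
      rwa [Subgroup.inv_mem_iff] at h4
  exact key g' hmem g hg'

theorem nequiv_refl (P : SL2 F × SL2 F) : NEquiv P P := Relation.EqvGen.refl _
theorem nequiv_symm {P Q : SL2 F × SL2 F} (h : NEquiv P Q) : NEquiv Q P :=
  Relation.EqvGen.symm _ _ h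
theorem nequiv_trans {P Q R : SL2 F × SL2 F} (h : NEquiv P Q) (h' : NEquiv Q R) : NEquiv P R :=
  Relation.EqvGen.trans _ _ _ h h'

theorem inv_compl {O : Set (F × F × F)} (hO : Inv O) : Inv Oᶜ := by
  refine ⟨?_, ?_, ?_⟩
  · intro x y z h h'
    exact h (hO.swap12 _ _ _ h')
  · intro x y z h h'
    exact h (hO.swap23 _ _ _ h')
  · intro x y z h h'
    apply h
    have := hO.vieta _ _ _ h'
    rwa [sub_sub_cancel] at this

theorem inv_inter {O O' : Set (F × F × F)} (hO : Inv O) (hO' : Inv O') : Inv (O ∩ O') :=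
  ⟨fun _ _ _ h => ⟨hO.swap12 _ _ _ h.1, hO'.swap12 _ _ _ h.2⟩,
   fun _ _ _ h => ⟨hO.swap23 _ _ _ h.1, hO'.swap23 _ _ _ h.2⟩,
   fun _ _ _ h => ⟨hO.vieta _ _ _ h.1, hO'.vieta _ _ _ h.2⟩⟩

theorem inv_diff {O O' : Set (F × F × F)} (hO : Inv O) (hO' : Inv O') : Inv (O \ O') :=
  inv_inter hO (inv_compl hO')

/-- the triples of the generating pairs at level `k` -/
theorem inv_gen (k : F) : Inv {v : F × F × F | ∃ P, IsGen P ∧ lev P = k ∧ triple P = v} := by
  have key : ∀ P : SL2 F × SL2 F, IsGen P → lev P = k → ∀ v,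
      v ∈ {v | ∃ Q, NEquiv P Q ∧ triple Q = v} →
      v ∈ {v : F × F × F | ∃ P, IsGen P ∧ lev P = k ∧ triple P = v} := by
    rintro P hP hk v ⟨Q, hQ, rfl⟩
    exact ⟨Q, (isGen_nequiv hQ).1 hP, by rw [← lev_nequiv hQ, hk], rfl⟩
  refine ⟨?_, ?_, ?_⟩
  · rintro x y z ⟨P, hP, hk, hv⟩
    exact key P hP hk _ ((inv_orbit P).swap12 _ _ _ ⟨P, nequiv_refl _, hv⟩)
  · rintro x y z ⟨P, hP, hk, hv⟩
    exact key P hP hk _ ((inv_orbit P).swap23 _ _ _ ⟨P, nequiv_refl _, hv⟩)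
  · rintro x y z ⟨P, hP, hk, hv⟩
    exact key P hP hk _ ((inv_orbit P).vieta _ _ _ ⟨P, nequiv_refl _, hv⟩)

theorem inv_surface (κ : F) : Inv {v : F × F × F | OnX κ v} := by
  refine ⟨?_, ?_, ?_⟩ <;> intro x y z h <;> simp only [Set.mem_ofPred_eq, OnX] at h ⊢ <;>
    linear_combination h

theorem inv_ne_zero : Inv {v : F × F × F | v ≠ (0, 0, 0)} := by
  refine ⟨?_, ?_, ?_⟩ <;> intro x y z h <;> simp only [Set.mem_ofPred_eq, ne_eq, Prod.mk.injEq]
    at h ⊢ <;> rintro ⟨h1, h2, h3⟩ <;> apply h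
  · exact ⟨h2, h1, h3⟩
  · exact ⟨h1, h3, h2⟩
  · refine ⟨h1, h2, ?_⟩
    rw [h1, h2] at h3
    linear_combination -h3

end field

end MW
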