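import Pool.Agent.Lib.MP_a542cf_al.Final

/-! MW-FinalC: few exceptional levels. -/

namespace MW

open Matrix

theorem rpow_split (ε : ℝ) (hε : 0 < ε) (c : ℕ) : ∃ p₀ : ℕ, ∀ p : ℕ, p₀ ≤ p →
    ((c * (Nat.divisors (p ^ 2 - 1)).card ^ 12 : ℕ) : ℝ) ≤ (p : ℝ) ^ ε := by
  obtain ⟨p₁, h1⟩ := divisors_rpow (ε / 24) (by positivity)
  -- c ≤ p ^ (ε/2) for large p
  have h2 : ∃ p₂ : ℕ, ∀ p : ℕ, p₂ ≤ p → (c : ℝ) ≤ (p : ℝ) ^ (ε / 2) := by
    have := (tendsto_rpow_atTop (y := ε / 2) (by positivity)).comp tendsto_natCast_atTop_atTop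
    have h3 := this.eventually_ge_atTop (c : ℝ)
    obtain ⟨p₂, hp₂⟩ := Filter.eventually_atTop.1 h3
    exact ⟨p₂, fun p hp => hp₂ p hp⟩
  obtain ⟨p₂, h2⟩ := h2
  refine ⟨max (max p₁ p₂) 1, fun p hp => ?_⟩
  have hp1 : p₁ ≤ p := le_trans (le_trans (le_max_left _ _) (le_max_left _ _)) hp
  have hp2 : p₂ ≤ p := le_trans (le_trans (le_max_right _ _) (le_max_left _ _)) hp
  have hp0 : (0 : ℝ) < p := by
    have : 1 ≤ p := le_trans (le_max_right _ _) hp
    exact_mod_cast this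
  have h3 := h1 p hp1
  push_cast
  calc (c : ℝ) * ((Nat.divisors (p ^ 2 - 1)).card : ℝ) ^ 12
      ≤ (p : ℝ) ^ (ε / 2) * ((p : ℝ) ^ (ε / 24)) ^ 12 := by
        gcongr
        exact h2 p hp2
    _ = (p : ℝ) ^ ε := by
        rw [← Real.rpow_natCast, ← Real.rpow_mul hp0.le, ← Real.rpow_add hp0]
        congr 1
        push_cast
        ring

theorem main_exceptional (ε : ℝ) (hε : 0 < ε) : ∃ p₀ : ℕ, ∀ (p : ℕ) [Fact p.Prime], p₀ ≤ p →
    ({k : ZMod p | k ≠ 2 ∧ numOrbits p k ≠ expected p k}.ncard : ℝ) ≤ (p : ℝ) ^ ε ∧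
      numOrbits p (-2) = expected p (-2) := by
  obtain ⟨c₀, p₀, hmain⟩ := main_num
  obtain ⟨p₁, h1⟩ := rpow_split (ε / 2) (by positivity) c₀
  obtain ⟨p₂, h2⟩ := rpow_split 1 (by norm_num) c₀
  refine ⟨p₀ + p₁ + p₂ + 5, fun p _ hp => ?_⟩
  have hp0 : (0 : ℝ) < p := by
    have : 1 ≤ p := by omega
    exact_mod_cast this
  set Y := c₀ * (Nat.divisors (p ^ 2 - 1)).card ^ 12 with hY
  have hYp : Y ≤ p := by
    have := h2 p (by omega)
    rw [Real.rpow_one] at this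
    exact_mod_cast this
  have h22 : (-2 : ZMod p) ≠ 2 := by
    intro h
    have h4 : ((4 : ℕ) : ZMod p) = 0 := by
      have : (4 : ZMod p) = 0 := by linear_combination -h
      exact_mod_cast this
    rw [ZMod.natCast_eq_zero_iff] at h4
    have := Nat.le_of_dvd (by norm_num) h4
    omega
  have hneg : numOrbits p (-2) = expected p (-2) := by
    refine hmain p (by omega) (-2) h22 ?_
    intro g hg hg1
    exact hYp.trans (order_neg_two p (by omega) g hg hg1)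
  refine ⟨?_, hneg⟩
  have hsub : {k : ZMod p | k ≠ 2 ∧ numOrbits p k ≠ expected p k} ⊆
      {k : ZMod p | k ≠ 2 ∧ k ≠ -2 ∧ ∃ g : SL2 (ZMod p), tr g = k ∧ orderOf g < Y} := by
    rintro k ⟨hk, hne⟩
    have hk2 : k ≠ -2 := by
      rintro rfl
      exact hne hneg
    refine ⟨hk, hk2, ?_⟩
    by_contra hcon
    push Not at hcon
    exact hne (hmain p (by omega) k hk (fun g hg _ => hcon g hg))
  have h3 : {k : ZMod p | k ≠ 2 ∧ numOrbits p k ≠ expected p k}.ncard ≤ Y ^ 2 :=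
    (Set.ncard_le_ncard hsub (Set.toFinite _)).trans (levelCount p (by omega) Y)
  have h4 := h1 p (by omega)
  calc ({k : ZMod p | k ≠ 2 ∧ numOrbits p k ≠ expected p k}.ncard : ℝ) ≤ ((Y ^ 2 : ℕ) : ℝ) := by
        exact_mod_cast h3
    _ = (Y : ℝ) ^ 2 := by push_cast; ring
    _ ≤ ((p : ℝ) ^ (ε / 2)) ^ 2 := by gcongr
    _ = (p : ℝ) ^ ε := by
        rw [← Real.rpow_natCast, ← Real.rpow_mul hp0.le]
        congr 1
        push_cast
        ring

end MW
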