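import Pool.Agent.Lib.MP_a542cf_al.IdxTop
import Pool.Agent.Lib.MP_a542cf_al.PairCount

/-! MW-GenTorus: a subgroup containing the full diagonal torus and a matrix without zero entries
is everything. -/

namespace MW

open Matrix Polynomial

/-- crude upper bound for the order of `SL_2(F_p)` -/
lemma gt_card (p : ℕ) [Fact p.Prime] : Nat.card (SL2 (ZMod p)) ≤ 2 * p ^ 3 := by
  classical
  rw [Nat.card_eq_fintype_card, ← Finset.card_univ]
  have h := Finset.card_le_mul_card_image_of_maps_to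
    (s := (Finset.univ : Finset (SL2 (ZMod p))))
    (t := (Finset.univ : Finset (ZMod p)))
    (f := fun A : SL2 (ZMod p) => tr A) (fun _ _ => Finset.mem_univ _) (2 * p ^ 2)
    (fun x _ => pc_card_trace p x)
  refine h.trans (le_of_eq ?_)
  rw [Finset.card_univ, ZMod.card]
  ring

/-- the diagonal matrices -/
def gtD {p : ℕ} [Fact p.Prime] (u : (ZMod p)ˣ) : SL2 (ZMod p) :=
  ⟨!![(u : ZMod p), 0; 0, ((u⁻¹ : (ZMod p)ˣ) : ZMod p)], by
    rw [Matrix.det_fin_two_of, Units.mul_inv, zero_mul, sub_zero]⟩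

lemma gt_torus {p : ℕ} [Fact p.Prime] (w : ZMod p) (A : SL2 (ZMod p))
    (hw : orderOf w = p - 1)
    (hA : (A : Matrix (Fin 2) (Fin 2) (ZMod p)) = !![w, 0; 0, w⁻¹]) (u : (ZMod p)ˣ) :
    ∃ n : ℕ, gtD u = A ^ n := by
  have hp := (Fact.out : p.Prime)
  have hprim : IsPrimitiveRoot w (p - 1) := by rw [← hw]; exact IsPrimitiveRoot.orderOf w
  have : NeZero (p - 1) := ⟨by have := hp.two_le; omega⟩
  have hu : (u : ZMod p) ^ (p - 1) = 1 := ZMod.pow_card_sub_one_eq_one u.ne_zero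
  obtain ⟨n, -, hn⟩ := hprim.eq_pow_of_pow_eq_one hu
  refine ⟨n, ?_⟩
  have hpow : ∀ m : ℕ, ((A ^ m : SL2 (ZMod p)) : Matrix (Fin 2) (Fin 2) (ZMod p)) =
      !![w ^ m, 0; 0, w⁻¹ ^ m] := by
    intro m
    induction m with
    | zero =>
      ext i j
      fin_cases i <;> fin_cases j <;> simp
    | succ m ih =>
      rw [pow_succ, Matrix.SpecialLinearGroup.coe_mul, ih, hA]
      ext i j
      fin_cases i <;> fin_cases j <;> simp [Matrix.mul_apply, Fin.sum_univ_two, pow_succ]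
  apply Subtype.ext
  rw [hpow n]
  show !![(u : ZMod p), 0; 0, ((u⁻¹ : (ZMod p)ˣ) : ZMod p)] = _
  rw [Units.val_inv_eq_inv_val, ← hn, inv_pow]

/-- the elements of the subgroup used in the count -/
def gtE {p : ℕ} [Fact p.Prime] (B : SL2 (ZMod p)) (q : (ZMod p)ˣ × (ZMod p)ˣ × (ZMod p)ˣ) :
    SL2 (ZMod p) := gtD q.2.1 * (B * gtD q.1 * B) * gtD q.2.2

section entries

variable {p : ℕ} [Fact p.Prime] (B : SL2 (ZMod p)) (s u v : (ZMod p)ˣ)

lemma gtE_coe : (gtE B (s, u, v) : Matrix (Fin 2) (Fin 2) (ZMod p)) =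
    !![(u : ZMod p), 0; 0, ((u⁻¹ : (ZMod p)ˣ) : ZMod p)] *
      ((B : Matrix (Fin 2) (Fin 2) (ZMod p)) *
        !![(s : ZMod p), 0; 0, ((s⁻¹ : (ZMod p)ˣ) : ZMod p)] *
        (B : Matrix (Fin 2) (Fin 2) (ZMod p))) *
      !![(v : ZMod p), 0; 0, ((v⁻¹ : (ZMod p)ˣ) : ZMod p)] := rfl

lemma gtE00 : (gtE B (s, u, v) : Matrix (Fin 2) (Fin 2) (ZMod p)) 0 0 =
    u * ((B : Matrix (Fin 2) (Fin 2) (ZMod p)) 0 0 ^ 2 * s +
      (B : Matrix (Fin 2) (Fin 2) (ZMod p)) 0 1 * (B : Matrix (Fin 2) (Fin 2) (ZMod p)) 1 0 *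
        ((s⁻¹ : (ZMod p)ˣ) : ZMod p)) * v := by
  rw [gtE_coe]
  generalize ((s⁻¹ : (ZMod p)ˣ) : ZMod p) = si
  generalize ((u⁻¹ : (ZMod p)ˣ) : ZMod p) = ui
  generalize ((v⁻¹ : (ZMod p)ˣ) : ZMod p) = vi
  generalize (s : ZMod p) = s
  generalize (u : ZMod p) = u
  generalize (v : ZMod p) = v
  simp only [Matrix.mul_apply, Fin.sum_univ_two, Matrix.of_apply, Matrix.cons_val', Matrix.cons_val_zero,
    Matrix.cons_val_one, Matrix.cons_val_fin_one]
  ring

lemma gtE01 : (gtE B (s, u, v) : Matrix (Fin 2) (Fin 2) (ZMod p)) 0 1 =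
    u * ((B : Matrix (Fin 2) (Fin 2) (ZMod p)) 0 1 *
      ((B : Matrix (Fin 2) (Fin 2) (ZMod p)) 0 0 * s +
       (B : Matrix (Fin 2) (Fin 2) (ZMod p)) 1 1 *
        ((s⁻¹ : (ZMod p)ˣ) : ZMod p))) * ((v⁻¹ : (ZMod p)ˣ) : ZMod p) := by
  rw [gtE_coe]
  generalize ((s⁻¹ : (ZMod p)ˣ) : ZMod p) = si
  generalize ((u⁻¹ : (ZMod p)ˣ) : ZMod p) = ui
  generalize ((v⁻¹ : (ZMod p)ˣ) : ZMod p) = vi
  generalize (s : ZMod p) = s
  generalize (u : ZMod p) = u
  generalize (v : ZMod p) = v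
  simp only [Matrix.mul_apply, Fin.sum_univ_two, Matrix.of_apply, Matrix.cons_val', Matrix.cons_val_zero,
    Matrix.cons_val_one, Matrix.cons_val_fin_one]
  ring

lemma gtE11 : (gtE B (s, u, v) : Matrix (Fin 2) (Fin 2) (ZMod p)) 1 1 =
    ((u⁻¹ : (ZMod p)ˣ) : ZMod p) *
      ((B : Matrix (Fin 2) (Fin 2) (ZMod p)) 0 1 * (B : Matrix (Fin 2) (Fin 2) (ZMod p)) 1 0 * s +
      (B : Matrix (Fin 2) (Fin 2) (ZMod p)) 1 1 ^ 2 *
        ((s⁻¹ : (ZMod p)ˣ) : ZMod p)) * ((v⁻¹ : (ZMod p)ˣ) : ZMod p) := by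
  rw [gtE_coe]
  generalize ((s⁻¹ : (ZMod p)ˣ) : ZMod p) = si
  generalize ((u⁻¹ : (ZMod p)ˣ) : ZMod p) = ui
  generalize ((v⁻¹ : (ZMod p)ˣ) : ZMod p) = vi
  generalize (s : ZMod p) = s
  generalize (u : ZMod p) = u
  generalize (v : ZMod p) = v
  simp only [Matrix.mul_apply, Fin.sum_univ_two, Matrix.of_apply, Matrix.cons_val', Matrix.cons_val_zero,
    Matrix.cons_val_one, Matrix.cons_val_fin_one]
  ring

end entries

lemma gt_roots {K : Type*} [Field K] [DecidableEq K] (k2 k1 k0 : K) (h0 : k0 ≠ 0)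
    (T : Finset Kˣ) (hT : ∀ s ∈ T, k2 * (s : K) ^ 4 + k1 * (s : K) ^ 2 + k0 = 0) :
    (T.image (fun s : Kˣ => s)).card ≤ 4 := by
  classical
  rw [Finset.image_id']
  set f : K[X] := C k2 * X ^ 4 + C k1 * X ^ 2 + C k0 with hf
  have hf0 : f ≠ 0 := by
    intro h
    apply h0
    have : f.coeff 0 = 0 := by rw [h]; simp
    rw [hf] at this
    simpa using this
  have hdeg : f.natDegree ≤ 4 := by
    rw [hf]
    compute_degree
  have h1 : (T.image (fun s : Kˣ => (s : K))).card ≤ f.roots.toFinset.card := by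
    apply Finset.card_le_card
    intro x hx
    obtain ⟨s, hs, rfl⟩ := Finset.mem_image.1 hx
    rw [Multiset.mem_toFinset, Polynomial.mem_roots hf0, Polynomial.IsRoot.def, hf]
    simpa using hT s hs
  have h2 : (T.image (fun s : Kˣ => (s : K))).card = T.card :=
    Finset.card_image_of_injective _ Units.val_injective
  rw [← h2]
  refine h1.trans ((Multiset.toFinset_card_le _).trans ((Polynomial.card_roots' f).trans hdeg))

theorem genTorus : ∃ p₀ : ℕ, ∀ (p : ℕ) [Fact p.Prime], p₀ ≤ p → ∀ (w : ZMod p) (A B : SL2 (ZMod p)),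
    orderOf w = p - 1 → (A : Matrix (Fin 2) (Fin 2) (ZMod p)) = !![w, 0; 0, w⁻¹] →
    (∀ i j, (B : Matrix (Fin 2) (Fin 2) (ZMod p)) i j ≠ 0) → IsGen (A, B) := by
  classical
  refine ⟨40, ?_⟩
  intro p _ hp40 w A B hw hA hB
  show Subgroup.closure ({A, B} : Set (SL2 (ZMod p))) = ⊤
  set H := Subgroup.closure ({A, B} : Set (SL2 (ZMod p))) with hH
  have hAH : A ∈ H := Subgroup.subset_closure (by simp)
  have hBH : B ∈ H := Subgroup.subset_closure (by simp)
  have hD : ∀ u : (ZMod p)ˣ, gtD u ∈ H := by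
    intro u
    obtain ⟨n, hn⟩ := gt_torus w A hw hA u
    rw [hn]
    exact H.pow_mem hAH n
  have hE : ∀ q, gtE B q ∈ H := fun q =>
    H.mul_mem (H.mul_mem (hD _) (H.mul_mem (H.mul_mem hBH (hD _)) hBH)) (hD _)
  set a := (B : Matrix (Fin 2) (Fin 2) (ZMod p)) 0 0 with ha
  set b := (B : Matrix (Fin 2) (Fin 2) (ZMod p)) 0 1 with hb
  set c := (B : Matrix (Fin 2) (Fin 2) (ZMod p)) 1 0 with hc
  set d := (B : Matrix (Fin 2) (Fin 2) (ZMod p)) 1 1 with hd
  have ha0 : a ≠ 0 := hB 0 0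
  have hb0 : b ≠ 0 := hB 0 1
  have hc0 : c ≠ 0 := hB 1 0
  have hd0 : d ≠ 0 := hB 1 1
  -- good parameters
  set S : Finset (ZMod p)ˣ := Finset.univ.filter (fun s : (ZMod p)ˣ =>
    (a ^ 2 * (s : ZMod p) ^ 2 + b * c) * (a * (s : ZMod p) ^ 2 + d) ≠ 0) with hS
  have hScard : p - 5 ≤ S.card := by
    have h1 : (Finset.univ.filter (fun s : (ZMod p)ˣ =>
        ¬ ((a ^ 2 * (s : ZMod p) ^ 2 + b * c) * (a * (s : ZMod p) ^ 2 + d) ≠ 0))).card ≤ 4 := by
      have := gt_roots (a ^ 3) (a ^ 2 * d + a * b * c) (b * c * d)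
        (mul_ne_zero (mul_ne_zero hb0 hc0) hd0)
        (Finset.univ.filter (fun s : (ZMod p)ˣ =>
        ¬ ((a ^ 2 * (s : ZMod p) ^ 2 + b * c) * (a * (s : ZMod p) ^ 2 + d) ≠ 0))) (by
          intro s hs
          simp only [Finset.mem_filter, Finset.mem_univ, true_and, not_not] at hs
          linear_combination hs)
      rwa [Finset.image_id'] at this
    have h2 := Finset.card_filter_add_card_filter_not (s := (Finset.univ : Finset (ZMod p)ˣ))
      (fun s : (ZMod p)ˣ =>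
        (a ^ 2 * (s : ZMod p) ^ 2 + b * c) * (a * (s : ZMod p) ^ 2 + d) ≠ 0)
    rw [Finset.card_univ, ZMod.card_units p] at h2
    have h3 : S.card + (Finset.univ.filter (fun s : (ZMod p)ˣ =>
        ¬ ((a ^ 2 * (s : ZMod p) ^ 2 + b * c) * (a * (s : ZMod p) ^ 2 + d) ≠ 0))).card = p - 1 := by
      rw [hS]
      convert h2
    omega
  -- for good s the two entries do not vanish
  have hgood : ∀ s ∈ S, (a ^ 2 * (s : ZMod p) + b * c * ((s⁻¹ : (ZMod p)ˣ) : ZMod p)) ≠ 0 ∧
      (b * (a * (s : ZMod p) + d * ((s⁻¹ : (ZMod p)ˣ) : ZMod p))) ≠ 0 := by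
    intro s hs
    simp only [hS, Finset.mem_filter, Finset.mem_univ, true_and] at hs
    have hss : (s : ZMod p) * ((s⁻¹ : (ZMod p)ˣ) : ZMod p) = 1 := s.mul_inv
    constructor
    · intro h
      apply left_ne_zero_of_mul hs
      linear_combination (s : ZMod p) * h - b * c * hss
    · intro h
      apply right_ne_zero_of_mul hs
      apply mul_left_cancel₀ hb0
      linear_combination (s : ZMod p) * h - b * d * hss
  -- the count
  set T : Finset (SL2 (ZMod p)) := Finset.univ.filter (fun g => g ∈ H) with hT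
  have hTcard : T.card = Nat.card H := by
    rw [Nat.card_eq_fintype_card, Fintype.card_subtype]
  have hcount := Finset.card_le_mul_card_image_of_maps_to
    (s := S ×ˢ ((Finset.univ : Finset (ZMod p)ˣ) ×ˢ (Finset.univ : Finset (ZMod p)ˣ)))
    (t := T) (f := gtE B) (fun q _ => by simp [hT, hE q]) 8 ?_
  · -- arithmetic
    have hidx0 : H.index ≠ 0 := H.index_ne_zero_of_finite
    apply idxTop p H hidx0
    by_contra hidx
    push Not at hidx
    have hmul := H.index_mul_card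
    have hG := gt_card p
    rw [Finset.card_product, Finset.card_product, Finset.card_univ, ZMod.card_units p, hTcard]
      at hcount
    have h1 : p * Nat.card H ≤ 2 * p ^ 3 := by
      calc p * Nat.card H ≤ H.index * Nat.card H := Nat.mul_le_mul_right _ hidx
        _ = Nat.card (SL2 (ZMod p)) := hmul
        _ ≤ 2 * p ^ 3 := hG
    have h2 : Nat.card H ≤ 2 * p ^ 2 := by
      have : p * Nat.card H ≤ p * (2 * p ^ 2) := by
        calc p * Nat.card H ≤ 2 * p ^ 3 := h1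
          _ = p * (2 * p ^ 2) := by ring
      exact Nat.le_of_mul_le_mul_left this (by omega)
    have h3 : (p - 5) * ((p - 1) * (p - 1)) ≤ 16 * p ^ 2 := by
      calc (p - 5) * ((p - 1) * (p - 1)) ≤ S.card * ((p - 1) * (p - 1)) :=
            Nat.mul_le_mul_right _ hScard
        _ ≤ 8 * Nat.card H := hcount
        _ ≤ 8 * (2 * p ^ 2) := Nat.mul_le_mul_left _ h2
        _ = 16 * p ^ 2 := by ring
    obtain ⟨k, rfl⟩ : ∃ k, p = k + 40 := ⟨p - 40, by omega⟩
    have e1 : k + 40 - 5 = k + 35 := by omega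
    have e2 : k + 40 - 1 = k + 39 := by omega
    rw [e1, e2] at h3
    nlinarith [Nat.zero_le k, Nat.zero_le (k * k), Nat.zero_le (k * k * k)]
  · -- fibres have at most 8 elements
    intro g hg
    set Fb := (S ×ˢ ((Finset.univ : Finset (ZMod p)ˣ) ×ˢ (Finset.univ : Finset (ZMod p)ˣ))).filter
      (fun q => gtE B q = g) with hFb
    have hstep := Finset.card_le_mul_card_image (f := fun q : (ZMod p)ˣ × (ZMod p)ˣ × (ZMod p)ˣ =>
      q.1) Fb 2 ?_
    · have himg : (Fb.image (fun q : (ZMod p)ˣ × (ZMod p)ˣ × (ZMod p)ˣ => q.1)).card ≤ 4 := by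
        have := gt_roots (a ^ 2 * b * c)
          (a ^ 2 * d ^ 2 + b ^ 2 * c ^ 2 - (g : Matrix (Fin 2) (Fin 2) (ZMod p)) 0 0 *
            (g : Matrix (Fin 2) (Fin 2) (ZMod p)) 1 1) (b * c * d ^ 2)
          (mul_ne_zero (mul_ne_zero hb0 hc0) (pow_ne_zero 2 hd0))
          (Fb.image (fun q : (ZMod p)ˣ × (ZMod p)ˣ × (ZMod p)ˣ => q.1)) (by
            intro s hs
            obtain ⟨⟨s', u, v⟩, hq, hs'⟩ := Finset.mem_image.1 hs
            simp only at hs'
            subst hs'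
            rw [hFb, Finset.mem_filter] at hq
            obtain ⟨-, hq⟩ := hq
            rw [← hq, gtE00, gtE11]
            rw [← ha, ← hb, ← hc, ← hd]
            have hss : (s' : ZMod p) * ((s'⁻¹ : (ZMod p)ˣ) : ZMod p) = 1 := s'.mul_inv
            have huu : (u : ZMod p) * ((u⁻¹ : (ZMod p)ˣ) : ZMod p) = 1 := u.mul_inv
            have hvv : (v : ZMod p) * ((v⁻¹ : (ZMod p)ˣ) : ZMod p) = 1 := v.mul_inv
            generalize ((s'⁻¹ : (ZMod p)ˣ) : ZMod p) = si at *
            generalize ((u⁻¹ : (ZMod p)ˣ) : ZMod p) = ui at *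
            generalize ((v⁻¹ : (ZMod p)ˣ) : ZMod p) = vi at *
            generalize (s' : ZMod p) = s at *
            generalize (u : ZMod p) = u at *
            generalize (v : ZMod p) = v at *
            have h1 : u * (a ^ 2 * s + b * c * si) * v * (ui * (b * c * s + d ^ 2 * si) * vi) =
                (a ^ 2 * s + b * c * si) * (b * c * s + d ^ 2 * si) := by
              linear_combination (a ^ 2 * s + b * c * si) * (b * c * s + d ^ 2 * si) *
                (v * vi * huu + hvv)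
            rw [h1]
            have h2 : ((a ^ 2 * s + b * c * si) * (b * c * s + d ^ 2 * si)) * s ^ 2 =
                (a ^ 2 * s ^ 2 + b * c) * (b * c * s ^ 2 + d ^ 2) := by
              have e1 : (a ^ 2 * s + b * c * si) * s = a ^ 2 * s ^ 2 + b * c := by
                linear_combination b * c * hss
              have e2 : (b * c * s + d ^ 2 * si) * s = b * c * s ^ 2 + d ^ 2 := by
                linear_combination d ^ 2 * hss
              rw [← e1, ← e2]; ring
            linear_combination -h2)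
        rwa [Finset.image_id'] at this
      calc Fb.card ≤ 2 * (Fb.image (fun q : (ZMod p)ˣ × (ZMod p)ˣ × (ZMod p)ˣ => q.1)).card := hstep
        _ ≤ 2 * 4 := Nat.mul_le_mul_left _ himg
        _ = 8 := by norm_num
    · intro s hs
      have hkey : ∀ u v u' v' : (ZMod p)ˣ, (s, u, v) ∈ Fb → (s, u', v') ∈ Fb →
          ((u : ZMod p) - u') * (u + u') = 0 ∧ (u : ZMod p) * v = u' * v' := by
        intro u v u' v' h1 h2
        rw [hFb, Finset.mem_filter, Finset.mem_product] at h1 h2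
        obtain ⟨⟨hs1, -⟩, h1⟩ := h1
        obtain ⟨-, h2⟩ := h2
        simp only at hs1
        obtain ⟨g1, g2⟩ := hgood s hs1
        have k00 := gtE00 B s u v
        have k00' := gtE00 B s u' v'
        have k01 := gtE01 B s u v
        have k01' := gtE01 B s u' v'
        rw [h1, ← ha, ← hb, ← hc] at k00
        rw [h2, ← ha, ← hb, ← hc] at k00'
        rw [h1, ← ha, ← hb, ← hd] at k01
        rw [h2, ← ha, ← hb, ← hd] at k01'
        have hvv : (v : ZMod p) * ((v⁻¹ : (ZMod p)ˣ) : ZMod p) = 1 := v.mul_inv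
        have hvv' : (v' : ZMod p) * ((v'⁻¹ : (ZMod p)ˣ) : ZMod p) = 1 := v'.mul_inv
        have r1 : (u : ZMod p) * v = u' * v' := by
          apply mul_left_cancel₀ g1
          linear_combination k00' - k00
        have r2 : (u : ZMod p) * ((v⁻¹ : (ZMod p)ˣ) : ZMod p) =
            u' * ((v'⁻¹ : (ZMod p)ˣ) : ZMod p) := by
          apply mul_left_cancel₀ g2
          linear_combination k01' - k01
        have r3 : (u : ZMod p) * u = u' * u' := by
          have : ((u : ZMod p) * v) * (u * ((v⁻¹ : (ZMod p)ˣ) : ZMod p)) =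
              (u' * v') * (u' * ((v'⁻¹ : (ZMod p)ˣ) : ZMod p)) := by rw [r1, r2]
          linear_combination this - (u : ZMod p) * u * hvv + (u' : ZMod p) * u' * hvv'
        exact ⟨by linear_combination r3, r1⟩
      have hkey2 : ∀ u v u' v' : (ZMod p)ˣ, (s, u, v) ∈ Fb → (s, u', v') ∈ Fb →
          (u : ZMod p) - u' = 0 → (s, u, v) = (s, u', v') := by
        intro u v u' v' h1 h2 h3
        have hu : u = u' := Units.ext (by linear_combination h3)
        obtain ⟨-, h4⟩ := hkey u v u' v' h1 h2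
        subst hu
        have : v = v' := Units.ext (mul_left_cancel₀ u.ne_zero h4)
        rw [this]
      apply pc_card_le_two_of
      rintro ⟨s1, u1, v1⟩ h1 ⟨s2, u2, v2⟩ h2 ⟨s3, u3, v3⟩ h3 h12 h13
      rw [Finset.mem_filter] at h1 h2 h3
      obtain ⟨m1, rfl⟩ := h1
      obtain ⟨m2, rfl⟩ := h2
      obtain ⟨m3, rfl⟩ := h3
      have z12 := (hkey _ _ _ _ m1 m2).1
      have z13 := (hkey _ _ _ _ m1 m3).1
      have y12 := (mul_eq_zero.1 z12).resolve_left (fun h => h12 (hkey2 _ _ _ _ m1 m2 h))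
      have y13 := (mul_eq_zero.1 z13).resolve_left (fun h => h13 (hkey2 _ _ _ _ m1 m3 h))
      apply hkey2 _ _ _ _ m2 m3
      linear_combination y12 - y13

end MW
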