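import Pool.Agent.Lib.MP_a542cf_al.Defs

/-! MW-IdxTop: SL_2(F_p) has no proper subgroup of index < p. -/

namespace MW

open Matrix

private def upp {p : ℕ} [Fact p.Prime] (x : ZMod p) : SL2 (ZMod p) :=
  ⟨!![1, x; 0, 1], by simp [det_fin_two]⟩

private def low {p : ℕ} [Fact p.Prime] (x : ZMod p) : SL2 (ZMod p) :=
  ⟨!![1, 0; x, 1], by simp [det_fin_two]⟩

private lemma upp_pow {p : ℕ} [Fact p.Prime] (x : ZMod p) (n : ℕ) :
    upp x ^ n = upp ((n : ZMod p) * x) := by
  induction n with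
  | zero =>
    rw [pow_zero]
    apply Subtype.ext
    change (1 : Matrix (Fin 2) (Fin 2) (ZMod p)) = !![1, ((0 : ℕ) : ZMod p) * x; 0, 1]
    ext i j
    fin_cases i <;> fin_cases j <;> simp
  | succ n ih =>
    rw [pow_succ, ih]
    apply Subtype.ext
    change !![1, (n : ZMod p) * x; 0, 1] * !![1, x; 0, 1] =
      !![1, ((n + 1 : ℕ) : ZMod p) * x; 0, 1]
    ext i j
    fin_cases i <;> fin_cases j <;> simp [Matrix.mul_apply, Fin.sum_univ_two]
    ring

private lemma low_pow {p : ℕ} [Fact p.Prime] (x : ZMod p) (n : ℕ) :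
    low x ^ n = low ((n : ZMod p) * x) := by
  induction n with
  | zero =>
    rw [pow_zero]
    apply Subtype.ext
    change (1 : Matrix (Fin 2) (Fin 2) (ZMod p)) = !![1, 0; ((0 : ℕ) : ZMod p) * x, 1]
    ext i j
    fin_cases i <;> fin_cases j <;> simp
  | succ n ih =>
    rw [pow_succ, ih]
    apply Subtype.ext
    change !![1, 0; (n : ZMod p) * x, 1] * !![1, 0; x, 1] =
      !![1, 0; ((n + 1 : ℕ) : ZMod p) * x, 1]
    ext i j
    fin_cases i <;> fin_cases j <;> simp [Matrix.mul_apply, Fin.sum_univ_two]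
    ring

private lemma upp_p {p : ℕ} [Fact p.Prime] (x : ZMod p) : upp x ^ p = 1 := by
  rw [upp_pow, CharP.cast_eq_zero, zero_mul, ← pow_zero (upp (0 : ZMod p)), upp_pow]
  simp

private lemma low_p {p : ℕ} [Fact p.Prime] (x : ZMod p) : low x ^ p = 1 := by
  rw [low_pow, CharP.cast_eq_zero, zero_mul, ← pow_zero (low (0 : ZMod p)), low_pow]
  simp

private lemma mem_of_pow {G : Type*} [Group G] (p : ℕ) [hp : Fact p.Prime] (H : Subgroup G)
    (h0 : H.index ≠ 0) (h : H.index < p) (u : G) (hu : u ^ p = 1) : u ∈ H := by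
  classical
  have hfi : H.FiniteIndex := ⟨h0⟩
  have hfin : Finite (G ⧸ H) := Subgroup.finite_quotient_of_finiteIndex
  have : Fintype (G ⧸ H) := Fintype.ofFinite _
  have hcard : Fintype.card (G ⧸ H) < p := by
    rw [← Nat.card_eq_fintype_card]
    exact h
  let σ : Equiv.Perm (G ⧸ H) := MulAction.toPermHom G (G ⧸ H) u
  have h1 : σ ^ p = 1 := by
    change (MulAction.toPermHom G (G ⧸ H) u) ^ p = 1
    rw [← map_pow, hu, map_one]
  have h2 : σ = 1 := by
    rcases (Nat.dvd_prime hp.out).1 (orderOf_dvd_of_pow_eq_one h1) with h3 | h3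
    · exact orderOf_eq_one_iff.1 h3
    · exfalso
      have h4 : orderOf σ ∣ Fintype.card (Equiv.Perm (G ⧸ H)) := orderOf_dvd_card
      rw [h3, Fintype.card_perm, hp.out.dvd_factorial] at h4
      omega
  have h5 : σ ((1 : G) : G ⧸ H) = ((1 : G) : G ⧸ H) := by rw [h2]; rfl
  have h6 : ((u * 1 : G) : G ⧸ H) = ((1 : G) : G ⧸ H) := h5
  rw [mul_one, QuotientGroup.eq] at h6
  rw [mul_one] at h6
  exact H.inv_mem_iff.1 h6

theorem idxTop (p : ℕ) [Fact p.Prime] (H : Subgroup (SL2 (ZMod p))) (h0 : H.index ≠ 0)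
    (h : H.index < p) : H = ⊤ := by
  have hu : ∀ x, upp x ∈ H := fun x => mem_of_pow p H h0 h _ (upp_p x)
  have hl : ∀ x, low x ∈ H := fun x => mem_of_pow p H h0 h _ (low_p x)
  have key : ∀ g : SL2 (ZMod p), g.1 1 0 ≠ 0 → g ∈ H := by
    intro g hg
    have hd := g.2
    rw [det_fin_two] at hd
    have h1 : g = upp ((g.1 0 0 - 1) / g.1 1 0) * low (g.1 1 0) *
        upp ((g.1 1 1 - 1) / g.1 1 0) := by
      apply Subtype.ext
      change g.1 = !![1, (g.1 0 0 - 1) / g.1 1 0; 0, 1] * !![1, 0; g.1 1 0, 1] *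
        !![1, (g.1 1 1 - 1) / g.1 1 0; 0, 1]
      ext i j
      fin_cases i <;> fin_cases j <;> simp [Matrix.mul_apply, Fin.sum_univ_two] <;>
        field_simp
      · ring
      · linear_combination -hd
      · ring
    rw [h1]
    exact H.mul_mem (H.mul_mem (hu _) (hl _)) (hu _)
  rw [eq_top_iff]
  intro g _
  by_cases hg : g.1 1 0 = 0
  · have h2 : low 1 * g ∈ H := by
      apply key
      change ((!![1, 0; 1, 1] : Matrix (Fin 2) (Fin 2) (ZMod p)) * g.1) 1 0 ≠ 0
      simp only [Matrix.mul_apply, Fin.sum_univ_two]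
      have hd := g.2
      rw [det_fin_two, hg, mul_zero, sub_zero] at hd
      have h3 : g.1 0 0 ≠ 0 := by
        intro h4
        rw [h4, zero_mul] at hd
        exact zero_ne_one hd
      simpa [hg] using h3
    exact (H.mul_mem_cancel_left (hl 1)).1 h2
  · exact key g hg

end MW
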