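import Pool.Agent.Lib.MP_a542cf_al.Ind1

/-! MW-Ind: independence lemma, in the basis `X^(p k)`. -/

namespace MW

open Polynomial

theorem ind_pow {K : Type*} [Field K] (p : ℕ) [Fact p.Prime] [CharP K p] (l : K) (B : ℕ)
    (k : Fin B) : (X : K[X]) ^ (p * (k : ℕ)) = ∑ j : Fin B,
      C ((((k : ℕ).choose (j : ℕ) : ℕ) : K) * (l ^ p) ^ ((k : ℕ) - (j : ℕ))) *
        (X - C l) ^ (p * (j : ℕ)) := by
  have : CharP K[X] p := inferInstance
  have h1 : (X : K[X]) ^ p = (X - C l) ^ p + C (l ^ p) := by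
    rw [sub_pow_char, C_pow]
    ring
  rw [pow_mul, h1, add_pow,
    Fin.sum_univ_eq_sum_range (fun j => C ((((k : ℕ).choose j : ℕ) : K) *
      (l ^ p) ^ ((k : ℕ) - j)) * (X - C l) ^ (p * j)) B]
  have hsub : Finset.range ((k : ℕ) + 1) ⊆ Finset.range B :=
    Finset.range_mono k.2
  rw [← Finset.sum_subset hsub]
  · refine Finset.sum_congr rfl fun j _ => ?_
    simp only [pow_mul, C_mul, C_pow, map_natCast]
    ring
  · intro j _ hj
    rw [Finset.mem_range, not_lt] at hj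
    rw [Nat.choose_eq_zero_of_lt (by omega), Nat.cast_zero, zero_mul, C_0, zero_mul]

theorem ind {K : Type*} [Field K] (p : ℕ) [Fact p.Prime] [CharP K p] {ι : Type*} [Fintype ι]
    [DecidableEq ι] (l : K) (h0 : l ≠ 0) (h1 : l ≠ 1) (a b : ι → ℕ) (b0 : ℕ)
    (hb : ∀ m, b m ≤ b0) (A B G g : ℕ)
    (H1 : ∀ m m', b m ≤ b m' → b m' ≤ b m + G ∨ b m + g ≤ b m')
    (H2 : ∀ m m', m ≠ m' → b m ≤ b m' → b m' ≤ b m + G →
      a m + (A + G) ≤ a m' ∨ a m' + (A + G) ≤ a m)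
    (H3 : ∀ m, (Finset.univ.filter (fun m' => b m ≤ b m' ∧ b m' ≤ b m + G)).card * (A + G) ≤ g)
    (H4 : ∀ m, a m + (A + G) ≤ p) (H5 : ∀ m, b m + g ≤ p)
    (f : Fin B → ι → K[X]) (hf : ∀ k m, (f k m).degree < (A : WithBot ℕ))
    (hsum : ∑ k : Fin B, ∑ m, f k m * (X ^ (p * (k : ℕ)) *
      (X ^ (a m) * (X - C l) ^ (b m) * (X - 1) ^ (b0 - b m))) = 0) :
    ∀ k m, f k m = 0 := by
  classical
  set f' : Fin B → ι → K[X] := fun j m => ∑ k : Fin B,
    C ((((k : ℕ).choose (j : ℕ) : ℕ) : K) * (l ^ p) ^ ((k : ℕ) - (j : ℕ))) * f k m with hf'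
  have hf'd : ∀ j m, (f' j m).degree < (A : WithBot ℕ) := by
    intro j m
    rw [degree_lt_iff_coeff_zero]
    intro i hi
    simp only [hf']
    rw [finsetSum_coeff]
    refine Finset.sum_eq_zero fun k _ => ?_
    rw [coeff_C_mul, (degree_lt_iff_coeff_zero _ _).1 (hf k m) i hi, mul_zero]
  have hsum' : ∑ k : Fin B, ∑ m, f' k m * ((X - C l) ^ (p * (k : ℕ)) *
      (X ^ (a m) * (X - C l) ^ (b m) * (X - 1) ^ (b0 - b m))) = 0 := by
    rw [← hsum, Finset.sum_comm, Finset.sum_comm (s := (Finset.univ : Finset (Fin B)))]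
    refine Finset.sum_congr rfl fun m _ => ?_
    have h2 : ∀ k : Fin B, f k m * (X ^ (p * (k : ℕ)) *
        (X ^ (a m) * (X - C l) ^ (b m) * (X - 1) ^ (b0 - b m))) = ∑ j : Fin B,
        C ((((k : ℕ).choose (j : ℕ) : ℕ) : K) * (l ^ p) ^ ((k : ℕ) - (j : ℕ))) * f k m *
        ((X - C l) ^ (p * (j : ℕ)) *
          (X ^ (a m) * (X - C l) ^ (b m) * (X - 1) ^ (b0 - b m))) := by
      intro k
      rw [ind_pow p l B k, Finset.sum_mul, Finset.mul_sum]
      refine Finset.sum_congr rfl fun j _ => ?_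
      ring
    simp_rw [h2]
    rw [Finset.sum_comm]
    refine Finset.sum_congr rfl fun j _ => ?_
    simp only [hf']
    rw [Finset.sum_mul]
  have hz := ind1 p l h0 h1 a b b0 hb A B G g H1 H2 H3 H4 H5 f' hf'd hsum'
  by_contra hcon
  push Not at hcon
  obtain ⟨k', m, hkm⟩ := hcon
  obtain ⟨k1, hk1, hmax⟩ := Finset.exists_max_image
    (Finset.univ.filter fun k : Fin B => f k m ≠ 0) (fun k => (k : ℕ)) ⟨k', by simpa using hkm⟩
  have hk1' : f k1 m ≠ 0 := by simpa using hk1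
  have h3 := hz k1 m
  simp only [hf'] at h3
  rw [Finset.sum_eq_single k1] at h3
  · rw [Nat.choose_self, Nat.sub_self, pow_zero, Nat.cast_one, mul_one, C_1, one_mul] at h3
    exact hk1' h3
  · intro n _ hn
    rcases lt_or_gt_of_ne (fun h : (n : ℕ) = k1 => hn (Fin.ext h)) with h | h
    · rw [Nat.choose_eq_zero_of_lt h, Nat.cast_zero, zero_mul, C_0, zero_mul]
    · have h4 : f n m = 0 := by
        by_contra h5
        have := hmax n (by simpa using h5)
        omega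
      rw [h4, mul_zero]
  · intro h
    exact absurd (Finset.mem_univ k1) h

end MW
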