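import Pool.Agent.Lib.MP_a542cf_al.Sparse

/-! MW-Ind1: independence lemma, in the basis `(X - l)^(p k)`. -/

namespace MW

open Polynomial

theorem ind1_mul_lt {K : Type*} [Field K] {F g : K[X]} {c n : ℕ} (hF : F.natDegree ≤ c)
    (hg : g.degree < (n : WithBot ℕ)) : (F * g).degree < ((n + c : ℕ) : WithBot ℕ) := by
  by_cases h : F * g = 0
  · rw [h, degree_zero]
    exact WithBot.bot_lt_coe _
  · have hg0 : g ≠ 0 := fun h' => h (by rw [h', mul_zero])
    rw [← natDegree_lt_iff_degree_lt h]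
    rw [← natDegree_lt_iff_degree_lt hg0] at hg
    have := natDegree_mul_le (p := F) (q := g)
    omega

theorem ind1_coprime {K : Type*} [Field K] {l : K} (h1 : l ≠ 1) (m n : ℕ) :
    IsCoprime ((X - C l : K[X]) ^ m) ((X - 1 : K[X]) ^ n) := by
  have h2 : IsCoprime (X - C l : K[X]) (X - C 1) :=
    isCoprime_X_sub_C_of_isUnit_sub (sub_ne_zero.2 h1).isUnit
  rw [C_1] at h2
  exact h2.pow

theorem ind1 {K : Type*} [Field K] (p : ℕ) [Fact p.Prime] [CharP K p] {ι : Type*} [Fintype ι]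
    [DecidableEq ι] (l : K) (h0 : l ≠ 0) (h1 : l ≠ 1) (a b : ι → ℕ) (b0 : ℕ)
    (hb : ∀ m, b m ≤ b0) (A B G g : ℕ)
    (H1 : ∀ m m', b m ≤ b m' → b m' ≤ b m + G ∨ b m + g ≤ b m')
    (H2 : ∀ m m', m ≠ m' → b m ≤ b m' → b m' ≤ b m + G →
      a m + (A + G) ≤ a m' ∨ a m' + (A + G) ≤ a m)
    (H3 : ∀ m, (Finset.univ.filter (fun m' => b m ≤ b m' ∧ b m' ≤ b m + G)).card * (A + G) ≤ g)
    (H4 : ∀ m, a m + (A + G) ≤ p) (H5 : ∀ m, b m + g ≤ p)
    (f : Fin B → ι → K[X]) (hf : ∀ k m, (f k m).degree < (A : WithBot ℕ))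
    (hsum : ∑ k : Fin B, ∑ m, f k m * ((X - C l) ^ (p * (k : ℕ)) *
      (X ^ (a m) * (X - C l) ^ (b m) * (X - 1) ^ (b0 - b m))) = 0) :
    ∀ k m, f k m = 0 := by
  classical
  by_contra hcon
  push Not at hcon
  obtain ⟨k', m', hkm'⟩ := hcon
  obtain ⟨⟨k0, m0⟩, hs0, hmin⟩ := Finset.exists_min_image
    (Finset.univ.filter fun s : Fin B × ι => f s.1 s.2 ≠ 0)
    (fun s => p * (s.1 : ℕ) + b s.2) ⟨(k', m'), by simpa using hkm'⟩
  have hne0 : f k0 m0 ≠ 0 := by simpa using hs0
  have hmin' : ∀ k m, f k m ≠ 0 → p * (k0 : ℕ) + b m0 ≤ p * (k : ℕ) + b m := fun k m h =>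
    hmin (k, m) (by simpa using h)
  have hA : 1 ≤ A := by
    by_contra hA
    have hA0 : A = 0 := by omega
    have := hf k0 m0
    rw [hA0, ← natDegree_lt_iff_degree_lt hne0] at this
    omega
  set Cl : Finset ι := Finset.univ.filter (fun m' => b m0 ≤ b m' ∧ b m' ≤ b m0 + G) with hCl
  have hm0 : m0 ∈ Cl := by simp [hCl]
  have hg : 1 ≤ g := by
    have h3 : Cl.card * (A + G) ≤ g := H3 m0
    have h4 : 1 ≤ Cl.card := Finset.card_pos.2 ⟨m0, hm0⟩
    have h5 : 1 * 1 ≤ Cl.card * (A + G) := Nat.mul_le_mul h4 (by omega)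
    exact h5.trans h3
  have hdich : ∀ k m, f k m ≠ 0 → (k = k0 ∧ m ∈ Cl) ∨
      p * (k0 : ℕ) + b m0 + g ≤ p * (k : ℕ) + b m := by
    intro k m hkm
    rcases lt_trichotomy (k : ℕ) (k0 : ℕ) with h | h | h
    · exfalso
      have h2 := hmin' k m hkm
      have h3 := H5 m
      have h4 : p * ((k : ℕ) + 1) ≤ p * (k0 : ℕ) := Nat.mul_le_mul_left _ h
      rw [mul_add, mul_one] at h4
      omega
    · have hk : k = k0 := Fin.ext h
      subst hk
      have h2 := hmin' k m hkm
      rcases H1 m0 m (by omega) with h3 | h3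
      · exact Or.inl ⟨rfl, by rw [hCl, Finset.mem_filter]; exact ⟨Finset.mem_univ _, by omega, h3⟩⟩
      · exact Or.inr (by omega)
    · right
      have h3 := H5 m0
      have h4 : p * ((k0 : ℕ) + 1) ≤ p * (k : ℕ) := Nat.mul_le_mul_left _ h
      rw [mul_add, mul_one] at h4
      omega
  -- divisibility of the cluster sum
  set t : Fin B → ι → K[X] := fun k m => f k m * ((X - C l) ^ (p * (k : ℕ)) *
      (X ^ (a m) * (X - C l) ^ (b m) * (X - 1) ^ (b0 - b m))) with ht
  have hdvdt : ∀ k m, ¬ (k = k0 ∧ m ∈ Cl) →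
      (X - C l) ^ (p * (k0 : ℕ) + b m0 + g) ∣ t k m := by
    intro k m hkm
    by_cases hz : f k m = 0
    · rw [ht]
      simp only [hz, zero_mul]
      exact dvd_zero _
    · have h2 := (hdich k m hz).resolve_left hkm
      have h3 : t k m = (X - C l) ^ (p * (k : ℕ) + b m) *
          (f k m * X ^ (a m) * (X - 1) ^ (b0 - b m)) := by
        simp only [ht]
        rw [pow_add]
        ring
      rw [h3]
      exact (pow_dvd_pow _ h2).mul_right _
  have hdvd1 : (X - C l) ^ (p * (k0 : ℕ) + b m0 + g) ∣ ∑ m ∈ Cl, t k0 m := by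
    have h2 : ∑ k : Fin B, ∑ m, t k m = 0 := hsum
    rw [← Finset.add_sum_erase _ _ (Finset.mem_univ k0),
      ← Finset.sum_filter_add_sum_filter_not Finset.univ
        (fun m' => b m0 ≤ b m' ∧ b m' ≤ b m0 + G)] at h2
    have h3 : ∑ m ∈ Cl, t k0 m = - (∑ m ∈ Finset.univ.filter
        (fun m' => ¬ (b m0 ≤ b m' ∧ b m' ≤ b m0 + G)), t k0 m +
        ∑ k ∈ Finset.univ.erase k0, ∑ m, t k m) := by
      rw [hCl]
      linear_combination h2
    rw [h3, dvd_neg]
    refine dvd_add (Finset.dvd_sum fun m hm => ?_) (Finset.dvd_sum fun k hk =>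
      Finset.dvd_sum fun m _ => ?_)
    · refine hdvdt k0 m fun h => ?_
      rw [hCl] at h
      exact (Finset.mem_filter.1 hm).2 (Finset.mem_filter.1 h.2).2
    · exact hdvdt k m fun h => (Finset.mem_erase.1 hk).1 h.1
  set S : K[X] := ∑ m ∈ Cl, f k0 m * ((X - C l) ^ (b m - b m0) * (X ^ (a m) *
    (X - 1) ^ (b0 - b m))) with hS
  have hX : (X - C l : K[X]) ≠ 0 := X_sub_C_ne_zero l
  have hdvd2 : (X - C l) ^ g ∣ S := by
    have h2 : ∑ m ∈ Cl, t k0 m = (X - C l) ^ (p * (k0 : ℕ) + b m0) * S := by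
      rw [hS, Finset.mul_sum]
      refine Finset.sum_congr rfl fun m hm => ?_
      have hm' : b m0 ≤ b m := (Finset.mem_filter.1 hm).2.1
      have e : b m = b m0 + (b m - b m0) := by omega
      have e2 : (X - C l : K[X]) ^ (b m) = (X - C l) ^ (b m0) * (X - C l) ^ (b m - b m0) := by
        rw [← pow_add, ← e]
      simp only [ht]
      rw [e2, pow_add]
      ring
    rw [h2, pow_add] at hdvd1
    exact (mul_dvd_mul_iff_left (pow_ne_zero _ hX)).1 hdvd1
  obtain ⟨c, hc⟩ : ∃ c, c = b m0 + G := ⟨_, rfl⟩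
  set q : ι → K[X] := fun m => (X - C l) ^ (b m - b m0) * (X - 1) ^ (c - b m) * f k0 m with hq
  set R : K[X] := ∑ m ∈ Cl, X ^ (a m) * q m with hR
  have hdvd3 : (X - C l) ^ g ∣ R := by
    have h2 : (X - 1) ^ (c - b0) * S = (X - 1) ^ (b0 - c) * R := by
      rw [hS, hR, Finset.mul_sum, Finset.mul_sum]
      refine Finset.sum_congr rfl fun m hm => ?_
      have hm' := (Finset.mem_filter.1 hm).2
      have hbm := hb m
      have e : (c - b0) + (b0 - b m) = (b0 - c) + (c - b m) := by omega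
      have e2 : (X - 1 : K[X]) ^ (c - b0) * (X - 1) ^ (b0 - b m) =
          (X - 1) ^ (b0 - c) * (X - 1) ^ (c - b m) := by
        rw [← pow_add, ← pow_add, e]
      simp only [hq]
      linear_combination (f k0 m * (X - C l) ^ (b m - b m0) * X ^ (a m)) * e2
    have h3 : (X - C l) ^ g ∣ (X - 1) ^ (b0 - c) * R := by
      rw [← h2]
      exact hdvd2.mul_left _
    exact (ind1_coprime h1 g (b0 - c)).dvd_of_dvd_mul_left h3
  have hqd : ∀ m ∈ Cl, (q m).degree < ((A + G : ℕ) : WithBot ℕ) := by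
    intro m hm
    have hm' := (Finset.mem_filter.1 hm).2
    have h2 : ((X - C l : K[X]) ^ (b m - b m0) * (X - 1) ^ (c - b m)).natDegree ≤ G := by
      have e1 := natDegree_mul_le (p := (X - C l : K[X]) ^ (b m - b m0)) (q := (X - 1) ^ (c - b m))
      have e2 : ((X - C l : K[X]) ^ (b m - b m0)).natDegree ≤ b m - b m0 := by
        rw [natDegree_pow, natDegree_X_sub_C, mul_one]
      have e3 : ((X - 1 : K[X]) ^ (c - b m)).natDegree ≤ c - b m := by
        rw [← C_1, natDegree_pow, natDegree_X_sub_C, mul_one]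
      omega
    exact ind1_mul_lt h2 (hf k0 m)
  have hcoef : ∀ m ∈ Cl, ∀ i, i < a m ∨ a m + (A + G) ≤ i → (X ^ (a m) * q m).coeff i = 0 := by
    intro m hm i hi
    rw [coeff_X_pow_mul']
    split_ifs with h
    · exact (degree_lt_iff_coeff_zero _ _).1 (hqd m hm) _ (by omega)
    · rfl
  have hsupp : R.support ⊆ Cl.biUnion fun m => Finset.Ico (a m) (a m + (A + G)) := by
    intro i hi
    rw [mem_support_iff] at hi
    by_contra hcon
    apply hi
    rw [hR, finsetSum_coeff]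
    refine Finset.sum_eq_zero fun m hm => hcoef m hm i ?_
    by_contra hlt
    apply hcon
    rw [Finset.mem_biUnion]
    exact ⟨m, hm, Finset.mem_Ico.2 ⟨by omega, by omega⟩⟩
  have hcard : R.support.card ≤ g := by
    calc R.support.card ≤ (Cl.biUnion fun m => Finset.Ico (a m) (a m + (A + G))).card :=
          Finset.card_le_card hsupp
      _ ≤ Cl.card * (A + G) := Finset.card_biUnion_le_card_mul _ _ _ fun m _ => by
          rw [Nat.card_Ico]
          omega
      _ ≤ g := H3 m0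
  have hq0 : q m0 ≠ 0 := by
    refine mul_ne_zero (mul_ne_zero (pow_ne_zero _ hX) (pow_ne_zero _ ?_)) hne0
    rw [← C_1]
    exact X_sub_C_ne_zero 1
  have hR0 : R ≠ 0 := by
    intro hR0
    have h2 : R.coeff (a m0 + (q m0).natDegree) = (q m0).coeff (q m0).natDegree := by
      rw [hR, finsetSum_coeff, Finset.sum_eq_single m0]
      · rw [add_comm, coeff_X_pow_mul]
      · intro m hm hne
        apply hcoef m hm
        have h3 := (natDegree_lt_iff_degree_lt hq0).2 (hqd m0 hm0)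
        have hm' := (Finset.mem_filter.1 hm).2
        rcases H2 m0 m (Ne.symm hne) hm'.1 hm'.2 with h4 | h4 <;> omega
      · intro h
        exact absurd hm0 h
    rw [hR0, coeff_zero] at h2
    exact hq0 (leadingCoeff_eq_zero.1 h2.symm)
  have hdeg : R.natDegree < p := by
    have h2 := hsupp (natDegree_mem_support_of_nonzero hR0)
    rw [Finset.mem_biUnion] at h2
    obtain ⟨m, -, hm⟩ := h2
    rw [Finset.mem_Ico] at hm
    have := H4 m
    omega
  exact sparse p R hR0 hdeg l h0 ((pow_dvd_pow _ hcard).trans hdvd3)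

end MW
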