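import Pool.Agent.Lib.MP_a542cf_al.Defs

/-! MW-Param: the parameter `r = h/η` of the curve `h + l/h = η + 1/η`. -/

namespace MW

theorem param {K : Type*} [Field K] {l h η : K} (hl0 : l ≠ 0) (hl1 : l ≠ 1) (hh : h ≠ 0)
    (hη : η ≠ 0) (heq : h + l / h = η + 1 / η) :
    h / η ≠ 0 ∧ h / η ≠ 1 ∧ h / η ≠ l ∧ h * η * (h / η - 1) = h / η - l := by
  have h1 : h ^ 2 * η + l * η = h * η ^ 2 + h := by
    field_simp at heq
    linear_combination heq
  have h2 : h * η * (h / η - 1) = h / η - l := by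
    field_simp
    linear_combination h1
  refine ⟨div_ne_zero hh hη, ?_, ?_, h2⟩
  · intro h3
    rw [h3] at h2
    apply hl1
    linear_combination h2
  · intro h3
    rw [h3, sub_self] at h2
    rcases mul_eq_zero.1 h2 with h4 | h4
    · exact (mul_ne_zero hh hη) h4
    · exact hl1 (sub_eq_zero.1 h4)

theorem param_inj {K : Type*} [Field K] {l h η h' η' : K} (hl0 : l ≠ 0) (hl1 : l ≠ 1)
    (hh : h ≠ 0) (hη : η ≠ 0) (heq : h + l / h = η + 1 / η) (hh' : h' ≠ 0)
    (hη' : η' ≠ 0) (heq' : h' + l / h' = η' + 1 / η') (hr : h / η = h' / η') :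
    (h' = h ∧ η' = η) ∨ (h' = -h ∧ η' = -η) := by
  obtain ⟨-, h1, -, h2⟩ := param hl0 hl1 hh hη heq
  obtain ⟨-, h1', -, h2'⟩ := param hl0 hl1 hh' hη' heq'
  rw [← hr] at h2' h1'
  have h3 : h * η = h' * η' := by
    have h4 : (h * η - h' * η') * (h / η - 1) = 0 := by linear_combination h2 - h2'
    rcases mul_eq_zero.1 h4 with h5 | h5
    · exact sub_eq_zero.1 h5
    · exact absurd (sub_eq_zero.1 h5) h1
  have h4 : h * η' = h' * η := by
    rw [div_eq_div_iff hη hη'] at hr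
    exact hr
  have h5 : (η' - η) * (η' + η) = 0 := by
    have h6 : h * ((η' - η) * (η' + η)) = 0 := by
      have : h * ((η' - η) * (η' + η)) = (h * η') * η' - (h * η) * η := by ring
      rw [this, h4, h3]
      ring
    exact (mul_eq_zero.1 h6).resolve_left hh
  rcases mul_eq_zero.1 h5 with h6 | h6
  · have h7 : η' = η := sub_eq_zero.1 h6
    left
    refine ⟨?_, h7⟩
    rw [h7] at h4
    exact (mul_right_cancel₀ hη h4).symm
  · have h7 : η' = -η := eq_neg_of_add_eq_zero_left h6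
    right
    refine ⟨?_, h7⟩
    rw [h7] at h4
    apply mul_right_cancel₀ hη
    linear_combination -h4

/-- with `r = h/η`, `w = (r - l)/(r - 1)`: `r^α w^β = (h^t)^i (η^s)^j` when
`2α = t i - s j` and `2β = t i + s j` -/
theorem param_mon {K : Type*} [Field K] {l h η : K} (hl0 : l ≠ 0) (hl1 : l ≠ 1) (hh : h ≠ 0)
    (hη : η ≠ 0) (heq : h + l / h = η + 1 / η) (t s : ℕ) (i j α β : ℤ)
    (h1 : 2 * α = t * i - s * j) (h2 : 2 * β = t * i + s * j) :
    (h / η) ^ α * ((h / η - l) / (h / η - 1)) ^ β = (h ^ t) ^ i * (η ^ s) ^ j := by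
  obtain ⟨-, h3, -, h4⟩ := param hl0 hl1 hh hη heq
  have h5 : (h / η - l) / (h / η - 1) = h * η := by
    rw [div_eq_iff (sub_ne_zero.2 h3)]
    exact h4.symm
  rw [h5, div_zpow, mul_zpow, ← zpow_natCast, ← zpow_natCast, ← zpow_mul, ← zpow_mul]
  have h6 : (t : ℤ) * i = α + β := by linarith
  have h7 : (s : ℤ) * j = β - α := by linarith
  rw [h6, h7, zpow_add₀ hh, zpow_sub₀ hη]
  field_simp

end MW
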