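import Pool.Agent.Lib.MP_a542cf_al.SharpCnt

/-! MW-SharpIdx: the exponents for the sharp Stepanov bound. -/

namespace MW

private theorem sharpidx_key (p e d t s i j x y E : ℤ) (ε ε' : ℤ) (hε : ε = 1 ∨ ε = -1)
    (hε' : ε' = 1 ∨ ε' = -1) (ht : t * e = p - ε) (hs : s * d = p - ε') (hx : x = d * i)
    (hy : y = e * j) (hE : E = e * d) (h1 : 0 ≤ x + y) (h2 : x + y < 2 * E) (h3 : -E ≤ x - y)
    (h4 : x - y < E) :
    p * (x + y) - 2 * E ≤ E * (t * i + s * j) ∧ E * (t * i + s * j) ≤ p * (x + y) + 2 * E ∧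
    p * (x - y) - 2 * E ≤ E * (t * i - s * j) ∧ E * (t * i - s * j) ≤ p * (x - y) + 2 * E := by
  have e1 : E * (t * i) = (p - ε) * x := by
    rw [← ht, hE, hx]; ring
  have e2 : E * (s * j) = (p - ε') * y := by
    rw [← hs, hE, hy]; ring
  have e3 : E * (t * i + s * j) = p * (x + y) - (ε * x + ε' * y) := by
    rw [mul_add, e1, e2]; ring
  have e4 : E * (t * i - s * j) = p * (x - y) - (ε * x - ε' * y) := by
    rw [mul_sub, e1, e2]; ring
  rw [e3, e4]
  rcases hε with h | h <;> rcases hε' with h' | h' <;> subst h <;> subst h' <;>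
    refine ⟨?_, ?_, ?_, ?_⟩ <;> linarith

theorem sharpIdx (p e d t s : ℕ) (hp : p.Prime) (hp2 : p ≠ 2)
    (ht : t * e = p - 1 ∨ t * e = p + 1) (hs : s * d = p - 1 ∨ s * d = p + 1)
    (hE : 10 ^ 4 * (e * d) ^ 4 ≤ p) :
    ∃ (N : ℕ) (ii jj : Fin N → ℤ) (a b : Fin N → ℕ) (G g : ℕ),
      ((t % 2 = 0 ∧ s % 2 = 0 ∧ N = 2 * (e * d)) ∨ (¬ (t % 2 = 0 ∧ s % 2 = 0) ∧ N = e * d)) ∧
      (∀ m, 2 * (b m : ℤ) = 4 + t * ii m + s * jj m) ∧
      (∀ m, 2 * (a m : ℤ) = p + 3 + t * ii m - s * jj m) ∧
      (∀ m, a m ≤ p) ∧ (∀ m, b m ≤ p) ∧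
      (∀ m m', b m ≤ b m' → b m' ≤ b m + G ∨ b m + g ≤ b m') ∧
      (∀ m m', m ≠ m' → b m ≤ b m' → b m' ≤ b m + G →
        a m + (p / (8 * (e * d) ^ 2) + G) ≤ a m' ∨ a m' + (p / (8 * (e * d) ^ 2) + G) ≤ a m) ∧
      (∀ m, (Finset.univ.filter (fun m' => b m ≤ b m' ∧ b m' ≤ b m + G)).card *
        (p / (8 * (e * d) ^ 2) + G) ≤ g) ∧
      (∀ m, a m + (p / (8 * (e * d) ^ 2) + G) ≤ p) ∧ (∀ m, b m + g ≤ p) := by
  have hp3 : 3 ≤ p := by
    have := hp.two_le
    omega
  have hodd : p % 2 = 1 := by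
    rcases hp.eq_two_or_odd with h | h
    · exact absurd h hp2
    · exact h
  have he : 1 ≤ e := by
    rcases Nat.eq_zero_or_pos e with h | h
    · subst h
      simp only [mul_zero] at ht
      omega
    · exact h
  have hd : 1 ≤ d := by
    rcases Nat.eq_zero_or_pos d with h | h
    · subst h
      simp only [mul_zero] at hs
      omega
    · exact h
  have hte : 2 ∣ t * e := by
    rcases ht with h | h <;> rw [h] <;> omega
  have hsd : 2 ∣ s * d := by
    rcases hs with h | h <;> rw [h] <;> omega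
  obtain ⟨N, ii, jj, hN, hinj, hpar, hu, hv⟩ := sharpCnt e d t s he hd hte hsd
  set E : ℕ := e * d with hEdef
  have hE1 : 1 ≤ E := Nat.mul_pos he hd
  -- size facts
  have hE4 : E ^ 2 ≤ E ^ 4 := Nat.pow_le_pow_right hE1 (by norm_num)
  have hE2 : E ≤ E ^ 2 := by nlinarith only [hE1]
  have hp4 : 10 ^ 4 * E ^ 2 ≤ p := by omega
  set A : ℕ := p / (8 * E ^ 2) with hA
  have hA8 : 8 * E ^ 2 * A ≤ p := by
    rw [hA]
    exact Nat.mul_div_le p _
  have hEA : E * A ≤ E ^ 2 * A := Nat.mul_le_mul_right A hE2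
  have hEAE : E * (E * A) = E ^ 2 * A := by ring
  have hN2 : N ≤ 2 * E := by
    rcases hN with ⟨_, _, h⟩ | ⟨_, h⟩ <;> omega
  set g : ℕ := p / (2 * E) - 4 with hg
  have hg4 : 2 * E * (g + 4) ≤ p := by
    have h4 : 4 ≤ p / (2 * E) := by
      rw [Nat.le_div_iff_mul_le (by omega)]
      omega
    have : g + 4 = p / (2 * E) := by omega
    rw [this]
    exact Nat.mul_div_le p _
  -- signs
  obtain ⟨ε, hε, hteZ⟩ : ∃ ε : ℤ, (ε = 1 ∨ ε = -1) ∧ (t : ℤ) * e = p - ε := by
    rcases ht with h | h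
    · refine ⟨1, Or.inl rfl, ?_⟩
      have : t * e + 1 = p := by omega
      zify at this
      linarith only [this]
    · refine ⟨-1, Or.inr rfl, ?_⟩
      zify at h
      linarith only [h]
  obtain ⟨ε', hε', hsdZ⟩ : ∃ ε' : ℤ, (ε' = 1 ∨ ε' = -1) ∧ (s : ℤ) * d = p - ε' := by
    rcases hs with h | h
    · refine ⟨1, Or.inl rfl, ?_⟩
      have : s * d + 1 = p := by omega
      zify at this
      linarith only [this]
    · refine ⟨-1, Or.inr rfl, ?_⟩
      zify at h
      linarith only [h]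
  have hEZ : (E : ℤ) = (e : ℤ) * d := by rw [hEdef]; push_cast; ring
  have hE1Z : (1 : ℤ) ≤ E := by exact_mod_cast hE1
  have hkey : ∀ m, (p : ℤ) * (d * ii m + e * jj m) - 2 * E ≤ E * (t * ii m + s * jj m) ∧
      (E : ℤ) * (t * ii m + s * jj m) ≤ p * (d * ii m + e * jj m) + 2 * E ∧
      (p : ℤ) * (d * ii m - e * jj m) - 2 * E ≤ E * (t * ii m - s * jj m) ∧
      (E : ℤ) * (t * ii m - s * jj m) ≤ p * (d * ii m - e * jj m) + 2 * E := by
    intro m
    apply sharpidx_key (p : ℤ) e d t s (ii m) (jj m) (d * ii m) (e * jj m) E ε ε' hε hε' hteZ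
      hsdZ rfl rfl hEZ (hu m).1
    · have := (hu m).2
      rw [hEZ]
      linarith only [this]
    · have := (hv m).1
      rw [hEZ]
      linarith only [this]
    · have := (hv m).2
      rw [hEZ]
      linarith only [this]
  have hppos : (0 : ℤ) < p := by exact_mod_cast hp.pos
  -- existence of the exponents
  have hb : ∀ m, ∃ b : ℕ, 2 * (b : ℤ) = 4 + t * ii m + s * jj m := by
    intro m
    obtain ⟨k, hk⟩ := hpar m
    have h1 := (hkey m).1
    have h2 : 0 ≤ (p : ℤ) * (d * ii m + e * jj m) := mul_nonneg hppos.le (hu m).1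
    have h3 : 0 ≤ k + 2 := by
      by_contra hneg
      push Not at hneg
      rw [hk] at h1
      nlinarith only [h1, h2, hE1, hE2, hneg]
    refine ⟨(k + 2).toNat, ?_⟩
    rw [Int.toNat_of_nonneg h3]
    linarith only [hk]
  have ha : ∀ m, ∃ a : ℕ, 2 * (a : ℤ) = p + 3 + t * ii m - s * jj m := by
    intro m
    obtain ⟨k, hk⟩ := hpar m
    obtain ⟨q, hq⟩ : ∃ q : ℤ, (p : ℤ) + 3 = 2 * q := by
      refine ⟨((p : ℤ) + 3) / 2, ?_⟩
      omega
    have h1 := (hkey m).2.2.1
    have h2 : -((p : ℤ) * E) ≤ (p : ℤ) * (d * ii m - e * jj m) := by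
      have := (hv m).1
      rw [← hEZ] at this
      nlinarith only [this]
    have h3 : 0 ≤ q + k - s * jj m := by
      by_contra hneg
      push Not at hneg
      have h4 : (t : ℤ) * ii m - s * jj m ≤ - (p + 3) - 1 := by linarith only [hk, hneg, hq]
      have h5 : (E : ℤ) * (t * ii m - s * jj m) ≤ E * (- (p + 3) - 1) :=
        mul_le_mul_of_nonneg_left h4 (by linarith only [hE1])
      nlinarith only [h1, h2, h5, hE1]
    refine ⟨(q + k - s * jj m).toNat, ?_⟩
    rw [Int.toNat_of_nonneg h3]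
    linarith only [hk, hq]
  choose b hb using hb
  choose a ha using ha
  -- the four basic estimates
  have B1 : ∀ m, (p : ℤ) * (d * ii m + e * jj m) + 2 * E ≤ 2 * E * b m := by
    intro m
    have h1 := (hkey m).1
    have h2 : 2 * (E : ℤ) * b m = E * (4 + t * ii m + s * jj m) := by rw [← hb m]; ring
    rw [h2]
    linarith only [h1]
  have B2 : ∀ m, 2 * (E : ℤ) * b m ≤ (p : ℤ) * (d * ii m + e * jj m) + 6 * E := by
    intro m
    have h1 := (hkey m).2.1
    have h2 : 2 * (E : ℤ) * b m = E * (4 + t * ii m + s * jj m) := by rw [← hb m]; ring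
    rw [h2]
    linarith only [h1]
  have A1 : ∀ m, (E : ℤ) * (p + 3) + (p : ℤ) * (d * ii m - e * jj m) - 2 * E
      ≤ 2 * E * a m := by
    intro m
    have h1 := (hkey m).2.2.1
    have h2 : 2 * (E : ℤ) * a m = E * (p + 3 + t * ii m - s * jj m) := by rw [← ha m]; ring
    rw [h2]
    linarith only [h1]
  have A2 : ∀ m, 2 * (E : ℤ) * a m ≤
      (E : ℤ) * (p + 3) + (p : ℤ) * (d * ii m - e * jj m) + 2 * E := by
    intro m
    have h1 := (hkey m).2.2.2
    have h2 : 2 * (E : ℤ) * a m = E * (p + 3 + t * ii m - s * jj m) := by rw [← ha m]; ring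
    rw [h2]
    linarith only [h1]
  have hp4Z : 10 ^ 4 * (E : ℤ) ≤ p := by
    have : 10 ^ 4 * E ≤ p := by omega
    exact_mod_cast this
  have hEAZ : 8 * ((E : ℤ) * A) ≤ p := by
    have : 8 * (E * A) ≤ p := by
      have := Nat.mul_le_mul_left 8 hEA
      rw [← mul_assoc 8 (E ^ 2)] at this
      omega
    exact_mod_cast this
  have hu2 : ∀ m, (p : ℤ) * (d * ii m + e * jj m) ≤ p * (2 * E - 1) := by
    intro m
    have := (hu m).2
    rw [← hEZ] at this
    exact mul_le_mul_of_nonneg_left (by linarith only [this]) hppos.le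
  have hv2 : ∀ m, (p : ℤ) * (d * ii m - e * jj m) ≤ p * (E - 1) := by
    intro m
    have := (hv m).2
    rw [← hEZ] at this
    exact mul_le_mul_of_nonneg_left (by linarith only [this]) hppos.le
  have cancel : ∀ x y : ℤ, 2 * (E : ℤ) * x ≤ 2 * E * y → x ≤ y := by
    intro x y h
    exact le_of_mul_le_mul_left h (by linarith only [hE1])
  have hgZ : 2 * (E : ℤ) * (g + 4) ≤ p := by exact_mod_cast hg4
  have hsame : ∀ m m', b m ≤ b m' →
      (d * ii m + e * jj m = d * ii m' + e * jj m' ∨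
        (p : ℤ) - 4 * E ≤ 2 * E * (b m' - b m)) := by
    intro m m' hbb
    have hbbZ : (b m : ℤ) ≤ b m' := by exact_mod_cast hbb
    rcases lt_trichotomy ((d : ℤ) * ii m + e * jj m) (d * ii m' + e * jj m') with h | h | h
    · right
      have h1 : (p : ℤ) * (d * ii m + e * jj m + 1) ≤ p * (d * ii m' + e * jj m') :=
        mul_le_mul_of_nonneg_left (by linarith only [h]) hppos.le
      have := B1 m'
      have := B2 m
      nlinarith
    · exact Or.inl h
    · exfalso
      have h1 : (p : ℤ) * (d * ii m' + e * jj m' + 1) ≤ p * (d * ii m + e * jj m) :=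
        mul_le_mul_of_nonneg_left (by linarith only [h]) hppos.le
      have h2 := B1 m
      have h3 := B2 m'
      have h4 : 2 * (E : ℤ) * b m ≤ 2 * E * b m' :=
        mul_le_mul_of_nonneg_left hbbZ (by linarith only [hE1])
      nlinarith only [h1, h2, h3, h4, hE, hE1, hE2, hE4]
  refine ⟨N, ii, jj, a, b, 3, g, hN, hb, ha, ?_, ?_, ?_, ?_, ?_, ?_, ?_⟩
  · intro m
    have : (a m : ℤ) ≤ p := by
      apply cancel
      have h1 := A2 m
      have h2 := hv2 m
      nlinarith only [h1, h2, hE, hE1, hE2, hE4]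
    exact_mod_cast this
  · intro m
    have : (b m : ℤ) ≤ p := by
      apply cancel
      have h1 := B2 m
      have h2 := hu2 m
      nlinarith only [h1, h2, hE, hE1, hE2, hE4]
    exact_mod_cast this
  · intro m m' hbb
    rcases hsame m m' hbb with h | h
    · left
      have : (b m' : ℤ) ≤ b m + 3 := by
        apply cancel
        have h1 := B1 m
        have h2 := B2 m'
        rw [h] at h1
        linarith only [h1, h2, hE1]
      exact_mod_cast this
    · right
      have : (b m : ℤ) + g ≤ b m' := by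
        apply cancel
        linarith only [h, hE1, hg4]
      exact_mod_cast this
  · intro m m' hmm hbb hb3
    have hb3Z : (b m' : ℤ) ≤ b m + 3 := by exact_mod_cast hb3
    have hue : (d : ℤ) * ii m + e * jj m = d * ii m' + e * jj m' := by
      rcases hsame m m' hbb with h | h
      · exact h
      · exfalso
        have h1 : 2 * (E : ℤ) * (b m' - b m) ≤ 2 * E * 3 :=
          mul_le_mul_of_nonneg_left (by linarith only [hb3]) (by linarith only [hE1])
        linarith only [h, h1, hE, hE1, hE2, hE4]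
    have hgen : ∀ m m' : Fin N, (d : ℤ) * ii m - e * jj m < d * ii m' - e * jj m' →
        a m + (A + 3) ≤ a m' := by
      intro m m' h
      have h1 : (p : ℤ) * (d * ii m - e * jj m + 1) ≤ p * (d * ii m' - e * jj m') :=
        mul_le_mul_of_nonneg_left (by linarith only [h]) hppos.le
      have h2 := A1 m'
      have h3 := A2 m
      have : (a m : ℤ) + (A + 3) ≤ a m' := by
        apply cancel
        linarith only [h1, h2, h3, hA8, hE, hE1, hE2, hE4, hEA]
      exact_mod_cast this
    rcases lt_trichotomy ((d : ℤ) * ii m - e * jj m) (d * ii m' - e * jj m') with h | h | h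
    · left
      exact hgen m m' h
    · exfalso
      apply hmm
      apply hinj
      have hdpos : (0 : ℤ) < d := by exact_mod_cast hd
      have hepos : (0 : ℤ) < e := by exact_mod_cast he
      have h1 : (d : ℤ) * ii m = d * ii m' := by linarith only [h, hue]
      have h2 : (e : ℤ) * jj m = e * jj m' := by linarith only [h, hue]
      have h3 : ii m = ii m' := mul_left_cancel₀ hdpos.ne' h1
      have h4 : jj m = jj m' := mul_left_cancel₀ hepos.ne' h2
      simp [h3, h4]
    · right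
      exact hgen m' m h
  · intro m
    have hcard : (Finset.univ.filter (fun m' => b m ≤ b m' ∧ b m' ≤ b m + 3)).card ≤ 2 * E := by
      refine le_trans (Finset.card_le_univ _) ?_
      rw [Fintype.card_fin]
      exact hN2
    refine le_trans (Nat.mul_le_mul_right _ hcard) ?_
    have h1 : (2 * E * (A + 3) + 4) * (2 * E) ≤ p := by
      have h2 : (2 * E * (A + 3) + 4) * (2 * E) = 4 * (E ^ 2 * A) + 12 * E ^ 2 + 8 * E := by ring
      rw [h2]
      have h3 : 8 * E ^ 2 * A = 8 * (E ^ 2 * A) := by ring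
      rw [h3] at hA8
      omega
    have h2 : 2 * E * (A + 3) + 4 ≤ p / (2 * E) := by
      rw [Nat.le_div_iff_mul_le (by omega)]
      exact h1
    omega
  · intro m
    have : (a m : ℤ) + (A + 3) ≤ p := by
      apply cancel
      have h1 := A2 m
      have h2 := hv2 m
      nlinarith only [h1, h2, hA8, hE, hE1, hE2, hE4, hEA]
    exact_mod_cast this
  · intro m
    have : (b m : ℤ) + g ≤ p := by
      apply cancel
      have h1 := B2 m
      have h2 := hu2 m
      nlinarith only [h1, h2, hE1, hg4]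
    exact_mod_cast this

end MW
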