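import Pool.Agent.Lib.MP_a542cf_al.Mult

/-! MW-Step: the abstract Stepanov inequality on the line. -/

namespace MW

open Polynomial

section
variable {K : Type*} [Field K]

theorem step_mul_lt {F g : K[X]} {c n : ℕ} (hF : F.natDegree ≤ c)
    (hg : g.degree < (n : WithBot ℕ)) : (F * g).degree < ((n + c : ℕ) : WithBot ℕ) := by
  by_cases h : F * g = 0
  · rw [h, degree_zero]
    exact WithBot.bot_lt_coe _
  · have hg0 : g ≠ 0 := fun h' => h (by rw [h', mul_zero])
    rw [← natDegree_lt_iff_degree_lt h]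
    rw [← natDegree_lt_iff_degree_lt hg0] at hg
    have := natDegree_mul_le (p := F) (q := g)
    omega

theorem step_Xd {f : K[X]} {n : ℕ} (hf : f.degree < (n : WithBot ℕ)) :
    (X * derivative f).degree < (n : WithBot ℕ) := by
  rw [degree_lt_iff_coeff_zero] at hf ⊢
  intro m hm
  cases m with
  | zero => simp
  | succ m => rw [coeff_X_mul, coeff_derivative, hf _ hm, zero_mul]

/-- the twisted derivation -/
noncomputable def stepD (u q : K[X]) : K[X] →ₗ[K] K[X] :=
  (LinearMap.mulLeft K u).comp (derivative : K[X] →ₗ[K] K[X]) + LinearMap.mulLeft K q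

theorem stepD_apply (u q f : K[X]) : stepD u q f = u * derivative f + q * f := rfl

theorem stepD_degree {u2 q f : K[X]} (hu : u2.natDegree ≤ 2) (hq : q.natDegree ≤ 2) {n : ℕ}
    (hf : f.degree < (n : WithBot ℕ)) :
    (stepD (u2 * X) q f).degree < ((n + 2 : ℕ) : WithBot ℕ) := by
  rw [stepD_apply, mul_assoc]
  exact (degree_add_le _ _).trans_lt (max_lt (step_mul_lt hu (step_Xd hf)) (step_mul_lt hq hf))

theorem stepD_pow_degree {u2 q f : K[X]} (hu : u2.natDegree ≤ 2) (hq : q.natDegree ≤ 2) {n : ℕ}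
    (hf : f.degree < (n : WithBot ℕ)) (i : ℕ) :
    (((stepD (u2 * X) q) ^ i) f).degree < ((n + 2 * i : ℕ) : WithBot ℕ) := by
  induction i with
  | zero => simpa using hf
  | succ i ih =>
    rw [pow_succ', Module.End.mul_apply]
    exact stepD_degree hu hq ih

theorem step_dpow {y : K[X]} (hy : derivative y = 1) (n : ℕ) :
    y * derivative (y ^ n) = (n : K[X]) * y ^ n := by
  cases n with
  | zero => simp
  | succ n =>
    rw [derivative_pow, hy, mul_one]
    simp only [Nat.add_sub_cancel, map_natCast]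
    ring

theorem step_dG (l : K) (a b c : ℕ) :
    ((X - 1) * (X - C l) * X) * derivative (X ^ a * (X - C l) ^ b * (X - 1) ^ c) =
      ((a : K[X]) * ((X - 1) * (X - C l)) + (b : K[X]) * (X * (X - 1)) +
        (c : K[X]) * (X * (X - C l))) * (X ^ a * (X - C l) ^ b * (X - 1) ^ c) := by
  have h1 := step_dpow (y := (X : K[X])) derivative_X a
  have h2 := step_dpow (y := (X - C l : K[X])) (by simp) b
  have h3 := step_dpow (y := (X - 1 : K[X])) (by simp) c
  rw [derivative_mul, derivative_mul]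
  linear_combination ((X - 1) * (X - C l) * (X - C l) ^ b * (X - 1) ^ c) * h1 +
    (X * (X - 1) * X ^ a * (X - 1) ^ c) * h2 + (X * (X - C l) * X ^ a * (X - C l) ^ b) * h3

/-- the derivation of one term -/
theorem step_term (p : ℕ) [CharP K p] (u q G f : K[X]) (k : ℕ) (hG : u * derivative G = q * G) :
    u * derivative (f * (X ^ (p * k) * G)) = stepD u q f * (X ^ (p * k) * G) := by
  have h1 : derivative ((X : K[X]) ^ (p * k)) = 0 := by
    rw [derivative_X_pow, Nat.cast_mul, CharP.cast_eq_zero, zero_mul, map_zero, zero_mul]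
  rw [derivative_mul, derivative_mul, h1, stepD_apply]
  linear_combination (f * X ^ (p * k)) * hG

theorem step_iter (p : ℕ) [CharP K p] {κ : Type*} [Fintype κ] (u : K[X]) (q G : κ → K[X])
    (k : κ → ℕ) (hG : ∀ m, u * derivative (G m) = q m * G m) (f : κ → K[X]) (i : ℕ) :
    (fun f : K[X] => u * derivative f)^[i] (∑ s, f s * (X ^ (p * k s) * G s)) =
      ∑ s, ((stepD u (q s)) ^ i) (f s) * (X ^ (p * k s) * G s) := by
  induction i with
  | zero => simp
  | succ i ih =>
    rw [Function.iterate_succ_apply', ih]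
    simp only [derivative_sum, Finset.mul_sum]
    refine Finset.sum_congr rfl fun s _ => ?_
    rw [step_term p u (q s) (G s) _ (k s) (hG s), pow_succ', Module.End.mul_apply]

theorem step_dvd {R : Finset K} {M : ℕ} {F : K[X]} (hF : F ≠ 0)
    (h : ∀ r ∈ R, (X - C r) ^ M ∣ F) : R.card * M ≤ F.natDegree := by
  have h1 : ∏ r ∈ R, (X - C r) ^ M ∣ F := by
    refine Finset.prod_dvd_of_coprime ?_ h
    intro r _ s _ hrs
    exact (pairwise_coprime_X_sub_C (K := K) (s := id) Function.injective_id hrs).pow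
  have h2 := natDegree_le_of_dvd h1 hF
  rw [natDegree_prod_of_monic _ _ fun r _ => (monic_X_sub_C r).pow M] at h2
  simp only [natDegree_pow, natDegree_X_sub_C, mul_one, Finset.sum_const, smul_eq_mul] at h2
  exact h2

end

theorem step {K : Type*} [Field K] (p : ℕ) [Fact p.Prime] [CharP K p] {ι : Type*} [Fintype ι]
    [DecidableEq ι] (l : K) (R : Finset K) (hR : ∀ r ∈ R, r ≠ 0 ∧ r ≠ 1 ∧ r ≠ l)
    (a b : ι → ℕ) (b0 a1 : ℕ) (hb : ∀ m, b m ≤ b0) (ha : ∀ m, a m ≤ a1)
    (γ : ι → K) (g0 : K → K) (hg0 : ∀ r ∈ R, g0 r ≠ 0)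
    (hG : ∀ r ∈ R, ∀ m, r ^ (a m) * (r - l) ^ (b m) * (r - 1) ^ (b0 - b m) = γ m * g0 r)
    (A B M : ℕ) (hB : 1 ≤ B) (hM : M ≤ p)
    (P Q : K[X]) (hP : P.natDegree ≤ 1) (hQ : Q.natDegree ≤ 1)
    (hPQ : B = 1 ∨ ∀ r ∈ R, r ^ p * Q.eval r = P.eval r ∧ Q.eval r ≠ 0)
    (hcount : M * (A + B) + M * (M - 1) < A * B * Fintype.card ι)
    (hind : ∀ f : Fin B → ι → K[X], (∀ k m, (f k m).degree < (A : WithBot ℕ)) →
      ∑ k : Fin B, ∑ m, f k m * (X ^ (p * (k : ℕ)) *
      (X ^ (a m) * (X - C l) ^ (b m) * (X - 1) ^ (b0 - b m))) = 0 → ∀ k m, f k m = 0) :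
    R.card * M ≤ A + p * (B - 1) + a1 + b0 := by
  classical
  set G : ι → K[X] := fun m => X ^ (a m) * (X - C l) ^ (b m) * (X - 1) ^ (b0 - b m) with hGdef
  set q : ι → K[X] := fun m => (a m : K[X]) * ((X - 1) * (X - C l)) +
    (b m : K[X]) * (X * (X - 1)) + ((b0 - b m : ℕ) : K[X]) * (X * (X - C l)) with hq
  set u2 : K[X] := (X - 1) * (X - C l) with hu2
  have hX1 : (X - 1 : K[X]).natDegree ≤ 1 := by
    rw [← C_1]; exact (natDegree_X_sub_C (1 : K)).le
  have hXl : (X - C l : K[X]).natDegree ≤ 1 := (natDegree_X_sub_C l).le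
  have hX : (X : K[X]).natDegree ≤ 1 := natDegree_X_le
  have hmul2 : ∀ s t : K[X], s.natDegree ≤ 1 → t.natDegree ≤ 1 → (s * t).natDegree ≤ 2 := by
    intro s t hs ht
    have := natDegree_mul_le (p := s) (q := t)
    omega
  have hcast : ∀ (n : ℕ) (s : K[X]), s.natDegree ≤ 2 → ((n : K[X]) * s).natDegree ≤ 2 := by
    intro n s hs
    have := natDegree_mul_le (p := (n : K[X])) (q := s)
    rw [natDegree_natCast] at this
    omega
  have hu2d : u2.natDegree ≤ 2 := hmul2 _ _ hX1 hXl
  have hqd : ∀ m, (q m).natDegree ≤ 2 := fun m =>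
    natDegree_add_le_of_degree_le (natDegree_add_le_of_degree_le (hcast _ _ (hmul2 _ _ hX1 hXl))
      (hcast _ _ (hmul2 _ _ hX hX1))) (hcast _ _ (hmul2 _ _ hX hXl))
  have hDG : ∀ m, (u2 * X) * derivative (G m) = q m * G m := fun m => step_dG l _ _ _
  -- the linear system
  let toP : Fin B → ι → (Fin B × ι × Fin A → K) →ₗ[K] K[X] := fun k m =>
    ∑ j : Fin A, (monomial (j : ℕ)).comp (LinearMap.proj (k, m, j))
  let co : Fin B → ι → K[X] := fun k m => C (γ m) * P ^ (k : ℕ) * Q ^ (B - 1 - (k : ℕ))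
  let H : ℕ → (Fin B × ι × Fin A → K) →ₗ[K] K[X] := fun i =>
    ∑ k : Fin B, ∑ m, (LinearMap.mulLeft K (co k m)).comp
      (((stepD (u2 * X) (q m)) ^ i).comp (toP k m))
  let Φ : (Fin B × ι × Fin A → K) →ₗ[K] ((Σ i : Fin M, Fin (A + B + 2 * (i : ℕ))) → K) :=
    LinearMap.pi fun s => (lcoeff K (s.2 : ℕ)).comp (H s.1)
  have hrank : Module.finrank K ((Σ i : Fin M, Fin (A + B + 2 * (i : ℕ))) → K) <
      Module.finrank K (Fin B × ι × Fin A → K) := by
    rw [Module.finrank_fintype_fun_eq_card, Module.finrank_fintype_fun_eq_card,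
      Fintype.card_sigma, Fintype.card_prod, Fintype.card_prod]
    simp only [Fintype.card_fin]
    have h1 : ∑ i : Fin M, (A + B + 2 * (i : ℕ)) = M * (A + B) + M * (M - 1) := by
      rw [Fin.sum_univ_eq_sum_range fun i => A + B + 2 * i, Finset.sum_add_distrib,
        Finset.sum_const, Finset.card_range, smul_eq_mul, ← Finset.mul_sum,
        ← Finset.sum_range_id_mul_two]
      ring
    rw [h1]
    calc M * (A + B) + M * (M - 1) < A * B * Fintype.card ι := hcount
      _ = B * (Fintype.card ι * A) := by ring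
  obtain ⟨v, hv, hv0⟩ := Submodule.exists_mem_ne_zero_of_ne_bot
    (LinearMap.ker_ne_bot_of_finrank_lt (f := Φ) hrank)
  rw [LinearMap.mem_ker] at hv
  set f : Fin B → ι → K[X] := fun k m => toP k m v with hf
  have htoP : ∀ k m, f k m = ∑ j : Fin A, monomial (j : ℕ) (v (k, m, j)) := by
    intro k m
    simp only [hf, toP, LinearMap.sum_apply, LinearMap.comp_apply, LinearMap.proj_apply]
  have hfd : ∀ k m, (f k m).degree < (A : WithBot ℕ) := by
    intro k m
    rw [htoP, degree_lt_iff_coeff_zero]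
    intro j hj
    rw [finsetSum_coeff]
    refine Finset.sum_eq_zero fun i _ => ?_
    rw [coeff_monomial, if_neg]
    have := i.2
    omega
  have hfc : ∀ k m (j : Fin A), (f k m).coeff j = v (k, m, j) := by
    intro k m j
    rw [htoP, finsetSum_coeff, Finset.sum_eq_single j]
    · rw [coeff_monomial, if_pos rfl]
    · intro i _ hi
      rw [coeff_monomial, if_neg fun h => hi (Fin.ext h)]
    · intro h
      exact absurd (Finset.mem_univ j) h
  have hHv : ∀ i, H i v = ∑ k : Fin B, ∑ m, co k m * ((stepD (u2 * X) (q m)) ^ i) (f k m) := by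
    intro i
    simp only [H, LinearMap.sum_apply, LinearMap.comp_apply, LinearMap.mulLeft_apply, hf]
  have hH0 : ∀ i < M, H i v = 0 := by
    intro i hi
    have hdeg : (H i v).degree < ((A + B + 2 * i : ℕ) : WithBot ℕ) := by
      rw [hHv]
      have hmem : ∑ k : Fin B, ∑ m, co k m * ((stepD (u2 * X) (q m)) ^ i) (f k m) ∈
          degreeLT K (A + B + 2 * i) := by
        refine Submodule.sum_mem _ fun k _ => Submodule.sum_mem _ fun m _ => ?_
        rw [mem_degreeLT]
        have h1 := stepD_pow_degree hu2d (hqd m) (hfd k m) i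
        have h2 : (co k m).natDegree ≤ B := by
          have e1 := natDegree_mul_le (p := C (γ m) * P ^ (k : ℕ)) (q := Q ^ (B - 1 - (k : ℕ)))
          have e2 := natDegree_mul_le (p := C (γ m)) (q := P ^ (k : ℕ))
          rw [natDegree_C] at e2
          have e3 : (P ^ (k : ℕ)).natDegree ≤ k :=
            natDegree_pow_le.trans (by nlinarith only [hP])
          have e4 : (Q ^ (B - 1 - (k : ℕ))).natDegree ≤ B - 1 - (k : ℕ) :=
            natDegree_pow_le.trans (by nlinarith only [hQ])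
          have := k.2
          change (C (γ m) * P ^ (k : ℕ) * Q ^ (B - 1 - (k : ℕ))).natDegree ≤ B
          omega
        have h3 := step_mul_lt h2 h1
        have e : A + 2 * i + B = A + B + 2 * i := by ring
        rwa [e] at h3
      exact mem_degreeLT.1 hmem
    ext j
    rw [coeff_zero]
    by_cases hj : j < A + B + 2 * i
    · have h1 := congrFun hv ⟨⟨i, hi⟩, ⟨j, hj⟩⟩
      simpa [Φ] using h1
    · rw [degree_lt_iff_coeff_zero] at hdeg
      exact hdeg j (by omega)
  -- the polynomial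
  set F : K[X] := ∑ k : Fin B, ∑ m, f k m * (X ^ (p * (k : ℕ)) * G m) with hF
  have hFne : F ≠ 0 := by
    intro h0
    have h1 := hind f hfd h0
    apply hv0
    funext s
    obtain ⟨k, m, j⟩ := s
    rw [← hfc k m j, h1 k m, coeff_zero]
    rfl
  have hFs : F = ∑ s : Fin B × ι, f s.1 s.2 * (X ^ (p * (s.1 : ℕ)) * G s.2) := by
    rw [hF, Fintype.sum_prod_type]
  have hdvd : ∀ r ∈ R, (X - C r) ^ M ∣ F := by
    intro r hr
    obtain ⟨hr0, hr1, hrl⟩ := hR r hr
    refine mult p (u2 * X) F r ?_ M hM fun i hi => ?_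
    · rw [hu2]
      simp only [eval_mul, eval_sub, eval_X, eval_one, eval_C]
      exact mul_ne_zero (mul_ne_zero (sub_ne_zero.2 hr1) (sub_ne_zero.2 hrl)) hr0
    · rw [hFs, step_iter p (u2 * X) (fun s : Fin B × ι => q s.2) (fun s => G s.2)
        (fun s => (s.1 : ℕ)) (fun s => hDG s.2) (fun s => f s.1 s.2) i]
      have hGr : ∀ m, eval r (G m) = γ m * g0 r := by
        intro m
        rw [← hG r hr m, hGdef]
        simp
      have hQB : ∀ k : Fin B, eval r Q ^ (B - 1) * r ^ (p * (k : ℕ)) =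
          eval r P ^ (k : ℕ) * eval r Q ^ (B - 1 - (k : ℕ)) := by
        intro k
        have hk := k.2
        rcases hPQ with h1 | h1
        · have hk0 : (k : ℕ) = 0 := by omega
          rw [hk0]
          simp
        · obtain ⟨h2, -⟩ := h1 r hr
          have e : B - 1 = (k : ℕ) + (B - 1 - (k : ℕ)) := by omega
          rw [← h2, mul_pow, ← pow_mul]
          nth_rewrite 1 [e]
          rw [pow_add]
          ring
      have hQ0 : eval r Q ^ (B - 1) ≠ 0 := by
        rcases hPQ with h1 | h1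
        · rw [h1]; simp
        · exact pow_ne_zero _ (h1 r hr).2
      have h3 : eval r Q ^ (B - 1) * eval r (∑ s : Fin B × ι,
          ((stepD (u2 * X) (q s.2)) ^ i) (f s.1 s.2) * (X ^ (p * (s.1 : ℕ)) * G s.2)) =
          g0 r * eval r (H i v) := by
        rw [hHv, ← Fintype.sum_prod_type' (f := fun (k : Fin B) (m : ι) =>
          co k m * ((stepD (u2 * X) (q m)) ^ i) (f k m)), eval_finsetSum, eval_finsetSum,
          Finset.mul_sum, Finset.mul_sum]
        refine Finset.sum_congr rfl fun s _ => ?_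
        have h4 := hQB s.1
        simp only [co, eval_mul, eval_pow, eval_X, eval_C, hGr]
        linear_combination (γ s.2 * g0 r *
          eval r (((stepD (u2 * X) (q s.2)) ^ i) (f s.1 s.2))) * h4
      rw [hH0 i hi, eval_zero, mul_zero] at h3
      exact (mul_eq_zero.1 h3).resolve_left hQ0
  refine (step_dvd hFne hdvd).trans ?_
  rw [hF]
  refine natDegree_sum_le_of_forall_le _ _ fun k _ => natDegree_sum_le_of_forall_le _ _ fun m _ => ?_
  have e1 : (f k m).natDegree ≤ A := by
    by_cases h0 : f k m = 0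
    · rw [h0, natDegree_zero]; omega
    · exact ((natDegree_lt_iff_degree_lt h0).2 (hfd k m)).le
  have e2 : (X ^ (p * (k : ℕ)) : K[X]).natDegree ≤ p * (B - 1) := by
    rw [natDegree_X_pow]
    exact Nat.mul_le_mul_left _ (by have := k.2; omega)
  have e3 : (G m).natDegree ≤ a1 + b0 := by
    have g1 := natDegree_mul_le (p := X ^ (a m) * (X - C l) ^ (b m)) (q := (X - 1) ^ (b0 - b m))
    have g2 := natDegree_mul_le (p := (X : K[X]) ^ (a m)) (q := (X - C l) ^ (b m))
    have g3 : ((X : K[X]) ^ (a m)).natDegree ≤ a m := by rw [natDegree_X_pow]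
    have g4 : ((X - C l : K[X]) ^ (b m)).natDegree ≤ b m :=
      natDegree_pow_le.trans (by nlinarith only [hXl])
    have g5 : ((X - 1 : K[X]) ^ (b0 - b m)).natDegree ≤ b0 - b m :=
      natDegree_pow_le.trans (by nlinarith only [hX1])
    have g6 := hb m
    have g7 := ha m
    change (X ^ (a m) * (X - C l) ^ (b m) * (X - 1) ^ (b0 - b m)).natDegree ≤ a1 + b0
    omega
  have e4 := natDegree_mul_le (p := f k m) (q := X ^ (p * (k : ℕ)) * G m)
  have e5 := natDegree_mul_le (p := (X : K[X]) ^ (p * (k : ℕ))) (q := G m)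
  omega

end MW
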