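import Pool.Agent.Lib.MP_a542cf_al.Ind
import Pool.Agent.Lib.MP_a542cf_al.Step
import Pool.Agent.Lib.MP_a542cf_al.Param
import Pool.Agent.Lib.MP_a542cf_al.SharpIdx

/-! MW-Sharp: the sharp Stepanov bound for two cosets of small index. -/

namespace MW

open Polynomial

private theorem sharp_frob {K : Type*} [Field K] (p : ℕ) (hp : 1 ≤ p) (t e : ℕ) (c h : K)
    (hh : h ≠ 0) (hc : h ^ t = c) (ht : t * e = p - 1 ∨ t * e = p + 1) :
    (t * e = p - 1 ∧ h ^ p = c ^ e * h) ∨ (t * e = p + 1 ∧ h ^ p = c ^ e / h) := by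
  rcases ht with ht | ht
  · left
    refine ⟨ht, ?_⟩
    rw [← hc, ← pow_mul, ht, ← pow_succ]
    congr 1
    omega
  · right
    refine ⟨ht, ?_⟩
    rw [← hc, ← pow_mul, ht, pow_succ, mul_div_assoc, div_self hh, mul_one]

/-- the Frobenius relation on the `r`-line -/
private theorem sharp_rel {K : Type*} [Field K] (p : ℕ) (hp : 1 ≤ p) (l : K)
    (h0 : l ≠ 0) (h1 : l ≠ 1) (e d t s : ℕ) (ht : t * e = p - 1 ∨ t * e = p + 1)
    (hs : s * d = p - 1 ∨ s * d = p + 1) (c c' : K) :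
    ∃ P Q : K[X], P.natDegree ≤ 1 ∧ Q.natDegree ≤ 1 ∧ ∀ q : K × K, Adm l t c s c' q →
      (q.1 / q.2) ^ p * Q.eval (q.1 / q.2) = P.eval (q.1 / q.2) ∧ Q.eval (q.1 / q.2) ≠ 0 := by
  set κ : K := c ^ e / c' ^ d with hκ
  rcases ht with ht | ht <;> rcases hs with hs | hs
  · -- r^p = κ r
    refine ⟨C κ * X, 1, ?_, by simp, ?_⟩
    · exact (natDegree_C_mul_le _ _).trans natDegree_X_le
    · rintro ⟨h, η⟩ ⟨hh, hη, heq, hc, hc'⟩
      simp only at hh hη heq hc hc' ⊢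
      have e1 : h ^ p = c ^ e * h := by
        rcases sharp_frob p hp t e c h hh hc (Or.inl ht) with ⟨_, h⟩ | ⟨h, _⟩
        · exact h
        · omega
      have e2 : η ^ p = c' ^ d * η := by
        rcases sharp_frob p hp s d c' η hη hc' (Or.inl hs) with ⟨_, h⟩ | ⟨h, _⟩
        · exact h
        · omega
      refine ⟨?_, by simp⟩
      rw [div_pow, e1, e2, hκ]
      simp only [eval_one, mul_one, eval_mul, eval_C, eval_X]
      rw [mul_div_mul_comm]
  · -- r^p = κ w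
    refine ⟨C κ * (X - C l), X - 1, ?_, ?_, ?_⟩
    · exact (natDegree_C_mul_le _ _).trans (natDegree_X_sub_C_le _)
    · have := natDegree_X_sub_C_le (1 : K)
      simpa using this
    · rintro ⟨h, η⟩ ⟨hh, hη, heq, hc, hc'⟩
      simp only at hh hη heq hc hc' ⊢
      obtain ⟨r0, r1, rl, hw⟩ := param h0 h1 hh hη heq
      have e1 : h ^ p = c ^ e * h := by
        rcases sharp_frob p hp t e c h hh hc (Or.inl ht) with ⟨_, h⟩ | ⟨h, _⟩
        · exact h
        · omega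
      have e2 : η ^ p = c' ^ d / η := by
        rcases sharp_frob p hp s d c' η hη hc' (Or.inr hs) with ⟨h, _⟩ | ⟨_, h⟩
        · omega
        · exact h
      have hc'0 : c' ≠ 0 := by rw [← hc']; exact pow_ne_zero _ hη
      refine ⟨?_, ?_⟩
      · rw [div_pow, e1, e2, hκ]
        simp only [eval_one, eval_mul, eval_C, eval_X, eval_sub]
        rw [← hw]
        field_simp
      · simp only [eval_sub, eval_X, eval_one]
        exact sub_ne_zero.2 r1
  · -- r^p = κ / w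
    refine ⟨C κ * (X - 1), X - C l, ?_, natDegree_X_sub_C_le _, ?_⟩
    · refine (natDegree_C_mul_le _ _).trans ?_
      have := natDegree_X_sub_C_le (1 : K)
      simpa using this
    · rintro ⟨h, η⟩ ⟨hh, hη, heq, hc, hc'⟩
      simp only at hh hη heq hc hc' ⊢
      obtain ⟨r0, r1, rl, hw⟩ := param h0 h1 hh hη heq
      have e1 : h ^ p = c ^ e / h := by
        rcases sharp_frob p hp t e c h hh hc (Or.inr ht) with ⟨h, _⟩ | ⟨_, h⟩
        · omega
        · exact h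
      have e2 : η ^ p = c' ^ d * η := by
        rcases sharp_frob p hp s d c' η hη hc' (Or.inl hs) with ⟨_, h⟩ | ⟨h, _⟩
        · exact h
        · omega
      have hc'0 : c' ≠ 0 := by rw [← hc']; exact pow_ne_zero _ hη
      refine ⟨?_, ?_⟩
      · rw [div_pow, e1, e2, hκ]
        simp only [eval_one, eval_mul, eval_C, eval_X, eval_sub]
        rw [← hw]
        field_simp
      · simp only [eval_sub, eval_X, eval_C]
        exact sub_ne_zero.2 rl
  · -- r^p = κ / r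
    refine ⟨C κ, X, ?_, natDegree_X_le, ?_⟩
    · simp
    · rintro ⟨h, η⟩ ⟨hh, hη, heq, hc, hc'⟩
      simp only at hh hη heq hc hc' ⊢
      have e1 : h ^ p = c ^ e / h := by
        rcases sharp_frob p hp t e c h hh hc (Or.inr ht) with ⟨h, _⟩ | ⟨_, h⟩
        · omega
        · exact h
      have e2 : η ^ p = c' ^ d / η := by
        rcases sharp_frob p hp s d c' η hη hc' (Or.inr hs) with ⟨h, _⟩ | ⟨_, h⟩
        · omega
        · exact h
      have hc'0 : c' ≠ 0 := by rw [← hc']; exact pow_ne_zero _ hη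
      refine ⟨?_, ?_⟩
      · rw [div_pow, e1, e2, hκ]
        simp only [eval_C, eval_X]
        field_simp
      · simp only [eval_X]
        exact div_ne_zero hh hη

/-- the monomial relation on the `r`-line -/
private theorem sharp_mono {K : Type*} [Field K] (l : K) (h0 : l ≠ 0) (h1 : l ≠ 1)
    (t s p : ℕ) (hp : p % 2 = 1) (c c' : K) (q : K × K) (hq : Adm l t c s c' q)
    (i j : ℤ) (a b : ℕ) (hbp : b ≤ p)
    (hb : 2 * (b : ℤ) = 4 + t * i + s * j) (ha : 2 * (a : ℤ) = p + 3 + t * i - s * j) :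
    (q.1 / q.2) ^ a * (q.1 / q.2 - l) ^ b * (q.1 / q.2 - 1) ^ (p - b) =
      (c ^ i * c' ^ j) * ((q.1 / q.2) ^ ((p + 3) / 2) * (q.1 / q.2 - 1) ^ p *
        ((q.1 / q.2 - l) / (q.1 / q.2 - 1)) ^ 2) := by
  obtain ⟨h, η⟩ := q
  obtain ⟨hh, hη, heq, hc, hc'⟩ := hq
  simp only at hh hη heq hc hc' ⊢
  obtain ⟨r0, r1, rl, hw⟩ := param h0 h1 hh hη heq
  have hmon := param_mon h0 h1 hh hη heq t s i j ((a : ℤ) - ((p + 3) / 2 : ℕ)) ((b : ℤ) - 2)
    (by push_cast; omega) (by omega)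
  rw [hc, hc'] at hmon
  rw [← hmon]
  set r := h / η with hr
  have r1' : r - 1 ≠ 0 := sub_ne_zero.2 r1
  have rl' : r - l ≠ 0 := sub_ne_zero.2 rl
  have hw0 : (r - l) / (r - 1) ≠ 0 := div_ne_zero rl' r1'
  have key1 : r ^ a = r ^ ((a : ℤ) - ((p + 3) / 2 : ℕ)) * r ^ ((p + 3) / 2) := by
    rw [← zpow_natCast r ((p + 3) / 2), ← zpow_add₀ r0, ← zpow_natCast r a]
    congr 1
    ring
  have key2 : ((r - l) / (r - 1)) ^ b =
      ((r - l) / (r - 1)) ^ ((b : ℤ) - 2) * ((r - l) / (r - 1)) ^ 2 := by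
    rw [← zpow_natCast _ 2, ← zpow_add₀ hw0, ← zpow_natCast _ b]
    congr 1
    push_cast
    ring
  have key3 : (r - l) ^ b * (r - 1) ^ (p - b) = ((r - l) / (r - 1)) ^ b * (r - 1) ^ p := by
    have : (r - 1) ^ p = (r - 1) ^ b * (r - 1) ^ (p - b) := by
      rw [← pow_add]; congr 1; omega
    rw [this, div_pow]
    field_simp
  rw [mul_assoc, key3, key1, key2]
  ring

/-- the size of the fibres of `S → R` -/
private theorem sharp_card {K : Type*} [Field K] [DecidableEq K] (p : ℕ) [Fact p.Prime]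
    (hp2 : p ≠ 2) [CharP K p] (l : K)
    (h0 : l ≠ 0) (h1 : l ≠ 1) (E N t s : ℕ) (c c' : K)
    (S : Finset (K × K)) (hS : ∀ q ∈ S, Adm l t c s c' q)
    (hN : (t % 2 = 0 ∧ s % 2 = 0 ∧ N = 2 * E) ∨ (¬ (t % 2 = 0 ∧ s % 2 = 0) ∧ N = E)) :
    S.card * E ≤ N * (S.image (fun q => q.1 / q.2)).card := by
  have hneg : ∀ n : ℕ, (-1 : K) ^ n = 1 → n % 2 = 0 := by
    intro n hn
    by_contra hodd
    have : Odd n := Nat.odd_iff.2 (by omega)
    rw [this.neg_one_pow] at hn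
    have h2 : (2 : K) = 0 := by linear_combination -hn
    have h3 : ((2 : ℕ) : K) = 0 := by exact_mod_cast h2
    rw [CharP.cast_eq_zero_iff K p] at h3
    have := Nat.le_of_dvd (by norm_num) h3
    have := (Fact.out : p.Prime).two_le
    omega
  rcases hN with ⟨_, _, hN⟩ | ⟨hts, hN⟩
  · have : S.card ≤ 2 * (S.image (fun q => q.1 / q.2)).card := by
      refine Finset.card_le_mul_card_image _ _ ?_
      intro r hr
      rw [Finset.mem_image] at hr
      obtain ⟨q, hq, rfl⟩ := hr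
      have hsub : S.filter (fun a => a.1 / a.2 = q.1 / q.2) ⊆ {q, (-q.1, -q.2)} := by
        intro a ha
        rw [Finset.mem_filter] at ha
        obtain ⟨haS, har⟩ := ha
        obtain ⟨a1, a2, a3, _, _⟩ := hS a haS
        obtain ⟨q1, q2, q3, _, _⟩ := hS q hq
        rcases param_inj h0 h1 q1 q2 q3 a1 a2 a3 har.symm with ⟨e1, e2⟩ | ⟨e1, e2⟩
        · rw [Finset.mem_insert]; left; exact Prod.ext e1 e2
        · rw [Finset.mem_insert, Finset.mem_singleton]; right; exact Prod.ext e1 e2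
      exact (Finset.card_le_card hsub).trans Finset.card_le_two
    rw [hN]
    nlinarith
  · have : S.card = (S.image (fun q => q.1 / q.2)).card := by
      rw [Finset.card_image_of_injOn]
      intro a haS q hq har
      simp only at har
      obtain ⟨a1, a2, a3, a4, a5⟩ := hS a haS
      obtain ⟨q1, q2, q3, q4, q5⟩ := hS q hq
      rcases param_inj h0 h1 q1 q2 q3 a1 a2 a3 har.symm with ⟨e1, e2⟩ | ⟨e1, e2⟩
      · exact Prod.ext e1 e2
      · exfalso
        apply hts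
        constructor
        · apply hneg
          have : (-1 : K) ^ t * q.1 ^ t = q.1 ^ t := by
            rw [← mul_pow, neg_one_mul, ← e1, a4, q4]
          exact mul_right_cancel₀ (pow_ne_zero t q1) (by rw [this, one_mul])
        · apply hneg
          have : (-1 : K) ^ s * q.2 ^ s = q.2 ^ s := by
            rw [← mul_pow, neg_one_mul, ← e2, a5, q5]
          exact mul_right_cancel₀ (pow_ne_zero s q2) (by rw [this, one_mul])
    rw [hN, this, mul_comm]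

/-- the choice of the parameters -/
private theorem sharp_param (p E N : ℕ) (hE1 : 1 ≤ E) (hE : 10 ^ 4 * E ^ 4 ≤ p)
    (hN1 : 1 ≤ N) (hN : N ≤ 2 * E) :
    ∃ B M : ℕ, 10 ≤ B ∧ M + 1 = B * N ∧ M ≤ p ∧
      M * (p / (8 * E ^ 2) + B) + M * (M - 1) < p / (8 * E ^ 2) * B * N ∧
      Real.sqrt p ≤ (B + 1) * (10 * E ^ 2) := by
  have hq : 100 * E ^ 2 ≤ Nat.sqrt p := by
    rw [Nat.le_sqrt']
    calc (100 * E ^ 2) ^ 2 = 10 ^ 4 * E ^ 4 := by ring
      _ ≤ p := hE
  have hE2 : 0 < 10 * E ^ 2 := by positivity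
  set B := Nat.sqrt p / (10 * E ^ 2) with hBdef
  have hB10 : 10 ≤ B := by
    rw [hBdef, Nat.le_div_iff_mul_le hE2]
    calc 10 * (10 * E ^ 2) = 100 * E ^ 2 := by ring
      _ ≤ _ := hq
  have hBsq : B * (10 * E ^ 2) ≤ Nat.sqrt p := Nat.div_mul_le_self _ _
  have hBp : 100 * (B ^ 2 * E ^ 4) ≤ p := by
    calc 100 * (B ^ 2 * E ^ 4) = (B * (10 * E ^ 2)) * (B * (10 * E ^ 2)) := by ring
      _ ≤ Nat.sqrt p * Nat.sqrt p := Nat.mul_le_mul hBsq hBsq
      _ ≤ p := Nat.sqrt_le p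
  have hNN : N * (N + 1) ≤ 6 * E ^ 2 := by nlinarith
  have hA : B ^ 2 * (N * (N + 1)) ≤ p / (8 * E ^ 2) := by
    rw [Nat.le_div_iff_mul_le (by positivity)]
    calc B ^ 2 * (N * (N + 1)) * (8 * E ^ 2) ≤ B ^ 2 * (6 * E ^ 2) * (8 * E ^ 2) := by
          gcongr
      _ = 48 * (B ^ 2 * E ^ 4) := by ring
      _ ≤ 100 * (B ^ 2 * E ^ 4) := by gcongr; norm_num
      _ ≤ p := hBp
  have hBN : 10 ≤ B * N := by nlinarith
  obtain ⟨m, hm⟩ : ∃ m, B * N = m + 2 := ⟨B * N - 2, by omega⟩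
  refine ⟨B, m + 1, hB10, by omega, ?_, ?_, ?_⟩
  · -- m + 1 ≤ B N ≤ B * 2E ≤ ...
    have : B * N ≤ B ^ 2 * (N * (N + 1)) := by nlinarith
    have h2 : p / (8 * E ^ 2) ≤ p := Nat.div_le_self _ _
    omega
  · set A := p / (8 * E ^ 2) with hAdef
    have e1 : A * B * N = A * (m + 2) := by rw [mul_assoc, hm]
    rw [e1, Nat.add_sub_cancel]
    have e2 : (m + 2) * (B + (m + 2)) ≤ A := by
      calc (m + 2) * (B + (m + 2)) = (B * N) * (B + B * N) := by rw [hm]
        _ = B ^ 2 * (N * (N + 1)) := by ring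
        _ ≤ A := hA
    nlinarith
  · have h3 : Nat.sqrt p < (B + 1) * (10 * E ^ 2) := by
      rw [hBdef, mul_comm]
      exact Nat.lt_mul_div_succ _ hE2
    have h4 : Real.sqrt p ≤ (Nat.sqrt p + 1 : ℕ) := by
      rw [Real.sqrt_le_left (by positivity)]
      have := Nat.lt_succ_sqrt p
      have h5 : p ≤ (Nat.sqrt p + 1) ^ 2 := by nlinarith
      exact_mod_cast h5
    calc Real.sqrt p ≤ (Nat.sqrt p + 1 : ℕ) := h4
      _ ≤ (((B + 1) * (10 * E ^ 2) : ℕ) : ℝ) := by exact_mod_cast h3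
      _ = (B + 1) * (10 * E ^ 2) := by push_cast; ring

/-- the final computation -/
private theorem sharp_final (p E N B M R S : ℕ) (hE1 : 1 ≤ E) (hE : 10 ^ 4 * E ^ 4 ≤ p)
    (hN1 : 1 ≤ N) (hB : 10 ≤ B) (hM : M + 1 = B * N)
    (hsq : Real.sqrt p ≤ (B + 1) * (10 * E ^ 2))
    (hR : R * M ≤ p / (8 * E ^ 2) + p * (B - 1) + p + p) (hS : S * E ≤ N * R) :
    (S : ℝ) ≤ p / E + 40 * E * Real.sqrt p := by
  have hEpos : (0 : ℝ) < E := by exact_mod_cast hE1
  have h1 : N * (B - 1) ≤ M := by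
    obtain ⟨b, rfl⟩ : ∃ b, B = b + 1 := ⟨B - 1, by omega⟩
    rw [Nat.add_sub_cancel]
    nlinarith
  have h2 : S * E * (B - 1) ≤ p / (8 * E ^ 2) + p * (B + 1) := by
    calc S * E * (B - 1) ≤ N * R * (B - 1) := by gcongr
      _ = R * (N * (B - 1)) := by ring
      _ ≤ R * M := by gcongr
      _ ≤ _ := hR
      _ = p / (8 * E ^ 2) + p * (B + 1) := by
        obtain ⟨b, rfl⟩ : ∃ b, B = b + 1 := ⟨B - 1, by omega⟩
        rw [Nat.add_sub_cancel]
        ring
  have h3 : p / (8 * E ^ 2) * 8 ≤ p := by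
    calc p / (8 * E ^ 2) * 8 ≤ p / (8 * E ^ 2) * (8 * E ^ 2) := by
          gcongr
          nlinarith
      _ ≤ p := Nat.div_mul_le_self _ _
  have h4 : S * E * (B - 1) * 8 ≤ p * (8 * B + 9) := by
    nlinarith
  obtain ⟨b, rfl⟩ : ∃ b, B = b + 1 := ⟨B - 1, by omega⟩
  rw [Nat.add_sub_cancel] at h4
  have h4' : (S : ℝ) * E * b * 8 ≤ p * (8 * (b + 1) + 9) := by exact_mod_cast h4
  push_cast at hsq
  set x := Real.sqrt p with hx
  have hx0 : 0 ≤ x := Real.sqrt_nonneg _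
  have hxx : x * x = p := Real.mul_self_sqrt (Nat.cast_nonneg _)
  have hxE : 100 * (E : ℝ) ^ 2 ≤ x := by
    rw [hx]
    apply Real.le_sqrt_of_sq_le
    calc (100 * (E : ℝ) ^ 2) ^ 2 = ((10 ^ 4 * E ^ 4 : ℕ) : ℝ) := by push_cast; ring
      _ ≤ p := by exact_mod_cast hE
  have hb0 : (9 : ℝ) ≤ b := by
    have : 9 ≤ b := by omega
    exact_mod_cast this
  -- x ≤ (b + 2) 10 E²; so 0.8 x ≤ b * 10 E²
  have h5 : 8 * x ≤ 100 * b * (E : ℝ) ^ 2 := by nlinarith
  -- S E b 8 ≤ p (8 b + 17)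
  have h6 : (S : ℝ) * E ≤ p + 40 * E ^ 2 * x := by
    have hbpos : (0 : ℝ) < b := by linarith
    have : (S : ℝ) * E * (8 * b) ≤ (p + 40 * E ^ 2 * x) * (8 * b) := by
      have h7 : 17 * (x * x) ≤ 320 * b * E ^ 2 * x := by nlinarith
      nlinarith
    exact le_of_mul_le_mul_right this (by positivity)
  calc (S : ℝ) = (S * E) / E := by field_simp
    _ ≤ (p + 40 * E ^ 2 * x) / E := by gcongr
    _ = p / E + 40 * E * x := by field_simp

theorem sharp {K : Type*} [Field K] (p : ℕ) [Fact p.Prime] (hp2 : p ≠ 2) [CharP K p] (l : K)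
    (h0 : l ≠ 0) (h1 : l ≠ 1) (e d t s : ℕ) (ht : t * e = p - 1 ∨ t * e = p + 1)
    (hs : s * d = p - 1 ∨ s * d = p + 1) (hE : 10 ^ 4 * (e * d) ^ 4 ≤ p) (c c' : K)
    (S : Finset (K × K)) (hS : ∀ q ∈ S, Adm l t c s c' q) :
    (S.card : ℝ) ≤ p / (e * d) + 40 * (e * d) * Real.sqrt p := by
  classical
  have hpp : p.Prime := Fact.out
  have hp3 : 3 ≤ p := by
    have := hpp.two_le
    omega
  have hpodd : p % 2 = 1 := by
    rcases hpp.eq_two_or_odd with h | h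
    · exact absurd h hp2
    · exact h
  have he1 : 1 ≤ e := by
    rcases Nat.eq_zero_or_pos e with h | h
    · subst h; omega
    · exact h
  have hd1 : 1 ≤ d := by
    rcases Nat.eq_zero_or_pos d with h | h
    · subst h; omega
    · exact h
  have hE1 : 1 ≤ e * d := Nat.mul_pos he1 hd1
  obtain ⟨N, ii, jj, a, b, G, g, hN, hb2, ha2, hap, hbp, H1, H2, H3, H4, H5⟩ :=
    sharpIdx p e d t s hpp hp2 ht hs hE
  have hN1 : 1 ≤ N := by
    rcases hN with ⟨_, _, h⟩ | ⟨_, h⟩ <;> omega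
  have hN2 : N ≤ 2 * (e * d) := by
    rcases hN with ⟨_, _, h⟩ | ⟨_, h⟩ <;> omega
  obtain ⟨B, M, hB10, hMN, hMp, hcount, hsq⟩ := sharp_param p (e * d) N hE1 hE hN1 hN2
  obtain ⟨P, Q, hP, hQ, hPQ⟩ := sharp_rel p (by omega) l h0 h1 e d t s ht hs c c'
  have hcard := sharp_card p hp2 l h0 h1 (e * d) N t s c c' S hS hN
  set R := S.image (fun q => q.1 / q.2) with hRdef
  have hmem : ∀ r ∈ R, ∃ q ∈ S, r = q.1 / q.2 := by
    intro r hr
    rw [hRdef, Finset.mem_image] at hr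
    obtain ⟨q, hq, rfl⟩ := hr
    exact ⟨q, hq, rfl⟩
  have hR : ∀ r ∈ R, r ≠ 0 ∧ r ≠ 1 ∧ r ≠ l := by
    intro r hr
    obtain ⟨q, hq, rfl⟩ := hmem r hr
    obtain ⟨q1, q2, q3, _, _⟩ := hS q hq
    obtain ⟨r0, r1, rl, _⟩ := param h0 h1 q1 q2 q3
    exact ⟨r0, r1, rl⟩
  have hstep := step p l R hR a b p p hbp hap (fun m => c ^ (ii m) * c' ^ (jj m))
    (fun r => r ^ ((p + 3) / 2) * (r - 1) ^ p * ((r - l) / (r - 1)) ^ 2)
    (by
      intro r hr
      obtain ⟨r0, r1, rl⟩ := hR r hr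
      exact mul_ne_zero (mul_ne_zero (pow_ne_zero _ r0) (pow_ne_zero _ (sub_ne_zero.2 r1)))
        (pow_ne_zero _ (div_ne_zero (sub_ne_zero.2 rl) (sub_ne_zero.2 r1))))
    (by
      intro r hr m
      obtain ⟨q, hq, rfl⟩ := hmem r hr
      exact sharp_mono l h0 h1 t s p hpodd c c' q (hS q hq) (ii m) (jj m) (a m) (b m) (hbp m)
        (hb2 m) (ha2 m))
    (p / (8 * (e * d) ^ 2)) B M (by omega) hMp P Q hP hQ
    (Or.inr (by
      intro r hr
      obtain ⟨q, hq, rfl⟩ := hmem r hr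
      exact hPQ q (hS q hq)))
    (by rw [Fintype.card_fin]; exact hcount)
    (fun f hf hsum => ind p l h0 h1 a b p hbp (p / (8 * (e * d) ^ 2)) B G g H1 H2 H3 H4 H5 f hf
      hsum)
  have := sharp_final p (e * d) N B M R.card S.card hE1 hE hN1 hB10 hMN hsq hstep hcard
  push_cast at this
  exact this

end MW
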