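import Pool.Agent.Lib.MP_a542cf_al.CountTotal
import Pool.Agent.Lib.MP_a542cf_al.Sharp

/-! MW-Lower: asymptotic number of points of two cosets of small index on the curve. -/

namespace MW

open Finset in
/-- at most `e` elements have a given `e`-th power -/
private theorem lower_roots {K : Type} [Field K] [Fintype K] [DecidableEq K] (e : ℕ) (he : 0 < e)
    (g : K) : (univ.filter fun x : K => x ^ e = g).card ≤ e := by
  have h1 : (univ.filter fun x : K => x ^ e = g) ⊆ (Polynomial.nthRoots e g).toFinset := by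
    intro x hx
    rw [Multiset.mem_toFinset, Polynomial.mem_nthRoots he]
    exact (mem_filter.mp hx).2
  exact (card_le_card h1).trans ((Multiset.toFinset_card_le _).trans (Polynomial.card_nthRoots e g))

open Finset Classical in
private theorem lower_aux (p : ℕ) [Fact p.Prime] (hp2 : p ≠ 2) (K : Type) [Field K] [Fintype K]
    [CharP K p] (l : K) (hl0 : l ≠ 0) (hl1 : l ≠ 1)
    (e d t s s' : ℕ) (c c' g : K) (ht : t * e = p - 1 ∨ t * e = p + 1) (hc : c ^ e = g)
    (hs : s * d = p - 1 ∨ s * d = p + 1) (hs' : s' * 1 = p - 1 ∨ s' * 1 = p + 1)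
    (hc' : c' ^ d = 1) (hE : 10 ^ 4 * (e * d) ^ 4 ≤ p)
    (htot : {q : K × K | Adm l (t * e) g (s * d) 1 q}.ncard +
      {q : K × K | Adm l (t * e) g s' 1 q}.ncard = 2 * (t * e)) :
    |({q : K × K | Adm l t c s c' q}.ncard : ℝ) - p / (e * d)| ≤
      82 * (e * d) ^ 2 * Real.sqrt p := by
  have hp : 3 ≤ p := by
    have h1 := (Fact.out : p.Prime).two_le
    omega
  have he : 0 < e := by
    rcases Nat.eq_zero_or_pos e with h | h
    · rw [h, Nat.mul_zero] at ht
      omega
    · exact h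
  have hd : 0 < d := by
    rcases Nat.eq_zero_or_pos d with h | h
    · rw [h, Nat.mul_zero] at hs
      omega
    · exact h
  have hN : ∀ (t : ℕ) (c : K) (s : ℕ) (c' : K), {q : K × K | Adm l t c s c' q}.ncard =
      (univ.filter fun q : K × K => Adm l t c s c' q).card := by
    intro t c s c'
    rw [← Set.ncard_coe_finset]
    congr 1
    ext q
    simp
  rw [hN, hN] at htot
  rw [hN]
  have hE1 : 10 ^ 4 * (e * 1) ^ 4 ≤ p := by
    refine le_trans (Nat.mul_le_mul_left _ (Nat.pow_le_pow_left ?_ 4)) hE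
    exact Nat.mul_le_mul_left _ hd
  have hB1 : ∀ c1 c2 : K, ((univ.filter fun q : K × K => Adm l t c1 s c2 q).card : ℝ) ≤
      p / (e * d) + 40 * (e * d) * Real.sqrt p := fun c1 c2 =>
    sharp p hp2 l hl0 hl1 e d t s ht hs hE c1 c2 _ fun q hq => (mem_filter.mp hq).2
  have hB2 : ∀ c1 : K, ((univ.filter fun q : K × K => Adm l t c1 s' 1 q).card : ℝ) ≤
      p / e + 40 * e * Real.sqrt p := fun c1 => by
    have h1 := sharp p hp2 l hl0 hl1 e 1 t s' ht hs' hE1 c1 1
      (univ.filter fun q : K × K => Adm l t c1 s' 1 q) fun q hq => (mem_filter.mp hq).2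
    simpa using h1
  set R1 : Finset K := univ.filter fun x : K => x ^ e = g with hR1
  set R2 : Finset K := univ.filter fun x : K => x ^ d = 1 with hR2
  have hR1c : R1.card ≤ e := lower_roots e he g
  have hR2c : R2.card ≤ d := lower_roots d hd 1
  -- the first total
  have hT1 : ((univ.filter fun q : K × K => Adm l (t * e) g (s * d) 1 q).card : ℝ) ≤
      ((univ.filter fun q : K × K => Adm l t c s c' q).card : ℝ) +
        ((e * d : ℕ) - 1 : ℝ) * (p / (e * d) + 40 * (e * d) * Real.sqrt p) := by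
    have hsub : (univ.filter fun q : K × K => Adm l (t * e) g (s * d) 1 q) ⊆
        (univ.filter fun q : K × K => Adm l t c s c' q) ∪
          ((R1 ×ˢ R2).erase (c, c')).biUnion
            (fun x => univ.filter fun q : K × K => Adm l t x.1 s x.2 q) := by
      intro q hq
      obtain ⟨_, h0, h1, h2, h3, h4⟩ := mem_filter.mp hq
      rw [mem_union, mem_filter, mem_biUnion]
      by_cases hx : (q.1 ^ t, q.2 ^ s) = (c, c')
      · left
        rw [Prod.mk.injEq] at hx
        exact ⟨mem_univ _, h0, h1, h2, hx.1, hx.2⟩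
      · right
        refine ⟨(q.1 ^ t, q.2 ^ s), ?_, ?_⟩
        · rw [mem_erase, mem_product, hR1, hR2, mem_filter, mem_filter]
          refine ⟨hx, ⟨mem_univ _, ?_⟩, mem_univ _, ?_⟩
          · rw [← pow_mul]
            exact h3
          · rw [← pow_mul]
            exact h4
        · rw [mem_filter]
          exact ⟨mem_univ _, h0, h1, h2, rfl, rfl⟩
    have hcc : (c, c') ∈ R1 ×ˢ R2 := by
      rw [mem_product, hR1, hR2, mem_filter, mem_filter]
      exact ⟨⟨mem_univ _, hc⟩, mem_univ _, hc'⟩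
    have hce : ((R1 ×ˢ R2).erase (c, c')).card + 1 ≤ e * d := by
      rw [card_erase_add_one hcc, card_product]
      exact Nat.mul_le_mul hR1c hR2c
    have h1 : ((((R1 ×ˢ R2).erase (c, c')).biUnion
        (fun x => univ.filter fun q : K × K => Adm l t x.1 s x.2 q)).card : ℝ) ≤
        (((R1 ×ˢ R2).erase (c, c')).card : ℝ) *
          (p / (e * d) + 40 * (e * d) * Real.sqrt p) := by
      calc ((((R1 ×ˢ R2).erase (c, c')).biUnion
          (fun x => univ.filter fun q : K × K => Adm l t x.1 s x.2 q)).card : ℝ) ≤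
          ((∑ x ∈ (R1 ×ˢ R2).erase (c, c'),
            (univ.filter fun q : K × K => Adm l t x.1 s x.2 q).card : ℕ) : ℝ) := by
            exact_mod_cast card_biUnion_le
        _ = ∑ x ∈ (R1 ×ˢ R2).erase (c, c'),
            ((univ.filter fun q : K × K => Adm l t x.1 s x.2 q).card : ℝ) := by push_cast; rfl
        _ ≤ ∑ _x ∈ (R1 ×ˢ R2).erase (c, c'), (p / (e * d) + 40 * (e * d) * Real.sqrt p) :=
            sum_le_sum fun x _ => hB1 x.1 x.2
        _ = _ := by rw [sum_const, nsmul_eq_mul]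
    have h2 : ((univ.filter fun q : K × K => Adm l (t * e) g (s * d) 1 q).card : ℝ) ≤
        ((univ.filter fun q : K × K => Adm l t c s c' q).card : ℝ) +
        ((((R1 ×ˢ R2).erase (c, c')).biUnion
          (fun x => univ.filter fun q : K × K => Adm l t x.1 s x.2 q)).card : ℝ) := by
      exact_mod_cast (card_le_card hsub).trans (card_union_le _ _)
    refine h2.trans (add_le_add le_rfl (h1.trans ?_))
    refine mul_le_mul_of_nonneg_right ?_ (by positivity)
    have h3 : ((((R1 ×ˢ R2).erase (c, c')).card : ℝ)) + 1 ≤ ((e * d : ℕ) : ℝ) := by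
      exact_mod_cast hce
    linarith
  -- the second total
  have hT2 : ((univ.filter fun q : K × K => Adm l (t * e) g s' 1 q).card : ℝ) ≤
      e * (p / e + 40 * e * Real.sqrt p) := by
    have hsub : (univ.filter fun q : K × K => Adm l (t * e) g s' 1 q) ⊆
        R1.biUnion (fun x => univ.filter fun q : K × K => Adm l t x s' 1 q) := by
      intro q hq
      obtain ⟨_, h0, h1, h2, h3, h4⟩ := mem_filter.mp hq
      rw [mem_biUnion]
      refine ⟨q.1 ^ t, ?_, ?_⟩
      · rw [hR1, mem_filter]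
        refine ⟨mem_univ _, ?_⟩
        rw [← pow_mul]
        exact h3
      · rw [mem_filter]
        exact ⟨mem_univ _, h0, h1, h2, rfl, h4⟩
    calc ((univ.filter fun q : K × K => Adm l (t * e) g s' 1 q).card : ℝ) ≤
        ((∑ x ∈ R1, (univ.filter fun q : K × K => Adm l t x s' 1 q).card : ℕ) : ℝ) := by
          exact_mod_cast (card_le_card hsub).trans card_biUnion_le
      _ = ∑ x ∈ R1, ((univ.filter fun q : K × K => Adm l t x s' 1 q).card : ℝ) := by
          push_cast; rfl
      _ ≤ ∑ _x ∈ R1, (p / e + 40 * e * Real.sqrt p : ℝ) := sum_le_sum fun x _ => hB2 x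
      _ = (R1.card : ℝ) * (p / e + 40 * e * Real.sqrt p) := by rw [sum_const, nsmul_eq_mul]
      _ ≤ _ := mul_le_mul_of_nonneg_right (by exact_mod_cast hR1c) (by positivity)
  -- real estimates
  have hte : ((p : ℝ) - 1) ≤ ((t * e : ℕ) : ℝ) := by
    have h1 : p - 1 ≤ t * e := by omega
    have h2 : ((p - 1 : ℕ) : ℝ) ≤ ((t * e : ℕ) : ℝ) := by exact_mod_cast h1
    rwa [Nat.cast_sub (by omega), Nat.cast_one] at h2
  have htot' : ((univ.filter fun q : K × K => Adm l (t * e) g (s * d) 1 q).card : ℝ) +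
      ((univ.filter fun q : K × K => Adm l (t * e) g s' 1 q).card : ℝ) =
      2 * ((t * e : ℕ) : ℝ) := by exact_mod_cast htot
  have he1 : (1 : ℝ) ≤ e := by exact_mod_cast he
  have hd1 : (1 : ℝ) ≤ d := by exact_mod_cast hd
  have hsq : 1 ≤ Real.sqrt p := by
    rw [Real.one_le_sqrt]
    have : (3 : ℝ) ≤ p := by exact_mod_cast hp
    linarith
  have hed1 : (1 : ℝ) ≤ e * d := by nlinarith
  have h40 : ((e * d : ℕ) - 1 : ℝ) * (p / (e * d) + 40 * (e * d) * Real.sqrt p) =
      p - p / (e * d) + 40 * (e * d) ^ 2 * Real.sqrt p - 40 * (e * d) * Real.sqrt p := by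
    have : (e * d : ℝ) ≠ 0 := by positivity
    push_cast
    field_simp
    ring
  have h41 : (e : ℝ) * (p / e + 40 * e * Real.sqrt p) = p + 40 * e ^ 2 * Real.sqrt p := by
    have : (e : ℝ) ≠ 0 := by positivity
    field_simp
  rw [h40] at hT1
  rw [h41] at hT2
  have hee : 40 * (e : ℝ) ^ 2 * Real.sqrt p ≤ 40 * (e * d) ^ 2 * Real.sqrt p := by
    have h1 : (e : ℝ) ^ 2 ≤ (e * d) ^ 2 := by
      apply pow_le_pow_left₀ (by positivity)
      nlinarith
    nlinarith
  have hx : 1 ≤ (e * d : ℝ) * Real.sqrt p := by nlinarith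
  have hy : (e * d : ℝ) * Real.sqrt p ≤ (e * d) ^ 2 * Real.sqrt p := by
    have h1 : (e * d : ℝ) ≤ (e * d) ^ 2 := by nlinarith
    exact mul_le_mul_of_nonneg_right h1 (by positivity)
  have hup := hB1 c c'
  rw [abs_le]
  constructor
  · nlinarith
  · nlinarith

theorem lower (p : ℕ) [Fact p.Prime] (hp2 : p ≠ 2) (K : Type) [Field K] [Fintype K]
    [Algebra (ZMod p) K] (hK : Fintype.card K = p ^ 2) (l : ZMod p) (hl0 : l ≠ 0) (hl1 : l ≠ 1)
    (e d t s : ℕ) (c c' : K) (hc : TypeC p (algebraMap (ZMod p) K l) c t e)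
    (hs : s * d = p - 1 ∨ s * d = p + 1) (hc' : c' ^ d = 1) (hE : 10 ^ 4 * (e * d) ^ 4 ≤ p) :
    |({q : K × K | Adm (algebraMap (ZMod p) K l) t c s c' q}.ncard : ℝ) - p / (e * d)| ≤
      82 * (e * d) ^ 2 * Real.sqrt p := by
  haveI : CharP K p := charP_of_injective_algebraMap (algebraMap (ZMod p) K).injective p
  have h0 : algebraMap (ZMod p) K l ≠ 0 := by
    rw [Ne, map_eq_zero]
    exact hl0
  have h1 : algebraMap (ZMod p) K l ≠ 1 := by
    intro h
    apply hl1
    apply (algebraMap (ZMod p) K).injective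
    rw [h, map_one]
  obtain ⟨c1, c2⟩ := countTotal p hp2 K hK l hl0
  rcases hc with ⟨ht, hce⟩ | ⟨ht, hce⟩
  · rcases hs with hs | hs
    · refine lower_aux p hp2 K _ h0 h1 e d t s (p + 1) c c' 1 (Or.inl ht) hce (Or.inl hs)
        (Or.inr (Nat.mul_one _)) hc' hE ?_
      rw [ht, hs]
      exact c1
    · refine lower_aux p hp2 K _ h0 h1 e d t s (p - 1) c c' 1 (Or.inl ht) hce (Or.inr hs)
        (Or.inl (Nat.mul_one _)) hc' hE ?_
      rw [ht, hs, add_comm]
      exact c1
  · rcases hs with hs | hs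
    · refine lower_aux p hp2 K _ h0 h1 e d t s (p + 1) c c' _ (Or.inr ht) hce (Or.inl hs)
        (Or.inr (Nat.mul_one _)) hc' hE ?_
      rw [ht, hs]
      exact c2
    · refine lower_aux p hp2 K _ h0 h1 e d t s (p - 1) c c' _ (Or.inr ht) hce (Or.inr hs)
        (Or.inl (Nat.mul_one _)) hc' hE ?_
      rw [ht, hs, add_comm]
      exact c2

end MW
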