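import Pool.Agent.Lib.MP_a542cf_al.WeakCnt

/-! MW-WeakIdx: the exponents for the weak Stepanov bound. -/

namespace MW

/-- if two differences `(x0, y0)`, `(x, y)` have small `β`, they are parallel -/
private theorem weakidx_det {t s j : ℕ} (hj : 1 ≤ j) (ht : 64 * j ^ 5 ≤ t)
    {x0 y0 x y β0 β : ℤ} (h0 : 2 * β0 = t * x0 + s * y0) (h : 2 * β = t * x + s * y)
    (hy0 : |y0| ≤ 2 * j - 1) (hy : |y| ≤ 2 * j - 1)
    (hβ0 : |β0| < 2 * (j : ℤ) ^ 2) (hβ : |β| < 8 * (j : ℤ) ^ 4) : x0 * y = x * y0 := by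
  have hj' : (1 : ℤ) ≤ j := by exact_mod_cast hj
  have ht' : 64 * (j : ℤ) ^ 5 ≤ t := by exact_mod_cast ht
  have hJ : (0 : ℤ) ≤ 2 * j - 1 := by linarith
  have hkey : (t : ℤ) * (x0 * y - x * y0) = 2 * (β0 * y) - 2 * (β * y0) := by
    have h1 : 2 * (β0 * y) = (t * x0 + s * y0) * y := by rw [← h0]; ring
    have h2 : 2 * (β * y0) = (t * x + s * y) * y0 := by rw [← h]; ring
    rw [h1, h2]; ring
  have hb1 : |β0 * y| ≤ 2 * (j : ℤ) ^ 2 * (2 * j - 1) := by
    rw [abs_mul]
    exact mul_le_mul hβ0.le hy (abs_nonneg _) (by positivity)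
  have hb2 : |β * y0| ≤ 8 * (j : ℤ) ^ 4 * (2 * j - 1) := by
    rw [abs_mul]
    exact mul_le_mul hβ.le hy0 (abs_nonneg _) (by positivity)
  have hj24 : (j : ℤ) ^ 2 ≤ (j : ℤ) ^ 4 := pow_le_pow_right₀ hj' (by norm_num)
  have hj4 : (1 : ℤ) ≤ (j : ℤ) ^ 4 := one_le_pow₀ hj'
  have hsum : |2 * (β0 * y) - 2 * (β * y0)| < t := by
    have h1 : |2 * (β0 * y) - 2 * (β * y0)| ≤ 2 * |β0 * y| + 2 * |β * y0| := by
      refine (abs_sub _ _).trans (le_of_eq ?_)
      rw [abs_mul, abs_mul]; norm_num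
    have h2 : 2 * (2 * (j : ℤ) ^ 2 * (2 * j - 1)) ≤ 2 * (8 * (j : ℤ) ^ 4 * (2 * j - 1)) := by
      have h3 : 2 * (j : ℤ) ^ 2 * (2 * j - 1) ≤ 8 * (j : ℤ) ^ 4 * (2 * j - 1) :=
        mul_le_mul_of_nonneg_right (by linarith) hJ
      linarith
    have h4 : 4 * (8 * (j : ℤ) ^ 4 * (2 * j - 1)) = 64 * (j : ℤ) ^ 5 - 32 * (j : ℤ) ^ 4 := by ring
    linarith
  rw [← hkey] at hsum
  by_contra hne
  have hne' : x0 * y - x * y0 ≠ 0 := sub_ne_zero.2 hne
  have h5 : (1 : ℤ) ≤ |x0 * y - x * y0| := Int.one_le_abs hne'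
  rw [abs_mul] at hsum
  have h6 : |(t : ℤ)| = t := abs_of_nonneg (Int.natCast_nonneg t)
  rw [h6] at hsum
  have h7 : (t : ℤ) * 1 ≤ t * |x0 * y - x * y0| :=
    mul_le_mul_of_nonneg_left h5 (Int.natCast_nonneg t)
  linarith

private theorem weakidx_small {t s j : ℕ} (hj : 1 ≤ j)
    {x0 y0 x y β0 β : ℤ} (h0 : 2 * β0 = t * x0 + s * y0) (h : 2 * β = t * x + s * y)
    (hx : |x| ≤ 2 * j - 1) (hy : |y| ≤ 2 * j - 1)
    (hβ0 : |β0| < 2 * (j : ℤ) ^ 2) (hne : x0 ≠ 0 ∨ y0 ≠ 0) (hdet : x0 * y = x * y0) :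
    |β| ≤ (2 * j - 1) * (2 * (j : ℤ) ^ 2) := by
  have hj' : (1 : ℤ) ≤ j := by exact_mod_cast hj
  have hJ : (0 : ℤ) ≤ 2 * j - 1 := by linarith
  rcases hne with h1 | h1
  · have h2 : β * x0 = β0 * x := by
      have h3 : 2 * (β * x0) = 2 * (β0 * x) := by
        have e1 : 2 * (β * x0) = (t * x + s * y) * x0 := by rw [← h]; ring
        have e2 : 2 * (β0 * x) = (t * x0 + s * y0) * x := by rw [← h0]; ring
        have e3 : (s : ℤ) * (x0 * y) = s * (x * y0) := by rw [hdet]
        rw [e1, e2]; linarith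
      linarith
    have h4 : |β| * |x0| = |β0| * |x| := by rw [← abs_mul, h2, abs_mul]
    have h5 : |β| * 1 ≤ |β| * |x0| :=
      mul_le_mul_of_nonneg_left (Int.one_le_abs h1) (abs_nonneg _)
    have h6 : |β0| * |x| ≤ 2 * (j : ℤ) ^ 2 * (2 * j - 1) :=
      mul_le_mul hβ0.le hx (abs_nonneg _) (by positivity)
    linarith
  · have h2 : β * y0 = β0 * y := by
      have h3 : 2 * (β * y0) = 2 * (β0 * y) := by
        have e1 : 2 * (β * y0) = (t * x + s * y) * y0 := by rw [← h]; ring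
        have e2 : 2 * (β0 * y) = (t * x0 + s * y0) * y := by rw [← h0]; ring
        have e3 : (t : ℤ) * (x0 * y) = t * (x * y0) := by rw [hdet]
        rw [e1, e2]; linarith
      linarith
    have h4 : |β| * |y0| = |β0| * |y| := by rw [← abs_mul, h2, abs_mul]
    have h5 : |β| * 1 ≤ |β| * |y0| :=
      mul_le_mul_of_nonneg_left (Int.one_le_abs h1) (abs_nonneg _)
    have h6 : |β0| * |y| ≤ 2 * (j : ℤ) ^ 2 * (2 * j - 1) :=
      mul_le_mul hβ0.le hy (abs_nonneg _) (by positivity)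
    linarith

theorem weakIdx (p t s j : ℕ) (hj : 1 ≤ j) (hst : s ≤ t) (hs : 8 * j ^ 3 ≤ s)
    (ht : 64 * j ^ 5 ≤ t) (hp : 2 * t * j + 8 * j ^ 4 + 1 ≤ p) :
    ∃ (ii jj a b : Fin (2 * j ^ 2) → ℕ) (a0 a1 b0 G g : ℕ),
      (∀ m, 2 * b m = t * ii m + s * jj m) ∧
      (∀ m, 2 * a m + s * jj m = 2 * a0 + t * ii m) ∧
      (∀ m, a m ≤ a1) ∧ (∀ m, b m ≤ b0) ∧ a1 + b0 ≤ 4 * t * j ∧
      (∀ m m', b m ≤ b m' → b m' ≤ b m + G ∨ b m + g ≤ b m') ∧
      (∀ m m', m ≠ m' → b m ≤ b m' → b m' ≤ b m + G →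
        a m + (2 * j ^ 2 + G) ≤ a m' ∨ a m' + (2 * j ^ 2 + G) ≤ a m) ∧
      (∀ m, (Finset.univ.filter (fun m' => b m ≤ b m' ∧ b m' ≤ b m + G)).card *
        (2 * j ^ 2 + G) ≤ g) ∧
      (∀ m, a m + (2 * j ^ 2 + G) ≤ p) ∧ (∀ m, b m + g ≤ p) := by
  obtain ⟨ii, jj, hinj, hlt, hdvd⟩ := weakCnt t s j
  choose b hb using hdvd
  obtain ⟨J1, hJ1⟩ : ∃ J1, J1 + 1 = 2 * j := ⟨2 * j - 1, by omega⟩
  obtain ⟨a0, ha0, ha0'⟩ : ∃ a0, s * J1 ≤ 2 * a0 ∧ 2 * a0 ≤ s * J1 + 1 :=
    ⟨(s * J1 + 1) / 2, by omega, by omega⟩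
  have hii : ∀ m, ii m ≤ J1 := fun m => by have := (hlt m).1; omega
  have hjj : ∀ m, jj m ≤ J1 := fun m => by have := (hlt m).2; omega
  have hsj : ∀ m, s * jj m ≤ s * J1 := fun m => Nat.mul_le_mul_left s (hjj m)
  have hti : ∀ m, t * ii m ≤ t * J1 := fun m => Nat.mul_le_mul_left t (hii m)
  have hst1 : s * J1 ≤ t * J1 := Nat.mul_le_mul_right J1 hst
  have htj : t * J1 + t = 2 * (t * j) := by
    have : t * (J1 + 1) = t * (2 * j) := by rw [hJ1]
    linarith
  have hp' : 2 * (t * j) + 8 * j ^ 4 + 1 ≤ p := by linarith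
  have hjp : 1 ≤ j ^ 2 := Nat.one_le_pow _ _ hj
  have h23 : j ^ 2 ≤ j ^ 3 := Nat.pow_le_pow_right hj (by norm_num)
  have h34 : j ^ 3 ≤ j ^ 4 := Nat.pow_le_pow_right hj (by norm_num)
  have h45 : j ^ 4 ≤ j ^ 5 := Nat.pow_le_pow_right hj (by norm_num)
  obtain ⟨a, haa⟩ : ∃ a : Fin (2 * j ^ 2) → ℕ, ∀ m, 2 * a m + s * jj m = 2 * a0 + t * ii m := by
    refine ⟨fun m => a0 + b m - s * jj m, fun m => ?_⟩
    have h1 := hb m
    have h2 := hsj m
    simp only
    omega
  have h4tj : 4 * t * j = 4 * (t * j) := by ring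
  have ha1 : ∀ m, a m ≤ a0 + (t * J1) / 2 := by
    intro m
    have h1 := haa m
    have h2 := hti m
    omega
  have hb1 : ∀ m, b m ≤ (t * J1 + s * J1) / 2 := by
    intro m
    have h1 := hb m
    have h2 := hti m
    have h3 := hsj m
    omega
  have hsum : a0 + (t * J1) / 2 + (t * J1 + s * J1) / 2 ≤ 4 * t * j := by
    rw [h4tj]; omega
  by_cases hcase : ∀ m m', m ≠ m' → b m ≤ b m' → b m + 2 * j ^ 2 ≤ b m'
  · refine ⟨ii, jj, a, b, a0, a0 + (t * J1) / 2, (t * J1 + s * J1) / 2, 0, 2 * j ^ 2,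
      fun m => (hb m).symm, haa, ha1, hb1, hsum, ?_, ?_, ?_, ?_, ?_⟩
    · intro m m' h
      by_cases hm : m = m'
      · subst hm
        exact Or.inl (Nat.le_add_right _ _)
      · exact Or.inr (hcase m m' hm h)
    · intro m m' hm h h'
      have := hcase m m' hm h
      omega
    · intro m
      have h1 : Finset.univ.filter (fun m' => b m ≤ b m' ∧ b m' ≤ b m + 0) ⊆ {m} := by
        intro m' hm'
        rw [Finset.mem_filter] at hm'
        rw [Finset.mem_singleton]
        by_contra hne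
        have := hcase m m' (Ne.symm hne) hm'.2.1
        omega
      have h2 := Finset.card_le_card h1
      rw [Finset.card_singleton] at h2
      calc _ ≤ 1 * (2 * j ^ 2 + 0) := Nat.mul_le_mul_right _ h2
        _ ≤ 2 * j ^ 2 := by omega
    · intro m
      have h1 := ha1 m
      omega
    · intro m
      have h1 := hb1 m
      omega
  · push Not at hcase
    obtain ⟨m1, m2, hm12, hb12, hb12'⟩ := hcase
    -- integer differences
    have hdist : ∀ m m', |((ii m' : ℤ)) - ii m| ≤ 2 * j - 1 ∧ |((jj m' : ℤ)) - jj m| ≤ 2 * j - 1 := by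
      intro m m'
      have h1 := hii m
      have h2 := hii m'
      have h3 := hjj m
      have h4 := hjj m'
      constructor <;> rw [abs_le] <;> constructor <;> omega
    have hβeq : ∀ m m', 2 * ((b m' : ℤ) - b m) =
        t * ((ii m' : ℤ) - ii m) + s * ((jj m' : ℤ) - jj m) := by
      intro m m'
      have h1 : (t : ℤ) * ii m + s * jj m = 2 * b m := by exact_mod_cast hb m
      have h2 : (t : ℤ) * ii m' + s * jj m' = 2 * b m' := by exact_mod_cast hb m'
      linarith
    have hβ0 : |(b m2 : ℤ) - b m1| < 2 * (j : ℤ) ^ 2 := by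
      have h1 : (b m2 : ℤ) < b m1 + 2 * (j : ℤ) ^ 2 := by exact_mod_cast hb12'
      have h2 : (b m1 : ℤ) ≤ b m2 := by exact_mod_cast hb12
      rw [abs_of_nonneg (by linarith)]
      linarith
    have hne0 : (ii m2 : ℤ) - ii m1 ≠ 0 ∨ (jj m2 : ℤ) - jj m1 ≠ 0 := by
      by_contra hc
      push Not at hc
      apply hm12
      apply hinj
      have h1 : ii m1 = ii m2 := by have := hc.1; omega
      have h2 : jj m1 = jj m2 := by have := hc.2; omega
      simp only [h1, h2]
    have hpar : ∀ m m', |(b m' : ℤ) - b m| < 8 * (j : ℤ) ^ 4 →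
        ((ii m2 : ℤ) - ii m1) * ((jj m' : ℤ) - jj m) =
          ((ii m' : ℤ) - ii m) * ((jj m2 : ℤ) - jj m1) := fun m m' h =>
      weakidx_det hj ht (hβeq m1 m2) (hβeq m m') (hdist m1 m2).2 (hdist m m').2 hβ0 h
    have hG : ((J1 * (2 * j ^ 2) : ℕ) : ℤ) = (2 * j - 1) * (2 * (j : ℤ) ^ 2) := by
      have h1 : (J1 : ℤ) = 2 * j - 1 := by have : (J1 : ℤ) + 1 = 2 * j := by exact_mod_cast hJ1
                                           linarith
      push_cast
      rw [h1]
    have hGv : J1 * (2 * j ^ 2) + 2 * j ^ 2 = 4 * j ^ 3 := by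
      have h1 : (J1 + 1) * (2 * j ^ 2) = 2 * j * (2 * j ^ 2) := by rw [hJ1]
      have h2 : 2 * j * (2 * j ^ 2) = 4 * j ^ 3 := by ring
      linarith
    have hclose : ∀ m m', b m ≤ b m' → b m' < b m + 8 * j ^ 4 →
        b m' ≤ b m + J1 * (2 * j ^ 2) := by
      intro m m' h1 h2
      have h3 : (b m : ℤ) ≤ b m' := by exact_mod_cast h1
      have h4 : (b m' : ℤ) < b m + 8 * (j : ℤ) ^ 4 := by exact_mod_cast h2
      have h5 : |(b m' : ℤ) - b m| < 8 * (j : ℤ) ^ 4 := by
        rw [abs_of_nonneg (by linarith)]; linarith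
      have h6 := weakidx_small hj (hβeq m1 m2) (hβeq m m') (hdist m m').1 (hdist m m').2 hβ0 hne0
        (hpar m m' h5)
      rw [← hG, abs_of_nonneg (by linarith)] at h6
      omega
    refine ⟨ii, jj, a, b, a0, a0 + (t * J1) / 2, (t * J1 + s * J1) / 2, J1 * (2 * j ^ 2),
      8 * j ^ 4, fun m => (hb m).symm, haa, ha1, hb1, hsum, ?_, ?_, ?_, ?_, ?_⟩
    · intro m m' h
      by_cases h1 : b m' < b m + 8 * j ^ 4
      · exact Or.inl (hclose m m' h h1)
      · exact Or.inr (by omega)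
    · intro m m' hm h h'
      have h1 := haa m
      have h2 := haa m'
      have h3 := hb m
      have h4 := hb m'
      by_cases hi : ii m = ii m'
      · exfalso
        have hjne : jj m ≠ jj m' := by
          intro h5
          apply hm
          apply hinj
          simp only [hi, h5]
        rw [hi] at h3
        rcases Nat.lt_or_gt_of_ne hjne with h5 | h5
        · have h6 : s * (jj m + 1) ≤ s * jj m' := Nat.mul_le_mul_left s h5
          have h7 : s * (jj m + 1) = s * jj m + s := by ring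
          omega
        · have h6 : s * (jj m' + 1) ≤ s * jj m := Nat.mul_le_mul_left s h5
          have h7 : s * (jj m' + 1) = s * jj m' + s := by ring
          omega
      · rcases Nat.lt_or_gt_of_ne hi with h5 | h5
        · left
          have h6 : t * (ii m + 1) ≤ t * ii m' := Nat.mul_le_mul_left t h5
          have h7 : t * (ii m + 1) = t * ii m + t := by ring
          omega
        · right
          have h6 : t * (ii m' + 1) ≤ t * ii m := Nat.mul_le_mul_left t h5
          have h7 : t * (ii m' + 1) = t * ii m' + t := by ring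
          omega
    · intro m
      have hcard : (Finset.univ.filter (fun m' => b m ≤ b m' ∧
          b m' ≤ b m + J1 * (2 * j ^ 2))).card ≤ 2 * j := by
        have hp2 : ∀ m' ∈ Finset.univ.filter (fun m' => b m ≤ b m' ∧
            b m' ≤ b m + J1 * (2 * j ^ 2)),
            ((ii m2 : ℤ) - ii m1) * ((jj m' : ℤ) - jj m) =
              ((ii m' : ℤ) - ii m) * ((jj m2 : ℤ) - jj m1) := by
          intro m' hm'
          rw [Finset.mem_filter] at hm'
          apply hpar
          have h1 : (b m : ℤ) ≤ b m' := by exact_mod_cast hm'.2.1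
          have h2 : b m' < b m + 8 * j ^ 4 := by omega
          have h3 : (b m' : ℤ) < b m + 8 * (j : ℤ) ^ 4 := by exact_mod_cast h2
          rw [abs_of_nonneg (by linarith)]; linarith
        rcases hne0 with h0 | h0
        · have h1 := Finset.card_le_card_of_injOn (s := Finset.univ.filter (fun m' => b m ≤ b m' ∧
            b m' ≤ b m + J1 * (2 * j ^ 2))) (t := Finset.range (2 * j)) ii
            (fun m' _ => Finset.mem_coe.2 (Finset.mem_range.2 (hlt m').1)) (by
              intro x hx y hy hxy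
              have e1 := hp2 x hx
              have e2 := hp2 y hy
              rw [hxy] at e1
              rw [← e2] at e1
              have e3 := mul_left_cancel₀ h0 e1
              apply hinj
              have e4 : jj x = jj y := by omega
              simp only [hxy, e4])
          rwa [Finset.card_range] at h1
        · have h1 := Finset.card_le_card_of_injOn (s := Finset.univ.filter (fun m' => b m ≤ b m' ∧
            b m' ≤ b m + J1 * (2 * j ^ 2))) (t := Finset.range (2 * j)) jj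
            (fun m' _ => Finset.mem_coe.2 (Finset.mem_range.2 (hlt m').2)) (by
              intro x hx y hy hxy
              have e1 := hp2 x hx
              have e2 := hp2 y hy
              rw [hxy] at e1
              rw [e2] at e1
              have e3 := mul_right_cancel₀ h0 e1
              apply hinj
              have e4 : ii x = ii y := by omega
              simp only [hxy, e4])
          rwa [Finset.card_range] at h1
      calc _ ≤ 2 * j * (2 * j ^ 2 + J1 * (2 * j ^ 2)) := Nat.mul_le_mul_right _ hcard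
        _ = 2 * j * (4 * j ^ 3) := by rw [← hGv, add_comm (2 * j ^ 2)]
        _ = 8 * j ^ 4 := by ring
    · intro m
      have h1 := ha1 m
      omega
    · intro m
      have h1 := hb1 m
      omega

end MW
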