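import Pool.Agent.Lib.MP_a542cf_al.Ind
import Pool.Agent.Lib.MP_a542cf_al.Step
import Pool.Agent.Lib.MP_a542cf_al.Param
import Pool.Agent.Lib.MP_a542cf_al.WeakIdx

/-! MW-Weak: the weak Stepanov bound for two cosets on `h + l/h = η + 1/η`. -/

namespace MW

theorem weak_card_fibre {α β : Type*} [DecidableEq α] [DecidableEq β] (S : Finset α) (f : α → β)
    (g : α → α)
    (h : ∀ q ∈ S, ∀ q' ∈ S, f q = f q' → q' = q ∨ q' = g q) : S.card ≤ 2 * (S.image f).card := by
  refine Finset.card_le_mul_card_image S 2 ?_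
  intro b hb
  obtain ⟨q, hq, rfl⟩ := Finset.mem_image.1 hb
  have h1 : S.filter (fun x => f x = f q) ⊆ {q, g q} := by
    intro q' hq'
    rw [Finset.mem_filter] at hq'
    rw [Finset.mem_insert, Finset.mem_singleton]
    exact h q hq q' hq'.1 hq'.2.symm
  exact (Finset.card_le_card h1).trans Finset.card_le_two

theorem weak {K : Type*} [Field K] (p : ℕ) [Fact p.Prime] [CharP K p] (l : K) (h0 : l ≠ 0)
    (h1 : l ≠ 1) (t s j : ℕ) (hj : 1 ≤ j) (hs1 : 1 ≤ s) (hst : s ≤ t) (ht : 64 * j ^ 5 ≤ t)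
    (hp : 2 * t * j + 8 * j ^ 4 + 1 ≤ p) (c c' : K) (S : Finset (K × K))
    (hS : ∀ q ∈ S, Adm l t c s c' q) : S.card * j ≤ 4 * j + 8 * t := by
  classical
  rcases lt_or_ge s (8 * j ^ 3) with hs | hs
  · have h2 : S.card ≤ 2 * (S.image Prod.snd).card := by
      refine weak_card_fibre S Prod.snd (fun q => (q.2 + 1 / q.2 - q.1, q.2)) ?_
      rintro ⟨h, η⟩ hq ⟨h', η'⟩ hq' heq
      simp only at heq
      subst heq
      obtain ⟨ha1, ha2, ha3, -, -⟩ := hS _ hq
      obtain ⟨hb1, hb2, hb3, -, -⟩ := hS _ hq'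
      simp only at ha1 ha2 ha3 hb1 hb2 hb3
      have h3 : (h' - h) * (h' - (η + 1 / η - h)) = 0 := by
        have h4 : h ^ 2 + l = (η + 1 / η) * h := by
          rw [← ha3]; field_simp
        have h5 : h' ^ 2 + l = (η + 1 / η) * h' := by
          rw [← hb3]; field_simp
        linear_combination h5 - h4
      rcases mul_eq_zero.1 h3 with h4 | h4
      · left
        rw [sub_eq_zero.1 h4]
      · right
        rw [Prod.mk.injEq]
        exact ⟨sub_eq_zero.1 h4, rfl⟩
    have h3 : (S.image Prod.snd).card ≤ s := by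
      have h4 : S.image Prod.snd ⊆ (Polynomial.nthRoots s c').toFinset := by
        intro η hη
        obtain ⟨q, hq, rfl⟩ := Finset.mem_image.1 hη
        rw [Multiset.mem_toFinset, Polynomial.mem_nthRoots hs1]
        exact (hS q hq).2.2.2.2
      exact (Finset.card_le_card h4).trans ((Multiset.toFinset_card_le _).trans
        (Polynomial.card_nthRoots _ _))
    have h4 : S.card ≤ 16 * j ^ 3 := by omega
    calc S.card * j ≤ 16 * j ^ 3 * j := Nat.mul_le_mul_right _ h4
      _ = 16 * j ^ 4 := by ring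
      _ ≤ 64 * j ^ 5 := by
          have : j ^ 4 ≤ j ^ 5 := Nat.pow_le_pow_right hj (by norm_num)
          omega
      _ ≤ 4 * j + 8 * t := by omega
  · obtain ⟨ii, jj, a, b, a0, a1, b0, G, g, hb2, ha2, ha1, hb0, hab, H1, H2, H3, H4, H5⟩ :=
      weakIdx p t s j hj hst hs ht hp
    set R := S.image (fun q : K × K => q.1 / q.2) with hR
    have h2 : S.card ≤ 2 * R.card := by
      refine weak_card_fibre S _ (fun q => (-q.1, -q.2)) ?_
      rintro ⟨h, η⟩ hq ⟨h', η'⟩ hq' heq
      obtain ⟨ha1, ha2, ha3, -, -⟩ := hS _ hq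
      obtain ⟨hb1, hb2, hb3, -, -⟩ := hS _ hq'
      simp only at ha1 ha2 ha3 hb1 hb2 hb3 heq
      rcases param_inj h0 h1 ha1 ha2 ha3 hb1 hb2 hb3 heq with h5 | h5
      · left
        rw [h5.1, h5.2]
      · right
        rw [h5.1, h5.2]
    have hMp : j ^ 2 ≤ p := by
      have : j ^ 2 ≤ j ^ 4 := Nat.pow_le_pow_right hj (by norm_num)
      omega
    have hstep := step (ι := Fin (2 * j ^ 2)) p l R (by
        intro r hr
        obtain ⟨q, hq, rfl⟩ := Finset.mem_image.1 hr
        obtain ⟨ha1, ha2, ha3, -, -⟩ := hS _ hq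
        obtain ⟨h5, h6, h7, -⟩ := param h0 h1 ha1 ha2 ha3
        exact ⟨h5, h6, h7⟩) a b b0 a1 hb0 ha1 (fun m => c ^ (ii m) * c' ^ (jj m))
        (fun r => r ^ a0 * (r - 1) ^ b0) (by
        intro r hr
        obtain ⟨q, hq, rfl⟩ := Finset.mem_image.1 hr
        obtain ⟨ha1, ha2, ha3, -, -⟩ := hS _ hq
        obtain ⟨h5, h6, h7, -⟩ := param h0 h1 ha1 ha2 ha3
        exact mul_ne_zero (pow_ne_zero _ h5) (pow_ne_zero _ (sub_ne_zero.2 h6))) (by
        intro r hr m
        obtain ⟨q, hq, rfl⟩ := Finset.mem_image.1 hr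
        obtain ⟨ha1', ha2', ha3, ha4, ha5⟩ := hS _ hq
        obtain ⟨h5, h6, h7, -⟩ := param h0 h1 ha1' ha2' ha3
        have h8 := param_mon h0 h1 ha1' ha2' ha3 t s (ii m) (jj m) ((a m : ℤ) - a0) (b m)
          (by have := ha2 m; zify at this; linarith) (by have := hb2 m; zify at this; linarith)
        rw [ha4, ha5] at h8
        simp only [zpow_natCast] at h8
        have h9 : q.1 / q.2 - 1 ≠ 0 := sub_ne_zero.2 h6
        rw [← h8, zpow_sub₀ h5, zpow_natCast, zpow_natCast, div_pow]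
        have h10 : (q.1 / q.2 - 1) ^ b0 = (q.1 / q.2 - 1) ^ (b m) * (q.1 / q.2 - 1) ^ (b0 - b m) := by
          rw [← pow_add]
          congr 1
          have := hb0 m
          omega
        rw [h10]
        generalize hrr : q.1 / q.2 = r at *
        have h11 : r ^ a0 ≠ 0 := pow_ne_zero _ h5
        have h12 : (r - 1) ^ (b m) ≠ 0 := pow_ne_zero _ h9
        field_simp
        rw [← mul_pow, div_mul_cancel₀ _ h9]) (2 * j ^ 2) 1 (j ^ 2) le_rfl hMp 0 0 (by simp) (by simp) (Or.inl rfl) (by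
        rw [Fintype.card_fin]
        have h3 : 1 ≤ j ^ 2 := Nat.one_le_pow _ _ hj
        generalize j ^ 2 = x at *
        obtain ⟨y, rfl⟩ : ∃ y, x = y + 1 := ⟨x - 1, by omega⟩
        simp only [Nat.add_sub_cancel]
        nlinarith) (by
        intro f hf hsum
        exact ind p l h0 h1 a b b0 hb0 (2 * j ^ 2) 1 G g H1 H2 H3 H4 H5 f hf hsum)
    have h3 : R.card * j ^ 2 ≤ 2 * j ^ 2 + 4 * t * j := by
      have h4 : 2 * j ^ 2 + p * (1 - 1) + a1 + b0 ≤ 2 * j ^ 2 + 4 * t * j := by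
        simp only [Nat.sub_self, mul_zero, add_zero]
        omega
      exact hstep.trans h4
    have h4 : R.card * j ≤ 2 * j + 4 * t := by
      have h5 : (R.card * j) * j ≤ (2 * j + 4 * t) * j := by
        calc (R.card * j) * j = R.card * j ^ 2 := by ring
          _ ≤ 2 * j ^ 2 + 4 * t * j := h3
          _ = (2 * j + 4 * t) * j := by ring
      exact Nat.le_of_mul_le_mul_right h5 hj
    calc S.card * j ≤ 2 * R.card * j := Nat.mul_le_mul_right _ h2
      _ = 2 * (R.card * j) := by ring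
      _ ≤ 2 * (2 * j + 4 * t) := Nat.mul_le_mul_left _ h4
      _ = 4 * j + 8 * t := by ring

end MW
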