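import Pool.Agent.Lib.MP_a542cf_al.FibRot
import Pool.Agent.Lib.MP_a542cf_al.Weak

/-! MW-Middle: the middle game. -/

namespace MW

open Polynomial in
/-- few `h` give a prescribed square of `h + l/h` -/
theorem middle_roots {K : Type*} [Field K] [DecidableEq K] (l : K) (hl : l ≠ 0) (c : K) :
    ∃ T : Finset K, T.card ≤ 4 ∧ ∀ h : K, h ≠ 0 → (h + l / h) ^ 2 = c → h ∈ T := by
  let q : K[X] := (X ^ 2 + C l) ^ 2 - C c * X ^ 2
  have hq0 : q ≠ 0 := by
    intro h
    have h1 : q.eval 0 = 0 := by rw [h, eval_zero]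
    simp only [q, eval_sub, eval_pow, eval_add, eval_mul, eval_C, eval_X] at h1
    have h2 : l ^ 2 = 0 := by
      have : (0 : K) ^ 2 = 0 := by norm_num
      rw [this] at h1
      simpa using h1
    exact hl (pow_eq_zero_iff (by norm_num) |>.mp h2)
  have hdeg : q.natDegree ≤ 4 := by
    simp only [q]
    compute_degree
  refine ⟨q.roots.toFinset, ?_, ?_⟩
  · calc q.roots.toFinset.card ≤ q.roots.card := Multiset.toFinset_card_le _
      _ ≤ q.natDegree := card_roots' q
      _ ≤ 4 := hdeg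
  · intro h hh hc
    rw [Multiset.mem_toFinset, mem_roots hq0, IsRoot.def]
    simp only [q, eval_sub, eval_pow, eval_add, eval_mul, eval_C, eval_X]
    rw [← hc]
    field_simp
    ring

theorem middle (p : ℕ) [Fact p.Prime] (hp2 : p ≠ 2) (K : Type) [Field K] [Fintype K]
    [Algebra (ZMod p) K] (hK : Fintype.card K = p ^ 2) (κ : ZMod p) (hκ : κ ≠ 4)
    (O : Set (ZMod p × ZMod p × ZMod p)) (hO : Inv O) (hX : ∀ v ∈ O, OnX κ v)
    (hD : 2 ^ 24 * (Dv p) ^ 4 ≤ p) (x y z : ZMod p) (hv : (x, y, z) ∈ O) (hx : Reg κ x)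
    (t : ℕ) (ht : HasOrd K x t)
    (hmax : ∀ x' y' z', (x', y', z') ∈ O → Reg κ x' → ∀ s, HasOrd K x' s → s ≤ t) :
    t < 2 ^ 31 * (Dv p) ^ 5 ∨ p < 128 * Dv p * t := by
  classical
  by_contra hcon
  rw [not_or, not_lt, not_lt] at hcon
  obtain ⟨hT, hT2⟩ := hcon
  have hpp : p.Prime := Fact.out
  have hp1 : 1 < p := hpp.one_lt
  have hodd : p % 2 = 1 := (hpp.eq_two_or_odd).resolve_left hp2
  set D := Dv p with hDdef
  have hDpos : 1 ≤ D := by
    rw [hDdef]
    unfold Dv
    have : 0 < (Nat.divisors (p - 1)).card :=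
      Finset.card_pos.mpr ⟨1, Nat.one_mem_divisors.mpr (by omega)⟩
    omega
  have htpos : 0 < t := hasOrd_pos p K ht
  obtain ⟨w, hw0, hwx, hwt⟩ := ht
  set lam : ZMod p := (κ - x ^ 2) / (4 - x ^ 2) with hlam
  set l : K := algebraMap (ZMod p) K lam with hl
  obtain ⟨hlam0, hlam1⟩ := lam_ne p hκ hx
  have hinj : Function.Injective (algebraMap (ZMod p) K) := (algebraMap (ZMod p) K).injective
  have hl0 : l ≠ 0 := by
    rw [hl]
    exact (map_ne_zero_iff _ hinj).mpr hlam0
  have hl1 : l ≠ 1 := by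
    rw [hl]
    intro h
    rw [← map_one (algebraMap (ZMod p) K)] at h
    exact hlam1 (hinj h)
  obtain ⟨u, hu0, -, hfib⟩ := fibrot p hp2 K κ hκ O hO hX x y z hv hx w hw0 hwx
  rw [hwt] at hfib
  have : CharP K p := charP_of_injective_algebraMap hinj p
  -- the orbit of `u`
  let Hs : Finset K := (Finset.range t).image (fun n => u * w ^ n)
  have hHcard : Hs.card = t := by
    rw [Finset.card_image_of_injOn, Finset.card_range]
    intro a ha b hb hab
    have h1 : w ^ a = w ^ b := mul_left_cancel₀ hu0 hab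
    rw [Finset.coe_range, Set.mem_Iio] at ha hb
    exact pow_injOn_Iio_orderOf (by rw [hwt]; exact ha) (by rw [hwt]; exact hb) h1
  have hH : ∀ h ∈ Hs, h ≠ 0 ∧ h ^ t = u ^ t := by
    intro h hh
    rw [Finset.mem_image] at hh
    obtain ⟨n, -, rfl⟩ := hh
    refine ⟨mul_ne_zero hu0 (pow_ne_zero _ hw0), ?_⟩
    rw [mul_pow, ← pow_mul, mul_comm n t, pow_mul, ← hwt, pow_orderOf_eq_one, one_pow, mul_one]
  let Ds : Finset ℕ := ((p - 1).divisors ∪ (p + 1).divisors).filter (fun s => s ≤ t)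
  have hDs : Ds.card ≤ D := by
    refine (Finset.card_filter_le _ _).trans ?_
    exact Finset.card_union_le _ _
  let S : ℕ → Finset (K × K) := fun s => Finset.univ.filter (fun q => Adm l t (u ^ t) s 1 q)
  have hS : ∀ s ∈ Ds, (S s).card * (32 * D) ≤ 4 * (32 * D) + 8 * t := by
    intro s hs
    rw [Finset.mem_filter, Finset.mem_union] at hs
    have hs1 : 1 ≤ s := by
      rcases hs.1 with h | h
      · exact Nat.pos_of_mem_divisors h
      · exact Nat.pos_of_mem_divisors h
    refine weak p l hl0 hl1 t s (32 * D) (by omega) hs1 hs.2 ?_ ?_ (u ^ t) 1 (S s) ?_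
    · calc 64 * (32 * D) ^ 5 = 2 ^ 31 * D ^ 5 := by ring
        _ ≤ t := hT
    · have e1 : 2 * t * (32 * D) + 8 * (32 * D) ^ 4 + 1 = 64 * (D * t) + 2 ^ 23 * D ^ 4 + 1 := by
        ring
      rw [e1]
      have e2 : 128 * (D * t) ≤ p := by
        rw [← mul_assoc]; exact hT2
      omega
    · intro q hq
      exact (Finset.mem_filter.mp hq).2
  -- good and bad
  obtain ⟨T1, hT1c, hT1⟩ := middle_roots l hl0 (4 : K)
  obtain ⟨T2, hT2c, hT2'⟩ := middle_roots l hl0 (algebraMap (ZMod p) K κ)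
  have hcover : Hs ⊆ (T1 ∪ T2) ∪ (Ds.biUnion S).image Prod.fst := by
    intro h hh
    obtain ⟨hh0, hht⟩ := hH h hh
    obtain ⟨y', z', hO', hy'⟩ := hfib h hht
    by_cases hreg : Reg κ y'
    · refine Finset.mem_union_right _ ?_
      obtain ⟨s, hs⟩ := hasOrd_exists p K hp2 hK y'
      have hst : s ≤ t := hmax y' x z' (hO.swap12 x y' z' hO') hreg s hs
      have hsd := hasOrd_dvd p K hs
      obtain ⟨η, hη0, hηy, hηs⟩ := hs
      rw [Finset.mem_image]
      refine ⟨(h, η), ?_, rfl⟩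
      rw [Finset.mem_biUnion]
      refine ⟨s, ?_, ?_⟩
      · rw [Finset.mem_filter, Finset.mem_union, Nat.mem_divisors, Nat.mem_divisors]
        refine ⟨?_, hst⟩
        rcases hsd with h1 | h1
        · exact Or.inl ⟨h1, by omega⟩
        · exact Or.inr ⟨h1, by omega⟩
      · rw [Finset.mem_filter]
        refine ⟨Finset.mem_univ _, hh0, hη0, ?_, hht, ?_⟩
        · change h + l / h = η + 1 / η
          rw [one_div, hηy, ← hy']
        · change η ^ s = 1
          rw [← hηs]
          exact pow_orderOf_eq_one η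
    · refine Finset.mem_union_left _ ?_
      rw [Finset.mem_union]
      unfold Reg at hreg
      rw [not_and_or, not_not, not_not] at hreg
      rcases hreg with h1 | h1
      · left
        apply hT1 h hh0
        rw [← hy', ← map_pow, h1]
        exact map_ofNat (algebraMap (ZMod p) K) 4
      · right
        apply hT2' h hh0
        rw [← hy', ← map_pow, h1]
  have hcard : t ≤ 8 + ∑ s ∈ Ds, (S s).card := by
    calc t = Hs.card := hHcard.symm
      _ ≤ _ := Finset.card_le_card hcover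
      _ ≤ (T1 ∪ T2).card + ((Ds.biUnion S).image Prod.fst).card := Finset.card_union_le _ _
      _ ≤ (T1.card + T2.card) + (Ds.biUnion S).card :=
        add_le_add (Finset.card_union_le _ _) Finset.card_image_le
      _ ≤ 8 + ∑ s ∈ Ds, (S s).card := add_le_add (by omega) Finset.card_biUnion_le
  have hsum : (∑ s ∈ Ds, (S s).card) * (32 * D) ≤ D * (4 * (32 * D) + 8 * t) := by
    rw [Finset.sum_mul]
    calc ∑ s ∈ Ds, (S s).card * (32 * D) ≤ ∑ _s ∈ Ds, (4 * (32 * D) + 8 * t) :=
        Finset.sum_le_sum hS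
      _ = Ds.card * (4 * (32 * D) + 8 * t) := by rw [Finset.sum_const, smul_eq_mul]
      _ ≤ _ := Nat.mul_le_mul_right _ hDs
  have hfin : t * (32 * D) ≤ 8 * (32 * D) + D * (4 * (32 * D) + 8 * t) := by
    calc t * (32 * D) ≤ (8 + ∑ s ∈ Ds, (S s).card) * (32 * D) := Nat.mul_le_mul_right _ hcard
      _ = 8 * (32 * D) + (∑ s ∈ Ds, (S s).card) * (32 * D) := by ring
      _ ≤ _ := Nat.add_le_add_left hsum _
  have h1 : D * (24 * t) ≤ D * (256 + 128 * D) := by nlinarith
  have h2 : 24 * t ≤ 256 + 128 * D := Nat.le_of_mul_le_mul_left h1 hDpos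
  have h3 : D ≤ D ^ 5 := Nat.le_self_pow (by norm_num) D
  have h4 : 1 ≤ D ^ 5 := Nat.one_le_pow _ _ hDpos
  omega

end MW
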