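import Mathlib

/-! MW-Mult: vanishing of the iterates of the derivation `u d/dX` gives multiplicity. -/

namespace MW

open Polynomial

theorem mult_aux {K : Type*} [Field K] (u : K[X]) (r : K) (n : ℕ) (H : K[X]) :
    ((fun f : K[X] => u * derivative f)^[n] ((X - C r) ^ n * H)).eval r =
      (u.eval r) ^ n * (n.factorial : K) * H.eval r := by
  induction n generalizing H with
  | zero => simp
  | succ n ih =>
    rw [Function.iterate_succ_apply]
    have h1 : u * derivative ((X - C r) ^ (n + 1) * H) =
        (X - C r) ^ n * (u * (((n : K[X]) + 1) * H + (X - C r) * derivative H)) := by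
      rw [derivative_mul, derivative_X_sub_C_pow]
      simp only [Nat.add_sub_cancel, Nat.cast_add, Nat.cast_one, map_add, map_natCast, map_one]
      ring
    rw [h1, ih]
    simp only [eval_mul, eval_add, eval_natCast, eval_one, eval_sub, eval_X, eval_C, sub_self,
      zero_mul, add_zero, Nat.factorial_succ, Nat.cast_mul, Nat.cast_add, Nat.cast_one]
    ring

theorem mult {K : Type*} [Field K] (p : ℕ) [Fact p.Prime] [CharP K p] (u F : K[X]) (r : K)
    (hu : u.eval r ≠ 0) (M : ℕ) (hM : M ≤ p)
    (h : ∀ i < M, ((fun f : K[X] => u * derivative f)^[i] F).eval r = 0) :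
    (X - C r) ^ M ∣ F := by
  have key : ∀ n, n ≤ M → (X - C r) ^ n ∣ F := by
    intro n
    induction n with
    | zero => intro _; simp
    | succ n ih =>
      intro hn
      obtain ⟨H, rfl⟩ := ih (by omega)
      have h1 := h n (by omega)
      rw [mult_aux] at h1
      have h2 : (n.factorial : K) ≠ 0 := by
        intro h0
        rw [CharP.cast_eq_zero_iff K p] at h0
        have := (Nat.Prime.dvd_factorial (Fact.out : p.Prime)).1 h0
        omega
      have h3 : H.eval r = 0 := by
        rcases mul_eq_zero.1 h1 with h4 | h4
        · rcases mul_eq_zero.1 h4 with h5 | h5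
          · exact absurd h5 (pow_ne_zero _ hu)
          · exact absurd h5 h2
        · exact h4
      obtain ⟨H', rfl⟩ := dvd_iff_isRoot.2 h3
      exact ⟨H', by ring⟩
  exact key M le_rfl

end MW
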