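import Pool.Agent.Lib.MP_a542cf_al.Lower

/-! MW-PrimComb: a sieve for primitive roots on the curve. -/

namespace MW

open Classical in
private theorem primcomb_ncard {K : Type} [Fintype K] (P : K × K → Prop) :
    {q : K × K | P q}.ncard = (Finset.univ.filter P).card := by
  rw [Set.ncard_eq_toFinset_card', Set.toFinset_ofPred]

private theorem primcomb_ie (P : Finset ℕ) (f : ℕ → ℝ) :
    ∏ r ∈ P, (1 - f r) = ∑ T ∈ P.powerset, (-1) ^ T.card * ∏ r ∈ T, f r := by
  have h1 : ∏ r ∈ P, (1 - f r) = ∏ r ∈ P, (-f r + 1) :=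
    Finset.prod_congr rfl fun r _ => by ring
  rw [h1, Finset.prod_add_one]
  refine Finset.sum_congr rfl fun T _ => ?_
  rw [Finset.prod_neg]

/-- powers and distinct primes -/
private theorem primcomb_pow {K : Type} [Field K] (m : ℕ) (hm : 0 < m) (x : K)
    (U : Finset ℕ) (hU : U ⊆ m.primeFactors) :
    (x ^ m = 1 ∧ ∀ r ∈ U, x ^ (m / r) = 1) ↔ x ^ (m / ∏ r ∈ U, r) = 1 := by
  have hprime : ∀ r ∈ U, r.Prime := fun r hr => Nat.prime_of_mem_primeFactors (hU hr)
  have hdvd : ∀ r ∈ U, r ∣ m := fun r hr => Nat.dvd_of_mem_primeFactors (hU hr)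
  have hprod : ∏ r ∈ U, r ∣ m :=
    Finset.prod_primes_dvd m (fun r hr => (hprime r hr).prime) hdvd
  constructor
  · rintro ⟨h1, h2⟩
    rw [← orderOf_dvd_iff_pow_eq_one] at h1
    obtain ⟨k, hk⟩ := h1
    have ho : 0 < orderOf x := by
      rcases Nat.eq_zero_or_pos (orderOf x) with h0 | h0
      · rw [h0, zero_mul] at hk; omega
      · exact h0
    have h3 : ∏ r ∈ U, r ∣ k := by
      refine Finset.prod_primes_dvd k (fun r hr => (hprime r hr).prime) fun r hr => ?_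
      have h4 := orderOf_dvd_of_pow_eq_one (h2 r hr)
      obtain ⟨c, hc⟩ := h4
      have h5 : m = orderOf x * c * r := by
        rw [← hc]; exact (Nat.div_mul_cancel (hdvd r hr)).symm
      refine ⟨c, ?_⟩
      apply Nat.eq_of_mul_eq_mul_left ho
      rw [← hk, h5]; ring
    obtain ⟨c, hc⟩ := h3
    rw [← orderOf_dvd_iff_pow_eq_one]
    have hpos : 0 < ∏ r ∈ U, r := Nat.pos_of_dvd_of_pos hprod hm
    refine ⟨c, ?_⟩
    rw [hk, hc]
    rw [show orderOf x * ((∏ r ∈ U, r) * c) = (∏ r ∈ U, r) * (orderOf x * c) by ring]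
    exact Nat.mul_div_cancel_left _ hpos
  · intro h
    refine ⟨?_, fun r hr => ?_⟩
    · obtain ⟨c, hc⟩ := hprod
      have hpos : 0 < ∏ r ∈ U, r := Nat.pos_of_dvd_of_pos ⟨c, hc⟩ hm
      have h1 : m / ∏ r ∈ U, r = c := by
        conv_lhs => rw [hc]
        exact Nat.mul_div_cancel_left _ hpos
      rw [h1] at h
      conv_lhs => rw [hc]
      rw [mul_comm, pow_mul, h, one_pow]
    · have h1 : r ∣ ∏ r ∈ U, r := Finset.dvd_prod_of_mem _ hr
      have h2 : m / ∏ r ∈ U, r ∣ m / r := by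
        obtain ⟨c, hc⟩ := hprod
        obtain ⟨d, hd⟩ := h1
        have hpos : 0 < ∏ r ∈ U, r := Nat.pos_of_dvd_of_pos ⟨c, hc⟩ hm
        have hr0 : 0 < r := (hprime r hr).pos
        have e1 : m / ∏ r ∈ U, r = c := by
          conv_lhs => rw [hc]
          exact Nat.mul_div_cancel_left _ hpos
        have e2 : m / r = d * c := by
          conv_lhs => rw [hc, hd]
          rw [mul_assoc]
          exact Nat.mul_div_cancel_left _ hr0
        rw [e1, e2]
        exact dvd_mul_left _ _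
      obtain ⟨c, hc⟩ := h2
      rw [hc, pow_mul, h, one_pow]

open Classical in
/-- the points of the curve with `η^n = 1`: at most `2n` -/
private theorem primcomb_two {K : Type} [Field K] [Fintype K] (l : K) (t n : ℕ) (c : K)
    (m : ℕ) (hn : 0 < n) :
    ((Finset.univ.filter (fun q : K × K => Adm l t c m 1 q)).filter
      (fun q => q.2 ^ n = 1)).card ≤ 2 * n := by
  have h1 := Finset.card_le_mul_card_image_of_maps_to
    (s := (Finset.univ.filter (fun q : K × K => Adm l t c m 1 q)).filter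
      (fun q => q.2 ^ n = 1)) (t := (Polynomial.nthRoots n (1 : K)).toFinset)
    (f := fun q : K × K => q.2) (by
      intro q hq
      rw [Finset.mem_filter] at hq
      rw [Multiset.mem_toFinset, Polynomial.mem_nthRoots hn]
      exact hq.2) 2 (by
      intro η _
      rcases (((Finset.univ.filter (fun q : K × K => Adm l t c m 1 q)).filter
        (fun q => q.2 ^ n = 1)).filter (fun q => q.2 = η)).eq_empty_or_nonempty with h0 | ⟨q0, hq0⟩
      · rw [h0]; simp
      · refine le_trans (Finset.card_le_card (t := {(q0.1, η), (l / q0.1, η)}) ?_)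
          Finset.card_le_two
        intro q hq
        rw [Finset.mem_filter, Finset.mem_filter, Finset.mem_filter] at hq hq0
        obtain ⟨⟨⟨-, hq1, hq2, hq3, -⟩, -⟩, hqη⟩ := hq
        obtain ⟨⟨⟨-, hp1, hp2, hp3, -⟩, -⟩, hpη⟩ := hq0
        rw [Finset.mem_insert, Finset.mem_singleton]
        have h4 : q.1 + l / q.1 = q0.1 + l / q0.1 := by rw [hq3, hp3, hqη, hpη]
        have h5 : (q.1 - q0.1) * (q.1 * q0.1 - l) = 0 := by
          field_simp at h4
          linear_combination h4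
        rcases mul_eq_zero.1 h5 with h6 | h6
        · left
          exact Prod.ext (sub_eq_zero.1 h6) hqη
        · right
          refine Prod.ext ?_ hqη
          simp only
          rw [eq_div_iff hp1]
          exact sub_eq_zero.1 h6)
  refine h1.trans (Nat.mul_le_mul_left 2 ?_)
  exact (Multiset.toFinset_card_le _).trans (Polynomial.card_nthRoots n 1)

theorem primComb (p : ℕ) [Fact p.Prime] (hp2 : p ≠ 2) (K : Type) [Field K] [Fintype K]
    [Algebra (ZMod p) K] (hK : Fintype.card K = p ^ 2) (l : ZMod p) (hl0 : l ≠ 0) (hl1 : l ≠ 1)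
    (e t : ℕ) (c : K) (hc : TypeC p (algebraMap (ZMod p) K l) c t e)
    (P1 P2 P3 : Finset ℕ) (hP : P1 ∪ P2 ∪ P3 = (p - 1).primeFactors) (h12 : Disjoint P1 P2)
    (L : ℕ) (hL : 1 ≤ L) (hP2 : ∀ r ∈ P2, r ≤ L) (hP3 : ∀ r ∈ P3, L ≤ r)
    (hE : 10 ^ 4 * (e * ((∏ r ∈ P1, r) * L)) ^ 4 ≤ p) :
    (p : ℝ) / e * (∏ r ∈ P1, (1 - 1 / (r : ℝ))) * (1 - ∑ r ∈ P2, 1 / (r : ℝ)) -
      (1 + P2.card) * (∏ r ∈ P1, (r : ℝ)) * (82 * (e * ((∏ r ∈ P1, (r : ℝ)) * L)) ^ 2 *
        Real.sqrt p) - 2 * p * P3.card / L ≤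
    ({q : K × K | Adm (algebraMap (ZMod p) K l) t c (p - 1) 1 q ∧ orderOf q.2 = p - 1}.ncard
      : ℝ) := by
  classical
  have hpp : p.Prime := Fact.out
  have hp1 : 0 < p - 1 := by have := hpp.two_le; omega
  have hP1s : P1 ⊆ (p - 1).primeFactors := by
    rw [← hP]; exact Finset.subset_union_left.trans Finset.subset_union_left
  have hP2s : P2 ⊆ (p - 1).primeFactors := by
    rw [← hP]; exact Finset.subset_union_right.trans Finset.subset_union_left
  have hP3s : P3 ⊆ (p - 1).primeFactors := by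
    rw [← hP]; exact Finset.subset_union_right
  have hpr : ∀ r ∈ (p - 1).primeFactors, r.Prime := fun r hr => Nat.prime_of_mem_primeFactors hr
  obtain ⟨Q, hQ⟩ : ∃ Q : ℕ, Q = ∏ r ∈ P1, r := ⟨_, rfl⟩
  have hQ1 : 1 ≤ Q := by
    rw [hQ]
    exact Nat.one_le_iff_ne_zero.2 (Finset.prod_ne_zero_iff.2 fun r hr =>
      (hpr r (hP1s hr)).ne_zero)
  have hQr : (∏ r ∈ P1, (r : ℝ)) = Q := by rw [hQ]; push_cast; rfl
  rw [hQr]
  rw [← hQ] at hE
  obtain ⟨Err, hErr⟩ : ∃ x : ℝ, x = 82 * (e * ((Q : ℝ) * L)) ^ 2 * Real.sqrt p := ⟨_, rfl⟩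
  rw [← hErr]
  have hErr0 : 0 ≤ Err := by rw [hErr]; positivity
  obtain ⟨M, hM⟩ : ∃ x : ℝ, x = (p : ℝ) / e * (∏ r ∈ P1, (1 - 1 / (r : ℝ))) := ⟨_, rfl⟩
  rw [← hM]
  obtain ⟨X, hX⟩ : ∃ X : Finset (K × K), X = Finset.univ.filter
    (fun q : K × K => Adm (algebraMap (ZMod p) K l) t c (p - 1) 1 q) := ⟨_, rfl⟩
  obtain ⟨χ, hχ⟩ : ∃ χ : ℕ → K × K → ℝ, χ = fun r q => if q.2 ^ ((p - 1) / r) = 1 then 1 else 0 :=
    ⟨_, rfl⟩
  have hχ01 : ∀ r q, 0 ≤ χ r q ∧ χ r q ≤ 1 := by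
    intro r q
    rw [hχ]
    simp only
    split_ifs <;> simp
  -- the number of points in an intersection
  have hcount : ∀ U ⊆ (p - 1).primeFactors, ∏ r ∈ U, r ≤ Q * L →
      |(∑ q ∈ X, ∏ r ∈ U, χ r q) - (p : ℝ) / e * ∏ r ∈ U, (1 / (r : ℝ))| ≤ Err := by
    intro U hU hUle
    have hdvd : ∏ r ∈ U, r ∣ p - 1 := Finset.prod_primes_dvd _
      (fun r hr => (hpr r (hU hr)).prime) fun r hr => Nat.dvd_of_mem_primeFactors (hU hr)
    have h1 : ∑ q ∈ X, ∏ r ∈ U, χ r q =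
        ({q : K × K | Adm (algebraMap (ZMod p) K l) t c ((p - 1) / ∏ r ∈ U, r) 1 q}.ncard
          : ℝ) := by
      rw [primcomb_ncard, hχ]
      simp only [Finset.prod_boole]
      rw [Finset.sum_boole, hX, Finset.filter_filter]
      congr 2
      refine Finset.filter_congr fun q _ => ?_
      have h2 := primcomb_pow (p - 1) hp1 q.2 U hU
      unfold Adm
      constructor
      · rintro ⟨⟨a1, a2, a3, a4, a5⟩, a6⟩
        exact ⟨a1, a2, a3, a4, h2.1 ⟨a5, a6⟩⟩
      · rintro ⟨a1, a2, a3, a4, a5⟩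
        obtain ⟨a6, a7⟩ := h2.2 a5
        exact ⟨⟨a1, a2, a3, a4, a6⟩, a7⟩
    have h2 : 10 ^ 4 * (e * ∏ r ∈ U, r) ^ 4 ≤ p :=
      le_trans (Nat.mul_le_mul_left _ (Nat.pow_le_pow_left (Nat.mul_le_mul_left e hUle) 4)) hE
    have h3 := lower p hp2 K hK l hl0 hl1 e (∏ r ∈ U, r) t ((p - 1) / ∏ r ∈ U, r) c 1 hc
      (Or.inl (Nat.div_mul_cancel hdvd)) (one_pow _) h2
    rw [h1]
    have h4 : (p : ℝ) / e * ∏ r ∈ U, (1 / (r : ℝ)) = p / (e * ((∏ r ∈ U, r : ℕ) : ℝ)) := by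
      rw [Finset.prod_div_distrib, Finset.prod_const_one]
      push_cast
      rw [div_mul_div_comm, mul_one]
    rw [h4]
    refine h3.trans ?_
    rw [hErr]
    have h5 : ((∏ r ∈ U, r : ℕ) : ℝ) ≤ (Q : ℝ) * L := by exact_mod_cast hUle
    have h6 : (e : ℝ) * ((∏ r ∈ U, r : ℕ) : ℝ) ≤ e * ((Q : ℝ) * L) :=
      mul_le_mul_of_nonneg_left h5 (Nat.cast_nonneg _)
    have h7 : (0 : ℝ) ≤ (e : ℝ) * ((∏ r ∈ U, r : ℕ) : ℝ) := by positivity
    have h8 := pow_le_pow_left₀ h7 h6 2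
    have h9 : 0 ≤ Real.sqrt p := Real.sqrt_nonneg _
    nlinarith [mul_le_mul_of_nonneg_right h8 h9]
  -- sieve by `P1`
  have hsieve : ∀ U0 ⊆ (p - 1).primeFactors, Disjoint P1 U0 → ∏ r ∈ U0, r ≤ L →
      |(∑ q ∈ X, (∏ r ∈ P1, (1 - χ r q)) * ∏ r ∈ U0, χ r q) - M * ∏ r ∈ U0, (1 / (r : ℝ))| ≤
        Q * Err := by
    intro U0 hU0 hdis hU0L
    have h1 : (∑ q ∈ X, (∏ r ∈ P1, (1 - χ r q)) * ∏ r ∈ U0, χ r q) =
        ∑ T ∈ P1.powerset, (-1) ^ T.card * ∑ q ∈ X, ∏ r ∈ T ∪ U0, χ r q := by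
      simp only [Finset.mul_sum]
      rw [Finset.sum_comm]
      refine Finset.sum_congr rfl fun q _ => ?_
      rw [primcomb_ie, Finset.sum_mul]
      refine Finset.sum_congr rfl fun T hT => ?_
      rw [Finset.prod_union (Finset.disjoint_of_subset_left (Finset.mem_powerset.1 hT) hdis)]
      ring
    have h2 : M * ∏ r ∈ U0, (1 / (r : ℝ)) =
        ∑ T ∈ P1.powerset, (-1) ^ T.card * ((p : ℝ) / e * ∏ r ∈ T ∪ U0, (1 / (r : ℝ))) := by
      rw [hM, primcomb_ie, Finset.mul_sum, Finset.sum_mul]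
      refine Finset.sum_congr rfl fun T hT => ?_
      rw [Finset.prod_union (Finset.disjoint_of_subset_left (Finset.mem_powerset.1 hT) hdis)]
      ring
    rw [h1, h2, ← Finset.sum_sub_distrib]
    refine (Finset.abs_sum_le_sum_abs _ _).trans ?_
    have h3 : ∀ T ∈ P1.powerset, |(-1 : ℝ) ^ T.card * (∑ q ∈ X, ∏ r ∈ T ∪ U0, χ r q) -
        (-1) ^ T.card * ((p : ℝ) / e * ∏ r ∈ T ∪ U0, (1 / (r : ℝ)))| ≤ Err := by
      intro T hT
      rw [Finset.mem_powerset] at hT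
      rw [← mul_sub, abs_mul, abs_pow, abs_neg, abs_one, one_pow, one_mul]
      refine hcount _ (Finset.union_subset (hT.trans hP1s) hU0) ?_
      rw [Finset.prod_union (Finset.disjoint_of_subset_left hT hdis), hQ]
      refine Nat.mul_le_mul ?_ hU0L
      exact Finset.prod_le_prod_of_subset_of_one_le' hT fun r hr _ => (hpr r (hP1s hr)).one_le
    refine (Finset.sum_le_card_nsmul _ _ _ h3).trans ?_
    rw [nsmul_eq_mul, Finset.card_powerset]
    refine mul_le_mul_of_nonneg_right ?_ hErr0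
    have h4 : 2 ^ P1.card ≤ Q := by
      rw [hQ, ← Finset.prod_const]
      exact Finset.prod_le_prod' fun r hr => (hpr r (hP1s hr)).two_le
    exact_mod_cast h4
  -- the pointwise inequality
  have hpoint : ∀ q ∈ X, (∏ r ∈ P1, (1 - χ r q)) * (1 - ∑ r ∈ P2, χ r q) - ∑ r ∈ P3, χ r q ≤
      if orderOf q.2 = p - 1 then 1 else 0 := by
    intro q hq
    have hb0 : 0 ≤ ∑ r ∈ P2, χ r q := Finset.sum_nonneg fun r _ => (hχ01 r q).1
    have hc0 : 0 ≤ ∑ r ∈ P3, χ r q := Finset.sum_nonneg fun r _ => (hχ01 r q).1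
    have ha0 : 0 ≤ ∏ r ∈ P1, (1 - χ r q) :=
      Finset.prod_nonneg fun r _ => by have := (hχ01 r q).2; linarith
    have ha1 : ∏ r ∈ P1, (1 - χ r q) ≤ 1 :=
      Finset.prod_le_one (fun r _ => by have := (hχ01 r q).2; linarith)
        fun r _ => by have := (hχ01 r q).1; linarith
    split_ifs with ho
    · nlinarith
    · have hex : ∃ r ∈ (p - 1).primeFactors, q.2 ^ ((p - 1) / r) = 1 := by
        by_contra hcon
        push Not at hcon
        apply ho
        rw [hX, Finset.mem_filter] at hq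
        refine orderOf_eq_of_pow_and_pow_div_prime hp1 hq.2.2.2.2.2 fun r hr hrd => ?_
        exact hcon r (Nat.mem_primeFactors.2 ⟨hr, hrd, hp1.ne'⟩)
      obtain ⟨r, hr, hr1⟩ := hex
      have hχr : χ r q = 1 := by rw [hχ]; simp only; rw [if_pos hr1]
      rw [← hP, Finset.mem_union, Finset.mem_union] at hr
      rcases hr with (hr | hr) | hr
      · have h1 : ∏ r ∈ P1, (1 - χ r q) = 0 :=
          Finset.prod_eq_zero hr (by rw [hχr, sub_self])
        rw [h1]
        linarith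
      · have h1 : χ r q ≤ ∑ r ∈ P2, χ r q :=
          Finset.single_le_sum (f := fun r => χ r q) (fun r _ => (hχ01 r q).1) hr
        rw [hχr] at h1
        nlinarith
      · have h1 : χ r q ≤ ∑ r ∈ P3, χ r q :=
          Finset.single_le_sum (f := fun r => χ r q) (fun r _ => (hχ01 r q).1) hr
        rw [hχr] at h1
        nlinarith
  -- summation
  have hprim : ({q : K × K | Adm (algebraMap (ZMod p) K l) t c (p - 1) 1 q ∧
      orderOf q.2 = p - 1}.ncard : ℝ) = ∑ q ∈ X, if orderOf q.2 = p - 1 then (1 : ℝ) else 0 := by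
    rw [primcomb_ncard, Finset.sum_boole, hX, Finset.filter_filter]
    refine congrArg (fun n : ℕ => (n : ℝ)) (congrArg Finset.card ?_)
    exact Finset.filter_congr_decidable _ _ _
  rw [hprim]
  refine le_trans ?_ (Finset.sum_le_sum hpoint)
  have hsplit : ∑ q ∈ X, ((∏ r ∈ P1, (1 - χ r q)) * (1 - ∑ r ∈ P2, χ r q) - ∑ r ∈ P3, χ r q) =
      (∑ q ∈ X, ∏ r ∈ P1, (1 - χ r q)) -
        (∑ r ∈ P2, ∑ q ∈ X, (∏ r ∈ P1, (1 - χ r q)) * χ r q) -
        ∑ r ∈ P3, ∑ q ∈ X, χ r q := by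
    rw [Finset.sum_comm (s := P2), Finset.sum_comm (s := P3), ← Finset.sum_sub_distrib,
      ← Finset.sum_sub_distrib]
    refine Finset.sum_congr rfl fun q _ => ?_
    rw [← Finset.mul_sum]
    ring
  rw [hsplit]
  have hA : M - Q * Err ≤ ∑ q ∈ X, ∏ r ∈ P1, (1 - χ r q) := by
    have h1 := hsieve ∅ (Finset.empty_subset _) (Finset.disjoint_empty_right _) (by simpa using hL)
    simp only [Finset.prod_empty, mul_one] at h1
    have h2 := (abs_le.1 h1).1
    linarith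
  have hB : ∑ r ∈ P2, ∑ q ∈ X, (∏ r ∈ P1, (1 - χ r q)) * χ r q ≤
      ∑ r ∈ P2, (M * (1 / (r : ℝ)) + Q * Err) := by
    refine Finset.sum_le_sum fun r hr => ?_
    have h1 := hsieve {r} (Finset.singleton_subset_iff.2 (hP2s hr))
      (Finset.disjoint_singleton_right.2 fun h => Finset.disjoint_left.1 h12 h hr)
      (by simpa using hP2 r hr)
    simp only [Finset.prod_singleton] at h1
    have h2 := (abs_le.1 h1).2
    linarith
  have hC : ∑ r ∈ P3, ∑ q ∈ X, χ r q ≤ 2 * p * P3.card / L := by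
    have h1 : ∀ r ∈ P3, ∑ q ∈ X, χ r q ≤ 2 * p / L := by
      intro r hr
      have hr' := hP3s hr
      have hrpos : 0 < r := (hpr r hr').pos
      have hrd : r ∣ p - 1 := Nat.dvd_of_mem_primeFactors hr'
      have hn : 0 < (p - 1) / r := Nat.div_pos (Nat.le_of_dvd hp1 hrd) hrpos
      have h2 : ∑ q ∈ X, χ r q = ((X.filter (fun q => q.2 ^ ((p - 1) / r) = 1)).card : ℝ) := by
        rw [hχ]
        simp only
        rw [Finset.sum_boole]
      have h3 := primcomb_two (algebraMap (ZMod p) K l) t ((p - 1) / r) c (p - 1) hn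
      rw [← hX] at h3
      have h4 : ((X.filter (fun q => q.2 ^ ((p - 1) / r) = 1)).card : ℝ) ≤
          2 * (((p - 1) / r : ℕ) : ℝ) := by exact_mod_cast h3
      have hL0 : (0 : ℝ) < L := by exact_mod_cast hL
      have h5 : (((p - 1) / r : ℕ) : ℝ) ≤ p / L := by
        have h6 : (((p - 1) / r : ℕ) : ℝ) * r ≤ p := by
          have h7 : (p - 1) / r * r ≤ p := (Nat.div_mul_le_self _ _).trans (Nat.sub_le _ _)
          exact_mod_cast h7
        rw [le_div_iff₀ hL0]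
        have h8 : (L : ℝ) ≤ r := by exact_mod_cast hP3 r hr
        have h9 : (0 : ℝ) ≤ (((p - 1) / r : ℕ) : ℝ) := Nat.cast_nonneg _
        nlinarith [mul_le_mul_of_nonneg_left h8 h9]
      rw [h2]
      calc _ ≤ 2 * (((p - 1) / r : ℕ) : ℝ) := h4
        _ ≤ 2 * (p / L) := by linarith
        _ = 2 * p / L := by ring
    refine (Finset.sum_le_card_nsmul _ _ _ h1).trans (le_of_eq ?_)
    rw [nsmul_eq_mul]
    ring
  have hB' : ∑ r ∈ P2, (M * (1 / (r : ℝ)) + Q * Err) =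
      M * ∑ r ∈ P2, 1 / (r : ℝ) + P2.card * (Q * Err) := by
    rw [Finset.sum_add_distrib, Finset.sum_const, nsmul_eq_mul, ← Finset.mul_sum]
  rw [hB'] at hB
  linarith

end MW
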