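import Pool.Agent.Lib.MP_a542cf_al.Defs

/-! MW-Rigid: centralizer facts. -/

namespace MW

open Matrix

/-- two matrices commuting with a non-scalar matrix commute -/
theorem comm_of_comm {F : Type*} [Field F] (C X Y : Matrix (Fin 2) (Fin 2) F)
    (hC : ∀ c : F, C ≠ scalar (Fin 2) c) (hX : X * C = C * X) (hY : Y * C = C * Y) :
    X * Y = Y * X := by
  obtain ⟨a, b, c, d, rfl⟩ : ∃ a b c d, C = !![a, b; c, d] :=
    ⟨_, _, _, _, Matrix.eta_fin_two C⟩
  obtain ⟨x1, x2, x3, x4, rfl⟩ : ∃ a b c d, X = !![a, b; c, d] :=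
    ⟨_, _, _, _, Matrix.eta_fin_two X⟩
  obtain ⟨y1, y2, y3, y4, rfl⟩ : ∃ a b c d, Y = !![a, b; c, d] :=
    ⟨_, _, _, _, Matrix.eta_fin_two Y⟩
  have hX00 := congrFun (congrFun hX 0) 0
  have hX01 := congrFun (congrFun hX 0) 1
  have hX10 := congrFun (congrFun hX 1) 0
  have hY00 := congrFun (congrFun hY 0) 0
  have hY01 := congrFun (congrFun hY 0) 1
  have hY10 := congrFun (congrFun hY 1) 0
  simp [Matrix.mul_apply, Fin.sum_univ_two] at hX00 hX01 hX10 hY00 hY01 hY10
  have key : x2 * y3 = y2 * x3 ∧ (x1 - x4) * y2 = (y1 - y4) * x2 ∧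
      (x1 - x4) * y3 = (y1 - y4) * x3 := by
    by_cases hb : b = 0
    · by_cases hc : c = 0
      · have had : a - d ≠ 0 := by
          intro h
          apply hC a
          have : d = a := by linear_combination -h
          subst this
          ext i j
          fin_cases i <;> fin_cases j <;> simp [hb, hc]
        subst hb hc
        have hx2 : x2 = 0 := by
          apply (mul_eq_zero.1 (show (a - d) * x2 = 0 by linear_combination -hX01)).resolve_left had
        have hx3 : x3 = 0 := by
          apply (mul_eq_zero.1 (show (a - d) * x3 = 0 by linear_combination hX10)).resolve_left had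
        have hy2 : y2 = 0 := by
          apply (mul_eq_zero.1 (show (a - d) * y2 = 0 by linear_combination -hY01)).resolve_left had
        have hy3 : y3 = 0 := by
          apply (mul_eq_zero.1 (show (a - d) * y3 = 0 by linear_combination hY10)).resolve_left had
        subst hx2 hx3 hy2 hy3
        simp
      · have hcc : c * c ≠ 0 := mul_ne_zero hc hc
        refine ⟨?_, ?_, ?_⟩
        · apply mul_left_cancel₀ hc
          linear_combination y3 * hX00 - x3 * hY00
        · apply mul_left_cancel₀ hcc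
          have e1 : (x1 - x4) * c = (a - d) * x3 := by linear_combination -hX10
          have e2 : (y1 - y4) * c = (a - d) * y3 := by linear_combination -hY10
          linear_combination (c * y2) * e1 - (c * x2) * e2 + (a - d) * (x3 * hY00 - y3 * hX00)
        · apply mul_left_cancel₀ hc
          have e1 : (x1 - x4) * c = (a - d) * x3 := by linear_combination -hX10
          have e2 : (y1 - y4) * c = (a - d) * y3 := by linear_combination -hY10
          linear_combination y3 * e1 - x3 * e2
    · have hbb : b * b ≠ 0 := mul_ne_zero hb hb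
      have e1 : (x1 - x4) * b = (a - d) * x2 := by linear_combination hX01
      have e2 : (y1 - y4) * b = (a - d) * y2 := by linear_combination hY01
      have f1 : x2 * c = b * x3 := by linear_combination hX00
      have f2 : y2 * c = b * y3 := by linear_combination hY00
      refine ⟨?_, ?_, ?_⟩
      · apply mul_left_cancel₀ hb
        linear_combination y2 * f1 - x2 * f2
      · apply mul_left_cancel₀ hb
        linear_combination y2 * e1 - x2 * e2
      · apply mul_left_cancel₀ hbb
        linear_combination (b * y3) * e1 - (b * x3) * e2 + (a - d) * (y2 * f1 - x2 * f2)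
  obtain ⟨k1, k2, k3⟩ := key
  ext i j
  fin_cases i <;> fin_cases j <;> simp [Matrix.mul_apply, Fin.sum_univ_two]
  · linear_combination k1
  · linear_combination k2
  · linear_combination -k3
  · linear_combination -k1

lemma rg_tr_eq {F : Type*} [Field F] (A : SL2 F) :
    tr A = (A : Matrix (Fin 2) (Fin 2) F) 0 0 + (A : Matrix (Fin 2) (Fin 2) F) 1 1 := by
  simp [tr, Matrix.trace_fin_two]

lemma rg_tr_mul_comm {F : Type*} [Field F] (A B : SL2 F) : tr (A * B) = tr (B * A) := by
  simp only [tr, Matrix.SpecialLinearGroup.coe_mul]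
  exact Matrix.trace_mul_comm _ _

lemma rg_tr_inv {F : Type*} [Field F] (A : SL2 F) : tr A⁻¹ = tr A := by
  simp only [rg_tr_eq, Matrix.SpecialLinearGroup.coe_inv, Matrix.adjugate_fin_two]
  simp
  ring

lemma rg_tr_one {F : Type*} [Field F] : tr (1 : SL2 F) = 2 := by
  simp [rg_tr_eq]
  norm_num

lemma rg_tr_mul_inv {F : Type*} [Field F] (A B : SL2 F) :
    tr (A * B⁻¹) = tr A * tr B - tr (A * B) := by
  simp only [rg_tr_eq, Matrix.SpecialLinearGroup.coe_mul, Matrix.SpecialLinearGroup.coe_inv,
    Matrix.adjugate_fin_two, Matrix.mul_apply, Fin.sum_univ_two]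
  simp
  ring

/-- a matrix commuting with a non-scalar `A` is a polynomial in `A` -/
lemma rg_poly_of_comm {F : Type*} [Field F] (A M : Matrix (Fin 2) (Fin 2) F)
    (hA : ∀ c : F, A ≠ scalar (Fin 2) c) (hM : M * A = A * M) :
    ∃ α β : F, M = !![α, 0; 0, α] + β • A := by
  obtain ⟨a, b, c, d, rfl⟩ : ∃ a b c d, A = !![a, b; c, d] :=
    ⟨_, _, _, _, Matrix.eta_fin_two A⟩
  obtain ⟨x1, x2, x3, x4, rfl⟩ : ∃ a b c d, M = !![a, b; c, d] :=
    ⟨_, _, _, _, Matrix.eta_fin_two M⟩
  have hX00 := congrFun (congrFun hM 0) 0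
  have hX01 := congrFun (congrFun hM 0) 1
  have hX10 := congrFun (congrFun hM 1) 0
  simp [Matrix.mul_apply, Fin.sum_univ_two] at hX00 hX01 hX10
  have e1 : (x1 - x4) * b = (a - d) * x2 := by linear_combination hX01
  have e2 : (x1 - x4) * c = (a - d) * x3 := by linear_combination -hX10
  have f1 : x2 * c = b * x3 := by linear_combination hX00
  by_cases hb : b = 0
  · by_cases hc : c = 0
    · have had : a - d ≠ 0 := by
        intro h
        apply hA a
        have : d = a := by linear_combination -h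
        subst this
        ext i j
        fin_cases i <;> fin_cases j <;> simp [hb, hc]
      subst hb hc
      have hx2 : x2 = 0 :=
        (mul_eq_zero.1 (show (a - d) * x2 = 0 by linear_combination -e1)).resolve_left had
      have hx3 : x3 = 0 :=
        (mul_eq_zero.1 (show (a - d) * x3 = 0 by linear_combination -e2)).resolve_left had
      refine ⟨x1 - (x1 - x4) / (a - d) * a, (x1 - x4) / (a - d), ?_⟩
      ext i j
      fin_cases i <;> fin_cases j <;> simp [hx2, hx3]
      field_simp
      ring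
    · refine ⟨x1 - x3 / c * a, x3 / c, ?_⟩
      ext i j
      fin_cases i <;> fin_cases j <;> simp [hc]
      · field_simp
        linear_combination f1
      · field_simp
        linear_combination -e2
  · refine ⟨x1 - x2 / b * a, x2 / b, ?_⟩
    ext i j
    fin_cases i <;> fin_cases j <;> simp [hb]
    · field_simp
      linear_combination -f1
    · field_simp
      linear_combination -e1

/-- a matrix commuting with `A` and with the commutator is scalar -/
theorem rigid₁ {F : Type*} [Field F] (h2 : (2 : F) ≠ 0) (A B : SL2 F)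
    (hk : lev (A, B) ≠ 2) (hnd : ¬ (tr B = 0 ∧ tr (A * B) = 0))
    (X : Matrix (Fin 2) (Fin 2) F) (hA : X * (A : Matrix (Fin 2) (Fin 2) F) = A * X)
    (hC : X * ((A * B * A⁻¹ * B⁻¹ : SL2 F) : Matrix (Fin 2) (Fin 2) F) =
      ((A * B * A⁻¹ * B⁻¹ : SL2 F) : Matrix (Fin 2) (Fin 2) F) * X) :
    ∃ c : F, X = scalar (Fin 2) c := by
  by_contra hX
  push Not at hX
  have hAC := comm_of_comm X (A : Matrix (Fin 2) (Fin 2) F)
    ((A * B * A⁻¹ * B⁻¹ : SL2 F) : Matrix (Fin 2) (Fin 2) F) hX hA.symm hC.symm
  have hAC' : A * (A * B * A⁻¹ * B⁻¹) = (A * B * A⁻¹ * B⁻¹) * A := by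
    apply Subtype.ext
    simpa only [Matrix.SpecialLinearGroup.coe_mul] using hAC
  have hne : A * B ≠ B * A := by
    intro h
    apply hk
    show tr (A * B * A⁻¹ * B⁻¹) = 2
    rw [h, mul_inv_cancel_right, mul_inv_cancel, rg_tr_one]
  -- M = B A B⁻¹ commutes with A
  set M : SL2 F := B * A * B⁻¹ with hMdef
  have hMA : M * A = A * M := by
    have h1 : M = (A * B * A⁻¹ * B⁻¹)⁻¹ * A := by
      rw [hMdef]; group
    have h2' : Commute A (A * B * A⁻¹ * B⁻¹) := hAC'
    have h3 : Commute A M := by
      rw [h1]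
      exact h2'.inv_right.mul_right (Commute.refl A)
    exact h3.eq.symm
  have hlev : lev (A, B) = tr (A * M⁻¹) := by
    show tr (A * B * A⁻¹ * B⁻¹) = _
    congr 1
    rw [hMdef]; group
  have htrM : tr M = tr A := by
    rw [hMdef, rg_tr_mul_comm, ← mul_assoc, inv_mul_cancel, one_mul]
  have hAns : ∀ c : F, (A : Matrix (Fin 2) (Fin 2) F) ≠ scalar (Fin 2) c := by
    intro c h
    apply hne
    apply Subtype.ext
    simp only [Matrix.SpecialLinearGroup.coe_mul]
    rw [h]
    exact (Matrix.scalar_commute c (fun r => mul_comm c r) _).eq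
  have hMA' : (M : Matrix (Fin 2) (Fin 2) F) * (A : Matrix (Fin 2) (Fin 2) F) =
      (A : Matrix (Fin 2) (Fin 2) F) * M := by
    simpa only [Matrix.SpecialLinearGroup.coe_mul] using congrArg Subtype.val hMA
  obtain ⟨α, β, hM⟩ := rg_poly_of_comm _ _ hAns hMA'
  -- entries of A
  set a := (A : Matrix (Fin 2) (Fin 2) F) 0 0 with ha
  set b := (A : Matrix (Fin 2) (Fin 2) F) 0 1 with hb
  set c := (A : Matrix (Fin 2) (Fin 2) F) 1 0 with hc
  set d := (A : Matrix (Fin 2) (Fin 2) F) 1 1 with hd
  have hdetA : a * d - b * c = 1 := by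
    have := A.det_coe
    rw [Matrix.det_fin_two] at this
    exact this
  have m00 : (M : Matrix (Fin 2) (Fin 2) F) 0 0 = α + β * a := by rw [hM]; simp [ha]
  have m01 : (M : Matrix (Fin 2) (Fin 2) F) 0 1 = β * b := by rw [hM]; simp [hb]
  have m10 : (M : Matrix (Fin 2) (Fin 2) F) 1 0 = β * c := by rw [hM]; simp [hc]
  have m11 : (M : Matrix (Fin 2) (Fin 2) F) 1 1 = α + β * d := by rw [hM]; simp [hd]
  have hdetM : (α + β * a) * (α + β * d) - (β * b) * (β * c) = 1 := by
    have := M.det_coe
    rw [Matrix.det_fin_two, m00, m01, m10, m11] at this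
    exact this
  have htr2 : 2 * α = (1 - β) * (a + d) := by
    have := htrM
    rw [rg_tr_eq, rg_tr_eq, m00, m11] at this
    linear_combination this
  have hlev2 : lev (A, B) = (a + d) ^ 2 - α * (a + d) - β * ((a + d) ^ 2 - 2) := by
    rw [hlev, rg_tr_mul_inv, htrM, rg_tr_eq, rg_tr_eq, Matrix.SpecialLinearGroup.coe_mul]
    simp only [Matrix.mul_apply, Fin.sum_univ_two]
    rw [m00, m01, m10, m11]
    linear_combination (2 * β) * hdetA
  have hprod : (1 - β) * ((1 + β) * ((a + d) ^ 2 - 4)) = 0 := by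
    have h4 : 4 * ((α + β * a) * (α + β * d) - (β * b) * (β * c)) = 4 := by rw [hdetM]; ring
    linear_combination h4 - 4 * β ^ 2 * hdetA - (2 * α + (1 - β) * (a + d) + 2 * β * (a + d)) * htr2
  rcases mul_eq_zero.1 hprod with h | h
  · -- β = 1
    apply hk
    have hβ : β = 1 := by linear_combination -h
    have hα : α = 0 := by
      apply (mul_eq_zero.1 (show 2 * α = 0 by rw [htr2, h, zero_mul])).resolve_left h2
    rw [hlev2, hβ, hα]; ring
  · rcases mul_eq_zero.1 h with h | h
    · -- β = -1, M = A⁻¹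
      have hβ : β = -1 := by linear_combination h
      have hα : α = a + d := by
        apply mul_left_cancel₀ h2
        rw [htr2, hβ]; ring
      have hMinv : M = A⁻¹ := by
        apply Subtype.ext
        rw [Matrix.SpecialLinearGroup.coe_inv, Matrix.adjugate_fin_two]
        ext i j
        fin_cases i <;> fin_cases j
        · show (M : Matrix (Fin 2) (Fin 2) F) 0 0 = _
          rw [m00, hα, hβ]; simp [ha, hd]
        · show (M : Matrix (Fin 2) (Fin 2) F) 0 1 = _
          rw [m01, hβ]; simp [hb]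
        · show (M : Matrix (Fin 2) (Fin 2) F) 1 0 = _
          rw [m10, hβ]; simp [hc]
        · show (M : Matrix (Fin 2) (Fin 2) F) 1 1 = _
          rw [m11, hα, hβ]; simp [ha, hd]
      -- B A = A⁻¹ B
      have hBA : B * A = A⁻¹ * B := by
        rw [← hMinv, hMdef]; group
      have hz : 2 * tr (A * B) = tr A * tr B := by
        have h1 : tr (B * A) = tr (A⁻¹ * B) := by rw [hBA]
        rw [rg_tr_mul_comm A⁻¹ B, rg_tr_mul_inv, rg_tr_mul_comm B A] at h1
        rw [mul_comm (tr A)]
        linear_combination h1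
      have hB2 : B * B * A = A * (B * B) := by
        calc B * B * A = B * (B * A) := by group
          _ = B * (A⁻¹ * B) := by rw [hBA]
          _ = (B * A⁻¹) * B := by group
          _ = (A * B) * B := by
              have : B * A⁻¹ = A * B := by
                calc B * A⁻¹ = A * (A⁻¹ * B) * A⁻¹ := by group
                  _ = A * (B * A) * A⁻¹ := by rw [hBA]
                  _ = A * B := by group
              rw [this]
          _ = A * (B * B) := by group
      have hy : tr B = 0 := by
        by_contra hy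
        apply hne
        apply Subtype.ext
        simp only [Matrix.SpecialLinearGroup.coe_mul]
        have hB2' := congrArg Subtype.val hB2
        simp only [Matrix.SpecialLinearGroup.coe_mul] at hB2'
        have hCH : (B : Matrix (Fin 2) (Fin 2) F) * B = tr B • (B : Matrix (Fin 2) (Fin 2) F) - 1 := by
          have hd := B.det_coe
          rw [Matrix.det_fin_two] at hd
          ext i j
          fin_cases i <;> fin_cases j <;> simp [Matrix.mul_apply, Fin.sum_univ_two, rg_tr_eq]
          · linear_combination -hd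
          · ring
          · ring
          · linear_combination -hd
        rw [hCH] at hB2'
        simp only [sub_mul, mul_sub, Matrix.smul_mul, Matrix.mul_smul, one_mul, mul_one] at hB2'
        have h5 : tr B • ((B : Matrix (Fin 2) (Fin 2) F) * A) =
            tr B • ((A : Matrix (Fin 2) (Fin 2) F) * B) := sub_left_injective hB2'
        exact (smul_right_injective _ hy h5).symm
      apply hnd
      refine ⟨hy, ?_⟩
      rw [hy, mul_zero] at hz
      exact (mul_eq_zero.1 hz).resolve_left h2
    · -- x^2 = 4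
      apply hk
      apply mul_left_cancel₀ h2
      rw [hlev2]
      linear_combination (1 - β) * h - (a + d) * htr2

/-- a matrix commuting with `B` and with the commutator is scalar -/
theorem rigid₂ {F : Type*} [Field F] (h2 : (2 : F) ≠ 0) (A B : SL2 F)
    (hk : lev (A, B) ≠ 2) (hnd : ¬ (tr A = 0 ∧ tr (A * B) = 0))
    (X : Matrix (Fin 2) (Fin 2) F) (hB : X * (B : Matrix (Fin 2) (Fin 2) F) = B * X)
    (hC : X * ((A * B * A⁻¹ * B⁻¹ : SL2 F) : Matrix (Fin 2) (Fin 2) F) =
      ((A * B * A⁻¹ * B⁻¹ : SL2 F) : Matrix (Fin 2) (Fin 2) F) * X) :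
    ∃ c : F, X = scalar (Fin 2) c := by
  set C : SL2 F := A * B * A⁻¹ * B⁻¹ with hCdef
  have hCinv : B * A * B⁻¹ * A⁻¹ = C⁻¹ := by rw [hCdef]; group
  have hlev : lev (B, A) = lev (A, B) := by
    show tr (B * A * B⁻¹ * A⁻¹) = tr (A * B * A⁻¹ * B⁻¹)
    rw [hCinv, rg_tr_inv]
  have e1 : ((C⁻¹ : SL2 F) : Matrix (Fin 2) (Fin 2) F) * (C : Matrix (Fin 2) (Fin 2) F) = 1 := by
    rw [← Matrix.SpecialLinearGroup.coe_mul, inv_mul_cancel, Matrix.SpecialLinearGroup.coe_one]
  have e2 : (C : Matrix (Fin 2) (Fin 2) F) * ((C⁻¹ : SL2 F) : Matrix (Fin 2) (Fin 2) F) = 1 := by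
    rw [← Matrix.SpecialLinearGroup.coe_mul, mul_inv_cancel, Matrix.SpecialLinearGroup.coe_one]
  apply rigid₁ h2 B A (by rw [hlev]; exact hk) (by rw [rg_tr_mul_comm B A]; exact hnd) X hB
  rw [hCinv]
  calc X * ((C⁻¹ : SL2 F) : Matrix (Fin 2) (Fin 2) F)
      = ((C⁻¹ : SL2 F) : Matrix (Fin 2) (Fin 2) F) * (C : Matrix (Fin 2) (Fin 2) F) * X *
        ((C⁻¹ : SL2 F) : Matrix (Fin 2) (Fin 2) F) := by rw [e1, one_mul]
    _ = ((C⁻¹ : SL2 F) : Matrix (Fin 2) (Fin 2) F) * ((C : Matrix (Fin 2) (Fin 2) F) * X) *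
        ((C⁻¹ : SL2 F) : Matrix (Fin 2) (Fin 2) F) := by rw [mul_assoc _ _ X]
    _ = ((C⁻¹ : SL2 F) : Matrix (Fin 2) (Fin 2) F) * (X * (C : Matrix (Fin 2) (Fin 2) F)) *
        ((C⁻¹ : SL2 F) : Matrix (Fin 2) (Fin 2) F) := by rw [hC]
    _ = ((C⁻¹ : SL2 F) : Matrix (Fin 2) (Fin 2) F) * X *
        ((C : Matrix (Fin 2) (Fin 2) F) * ((C⁻¹ : SL2 F) : Matrix (Fin 2) (Fin 2) F)) := by
          simp only [mul_assoc]
    _ = ((C⁻¹ : SL2 F) : Matrix (Fin 2) (Fin 2) F) * X := by rw [e2, mul_one]

end MW
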