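import Mathlib

/-! MW-SharpCnt: the index set for the sharp Stepanov bound. -/

namespace MW

private theorem sharpcnt_core (e d t s N : ℕ) (he : 1 ≤ e) (hd : 1 ≤ d) (h1 : 2 ∣ t * e)
    (h2 : 2 ∣ s * d) (f g : Fin N → ℕ) (hinj : Function.Injective fun m => (f m, g m))
    (hf : ∀ m, f m < 2 * e) (hg : ∀ m, g m < d) (hpar : ∀ m, 2 ∣ t * f m + s * g m) :
    ∃ (ii jj : Fin N → ℤ),
      Function.Injective (fun m => (ii m, jj m)) ∧
      (∀ m, (2 : ℤ) ∣ t * ii m + s * jj m) ∧
      (∀ m, 0 ≤ d * ii m + e * jj m ∧ d * ii m + e * jj m < 2 * (e * d)) ∧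
      (∀ m, -((e : ℤ) * d) ≤ d * ii m - e * jj m ∧ d * ii m - e * jj m < e * d) := by
  have hE : (0 : ℤ) < 2 * ((e : ℤ) * d) := by positivity
  set q : Fin N → ℤ := fun m => ((d : ℤ) * f m + e * g m) / (2 * (e * d)) with hq
  set q' : Fin N → ℤ := fun m => ((d : ℤ) * f m - e * g m + e * d) / (2 * (e * d)) with hq'
  have hq1 : ∀ m, 0 ≤ ((d : ℤ) * f m + e * g m) - 2 * (e * d) * q m ∧
      ((d : ℤ) * f m + e * g m) - 2 * (e * d) * q m < 2 * (e * d) := by
    intro m
    have h3 := Int.emod_nonneg ((d : ℤ) * f m + e * g m) hE.ne'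
    have h4 := Int.emod_lt_of_pos ((d : ℤ) * f m + e * g m) hE
    rw [Int.emod_def] at h3 h4
    exact ⟨h3, h4⟩
  have hq2 : ∀ m, 0 ≤ ((d : ℤ) * f m - e * g m + e * d) - 2 * (e * d) * q' m ∧
      ((d : ℤ) * f m - e * g m + e * d) - 2 * (e * d) * q' m < 2 * (e * d) := by
    intro m
    have h3 := Int.emod_nonneg ((d : ℤ) * f m - e * g m + e * d) hE.ne'
    have h4 := Int.emod_lt_of_pos ((d : ℤ) * f m - e * g m + e * d) hE
    rw [Int.emod_def] at h3 h4
    exact ⟨h3, h4⟩
  refine ⟨fun m => f m - e * (q m + q' m), fun m => g m - d * (q m - q' m), ?_, ?_, ?_, ?_⟩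
  · intro m n hmn
    simp only [Prod.mk.injEq] at hmn
    obtain ⟨ha, hb⟩ := hmn
    have hg' : (g m : ℤ) - g n = d * ((q m - q' m) - (q n - q' n)) := by linarith
    have hf' : (f m : ℤ) - f n = e * ((q m + q' m) - (q n + q' n)) := by linarith
    have hgm : (g m : ℤ) < d := by exact_mod_cast hg m
    have hgn : (g n : ℤ) < d := by exact_mod_cast hg n
    have hg0 : (0 : ℤ) ≤ g m := Int.natCast_nonneg _
    have hg0' : (0 : ℤ) ≤ g n := Int.natCast_nonneg _
    have hdpos : (0 : ℤ) < d := by exact_mod_cast hd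
    have hz : (q m - q' m) - (q n - q' n) = 0 := by
      have e1 : (d : ℤ) * ((q m - q' m) - (q n - q' n)) < d * 1 := by linarith
      have e2 : (d : ℤ) * (-1) < d * ((q m - q' m) - (q n - q' n)) := by linarith
      have e3 := lt_of_mul_lt_mul_left e1 hdpos.le
      have e4 := lt_of_mul_lt_mul_left e2 hdpos.le
      omega
    have hfm : (f m : ℤ) < 2 * e := by exact_mod_cast hf m
    have hfn : (f n : ℤ) < 2 * e := by exact_mod_cast hf n
    have hf0 : (0 : ℤ) ≤ f m := Int.natCast_nonneg _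
    have hf0' : (0 : ℤ) ≤ f n := Int.natCast_nonneg _
    have hepos : (0 : ℤ) < e := by exact_mod_cast he
    have hz' : (q m + q' m) - (q n + q' n) = 0 := by
      have e1 : (e : ℤ) * ((q m + q' m) - (q n + q' n)) < e * 2 := by linarith
      have e2 : (e : ℤ) * (-2) < e * ((q m + q' m) - (q n + q' n)) := by linarith
      have e3 := lt_of_mul_lt_mul_left e1 hepos.le
      have e4 := lt_of_mul_lt_mul_left e2 hepos.le
      omega
    rw [hz, mul_zero] at hg'
    rw [hz', mul_zero] at hf'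
    refine hinj ?_
    simp only [Prod.mk.injEq]
    constructor <;> omega
  · intro m
    obtain ⟨k1, hk1⟩ := h1
    obtain ⟨k2, hk2⟩ := h2
    obtain ⟨k3, hk3⟩ := hpar m
    have hk1' : (t : ℤ) * e = 2 * k1 := by exact_mod_cast hk1
    have hk2' : (s : ℤ) * d = 2 * k2 := by exact_mod_cast hk2
    have hk3' : (t : ℤ) * f m + s * g m = 2 * k3 := by exact_mod_cast hk3
    refine ⟨k3 - k1 * (q m + q' m) - k2 * (q m - q' m), ?_⟩
    linear_combination hk3' - (q m + q' m) * hk1' - (q m - q' m) * hk2'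
  · intro m
    have h3 := hq1 m
    have h4 : (d : ℤ) * (f m - e * (q m + q' m)) + e * (g m - d * (q m - q' m)) =
        ((d : ℤ) * f m + e * g m) - 2 * (e * d) * q m := by ring
    simp only
    rw [h4]
    exact h3
  · intro m
    have h3 := hq2 m
    have h4 : (d : ℤ) * (f m - e * (q m + q' m)) - e * (g m - d * (q m - q' m)) =
        ((d : ℤ) * f m - e * g m + e * d) - 2 * (e * d) * q' m - e * d := by ring
    simp only
    rw [h4]
    constructor <;> linarith

theorem sharpCnt (e d t s : ℕ) (he : 1 ≤ e) (hd : 1 ≤ d) (h1 : 2 ∣ t * e) (h2 : 2 ∣ s * d) :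
    ∃ (N : ℕ) (ii jj : Fin N → ℤ),
      ((t % 2 = 0 ∧ s % 2 = 0 ∧ N = 2 * (e * d)) ∨ (¬ (t % 2 = 0 ∧ s % 2 = 0) ∧ N = e * d)) ∧
      Function.Injective (fun m => (ii m, jj m)) ∧
      (∀ m, (2 : ℤ) ∣ t * ii m + s * jj m) ∧
      (∀ m, 0 ≤ d * ii m + e * jj m ∧ d * ii m + e * jj m < 2 * (e * d)) ∧
      (∀ m, -((e : ℤ) * d) ≤ d * ii m - e * jj m ∧ d * ii m - e * jj m < e * d) := by
  rcases Nat.mod_two_eq_zero_or_one t with ht | ht
  · rcases Nat.mod_two_eq_zero_or_one s with hs | hs
    · -- both even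
      obtain ⟨ii, jj, h⟩ := sharpcnt_core e d t s (2 * (e * d)) he hd h1 h2
        (fun m => m.1 / d) (fun m => m.1 % d) (by
          intro m n hmn
          simp only [Prod.mk.injEq] at hmn
          apply Fin.ext
          rw [← Nat.div_add_mod m.1 d, ← Nat.div_add_mod n.1 d, hmn.1, hmn.2])
        (by
          intro m
          rw [Nat.div_lt_iff_lt_mul (by omega)]
          have := m.2
          rw [mul_assoc]
          exact this)
        (fun m => Nat.mod_lt _ (by omega))
        (fun m => dvd_add (Dvd.dvd.mul_right (Nat.dvd_of_mod_eq_zero ht) _)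
          (Dvd.dvd.mul_right (Nat.dvd_of_mod_eq_zero hs) _))
      exact ⟨_, ii, jj, Or.inl ⟨ht, hs, rfl⟩, h⟩
    · -- t even, s odd: d is even
      have hd2 : d % 2 = 0 := by
        obtain ⟨k, hk⟩ := h2
        have h3 : (s * d) % 2 = 0 := by omega
        rw [Nat.mul_mod, hs, one_mul, Nat.mod_mod] at h3
        exact h3
      obtain ⟨d', hd'⟩ : ∃ d', d = 2 * d' := ⟨d / 2, by omega⟩
      obtain ⟨ii, jj, h⟩ := sharpcnt_core e d t s (e * d) he hd h1 h2
        (fun m => m.1 % (2 * e)) (fun m => 2 * (m.1 / (2 * e))) (by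
          intro m n hmn
          simp only [Prod.mk.injEq] at hmn
          apply Fin.ext
          have h3 : m.1 / (2 * e) = n.1 / (2 * e) := by omega
          rw [← Nat.div_add_mod m.1 (2 * e), ← Nat.div_add_mod n.1 (2 * e), hmn.1, h3])
        (fun m => Nat.mod_lt _ (by omega))
        (by
          intro m
          have h3 : m.1 / (2 * e) < d' := by
            rw [Nat.div_lt_iff_lt_mul (by omega)]
            have := m.2
            calc m.1 < e * d := this
              _ = d' * (2 * e) := by rw [hd']; ring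
          omega)
        (fun m => dvd_add (Dvd.dvd.mul_right (Nat.dvd_of_mod_eq_zero ht) _)
          (Dvd.dvd.mul_left (Dvd.intro _ rfl) _))
      exact ⟨_, ii, jj, Or.inr ⟨by omega, rfl⟩, h⟩
  · -- t odd
    obtain ⟨ii, jj, h⟩ := sharpcnt_core e d t s (e * d) he hd h1 h2
      (fun m => 2 * (m.1 / d) + (s * (m.1 % d)) % 2) (fun m => m.1 % d) (by
        intro m n hmn
        simp only [Prod.mk.injEq] at hmn
        apply Fin.ext
        obtain ⟨ha, hb⟩ := hmn
        rw [hb] at ha
        have h3 : m.1 / d = n.1 / d := by omega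
        rw [← Nat.div_add_mod m.1 d, ← Nat.div_add_mod n.1 d, hb, h3])
      (by
        intro m
        have h3 : m.1 / d < e := by
          rw [Nat.div_lt_iff_lt_mul (by omega)]
          exact m.2
        have h4 : (s * (m.1 % d)) % 2 < 2 := Nat.mod_lt _ (by norm_num)
        omega)
      (fun m => Nat.mod_lt _ (by omega))
      (by
        intro m
        rw [Nat.dvd_iff_mod_eq_zero]
        set a := s * (m.1 % d) with ha
        obtain ⟨t', ht'⟩ : ∃ t', t = 2 * t' + 1 := ⟨t / 2, by omega⟩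
        have h3 : t * (2 * (m.1 / d) + a % 2) + a =
            2 * (t * (m.1 / d) + t' * (a % 2)) + (a % 2 + a) := by
          rw [ht']
          ring
        rw [h3]
        omega)
    exact ⟨_, ii, jj, Or.inr ⟨by omega, rfl⟩, h⟩

end MW
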