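import Mathlib

/-! MW-Sparse: a sparse polynomial of degree `< p` has low multiplicity at nonzero points. -/

namespace MW

open Polynomial

theorem sparse_card_X_mul {K : Type*} [Field K] (G : K[X]) :
    (X * G).support.card = G.support.card := by
  have h : (X * G).support = G.support.map (addRightEmbedding 1) := by
    ext n
    rw [Finset.mem_map]
    cases n with
    | zero =>
      rw [mem_support_iff, coeff_X_mul_zero]
      simp
    | succ n =>
      rw [mem_support_iff, coeff_X_mul]
      constructor
      · intro h
        exact ⟨n, mem_support_iff.2 h, rfl⟩
      · rintro ⟨m, hm, h⟩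
        have : m = n := Nat.succ_injective h
        subst this
        exact mem_support_iff.1 hm
  rw [h, Finset.card_map]

theorem sparse_card_derivative {K : Type*} [Field K] (p : ℕ) [Fact p.Prime] [CharP K p] (F : K[X])
    (hd : F.natDegree < p) (h0 : F.coeff 0 ≠ 0) :
    F.support.card = (derivative F).support.card + 1 := by
  have h : F.support = insert 0 ((derivative F).support.map (addRightEmbedding 1)) := by
    ext n
    rw [Finset.mem_insert, Finset.mem_map]
    cases n with
    | zero =>
      simp [mem_support_iff, h0]
    | succ n =>
      rw [mem_support_iff]
      constructor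
      · intro h
        refine Or.inr ⟨n, ?_, rfl⟩
        rw [mem_support_iff, coeff_derivative]
        refine mul_ne_zero h ?_
        have h1 : n + 1 ≤ F.natDegree := le_natDegree_of_ne_zero h
        intro h2
        have h3 : ((n + 1 : ℕ) : K) = 0 := by push_cast; exact h2
        rw [CharP.cast_eq_zero_iff K p] at h3
        have := Nat.le_of_dvd (by omega) h3
        omega
      · rintro (h | ⟨m, hm, h⟩)
        · exact absurd h (Nat.succ_ne_zero n)
        · have : m = n := Nat.succ_injective h
          subst this
          rw [mem_support_iff, coeff_derivative] at hm
          exact left_ne_zero_of_mul hm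
  have h1 : (0 : ℕ) ∉ (derivative F).support.map (addRightEmbedding 1) := by
    rw [Finset.mem_map]
    rintro ⟨m, -, hm⟩
    exact Nat.succ_ne_zero m hm
  conv_lhs => rw [h]
  rw [Finset.card_insert_of_notMem h1, Finset.card_map]

theorem sparse {K : Type*} [Field K] (p : ℕ) [Fact p.Prime] [CharP K p] (F : K[X]) (hF : F ≠ 0)
    (hd : F.natDegree < p) (l : K) (hl : l ≠ 0) : ¬ (X - C l) ^ F.support.card ∣ F := by
  have key : ∀ d : ℕ, ∀ F : K[X], F.natDegree = d → F ≠ 0 → F.natDegree < p →
      ¬ (X - C l) ^ F.support.card ∣ F := by
    intro d
    induction d using Nat.strong_induction_on with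
    | _ d ih =>
      intro F hFd hF hd hdvd
      by_cases h0 : F.coeff 0 = 0
      · obtain ⟨G, rfl⟩ := X_dvd_iff.2 h0
        have hG : G ≠ 0 := right_ne_zero_of_mul hF
        rw [sparse_card_X_mul] at hdvd
        have hdeg : (X * G).natDegree = G.natDegree + 1 := by
          rw [natDegree_mul X_ne_zero hG, natDegree_X, add_comm]
        have hcop : IsCoprime ((X - C l) ^ G.support.card) (X : K[X]) := by
          apply IsCoprime.pow_left
          have h1 : IsCoprime (X - C l) (X - C (0 : K)) := isCoprime_X_sub_C_of_isUnit_sub
            (by rw [sub_zero]; exact hl.isUnit)
          simpa using h1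
        have h2 := hcop.dvd_of_dvd_mul_left hdvd
        exact ih G.natDegree (by omega) G rfl hG (by omega) h2
      · have hcard := sparse_card_derivative p F hd h0
        rw [hcard] at hdvd
        by_cases hF' : derivative F = 0
        · rw [hF'] at hdvd
          simp only [support_zero, Finset.card_empty, zero_add, pow_one] at hdvd
          have h1 : F.natDegree = 0 := by
            by_contra hne
            have h2 : (derivative F).coeff (F.natDegree - 1) = 0 := by rw [hF', coeff_zero]
            rw [coeff_derivative, Nat.sub_add_cancel (by omega)] at h2
            rcases mul_eq_zero.1 h2 with h3 | h3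
            · exact hF (leadingCoeff_eq_zero.1 h3)
            · have h4 : ((F.natDegree : ℕ) : K) = 0 := by
                rw [← h3]
                have : ((F.natDegree - 1 : ℕ) : K) + 1 = ((F.natDegree - 1 + 1 : ℕ) : K) := by
                  push_cast; ring
                rw [this, Nat.sub_add_cancel (by omega)]
              rw [CharP.cast_eq_zero_iff K p] at h4
              have := Nat.le_of_dvd (by omega) h4
              omega
          have h2 := natDegree_le_of_dvd hdvd hF
          rw [natDegree_X_sub_C] at h2
          omega
        · have h1 := pow_sub_one_dvd_derivative_of_pow_dvd hdvd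
          rw [Nat.add_sub_cancel] at h1
          have h2 : (derivative F).natDegree < F.natDegree := by
            apply natDegree_derivative_lt
            intro h3
            rw [eq_C_of_natDegree_eq_zero h3, derivative_C] at hF'
            exact hF' rfl
          exact ih (derivative F).natDegree (by omega) (derivative F) rfl hF' (by omega) h1
  exact key F.natDegree F rfl hF hd

end MW
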