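import Pool.Agent.Lib.MP_a542cf_al.TransferAbs
import Pool.Agent.Lib.MP_a542cf_al.PairExists
import Pool.Agent.Lib.MP_a542cf_al.ConjTriple
import Pool.Agent.Lib.MP_a542cf_al.Rigid
import Pool.Agent.Lib.MP_a542cf_al.Delta

/-! MW-TransferAC: the congruence for invariant sets over an algebraically closed field. -/

namespace MW

section aux

variable {F : Type*} [Field F]

/-- conjugation by an invertible matrix -/
private def acCj (u : (Matrix (Fin 2) (Fin 2) F)ˣ) : SL2 F →* SL2 F where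
  toFun A := ⟨(u : Matrix (Fin 2) (Fin 2) F) * (A : Matrix (Fin 2) (Fin 2) F) *
      ((u⁻¹ : (Matrix (Fin 2) (Fin 2) F)ˣ) : Matrix (Fin 2) (Fin 2) F), by
    rw [Matrix.det_mul, Matrix.det_mul, A.det_coe, mul_one, ← Matrix.det_mul, Units.mul_inv,
      Matrix.det_one]⟩
  map_one' := by
    apply Subtype.ext
    show (u : Matrix (Fin 2) (Fin 2) F) * (1 : Matrix (Fin 2) (Fin 2) F) *
      ((u⁻¹ : (Matrix (Fin 2) (Fin 2) F)ˣ) : Matrix (Fin 2) (Fin 2) F) = 1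
    rw [mul_one, Units.mul_inv]
  map_mul' A B := by
    apply Subtype.ext
    show (u : Matrix (Fin 2) (Fin 2) F) * ((A * B : SL2 F) : Matrix (Fin 2) (Fin 2) F) *
      ((u⁻¹ : (Matrix (Fin 2) (Fin 2) F)ˣ) : Matrix (Fin 2) (Fin 2) F) =
      ((u : Matrix (Fin 2) (Fin 2) F) * (A : Matrix (Fin 2) (Fin 2) F) *
      ((u⁻¹ : (Matrix (Fin 2) (Fin 2) F)ˣ) : Matrix (Fin 2) (Fin 2) F)) *
      ((u : Matrix (Fin 2) (Fin 2) F) * (B : Matrix (Fin 2) (Fin 2) F) *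
      ((u⁻¹ : (Matrix (Fin 2) (Fin 2) F)ˣ) : Matrix (Fin 2) (Fin 2) F))
    rw [Matrix.SpecialLinearGroup.coe_mul]
    have h := Units.inv_mul u
    calc (u : Matrix (Fin 2) (Fin 2) F) *
          ((A : Matrix (Fin 2) (Fin 2) F) * (B : Matrix (Fin 2) (Fin 2) F)) *
          ((u⁻¹ : (Matrix (Fin 2) (Fin 2) F)ˣ) : Matrix (Fin 2) (Fin 2) F)
        = (u : Matrix (Fin 2) (Fin 2) F) * (A : Matrix (Fin 2) (Fin 2) F) * 1 *
          (B : Matrix (Fin 2) (Fin 2) F) *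
          ((u⁻¹ : (Matrix (Fin 2) (Fin 2) F)ˣ) : Matrix (Fin 2) (Fin 2) F) := by noncomm_ring
      _ = _ := by rw [← h]; noncomm_ring

private theorem acCj_coe (u : (Matrix (Fin 2) (Fin 2) F)ˣ) (A : SL2 F) :
    ((acCj u A : SL2 F) : Matrix (Fin 2) (Fin 2) F) =
      (u : Matrix (Fin 2) (Fin 2) F) * (A : Matrix (Fin 2) (Fin 2) F) *
      ((u⁻¹ : (Matrix (Fin 2) (Fin 2) F)ˣ) : Matrix (Fin 2) (Fin 2) F) := rfl

private theorem acCj_iff (u : (Matrix (Fin 2) (Fin 2) F)ˣ) (A B : SL2 F) :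
    acCj u A = B ↔ (u : Matrix (Fin 2) (Fin 2) F) * (A : Matrix (Fin 2) (Fin 2) F) =
      (B : Matrix (Fin 2) (Fin 2) F) * (u : Matrix (Fin 2) (Fin 2) F) := by
  constructor
  · rintro rfl
    rw [acCj_coe, mul_assoc _ _ (u : Matrix (Fin 2) (Fin 2) F), Units.inv_mul, mul_one]
  · intro h
    apply Subtype.ext
    show (u : Matrix (Fin 2) (Fin 2) F) * (A : Matrix (Fin 2) (Fin 2) F) *
      ((u⁻¹ : (Matrix (Fin 2) (Fin 2) F)ˣ) : Matrix (Fin 2) (Fin 2) F) =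
      (B : Matrix (Fin 2) (Fin 2) F)
    rw [h, mul_assoc, Units.mul_inv, mul_one]

private theorem acCj_one (A : SL2 F) : acCj 1 A = A := by
  rw [acCj_iff, Units.val_one, one_mul, mul_one]

private theorem acCj_comp (u v : (Matrix (Fin 2) (Fin 2) F)ˣ) (A : SL2 F) :
    acCj (u * v) A = acCj u (acCj v A) := by
  rw [acCj_iff, Units.val_mul, mul_assoc, (acCj_iff v A _).1 rfl, ← mul_assoc,
    (acCj_iff u (acCj v A) _).1 rfl, mul_assoc]

private theorem ac_tr_cj (u : (Matrix (Fin 2) (Fin 2) F)ˣ) (A : SL2 F) :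
    tr (acCj u A) = tr A := by
  unfold tr
  rw [acCj_coe, Matrix.trace_mul_comm, ← mul_assoc, Units.inv_mul, one_mul]

/-- the centralizer of `C` in `GL_2` -/
private def acZ (C : SL2 F) : Subgroup (Matrix (Fin 2) (Fin 2) F)ˣ where
  carrier := {g | Commute (g : Matrix (Fin 2) (Fin 2) F) (C : Matrix (Fin 2) (Fin 2) F)}
  one_mem' := Commute.one_left _
  mul_mem' := fun ha hb => Commute.mul_left ha hb
  inv_mem' := fun ha => Commute.units_inv_left ha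

private theorem ac_cjC {C : SL2 F} {u : (Matrix (Fin 2) (Fin 2) F)ˣ} (hu : u ∈ acZ C) :
    acCj u C = C := (acCj_iff u C C).2 hu

/-- the set of pairs -/
private def acΩ (C : SL2 F) (O : Finset (F × F × F)) : Type _ :=
  {P : SL2 F × SL2 F // P.1 * P.2 * P.1⁻¹ * P.2⁻¹ = C ∧ triple P ∈ O}

private theorem ac_cj_prop {C : SL2 F} {O : Finset (F × F × F)} {u : (Matrix (Fin 2) (Fin 2) F)ˣ}
    (hu : u ∈ acZ C) {P : SL2 F × SL2 F}
    (hP : P.1 * P.2 * P.1⁻¹ * P.2⁻¹ = C ∧ triple P ∈ O) :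
    acCj u P.1 * acCj u P.2 * (acCj u P.1)⁻¹ * (acCj u P.2)⁻¹ = C ∧
      triple (acCj u P.1, acCj u P.2) ∈ O := by
  refine ⟨?_, ?_⟩
  · rw [← map_inv, ← map_inv, ← map_mul, ← map_mul, ← map_mul, hP.1, ac_cjC hu]
  · have h : triple (acCj u P.1, acCj u P.2) = triple P := by
      unfold triple
      simp only [← map_mul, ac_tr_cj]
    rw [h]
    exact hP.2

@[reducible] private def acAct (C : SL2 F) (O : Finset (F × F × F)) : MulAction (acZ C) (acΩ C O) where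
  smul z ω := ⟨(acCj z.1 ω.1.1, acCj z.1 ω.1.2), ac_cj_prop z.2 ω.2⟩
  one_smul ω := by
    apply Subtype.ext
    show (acCj 1 ω.1.1, acCj 1 ω.1.2) = ω.1
    rw [acCj_one, acCj_one]
  mul_smul z w ω := by
    apply Subtype.ext
    show (acCj (z.1 * w.1) ω.1.1, acCj (z.1 * w.1) ω.1.2) =
      (acCj z.1 (acCj w.1 ω.1.1), acCj z.1 (acCj w.1 ω.1.2))
    rw [acCj_comp, acCj_comp]

private theorem ac_nonscalar (κ : F) (hκ : κ ≠ 4) (C : SL2 F)
    (hC : tr C = κ - 2) (hC1 : C ≠ -1) (c : F) :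
    (C : Matrix (Fin 2) (Fin 2) F) ≠ Matrix.scalar (Fin 2) c := by
  intro h
  have hd := C.det_coe
  rw [h] at hd
  have h1 : c * c = 1 := by
    rw [Matrix.scalar_apply, Matrix.det_diagonal, Fin.prod_univ_two] at hd
    exact hd
  have h2 : c = 1 ∨ c = -1 := mul_self_eq_one_iff.1 h1
  rcases h2 with rfl | rfl
  · apply hκ
    unfold tr at hC
    rw [h, Matrix.scalar_apply, Matrix.trace_fin_two] at hC
    simp at hC
    linear_combination -hC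
  · apply hC1
    apply Subtype.ext
    rw [h]
    ext i j
    fin_cases i <;> fin_cases j <;> simp

@[reducible] private noncomputable def acComm (κ : F) (hκ : κ ≠ 4) (C : SL2 F)
    (hC : tr C = κ - 2) (hC1 : C ≠ -1) : CommGroup (acZ C) :=
  { (inferInstance : Group (acZ C)) with
    mul_comm := by
      intro a b
      apply Subtype.ext
      apply Units.ext
      exact comm_of_comm (C : Matrix (Fin 2) (Fin 2) F) _ _ (ac_nonscalar κ hκ C hC hC1) a.2 b.2 }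

private theorem ac_scalar_cj (u : (Matrix (Fin 2) (Fin 2) F)ˣ) (c : F)
    (hu : (u : Matrix (Fin 2) (Fin 2) F) = Matrix.scalar (Fin 2) c) (A : SL2 F) :
    acCj u A = A := by
  rw [acCj_iff, hu]
  exact (Matrix.scalar_commute c (fun r => mul_comm c r) _).eq

end aux

theorem transferAC {F : Type*} [Field F] [IsAlgClosed F] (h2 : (2 : F) ≠ 0) (κ : F)
    (hκ : κ ≠ 4) (O : Finset (F × F × F)) (hX : ∀ v ∈ O, OnX κ v)
    (hL : ∀ x y z, (x, y, z) ∈ O → (x, z, x * z - y) ∈ O)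
    (hR : ∀ x y z, (x, y, z) ∈ O → (x * y - z, y, x) ∈ O)
    (hnd : ∀ x y z, (x, y, z) ∈ O → ¬ (y = 0 ∧ z = 0) ∧ ¬ (x = 0 ∧ z = 0))
    (C : SL2 F) (hC : tr C = κ - 2) (hC1 : C ≠ -1) : (-C) ^ O.card = 1 := by
  classical
  have hC2 : tr C ≠ 2 := by
    intro h
    apply hκ
    rw [hC] at h
    linear_combination h
  rcases O.eq_empty_or_nonempty with rfl | ⟨v0, hv0⟩
  · simp
  let instC : CommGroup (acZ C) := acComm κ hκ C hC hC1
  let instA : MulAction (acZ C) (acΩ C O) := acAct C O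
  have hsm : ∀ (z : acZ C) (ω : acΩ C O), (z • ω).1 = (acCj z.1 ω.1.1, acCj z.1 ω.1.2) :=
    fun z ω => rfl
  have hlev : ∀ ω : acΩ C O, lev (ω.1.1, ω.1.2) ≠ 2 := by
    intro ω
    show tr (ω.1.1 * ω.1.2 * ω.1.1⁻¹ * ω.1.2⁻¹) ≠ 2
    rw [ω.2.1]
    exact hC2
  have hcomC : ∀ (z : acZ C) (ω : acΩ C O), ((z : (Matrix (Fin 2) (Fin 2) F)ˣ) :
      Matrix (Fin 2) (Fin 2) F) *
      ((ω.1.1 * ω.1.2 * ω.1.1⁻¹ * ω.1.2⁻¹ : SL2 F) : Matrix (Fin 2) (Fin 2) F) =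
      ((ω.1.1 * ω.1.2 * ω.1.1⁻¹ * ω.1.2⁻¹ : SL2 F) : Matrix (Fin 2) (Fin 2) F) *
      ((z : (Matrix (Fin 2) (Fin 2) F)ˣ) : Matrix (Fin 2) (Fin 2) F) := by
    intro z ω
    rw [ω.2.1]
    exact z.2
  have hsc1 : ∀ (z : acZ C) (ω : acΩ C O), acCj z.1 ω.1.1 = ω.1.1 →
      ∃ c : F, ((z : (Matrix (Fin 2) (Fin 2) F)ˣ) : Matrix (Fin 2) (Fin 2) F) =
        Matrix.scalar (Fin 2) c := by
    intro z ω h
    exact rigid₁ h2 ω.1.1 ω.1.2 (hlev ω) (hnd _ _ _ ω.2.2).1 _ ((acCj_iff _ _ _).1 h) (hcomC z ω)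
  have hsc2 : ∀ (z : acZ C) (ω : acΩ C O), acCj z.1 ω.1.2 = ω.1.2 →
      ∃ c : F, ((z : (Matrix (Fin 2) (Fin 2) F)ˣ) : Matrix (Fin 2) (Fin 2) F) =
        Matrix.scalar (Fin 2) c := by
    intro z ω h
    exact rigid₂ h2 ω.1.1 ω.1.2 (hlev ω) (hnd _ _ _ ω.2.2).2 _ ((acCj_iff _ _ _).1 h) (hcomC z ω)
  have htriv : ∀ (z : acZ C) (c : F), ((z : (Matrix (Fin 2) (Fin 2) F)ˣ) :
      Matrix (Fin 2) (Fin 2) F) = Matrix.scalar (Fin 2) c → ∀ ω : acΩ C O, z • ω = ω := by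
    intro z c h ω
    apply Subtype.ext
    rw [hsm, ac_scalar_cj _ c h, ac_scalar_cj _ c h]
  let π : acΩ C O → O := fun ω => ⟨triple ω.1, ω.2.2⟩
  let L : acΩ C O → acΩ C O := fun ω => ⟨mvL ω.1, by
    refine ⟨by rw [comm_mvL, ω.2.1], ?_⟩
    rw [triple_mvL]
    exact hL _ _ _ ω.2.2⟩
  let R : acΩ C O → acΩ C O := fun ω => ⟨mvR ω.1, by
    refine ⟨by rw [comm_mvR, ω.2.1], ?_⟩
    rw [triple_mvR]
    exact hR _ _ _ ω.2.2⟩
  let L' : O → O := fun v => ⟨(v.1.1, v.1.2.2, v.1.1 * v.1.2.2 - v.1.2.1), hL _ _ _ v.2⟩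
  let R' : O → O := fun v => ⟨(v.1.1 * v.1.2.1 - v.1.2.2, v.1.2.1, v.1.1), hR _ _ _ v.2⟩
  -- the unit 1 - C⁻¹
  have hdet : (1 - ((C⁻¹ : SL2 F) : Matrix (Fin 2) (Fin 2) F)).det ≠ 0 := by
    have hd := C.det_coe
    rw [Matrix.det_fin_two] at hd
    unfold tr at hC
    rw [Matrix.trace_fin_two] at hC
    have h1 : (1 - ((C⁻¹ : SL2 F) : Matrix (Fin 2) (Fin 2) F)).det = 4 - κ := by
      rw [Matrix.SpecialLinearGroup.coe_inv, Matrix.adjugate_fin_two, Matrix.det_fin_two]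
      simp only [Matrix.sub_apply, Matrix.one_apply_eq, Matrix.of_apply, Matrix.cons_val',
        Matrix.cons_val_zero, Matrix.cons_val_one, Matrix.cons_val_fin_one,
        Matrix.one_apply_ne (zero_ne_one : (0 : Fin 2) ≠ 1),
        Matrix.one_apply_ne (one_ne_zero : (1 : Fin 2) ≠ 0)]
      linear_combination hd - hC
    rw [h1]
    exact sub_ne_zero.2 (Ne.symm hκ)
  let u0 : (Matrix (Fin 2) (Fin 2) F)ˣ :=
    Matrix.nonsingInvUnit (1 - ((C⁻¹ : SL2 F) : Matrix (Fin 2) (Fin 2) F))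
      (isUnit_iff_ne_zero.2 hdet)
  have hu0 : (u0 : Matrix (Fin 2) (Fin 2) F) =
    1 - ((C⁻¹ : SL2 F) : Matrix (Fin 2) (Fin 2) F) := rfl
  have hu0Z : u0 ∈ acZ C := by
    show Commute (u0 : Matrix (Fin 2) (Fin 2) F) (C : Matrix (Fin 2) (Fin 2) F)
    rw [hu0]
    apply Commute.sub_left (Commute.one_left _)
    show ((C⁻¹ : SL2 F) : Matrix (Fin 2) (Fin 2) F) * (C : Matrix (Fin 2) (Fin 2) F) =
      (C : Matrix (Fin 2) (Fin 2) F) * ((C⁻¹ : SL2 F) : Matrix (Fin 2) (Fin 2) F)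
    rw [← Matrix.SpecialLinearGroup.coe_mul, ← Matrix.SpecialLinearGroup.coe_mul,
      inv_mul_cancel, mul_inv_cancel]
  have hsurj : Function.Surjective π := by
    intro v
    have hv : (v.1 : F × F × F) ≠ (0, 0, 0) := by
      intro h
      have h1 := v.2
      rw [h] at h1
      exact (hnd _ _ _ h1).1 ⟨rfl, rfl⟩
    obtain ⟨P, hP1, hP2⟩ := pairExists h2 κ hκ v.1 (hX _ v.2) hv C hC hC1
    exact ⟨⟨P, hP2, by rw [hP1]; exact v.2⟩, Subtype.ext hP1⟩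
  have hπ : ∀ ω ω' : acΩ C O, π ω = π ω' ↔ ∃ z : acZ C, z • ω = ω' := by
    intro ω ω'
    constructor
    · intro h
      have h1 : triple ω.1 = triple ω'.1 := congrArg Subtype.val h
      obtain ⟨X, hXd, hX1, hX2⟩ := conjTriple h2 κ hκ ω.1 ω'.1 (hX _ ω.2.2) h1
      let u : (Matrix (Fin 2) (Fin 2) F)ˣ := Matrix.nonsingInvUnit X (isUnit_iff_ne_zero.2 hXd)
      have e1 : acCj u ω.1.1 = ω'.1.1 := (acCj_iff u _ _).2 hX1
      have e2 : acCj u ω.1.2 = ω'.1.2 := (acCj_iff u _ _).2 hX2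
      have hu : u ∈ acZ C := by
        apply (acCj_iff u C C).1
        have h3 : acCj u (ω.1.1 * ω.1.2 * ω.1.1⁻¹ * ω.1.2⁻¹) =
            ω'.1.1 * ω'.1.2 * ω'.1.1⁻¹ * ω'.1.2⁻¹ := by
          rw [map_mul, map_mul, map_mul, map_inv, map_inv, e1, e2]
        rwa [ω.2.1, ω'.2.1] at h3
      refine ⟨⟨u, hu⟩, Subtype.ext ?_⟩
      rw [hsm]
      exact Prod.ext e1 e2
    · rintro ⟨z, rfl⟩
      apply Subtype.ext
      show triple ω.1 = triple (z • ω).1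
      rw [hsm]
      unfold triple
      simp only [← map_mul, ac_tr_cj]
  have hfree : ∀ (z : acZ C) (ω : acΩ C O), z • ω = ω → ∀ ω' : acΩ C O, z • ω' = ω' := by
    intro z ω h
    have h1 : acCj z.1 ω.1.1 = ω.1.1 := congrArg (fun w : acΩ C O => w.1.1) h
    obtain ⟨c, hc⟩ := hsc1 z ω h1
    exact htriv z c hc
  have hLc : ∀ (z : acZ C) (ω : acΩ C O), L (z • ω) = z • L ω := by
    intro z ω
    apply Subtype.ext
    show (acCj z.1 ω.1.1, acCj z.1 ω.1.2 * acCj z.1 ω.1.1) =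
      (acCj z.1 ω.1.1, acCj z.1 (ω.1.2 * ω.1.1))
    rw [map_mul]
  have hRc : ∀ (z : acZ C) (ω : acΩ C O), R (z • ω) = z • R ω := by
    intro z ω
    apply Subtype.ext
    show (acCj z.1 ω.1.1 * (acCj z.1 ω.1.2)⁻¹, acCj z.1 ω.1.2) =
      (acCj z.1 (ω.1.1 * ω.1.2⁻¹), acCj z.1 ω.1.2)
    rw [map_mul, map_inv]
  have hL' : Function.Injective L' := by
    rintro ⟨⟨x, y, z⟩, hv⟩ ⟨⟨x', y', z'⟩, hv'⟩ h
    simp only [L', Subtype.mk.injEq, Prod.mk.injEq] at h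
    obtain ⟨rfl, rfl, h⟩ := h
    have : y = y' := by linear_combination -h
    subst this
    rfl
  have hR' : Function.Injective R' := by
    rintro ⟨⟨x, y, z⟩, hv⟩ ⟨⟨x', y', z'⟩, hv'⟩ h
    simp only [R', Subtype.mk.injEq, Prod.mk.injEq] at h
    obtain ⟨h, rfl, rfl⟩ := h
    have : z = z' := by linear_combination -h
    subst this
    rfl
  have hLL : ∀ ω, π (L ω) = L' (π ω) := by
    intro ω
    apply Subtype.ext
    exact triple_mvL ω.1
  have hRR : ∀ ω, π (R ω) = R' (π ω) := by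
    intro ω
    apply Subtype.ext
    exact triple_mvR ω.1
  have hLit : ∀ (n : ℕ) (ω : acΩ C O), (L^[n] ω).1.1 = ω.1.1 := by
    intro n
    induction n with
    | zero => intro ω; rfl
    | succ n ih => intro ω; rw [Function.iterate_succ_apply, ih]; rfl
  have hRit : ∀ (n : ℕ) (ω : acΩ C O), (R^[n] ω).1.2 = ω.1.2 := by
    intro n
    induction n with
    | zero => intro ω; rfl
    | succ n ih => intro ω; rw [Function.iterate_succ_apply, ih]; rfl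
  have hLcyc : ∀ (n : ℕ) (ω : acΩ C O) (z : acZ C), L^[n] ω = z • ω → z • ω = ω := by
    intro n ω z h
    have h1 : acCj z.1 ω.1.1 = ω.1.1 := by
      have h3 : (L^[n] ω).1.1 = (z • ω).1.1 := by rw [h]
      rw [hLit] at h3
      exact h3.symm
    obtain ⟨c, hc⟩ := hsc1 z ω h1
    exact htriv z c hc ω
  have hRcyc : ∀ (n : ℕ) (ω : acΩ C O) (z : acZ C), R^[n] ω = z • ω → z • ω = ω := by
    intro n ω z h
    have h1 : acCj z.1 ω.1.2 = ω.1.2 := by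
      have h3 : (R^[n] ω).1.2 = (z • ω).1.2 := by rw [h]
      rw [hRit] at h3
      exact h3.symm
    obtain ⟨c, hc⟩ := hsc2 z ω h1
    exact htriv z c hc ω
  have hW : ∀ ω, L (R (L (L (R (L ω))))) = (⟨u0, hu0Z⟩ : acZ C) • ω := by
    intro ω
    apply Subtype.ext
    rw [hsm]
    have hd := delta ω.1.1 ω.1.2
    rw [ω.2.1] at hd
    have e1 := (acCj_iff u0 _ _).2 hd.1
    have e2 := (acCj_iff u0 _ _).2 hd.2
    exact (Prod.ext e1 e2).symm
  have hfin := transferAbs π hsurj hπ hfree L R hLc hRc L' R' hL' hR' hLL hRR hLcyc hRcyc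
    ⟨u0, hu0Z⟩ hW
  obtain ⟨ω, -⟩ := hsurj ⟨v0, hv0⟩
  have h3 := hfin ω
  have h4 : acCj (((⟨u0, hu0Z⟩ : acZ C) ^ Fintype.card O : acZ C)).1 ω.1.1 = ω.1.1 :=
    congrArg (fun w : acΩ C O => w.1.1) h3
  obtain ⟨c, hc⟩ := hsc1 _ ω h4
  rw [Fintype.card_coe] at hc
  apply negC_pow h2 C hC2 O.card c
  rw [← hc, ← hu0]
  rfl

end MW
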