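import Mathlib

/-! MW-TransferAbs: an abstract transfer lemma. -/

namespace MW

section aux

variable {Ω Z O : Type*} [CommGroup Z] [MulAction Z Ω]

/-- the elements acting trivially -/
private def tK (Ω Z : Type*) [CommGroup Z] [MulAction Z Ω] : Subgroup Z :=
  (MulAction.toPermHom Z Ω).ker

private theorem tK_mem {z : Z} : z ∈ tK Ω Z ↔ ∀ ω : Ω, z • ω = ω := by
  unfold tK
  rw [MonoidHom.mem_ker]
  constructor
  · intro h ω
    have := congrArg (fun f : Equiv.Perm Ω => f ω) h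
    simpa using this
  · intro h
    ext ω
    simpa using h ω

private theorem tK_eq (hfree : ∀ (z : Z) (ω : Ω), z • ω = ω → ∀ ω' : Ω, z • ω' = ω')
    {z z' : Z} {ω : Ω} (h : z • ω = z' • ω) : (z : Z ⧸ tK Ω Z) = (z' : Z ⧸ tK Ω Z) := by
  rw [QuotientGroup.eq, tK_mem]
  apply hfree _ ω
  rw [mul_smul, ← h, ← mul_smul, inv_mul_cancel, one_smul]

/-- the product does not depend on the section -/
private theorem t_indep [Fintype O] (π : Ω → O)
    (hπ : ∀ ω ω' : Ω, π ω = π ω' ↔ ∃ z : Z, z • ω = ω')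
    (hfree : ∀ (z : Z) (ω : Ω), z • ω = ω → ∀ ω' : Ω, z • ω' = ω')
    (g : Ω → Ω) (hg : ∀ (z : Z) (ω : Ω), g (z • ω) = z • g ω) (g' : O → O)
    (hg' : Function.Bijective g') (s s' : O → Ω) (hs : ∀ v, π (s v) = v)
    (hs' : ∀ v, π (s' v) = v) (ζ ζ' : O → Z) (h : ∀ v, ζ v • s (g' v) = g (s v))
    (h' : ∀ v, ζ' v • s' (g' v) = g (s' v)) :
    ∏ v, (ζ v : Z ⧸ tK Ω Z) = ∏ v, (ζ' v : Z ⧸ tK Ω Z) := by
  have h1 : ∀ v, ∃ c : Z, c • s v = s' v := fun v => (hπ _ _).1 (by rw [hs, hs'])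
  choose c hc using h1
  have h2 : ∀ v, (ζ' v : Z ⧸ tK Ω Z) * (c (g' v) : Z ⧸ tK Ω Z) =
      (c v : Z ⧸ tK Ω Z) * (ζ v : Z ⧸ tK Ω Z) := by
    intro v
    rw [← QuotientGroup.mk_mul, ← QuotientGroup.mk_mul]
    apply tK_eq hfree (ω := s (g' v))
    rw [mul_smul, mul_smul, hc, h', h v, ← hc v, hg]
  have h3 : (∏ v, (ζ' v : Z ⧸ tK Ω Z)) * ∏ v, (c (g' v) : Z ⧸ tK Ω Z) =
      (∏ v, (c v : Z ⧸ tK Ω Z)) * ∏ v, (ζ v : Z ⧸ tK Ω Z) := by
    rw [← Finset.prod_mul_distrib, ← Finset.prod_mul_distrib]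
    exact Finset.prod_congr rfl fun v _ => h2 v
  rw [Function.Bijective.prod_comp hg' (fun v => (c v : Z ⧸ tK Ω Z)), mul_comm] at h3
  exact (mul_left_cancel h3).symm

/-- the orbit of a point -/
private def tOrb (L' : O → O) (v : O) : Set O := {w | ∃ i, L'^[i] v = w}

private theorem tOrb_step [Finite O] (L' : O → O) (hL' : Function.Injective L') (v : O) :
    tOrb L' (L' v) = tOrb L' v := by
  ext w
  constructor
  · rintro ⟨i, rfl⟩
    exact ⟨i + 1, rfl⟩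
  · rintro ⟨i, rfl⟩
    obtain ⟨n, hn, hp⟩ := hL'.mem_periodicPts v
    obtain ⟨m, rfl⟩ : ∃ m, n = m + 1 := ⟨n - 1, by omega⟩
    refine ⟨i + m, ?_⟩
    have h1 : L'^[m] (L' v) = v := hp
    rw [Function.iterate_add_apply, h1]

private theorem tOrb_iter [Finite O] (L' : O → O) (hL' : Function.Injective L') (v : O) (i : ℕ) :
    tOrb L' (L'^[i] v) = tOrb L' v := by
  induction i with
  | zero => rfl
  | succ i ih => rw [Function.iterate_succ_apply', tOrb_step L' hL', ih]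

/-- a section adapted to a map without monodromy -/
private theorem t_adapted [Finite O] (π : Ω → O)
    (hsurj : Function.Surjective π)
    (hπ : ∀ ω ω' : Ω, π ω = π ω' ↔ ∃ z : Z, z • ω = ω')
    (L : Ω → Ω) (L' : O → O) (hL' : Function.Injective L') (hL : ∀ ω, π (L ω) = L' (π ω))
    (hLcyc : ∀ (n : ℕ) (ω : Ω) (z : Z), L^[n] ω = z • ω → z • ω = ω) :
    ∃ s : O → Ω, (∀ v, π (s v) = v) ∧ ∀ v, s (L' v) = L (s v) := by
  have hiter : ∀ (n : ℕ) (ω : Ω), π (L^[n] ω) = L'^[n] (π ω) := by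
    intro n
    induction n with
    | zero => intro ω; rfl
    | succ n ih => intro ω; rw [Function.iterate_succ_apply', Function.iterate_succ_apply', hL, ih]
  have hkey0 : ∀ (b c : ℕ) (ω : Ω), L'^[b + c] (π ω) = L'^[b] (π ω) →
      L^[b + c] ω = L^[b] ω := by
    intro b c ω h
    rw [Function.iterate_add_apply] at h
    have h1 : L'^[c] (π ω) = π ω := hL'.iterate b h
    rw [← hiter] at h1
    obtain ⟨z, hz⟩ := (hπ _ _).1 h1.symm
    have h2 := hLcyc c ω z hz.symm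
    rw [Function.iterate_add_apply, ← hz, h2]
  have hkey : ∀ (a b : ℕ) (ω : Ω), L'^[a] (π ω) = L'^[b] (π ω) → L^[a] ω = L^[b] ω := by
    intro a b ω h
    rcases le_total b a with hab | hab
    · obtain ⟨c, rfl⟩ := Nat.exists_eq_add_of_le hab
      exact hkey0 b c ω h
    · obtain ⟨c, rfl⟩ := Nat.exists_eq_add_of_le hab
      exact (hkey0 a c ω h.symm).symm
  have hne : ∀ v, (tOrb L' v).Nonempty := fun v => ⟨v, 0, rfl⟩
  let r : O → O := fun v => (hne v).some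
  have hr : ∀ v, r (L' v) = r v := by
    intro v
    have h1 := tOrb_step L' hL' v
    simp only [r]
    congr 1
  have hrmem : ∀ v, ∃ j, L'^[j] (r v) = v := by
    intro v
    have h1 : r v ∈ tOrb L' v := (hne v).some_mem
    obtain ⟨i, hi⟩ := h1
    have h2 : v ∈ tOrb L' (r v) := by
      rw [← hi, tOrb_iter L' hL']
      exact ⟨0, rfl⟩
    exact h2
  choose j hj using hrmem
  choose s0 hs0 using hsurj
  have hs : ∀ v, π (L^[j v] (s0 (r v))) = v := fun v => by rw [hiter, hs0, hj]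
  refine ⟨fun v => L^[j v] (s0 (r v)), hs, fun v => ?_⟩
  show L^[j (L' v)] (s0 (r (L' v))) = L (L^[j v] (s0 (r v)))
  rw [hr v, ← Function.iterate_succ_apply' L]
  apply hkey
  rw [hs0, Function.iterate_succ_apply' L', hj v]
  have h1 := hj (L' v)
  rwa [hr v] at h1

/-- maps without monodromy have trivial transfer -/
private theorem t_one [Fintype O] (π : Ω → O)
    (hsurj : Function.Surjective π)
    (hπ : ∀ ω ω' : Ω, π ω = π ω' ↔ ∃ z : Z, z • ω = ω')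
    (hfree : ∀ (z : Z) (ω : Ω), z • ω = ω → ∀ ω' : Ω, z • ω' = ω')
    (L : Ω → Ω) (hLc : ∀ (z : Z) (ω : Ω), L (z • ω) = z • L ω) (L' : O → O)
    (hL' : Function.Injective L') (hL : ∀ ω, π (L ω) = L' (π ω))
    (hLcyc : ∀ (n : ℕ) (ω : Ω) (z : Z), L^[n] ω = z • ω → z • ω = ω)
    (s : O → Ω) (hs : ∀ v, π (s v) = v) (ζ : O → Z) (h : ∀ v, ζ v • s (L' v) = L (s v)) :
    ∏ v, (ζ v : Z ⧸ tK Ω Z) = 1 := by
  obtain ⟨s', hs', h'⟩ := t_adapted π hsurj hπ L L' hL' hL hLcyc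
  rw [t_indep π hπ hfree L hLc L' (Finite.injective_iff_bijective.1 hL') s s' hs hs' ζ
    (fun _ => 1) h (fun v => by rw [one_smul, h'])]
  simp

private theorem t_comp [Fintype O] (g h : Ω → Ω) (hg : ∀ (z : Z) (ω : Ω), g (z • ω) = z • g ω)
    (g' h' : O → O) (hh' : Function.Bijective h') (s : O → Ω) (ζ ξ : O → Z)
    (h1 : ∀ v, ζ v • s (g' v) = g (s v)) (h2 : ∀ v, ξ v • s (h' v) = h (s v)) :
    ∃ θ : O → Z, (∀ v, θ v • s (g' (h' v)) = g (h (s v))) ∧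
      ∏ v, (θ v : Z ⧸ tK Ω Z) = (∏ v, (ζ v : Z ⧸ tK Ω Z)) * ∏ v, (ξ v : Z ⧸ tK Ω Z) := by
  refine ⟨fun v => ξ v * ζ (h' v), fun v => ?_, ?_⟩
  · rw [mul_smul, h1, ← hg, h2]
  · simp only [QuotientGroup.mk_mul]
    rw [Finset.prod_mul_distrib,
      Function.Bijective.prod_comp hh' (fun v => (ζ v : Z ⧸ tK Ω Z)), mul_comm]

end aux

theorem transferAbs {Ω Z O : Type*} [CommGroup Z] [MulAction Z Ω] [Fintype O] (π : Ω → O)
    (hsurj : Function.Surjective π)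
    (hπ : ∀ ω ω' : Ω, π ω = π ω' ↔ ∃ z : Z, z • ω = ω')
    (hfree : ∀ (z : Z) (ω : Ω), z • ω = ω → ∀ ω' : Ω, z • ω' = ω')
    (L R : Ω → Ω) (hLc : ∀ (z : Z) (ω : Ω), L (z • ω) = z • L ω)
    (hRc : ∀ (z : Z) (ω : Ω), R (z • ω) = z • R ω)
    (L' R' : O → O) (hL' : Function.Injective L') (hR' : Function.Injective R')
    (hL : ∀ ω, π (L ω) = L' (π ω)) (hR : ∀ ω, π (R ω) = R' (π ω))
    (hLcyc : ∀ (n : ℕ) (ω : Ω) (z : Z), L^[n] ω = z • ω → z • ω = ω)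
    (hRcyc : ∀ (n : ℕ) (ω : Ω) (z : Z), R^[n] ω = z • ω → z • ω = ω)
    (z0 : Z) (hW : ∀ ω, L (R (L (L (R (L ω))))) = z0 • ω) :
    ∀ ω : Ω, z0 ^ Fintype.card O • ω = ω := by
  have hbL := Finite.injective_iff_bijective.1 hL'
  have hbR := Finite.injective_iff_bijective.1 hR'
  choose s hs using hsurj
  have hsurj' : Function.Surjective π := fun v => ⟨s v, hs v⟩
  have hex : ∀ (g : Ω → Ω) (g' : O → O), (∀ ω, π (g ω) = g' (π ω)) →
      ∃ ζ : O → Z, ∀ v, ζ v • s (g' v) = g (s v) := by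
    intro g g' hgg
    have h1 : ∀ v, ∃ z : Z, z • s (g' v) = g (s v) := fun v =>
      (hπ _ _).1 (by rw [hs, hgg, hs])
    choose ζ hζ using h1
    exact ⟨ζ, hζ⟩
  obtain ⟨ζL, hζL⟩ := hex L L' hL
  obtain ⟨ζR, hζR⟩ := hex R R' hR
  have hTL := t_one π hsurj' hπ hfree L hLc L' hL' hL hLcyc s hs ζL hζL
  have hTR := t_one π hsurj' hπ hfree R hRc R' hR' hR hRcyc s hs ζR hζR
  obtain ⟨θ1, h1, p1⟩ := t_comp R L hRc R' L' hbL s ζR ζL hζR hζL
  obtain ⟨θ2, h2, p2⟩ := t_comp L (fun ω => R (L ω)) hLc L' (fun v => R' (L' v))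
    (hbR.comp hbL) s ζL θ1 hζL h1
  obtain ⟨θ3, h3, p3⟩ := t_comp L (fun ω => L (R (L ω))) hLc L' (fun v => L' (R' (L' v)))
    (hbL.comp (hbR.comp hbL)) s ζL θ2 hζL h2
  obtain ⟨θ4, h4, p4⟩ := t_comp R (fun ω => L (L (R (L ω)))) hRc R'
    (fun v => L' (L' (R' (L' v)))) (hbL.comp (hbL.comp (hbR.comp hbL))) s ζR θ3 hζR h3
  obtain ⟨θ5, h5, p5⟩ := t_comp L (fun ω => R (L (L (R (L ω))))) hLc L'
    (fun v => R' (L' (L' (R' (L' v))))) (hbR.comp (hbL.comp (hbL.comp (hbR.comp hbL)))) s ζL θ4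
    hζL h4
  rw [hTL, hTR, one_mul] at p1
  rw [p1, hTL, one_mul] at p2
  rw [p2, hTL, one_mul] at p3
  rw [p3, hTR, one_mul] at p4
  rw [p4, hTL, one_mul] at p5
  have hW' : ∀ v, L' (R' (L' (L' (R' (L' v))))) = v := by
    intro v
    have h6 : π (L (R (L (L (R (L (s v))))))) = v := by
      rw [hW]
      have h7 : π (s v) = π (z0 • s v) := (hπ _ _).2 ⟨z0, rfl⟩
      rw [← h7, hs]
    rw [hL, hR, hL, hL, hR, hL, hs] at h6
    exact h6
  have h6 : ∀ v, (θ5 v : Z ⧸ tK Ω Z) = (z0 : Z ⧸ tK Ω Z) := by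
    intro v
    apply tK_eq hfree (ω := s v)
    have h7 := h5 v
    rw [hW' v, hW] at h7
    exact h7
  simp only [h6, Finset.prod_const, Finset.card_univ] at p5
  intro ω
  have h7 : ((z0 ^ Fintype.card O : Z) : Z ⧸ tK Ω Z) = 1 := by
    rw [QuotientGroup.mk_pow]
    exact p5
  rw [QuotientGroup.eq_one_iff] at h7
  exact tK_mem.1 h7 ω

end MW
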