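import Pool.Agent.Lib.MP_a542cf_al.TransferAC

/-! MW-TransferZ: the congruence for invariant sets over `F_p`. -/

namespace MW

private theorem transferz_inj {R S : Type*} [Field R] [Field S] (f : R →+* S) :
    Function.Injective (Matrix.SpecialLinearGroup.map (n := Fin 2) f) := by
  intro A B h
  apply Subtype.ext
  ext i j
  apply f.injective
  have h1 := congrArg (fun g : SL2 S => (g : Matrix (Fin 2) (Fin 2) S) i j) h
  exact h1

private theorem transferz_neg {R S : Type*} [Field R] [Field S] (f : R →+* S) (C : SL2 R) :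
    Matrix.SpecialLinearGroup.map (n := Fin 2) f (-C) =
      -(Matrix.SpecialLinearGroup.map (n := Fin 2) f C) := by
  apply Subtype.ext
  ext i j
  show f (-(C i j)) = -(f (C i j))
  rw [map_neg]

private theorem transferz_tr {R S : Type*} [Field R] [Field S] (f : R →+* S) (C : SL2 R) :
    tr (Matrix.SpecialLinearGroup.map (n := Fin 2) f C) = f (tr C) := by
  unfold tr
  rw [Matrix.trace_fin_two, Matrix.trace_fin_two, map_add]
  rfl

theorem transferZ (p : ℕ) [Fact p.Prime] (hp2 : p ≠ 2) (κ : ZMod p) (hκ : κ ≠ 4)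
    (O : Set (ZMod p × ZMod p × ZMod p)) (hO : Inv O) (hX : ∀ v ∈ O, OnX κ v)
    (hnd : ∀ x y z, (x, y, z) ∈ O → ¬ (y = 0 ∧ z = 0)) (C : SL2 (ZMod p))
    (hC : tr C = κ - 2) (hC1 : C ≠ -1) : (-C) ^ O.ncard = 1 := by
  classical
  have hp : p.Prime := Fact.out
  have h2 : (2 : ZMod p) ≠ 0 := by
    intro h
    have h1 : ((2 : ℕ) : ZMod p) = 0 := by exact_mod_cast h
    rw [ZMod.natCast_eq_zero_iff] at h1
    exact hp2 ((Nat.prime_dvd_prime_iff_eq hp Nat.prime_two).1 h1)
  let f : ZMod p →+* AlgebraicClosure (ZMod p) := algebraMap _ _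
  have hf : Function.Injective f := f.injective
  let φ : (ZMod p × ZMod p × ZMod p) →
      (AlgebraicClosure (ZMod p) × AlgebraicClosure (ZMod p) × AlgebraicClosure (ZMod p)) :=
    fun v => (f v.1, f v.2.1, f v.2.2)
  have hφ : Function.Injective φ := by
    rintro ⟨x, y, z⟩ ⟨x', y', z'⟩ h
    simp only [φ, Prod.mk.injEq] at h
    rw [hf h.1, hf h.2.1, hf h.2.2]
  let O' : Finset (AlgebraicClosure (ZMod p) × AlgebraicClosure (ZMod p) ×
      AlgebraicClosure (ZMod p)) := (Set.toFinite O).toFinset.image φ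
  have hcard : O'.card = O.ncard := by
    rw [Finset.card_image_of_injective _ hφ, Set.ncard_eq_toFinset_card O]
  have hmem : ∀ x y z : AlgebraicClosure (ZMod p), (x, y, z) ∈ O' →
      ∃ a b c, (a, b, c) ∈ O ∧ f a = x ∧ f b = y ∧ f c = z := by
    intro x y z h
    obtain ⟨⟨a, b, c⟩, h1, h3⟩ := Finset.mem_image.1 h
    rw [Set.Finite.mem_toFinset] at h1
    simp only [φ, Prod.mk.injEq] at h3
    exact ⟨a, b, c, h1, h3.1, h3.2.1, h3.2.2⟩
  have hmem' : ∀ a b c, (a, b, c) ∈ O → (f a, f b, f c) ∈ O' := by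
    intro a b c h
    refine Finset.mem_image.2 ⟨(a, b, c), ?_, rfl⟩
    rw [Set.Finite.mem_toFinset]
    exact h
  have key := transferAC (F := AlgebraicClosure (ZMod p)) (by
      intro h
      apply h2
      apply hf
      rw [map_zero, map_ofNat]
      exact h) (f κ) (by
      intro h
      apply hκ
      apply hf
      rw [h, map_ofNat]) O' (by
      rintro ⟨x, y, z⟩ h
      obtain ⟨a, b, c, h1, rfl, rfl, rfl⟩ := hmem _ _ _ h
      have h3 := hX _ h1
      unfold OnX at *
      simp only at *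
      rw [← h3]
      simp only [map_add, map_sub, map_mul, map_pow]) (by
      intro x y z h
      obtain ⟨a, b, c, h1, rfl, rfl, rfl⟩ := hmem _ _ _ h
      rw [← map_mul, ← map_sub]
      exact hmem' _ _ _ (hO.vieta _ _ _ (hO.swap23 _ _ _ h1))) (by
      intro x y z h
      obtain ⟨a, b, c, h1, rfl, rfl, rfl⟩ := hmem _ _ _ h
      rw [← map_mul, ← map_sub]
      apply hmem'
      -- (a, b, a b - c) -> (b, a, .) -> (b, ., a) -> (., b, a)
      exact hO.swap12 _ _ _ (hO.swap23 _ _ _ (hO.swap12 _ _ _ (hO.vieta _ _ _ h1)))) (by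
      intro x y z h
      obtain ⟨a, b, c, h1, rfl, rfl, rfl⟩ := hmem _ _ _ h
      constructor
      · rintro ⟨e1, e2⟩
        exact hnd _ _ _ h1 ⟨(map_eq_zero f).1 e1, (map_eq_zero f).1 e2⟩
      · rintro ⟨e1, e2⟩
        exact hnd _ _ _ (hO.swap12 _ _ _ h1) ⟨(map_eq_zero f).1 e1, (map_eq_zero f).1 e2⟩)
    (Matrix.SpecialLinearGroup.map (n := Fin 2) f C) (by
      rw [transferz_tr, hC, map_sub, map_ofNat]) (by
      intro h
      apply hC1
      apply transferz_inj f
      rw [transferz_neg, map_one]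
      exact h)
  rw [hcard, ← transferz_neg, ← map_pow] at key
  apply transferz_inj f
  rw [key, map_one]

end MW
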