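import Mathlib

/-! MW-WeakCnt: the index set for the weak Stepanov bound. -/

namespace MW

theorem weakCnt (t s j : ℕ) :
    ∃ ii jj : Fin (2 * j ^ 2) → ℕ, Function.Injective (fun m => (ii m, jj m)) ∧
      (∀ m, ii m < 2 * j ∧ jj m < 2 * j) ∧ ∀ m, 2 ∣ t * ii m + s * jj m := by
  rcases Nat.eq_zero_or_pos j with hj | hj
  · subst hj
    refine ⟨fun _ => 0, fun _ => 0, ?_, ?_, ?_⟩
    · intro a; exact absurd a.2 (by simp)
    · intro a; exact absurd a.2 (by simp)
    · intro a; exact absurd a.2 (by simp)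
  have hdm : ∀ m : Fin (2 * j ^ 2), m.1 / j < 2 * j ∧ m.1 % j < j := by
    intro m
    refine ⟨?_, Nat.mod_lt _ hj⟩
    rw [Nat.div_lt_iff_lt_mul hj]
    have := m.2
    nlinarith
  have hinj : ∀ m m' : Fin (2 * j ^ 2), m.1 / j = m'.1 / j → m.1 % j = m'.1 % j → m = m' := by
    intro m m' h1 h2
    apply Fin.ext
    rw [← Nat.div_add_mod m.1 j, ← Nat.div_add_mod m'.1 j, h1, h2]
  rcases Nat.even_or_odd t with ht | ht
  · rcases Nat.even_or_odd s with hs | hs
    · -- both even
      refine ⟨fun m => m.1 / j, fun m => m.1 % j, ?_, ?_, ?_⟩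
      · intro m m' h
        simp only [Prod.mk.injEq] at h
        exact hinj m m' h.1 h.2
      · intro m
        refine ⟨(hdm m).1, ?_⟩
        have := (hdm m).2
        show m.1 % j < 2 * j
        omega
      · intro m
        exact dvd_add (Dvd.dvd.mul_right ht.two_dvd _) (Dvd.dvd.mul_right hs.two_dvd _)
    · -- t even, s odd
      refine ⟨fun m => m.1 / j, fun m => 2 * (m.1 % j), ?_, ?_, ?_⟩
      · intro m m' h
        simp only [Prod.mk.injEq] at h
        exact hinj m m' h.1 (by omega)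
      · intro m
        refine ⟨(hdm m).1, ?_⟩
        have := (hdm m).2
        show 2 * (m.1 % j) < 2 * j
        omega
      · intro m
        refine dvd_add (Dvd.dvd.mul_right ht.two_dvd _) ?_
        exact ⟨s * (m.1 % j), by ring⟩
  · -- t odd
    refine ⟨fun m => 2 * (m.1 % j) + (s * (m.1 / j)) % 2, fun m => m.1 / j, ?_, ?_, ?_⟩
    · intro m m' h
      simp only [Prod.mk.injEq] at h
      have h1 := h.2
      have h2 := h.1
      rw [h1] at h2
      exact hinj m m' h1 (by omega)
    · intro m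
      have h1 := (hdm m).2
      have h2 := Nat.mod_lt (s * (m.1 / j)) (show 0 < 2 by norm_num)
      refine ⟨?_, (hdm m).1⟩
      show 2 * (m.1 % j) + (s * (m.1 / j)) % 2 < 2 * j
      omega
    · intro m
      obtain ⟨t', rfl⟩ := ht
      show 2 ∣ (2 * t' + 1) * (2 * (m.1 % j) + (s * (m.1 / j)) % 2) + s * (m.1 / j)
      set y := s * (m.1 / j) with hy
      have h1 : (2 * t' + 1) * (2 * (m.1 % j) + y % 2) + y =
          2 * (t' * (2 * (m.1 % j) + y % 2) + (m.1 % j)) + (y % 2 + y) := by ring
      rw [h1]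
      refine dvd_add (dvd_mul_right _ _) ?_
      omega

end MW
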